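import Pool.Agent.LR5.Defs

/-!
LR5: definitions for the second part (deleting one or two vertices, degrees, triangles).
-/

set_option autoImplicit false

namespace Pool.Agent.LR5

open Pool.Agent.LG6

variable {V : Type}

/-- there is no model of `K₅` and no model of `K₃,₃` avoiding the set `P` -/
def NoMin (G : SimpleGraph V) (P : Set V) : Prop :=
  (¬ ∃ D, M5 G D ∧ ∀ i, Disjoint (D i) P) ∧
    ¬ ∃ A B, M33 G A B ∧ (∀ i, Disjoint (A i) P) ∧ ∀ i, Disjoint (B i) P

/-- `G - P` is 4-connected -/
def Four [Fintype V] [DecidableEq V] (G : SimpleGraph V) (P : Finset V) : Prop :=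
  P.card + 4 < Fintype.card V ∧
    ∀ S : Finset V, S.card ≤ 3 → Cn G ((↑(S ∪ P) : Set V)ᶜ)

/-- `G` without the edges from `v` to vertices other than `p` that are not adjacent to `p` -/
def trim (G : SimpleGraph V) (v p : V) : SimpleGraph V where
  Adj a b := G.Adj a b ∧ (a = v → b = p ∨ G.Adj p b) ∧ (b = v → a = p ∨ G.Adj p a)
  symm := ⟨fun _ _ h => ⟨h.1.symm, h.2.2, h.2.1⟩⟩
  loopless := ⟨fun a h => G.loopless.irrefl a h.1⟩

/-- the degree -/
noncomputable def dg (G : SimpleGraph V) (v : V) : ℕ := (G.neighborSet v).ncard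

/-- the number of common neighbours of `v` and `x` -/
noncomputable def cd (G : SimpleGraph V) (v x : V) : ℕ := {u | G.Adj v u ∧ G.Adj x u}.ncard

/-- the sum of the degrees -/
noncomputable def es [Fintype V] (G : SimpleGraph V) : ℕ := ∑ v, dg G v

/-- the number of triangles containing `v` (edges inside the neighbourhood of `v`) -/
noncomputable def tri (G : SimpleGraph V) (v : V) : ℕ :=
  {e : Sym2 V | e ∈ G.edgeSet ∧ ∀ x ∈ e, G.Adj v x}.ncard

theorem trim_le (G : SimpleGraph V) (v p : V) : trim G v p ≤ G := fun _ _ h => h.1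

theorem trim_adj_of_ne {G : SimpleGraph V} {v p a b : V} (h : G.Adj a b) (ha : a ≠ v)
    (hb : b ≠ v) : (trim G v p).Adj a b :=
  ⟨h, fun h' => absurd h' ha, fun h' => absurd h' hb⟩

theorem trim_adj {G : SimpleGraph V} {v p u : V} (h : G.Adj v u) (hp : G.Adj p u) :
    (trim G v p).Adj v u :=
  ⟨h, fun _ => Or.inr hp, fun h' => absurd h'.symm h.ne⟩

/-- edges between connected sets give `M5` in a larger graph -/
theorem M5.mono {G G' : SimpleGraph V} {D : Fin 5 → Set V} (h : M5 G D) (hG : G ≤ G') :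
    M5 G' D :=
  ⟨fun i => (h.c i).mono (fun _ _ hab => hG hab), h.d, fun i j hij => by
    obtain ⟨s, hs, t, ht, h'⟩ := h.ad i j hij
    exact ⟨s, hs, t, ht, hG h'⟩⟩

theorem M33.mono {G G' : SimpleGraph V} {A B : Fin 3 → Set V} (h : M33 G A B) (hG : G ≤ G') :
    M33 G' A B :=
  ⟨fun i => (h.ca i).mono (fun _ _ hab => hG hab), fun i => (h.cb i).mono (fun _ _ hab => hG hab),
    h.da, h.db, h.dab, fun i j => by
    obtain ⟨s, hs, t, ht, h'⟩ := h.ad i j
    exact ⟨s, hs, t, ht, hG h'⟩⟩

/-- a connected set `P` and a `K₅` model outside `P`, all branch sets adjacent to `P` -/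
theorem six_of {G : SimpleGraph V} (P : Set V) (hP : Cn G P) (D : Fin 5 → Set V) (h : M5 G D)
    (hd : ∀ i, Disjoint (D i) P) (ha : ∀ i, Ad G P (D i)) : HasCompleteMinor 6 G := by
  apply of_index (ι := Option (Fin 5)) (by simp) (fun o => o.elim P D)
  · rintro (_ | i)
    · exact hP
    · exact h.c i
  · rintro (_ | i) (_ | j) hij
    · exact absurd rfl hij
    · exact (hd j).symm
    · exact hd i
    · exact h.d i j (fun h' => hij (congrArg _ h'))
  · rintro (_ | i) (_ | j) hij
    · exact absurd rfl hij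
    · exact ha j
    · exact (ha i).symm
    · exact h.ad i j (fun h' => hij (congrArg _ h'))

/-- a connected induced subgraph on a set without `v` stays connected after trimming at `v` -/
theorem cn_trim {G : SimpleGraph V} {v p : V} {S : Set V} (h : Cn G S) (hv : v ∉ S) :
    Cn (trim G v p) S := by
  refine h.mono ?_
  rintro ⟨a, ha⟩ ⟨b, hb⟩ hab
  exact trim_adj_of_ne hab (fun h' => hv (h' ▸ ha)) (fun h' => hv (h' ▸ hb))

end Pool.Agent.LR5
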