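import Pool.Agent.LR5.Split
import Pool.Agent.LR5.Defs2

/-!
LR5: the crossing lemma on a 4-cycle `v q u q'`.

`W` connected, disjoint from `{v, q, u, q'}`; `S ∋ v, u` and `S' ∋ q, q'` are disjoint connected subsets
of `W ∪ {v, q, u, q'}`; `v`, `u` not adjacent, `q`, `q'` not adjacent; the four edges of the 4-cycle are
present.  Then there is a `K₃,₃` model inside `W ∪ {v, q, u, q'}`.

Proof.  `E` := a component of `S \ {v, u}` adjacent to both `v` and `u`: let `E` run over the components;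
if none is adjacent to both, then the set of `v` and all components adjacent to `v` is a proper part of
`S` without an edge to the rest (`v`, `u` are not adjacent), contradicting the connectivity of `S`
(`Cn.exit`, `LG6.comp`).  `S` does not contain `q`, `q'`, so `E ⊆ W`.  In the same way `E' ⊆ W`
connected, adjacent to `q` and `q'`.  `split` in `W` gives a partition `W = W1 ∪ W2` into connected sets,
`E ⊆ W1`, `E' ⊆ W2`, and `W1`, `W2` are adjacent.  The model (`mk33`): side A `{q}`, `{q'}`, `W1`;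
side B `{v}`, `{u}`, `W2`.
-/

set_option autoImplicit false

namespace Pool.Agent.LR5

open Pool.Agent.LG6

variable {V : Type}

/-- a connected set containing the non-adjacent vertices `v`, `u` contains a connected set without
`v`, `u` adjacent to both -/
theorem bridge (J : SimpleGraph V) {S : Set V} (hS : Cn J S) {v u : V} (hv : v ∈ S) (hu : u ∈ S)
    (vu : ¬ J.Adj v u) (nvu : v ≠ u) : ∃ E ⊆ S \ {v, u}, Cn J E ∧ (∃ e ∈ E, J.Adj v e) ∧
      ∃ e ∈ E, J.Adj u e := by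
  set P : Set V := {x | x = v ∨ ∃ D ⊆ S \ {v, u}, Cn J D ∧ x ∈ D ∧ ∃ e ∈ D, J.Adj v e} with hP
  have hvP : v ∈ P := Or.inl rfl
  have huP : u ∉ P := by
    rintro (h | ⟨D, hD, -, huD, -⟩)
    · exact nvu h.symm
    · exact (hD huD).2 (Or.inr rfl)
  obtain ⟨g, h, -, hhS, hgh, hgP, hhP⟩ := hS.exit (P := P) ⟨v, hv, hvP⟩ ⟨u, hu, huP⟩
  by_cases hh : h = u
  · subst hh
    rcases hgP with h1 | ⟨D, hD, hDc, hgD, hDv⟩
    · subst h1
      exact absurd hgh vu
    · exact ⟨D, hD, hDc, hDv, g, hgD, hgh.symm⟩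
  · exfalso
    have hhv : h ≠ v := fun h1 => hhP (Or.inl h1)
    have hhX : h ∈ S \ {v, u} := ⟨hhS, by
      rintro (h1 | h1)
      · exact hhv h1
      · exact hh h1⟩
    apply hhP
    right
    rcases hgP with h1 | ⟨D, hD, hDc, hgD, hDv⟩
    · subst h1
      exact ⟨{h}, Set.singleton_subset_iff.mpr hhX, cn_single J h, rfl, h, rfl, hgh⟩
    · obtain ⟨e, he, hve⟩ := hDv
      exact ⟨insert h D, Set.insert_subset hhX hD, hDc.insert ⟨g, hgD, hgh.symm⟩,
        Set.mem_insert _ _, e, Set.mem_insert_of_mem _ he, hve⟩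

theorem cross4 [Finite V] (J : SimpleGraph V) (v q u q' : V) (W : Set V) (hW : Cn J W)
    (nv : v ∉ W) (nq : q ∉ W) (nu : u ∉ W) (nq' : q' ∉ W) (vq : J.Adj v q) (qu : J.Adj q u)
    (uq' : J.Adj u q') (q'v : J.Adj q' v) (vu : ¬ J.Adj v u) (nvu : v ≠ u)
    (qq' : ¬ J.Adj q q') (nqq' : q ≠ q') (S S' : Set V) (hS : Cn J S) (hS' : Cn J S')
    (hvS : v ∈ S) (huS : u ∈ S) (hqS : q ∈ S') (hqS' : q' ∈ S') (hd : Disjoint S S')
    (hSW : S ⊆ W ∪ {v, q, u, q'}) (hSW' : S' ⊆ W ∪ {v, q, u, q'}) :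
    ∃ A B, M33 J A B ∧ (∀ i, A i ⊆ W ∪ {v, q, u, q'}) ∧ ∀ i, B i ⊆ W ∪ {v, q, u, q'} := by
  have hdd : ∀ x, x ∈ S → x ∈ S' → False := fun x h1 h2 => Set.disjoint_left.mp hd h1 h2
  obtain ⟨E, hE, hEc, ⟨e1, he1, hve1⟩, e2, he2, hue2⟩ := bridge J hS hvS huS vu nvu
  obtain ⟨E', hE', hEc', ⟨f1, hf1, hqf1⟩, f2, hf2, hqf2⟩ := bridge J hS' hqS hqS' qq' nqq'
  have hEW : E ⊆ W := by
    intro x hx
    obtain ⟨h1, h2⟩ := hE hx
    rcases hSW h1 with h3 | h3 | h3 | h3 | h3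
    · exact h3
    · exact absurd (Or.inl h3) h2
    · subst h3
      exact (hdd x h1 hqS).elim
    · exact absurd (Or.inr h3) h2
    · have h4 : x = q' := h3
      subst h4
      exact (hdd x h1 hqS').elim
  have hEW' : E' ⊆ W := by
    intro x hx
    obtain ⟨h1, h2⟩ := hE' hx
    rcases hSW' h1 with h3 | h3 | h3 | h3 | h3
    · exact h3
    · subst h3
      exact (hdd x hvS h1).elim
    · exact absurd (Or.inl h3) h2
    · subst h3
      exact (hdd x huS h1).elim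
    · exact absurd (Or.inr h3) h2
  have hEE : Disjoint E E' := Set.disjoint_left.mpr fun x h1 h2 => hdd x (hE h1).1 (hE' h2).1
  obtain ⟨W1, W2, h1, h2, hd12, hU, hc1, hc2⟩ := split W E E' hW hEW hEW' hEc hEc' hEE
  have hW1 : W1 ⊆ W := by rw [← hU]; exact Set.subset_union_left
  have hW2 : W2 ⊆ W := by rw [← hU]; exact Set.subset_union_right
  have had : Ad J W1 W2 := by
    obtain ⟨w1, hw1⟩ := hc1.ne
    obtain ⟨w2, hw2⟩ := hc2.ne
    obtain ⟨g, h, hg, hh, hgh, hgP, hhP⟩ := hW.exit (P := W1) ⟨w1, hW1 hw1, hw1⟩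
      ⟨w2, hW2 hw2, fun h3 => Set.disjoint_left.mp hd12 h3 hw2⟩
    refine ⟨g, hgP, h, ?_, hgh⟩
    rw [← hU] at hh
    exact hh.resolve_left hhP
  have hsing : ∀ {x : V} {T : Set V}, x ∉ T → Disjoint ({x} : Set V) T := by
    intro x T h
    rw [Set.disjoint_singleton_left]
    exact h
  have hsing2 : ∀ {x : V} {T : Set V}, x ∉ T → Disjoint T ({x} : Set V) := by
    intro x T h
    rw [Set.disjoint_singleton_right]
    exact h
  have hadj : ∀ {x y : V}, J.Adj x y → Ad J ({x} : Set V) {y} := fun h => ⟨_, rfl, _, rfl, h⟩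
  refine ⟨![{q}, {q'}, W1], ![{v}, {u}, W2], mk33 (cn_single J q) (cn_single J q') hc1
    (cn_single J v) (cn_single J u) hc2 ?_ ?_ ?_ ?_ ?_ ?_ ?_ ?_ ?_ ?_ ?_ ?_ ?_ ?_ ?_
    ?_ ?_ ?_ ?_ ?_ ?_ ?_ ?_ ?_, ?_, ?_⟩
  · exact hsing (fun h => nqq' h)
  · exact hsing (fun h => nq (hW1 h))
  · exact hsing (fun h => nq' (hW1 h))
  · exact hsing (fun h => nvu h)
  · exact hsing (fun h => nv (hW2 h))
  · exact hsing (fun h => nu (hW2 h))
  · exact hsing (fun h => vq.ne (Eq.symm h))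
  · exact hsing (fun h => qu.ne h)
  · exact hsing (fun h => nq (hW2 h))
  · exact hsing (fun h => q'v.ne h)
  · exact hsing (fun h => uq'.ne (Eq.symm h))
  · exact hsing (fun h => nq' (hW2 h))
  · exact hsing2 (fun h => nv (hW1 h))
  · exact hsing2 (fun h => nu (hW1 h))
  · exact hd12
  · exact hadj vq.symm
  · exact hadj qu
  · exact ⟨q, rfl, f1, h2 hf1, hqf1⟩
  · exact hadj q'v
  · exact hadj uq'.symm
  · exact ⟨q', rfl, f2, h2 hf2, hqf2⟩
  · exact ⟨e1, h1 he1, v, rfl, hve1.symm⟩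
  · exact ⟨e2, h1 he2, u, rfl, hue2.symm⟩
  · exact had
  · intro i
    fin_cases i
    · exact fun x hx => Or.inr (Or.inr (Or.inl hx))
    · exact fun x hx => Or.inr (Or.inr (Or.inr (Or.inr hx)))
    · exact fun x hx => Or.inl (hW1 hx)
  · intro i
    fin_cases i
    · exact fun x hx => Or.inr (Or.inl hx)
    · exact fun x hx => Or.inr (Or.inr (Or.inr (Or.inl hx)))
    · exact fun x hx => Or.inl (hW2 hx)

end Pool.Agent.LR5
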