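import Pool.Agent.LR5.App
import Pool.Agent.LR5.Cross

/-!
LR5: one missing spoke.  `v`, `p` adjacent; `N(v) = {p, u} ∪ Q`, all vertices of `Q` (at least four) are
adjacent to `p`, `u ≠ p` is not; `u` is adjacent to two different non-adjacent vertices `q, q' ∈ Q`.
Then `G - p` has no `K₅` and no `K₃,₃` model.

Proof.  Let `J0 := trim G v p`; by `app1` it has no `K₃,₃` model avoiding `p`.  Suppose `NoMin G {p}`
fails.  `tpset` (`four_one`) for `x := v` gives a `K₅` model `D` of `G` avoiding `p`, `D 0 = {v}`,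
covering all vertices other than `p`.  Each `D i`, `i ≠ 0`, contains a neighbour of `v`, that is `u` or a
vertex of `Q`.  If all four meet `Q`: `six_of` with `P := {p}`: a `K₆` minor.  So some `D m`, `m ≠ 0`,
does not meet `Q`, so `u ∈ D m`, and `q ∈ D i`, `q' ∈ D j` with `i, j` different from `0`, `m`.
Let `k` be an index different from `0, m, i, j`.  `D k` contains a vertex of `Q` (its neighbour of `v` is
not `u`).  `S := {v} ∪ D k ∪ D m` is connected in `J0` (`trim_adj` for `v` and the vertex of `Q` in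
`D k`; edges not at `v` are kept), contains `v` and `u`; `S' := D i ∪ D j` is connected in `J0` and
contains `q`, `q'`.  `W := ({p, v, q, u, q'})ᶜ` is connected in `G` (five vertices deleted) and in `J0`.
`v`, `u` are not adjacent in `J0` (`u` is not adjacent to `p`).  `cross4` gives a `K₃,₃` model of `J0`
avoiding `p`: contradiction.
-/

set_option autoImplicit false

namespace Pool.Agent.LR5

open Pool.Agent.LG6

variable {V : Type} [Fintype V]

theorem a4 {G : SimpleGraph V} (hG : IsKConnected 6 G) (hm : ¬ HasCompleteMinor 6 G) (v p : V)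
    (hvp : G.Adj v p) (Q : Finset V) (hQ : 4 ≤ Q.card) (hQ' : ∀ q ∈ Q, G.Adj v q ∧ G.Adj p q)
    (u : V) (hvu : G.Adj v u) (hup : u ≠ p) (hpu : ¬ G.Adj p u)
    (hN : ∀ w, G.Adj v w → w = p ∨ w = u ∨ w ∈ Q) (q q' : V) (hq : q ∈ Q) (hq' : q' ∈ Q)
    (hqq : q ≠ q') (uq : G.Adj u q) (uq' : G.Adj u q') (nqq : ¬ G.Adj q q') : NoMin G {p} := by
  classical
  have hJ0 := (app1 hG hm v p hvp Q hQ hQ').2
  by_contra hno
  have hvnp : v ∉ ({p} : Finset V) := by
    rw [Finset.mem_singleton]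
    exact hvp.ne
  obtain ⟨D, hD, h0, hdis, hsp⟩ := tpset G {p} (four_one hG p)
    (by rwa [Finset.coe_singleton]) v hvnp
  have hnp : ∀ i w, w ∈ D i → w ≠ p := by
    intro i w hw h
    subst h
    exact Set.disjoint_left.1 (hdis i) hw (by simp)
  have hnb : ∀ i, i ≠ 0 → ∃ w ∈ D i, G.Adj v w := by
    intro i hi
    obtain ⟨s, hs, t, ht, hst⟩ := hD.ad 0 i (Ne.symm hi)
    rw [h0, Set.mem_singleton_iff] at hs
    subst hs
    exact ⟨t, ht, hst⟩
  have hv0 : v ∈ D 0 := by
    rw [h0]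
    exact Set.mem_singleton v
  have hvn : ∀ i, i ≠ 0 → v ∉ D i := fun i hi h =>
    Set.disjoint_left.1 (hD.d 0 i (Ne.symm hi)) hv0 h
  have huv : u ≠ v := hvu.ne.symm
  have hqv : q ≠ v := (hQ' q hq).1.ne.symm
  have hq'v : q' ≠ v := (hQ' q' hq').1.ne.symm
  have hqp : q ≠ p := (hQ' q hq).2.ne.symm
  have hq'p : q' ≠ p := (hQ' q' hq').2.ne.symm
  by_cases hall : ∀ i, i ≠ 0 → ∃ w ∈ D i, w ∈ Q
  · refine hm (six_of {p} (cn_single G p) D hD (fun i => ?_) (fun i => ?_))
    · rw [Set.disjoint_singleton_right]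
      exact fun h => hnp i p h rfl
    · by_cases hi : i = 0
      · subst hi
        exact ⟨p, rfl, v, hv0, hvp.symm⟩
      · obtain ⟨w, hw, hwQ⟩ := hall i hi
        exact ⟨p, rfl, w, hw, (hQ' w hwQ).2⟩
  push Not at hall
  obtain ⟨m, hm0, hmQ⟩ := hall
  have hum : u ∈ D m := by
    obtain ⟨w, hw, hvw⟩ := hnb m hm0
    rcases hN w hvw with h | h | h
    · exact absurd h (hnp m w hw)
    · rwa [← h]
    · exact absurd h (hmQ w hw)
  obtain ⟨i, hi⟩ := hsp q (by rw [Finset.mem_singleton]; exact hqp)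
  obtain ⟨j, hj⟩ := hsp q' (by rw [Finset.mem_singleton]; exact hq'p)
  have hi0 : i ≠ 0 := by
    rintro rfl
    rw [h0] at hi
    exact hqv hi
  have hj0 : j ≠ 0 := by
    rintro rfl
    rw [h0] at hj
    exact hq'v hj
  have him : i ≠ m := by
    rintro rfl
    exact hmQ q hi hq
  have hjm : j ≠ m := by
    rintro rfl
    exact hmQ q' hj hq'
  obtain ⟨k, hk⟩ : ∃ k : Fin 5, k ∉ ({0, m, i, j} : Finset (Fin 5)) := by
    by_contra h
    push Not at h
    have h1 : (Finset.univ : Finset (Fin 5)) ⊆ {0, m, i, j} := fun x _ => h x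
    have h2 := Finset.card_le_card h1
    have h3 : ({0, m, i, j} : Finset (Fin 5)).card ≤ 4 := Finset.card_le_four
    rw [Finset.card_univ, Fintype.card_fin] at h2
    omega
  simp only [Finset.mem_insert, Finset.mem_singleton, not_or] at hk
  obtain ⟨hk0, hkm, hki, hkj⟩ := hk
  obtain ⟨wk, hwk, hvwk⟩ := hnb k hk0
  have hwkQ : wk ∈ Q := by
    rcases hN wk hvwk with h | h | h
    · exact absurd h (hnp k wk hwk)
    · rw [h] at hwk
      exact absurd hum (Set.disjoint_left.1 (hD.d k m hkm) hwk)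
    · exact h
  set J := trim G v p with hJ
  have hcn : ∀ i, i ≠ 0 → Cn J (D i) := fun i hi => cn_trim (hD.c i) (hvn i hi)
  have had : ∀ a b, a ≠ 0 → b ≠ 0 → a ≠ b → Ad J (D a) (D b) := by
    intro a b ha hb hab
    obtain ⟨s, hs, t, ht, hst⟩ := hD.ad a b hab
    exact ⟨s, hs, t, ht, trim_adj_of_ne hst (fun h => hvn a ha (h ▸ hs))
      (fun h => hvn b hb (h ▸ ht))⟩
  have hS1 : Cn J ({v} ∪ D k) := (cn_single J v).union (hcn k hk0)
    ⟨v, rfl, wk, hwk, trim_adj (hQ' wk hwkQ).1 (hQ' wk hwkQ).2⟩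
  have hS : Cn J (({v} ∪ D k) ∪ D m) := by
    refine hS1.union (hcn m hm0) ?_
    exact (had k m hk0 hm0 hkm).mono (Set.subset_union_right) (le_refl _)
  have hS' : Cn J (D i ∪ D j) := by
    by_cases hij : i = j
    · rw [hij, Set.union_self]
      exact hcn j hj0
    · exact (hcn i hi0).union (hcn j hj0) (had i j hi0 hj0 hij)
  set F : Finset V := {p, v, q, u, q'} with hF
  have hFc : F.card < 6 := lt_of_le_of_lt Finset.card_le_five (by norm_num)
  have hvF : v ∈ F := by simp [hF]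
  have hW : Cn J ((↑F : Set V)ᶜ) := cn_trim (hG.2 F hFc) (fun h => h hvF)
  have hmemW : ∀ x, x ≠ p → x ∈ (↑F : Set V)ᶜ ∪ {v, q, u, q'} := by
    intro x hx
    by_cases hxF : x ∈ F
    · refine Or.inr ?_
      simp only [hF, Finset.mem_insert, Finset.mem_singleton] at hxF
      rcases hxF with h | h | h | h | h
      · exact absurd h hx
      · simp [h]
      · simp [h]
      · simp [h]
      · simp [h]
    · exact Or.inl hxF
  have hsub : ∀ i, D i ⊆ (↑F : Set V)ᶜ ∪ {v, q, u, q'} := fun i x hx => hmemW x (hnp i x hx)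
  obtain ⟨A, B, hAB, hA, hB⟩ := cross4 J v q u q' ((↑F : Set V)ᶜ) hW
    (fun h => h hvF) (fun h => h (by simp [hF])) (fun h => h (by simp [hF]))
    (fun h => h (by simp [hF]))
    (trim_adj (hQ' q hq).1 (hQ' q hq).2) (trim_adj_of_ne uq.symm hqv huv)
    (trim_adj_of_ne uq' huv hq'v) (trim_adj (hQ' q' hq').1 (hQ' q' hq').2).symm
    (fun h => by
      rcases h.2.1 rfl with h' | h'
      · exact hup h'
      · exact hpu h')
    huv.symm (fun h => nqq h.1) hqq (({v} ∪ D k) ∪ D m) (D i ∪ D j) hS hS'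
    (Or.inl (Or.inl rfl)) (Or.inr hum) (Or.inl hi) (Or.inr hj)
    (by
      have e1 : ({v} : Set V) = D 0 := h0.symm
      rw [e1]
      refine Set.disjoint_union_left.2 ⟨Set.disjoint_union_left.2 ⟨?_, ?_⟩, ?_⟩ <;>
        refine Set.disjoint_union_right.2 ⟨?_, ?_⟩
      · exact hD.d 0 i (Ne.symm hi0)
      · exact hD.d 0 j (Ne.symm hj0)
      · exact hD.d k i hki
      · exact hD.d k j hkj
      · exact hD.d m i (Ne.symm him)
      · exact hD.d m j (Ne.symm hjm))
    (by
      refine Set.union_subset (Set.union_subset ?_ (hsub k)) (hsub m)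
      rintro x rfl
      exact hmemW x hvp.ne)
    (Set.union_subset (hsub i) (hsub j))
  have hpW : p ∉ (↑F : Set V)ᶜ ∪ {v, q, u, q'} := by
    rintro (h | h)
    · exact h (by simp [hF])
    · simp only [Set.mem_insert_iff, Set.mem_singleton_iff] at h
      rcases h with h | h | h | h
      · exact hvp.ne h.symm
      · exact hqp h.symm
      · exact hup h.symm
      · exact hq'p h.symm
  exact hJ0 ⟨A, B, hAB, fun i => Set.disjoint_singleton_right.2 fun h => hpW (hA i h),
    fun i => Set.disjoint_singleton_right.2 fun h => hpW (hB i h)⟩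

end Pool.Agent.LR5
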