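import Pool.Agent.LR5.K5Edge

/-!
LR5: the edge counts.

`count1`: `v`, `p` adjacent, `Q` a set of common neighbours, `trim G v p` has no `K₅` model avoiding `p`.
The induced subgraph of `trim G v p` on `{p}ᶜ` has `n - 1` vertices and no `K₅` model, so its degree sum
is at most `6 (n - 1) - 12`.  Its degree sum is `es G - 2 dg p - 2 (dg v - 1 - c)`, where `c ≥ |Q|` is the
number of common neighbours of `v` and `p` (deleting `p` removes `dg p` edges; then the `dg v - 1 - c`
edges from `v` to non-neighbours of `p` are deleted).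
`count2`: `x`, `y` adjacent, `G` has no `K₅` model avoiding `x`, `y`: the induced subgraph on `{x, y}ᶜ` has
degree sum `es G - 2 dg x - 2 dg y + 2`, at most `6 (n - 2) - 12`.
-/

set_option autoImplicit false

namespace Pool.Agent.LR5

open Pool.Agent.LG6

variable {V : Type} [Fintype V]

/-- the degree sum inside the set `S` -/
noncomputable def esS (G : SimpleGraph V) (S : Finset V) : ℕ := by
  classical
  exact ∑ u ∈ S, (S.filter (G.Adj u)).card

omit [Fintype V] in
theorem dg_eq [Fintype V] [DecidableEq V] (G : SimpleGraph V) [DecidableRel G.Adj] (v : V) :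
    dg G v = (Finset.univ.filter (G.Adj v)).card := by
  unfold dg
  rw [← Set.ncard_coe_finset]
  congr 1
  ext x
  simp

omit [Fintype V] in
theorem esS_eq [DecidableEq V] (G : SimpleGraph V) [DecidableRel G.Adj] (S : Finset V) :
    esS G S = ∑ u ∈ S, (S.filter (G.Adj u)).card := by
  unfold esS
  refine Finset.sum_congr rfl fun u _ => ?_
  congr 1
  ext x
  simp

omit [Fintype V] in
theorem es_split [Fintype V] [DecidableEq V] (G : SimpleGraph V) (P : Finset V) :
    es G + esS G P = esS G Pᶜ + 2 * ∑ p ∈ P, dg G p := by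
  classical
  have h0 : ∀ u, dg G u = (Pᶜ.filter (G.Adj u)).card + (P.filter (G.Adj u)).card := by
    intro u
    rw [dg_eq, ← Finset.card_union_of_disjoint, ← Finset.filter_union]
    · congr 2
      ext x
      simp [em']
    · exact Finset.disjoint_filter_filter (disjoint_compl_left)
  have h1 : es G = ∑ u ∈ Pᶜ, dg G u + ∑ u ∈ P, dg G u := by
    unfold es
    rw [add_comm, Finset.sum_add_sum_compl]
  have h2 : ∑ u ∈ Pᶜ, (P.filter (G.Adj u)).card = ∑ p ∈ P, (Pᶜ.filter (G.Adj p)).card := by
    have h3 : ∀ S T : Finset V, ∀ u, (T.filter (G.Adj u)).card = ∑ t ∈ T, if G.Adj u t then 1 else 0 := by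
      intro S T u
      rw [Finset.card_filter]
    rw [Finset.sum_congr rfl fun u _ => h3 P P u, Finset.sum_comm,
      Finset.sum_congr rfl fun p _ => h3 P Pᶜ p]
    refine Finset.sum_congr rfl fun p _ => Finset.sum_congr rfl fun u _ => ?_
    simp only [G.adj_comm]
  have h4 : ∑ u ∈ Pᶜ, dg G u = esS G Pᶜ + ∑ p ∈ P, (Pᶜ.filter (G.Adj p)).card := by
    rw [esS_eq, ← h2, ← Finset.sum_add_distrib]
    exact Finset.sum_congr rfl fun u _ => h0 u
  have h5 : ∑ p ∈ P, dg G p = ∑ p ∈ P, (Pᶜ.filter (G.Adj p)).card + esS G P := by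
    rw [esS_eq, ← Finset.sum_add_distrib]
    exact Finset.sum_congr rfl fun u _ => h0 u
  omega

omit [Fintype V] in
theorem m5_induce {G : SimpleGraph V} (S : Set V) (D : Fin 5 → Set S) (h : M5 (G.induce S) D) :
    M5 G (fun i => Subtype.val '' D i) := by
  refine ⟨fun i => ?_, fun i j hij => ?_, fun i j hij => ?_⟩
  · let f : (G.induce S).induce (D i) →g G.induce (Subtype.val '' D i) :=
      { toFun := fun x => ⟨x.1.1, x.1, x.2, rfl⟩
        map_rel' := fun {a b} hab => hab }
    refine (h.c i).map f ?_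
    rintro ⟨_, x, hx, rfl⟩
    exact ⟨⟨x, hx⟩, rfl⟩
  · exact (Set.disjoint_image_iff Subtype.val_injective).2 (h.d i j hij)
  · obtain ⟨s, hs, t, ht, hst⟩ := h.ad i j hij
    exact ⟨s.1, ⟨s, hs, rfl⟩, t.1, ⟨t, ht, rfl⟩, hst⟩

omit [Fintype V] in
theorem k5_set [DecidableEq V] {G : SimpleGraph V} (S : Finset V) (h3 : 3 ≤ S.card)
    (h : ¬ ∃ D, M5 G D ∧ ∀ i, D i ⊆ ↑S) : esS G S + 12 ≤ 6 * S.card := by
  classical
  have h1 := k5edge (V := (S : Set V)) (G.induce (S : Set V)) (by simpa using h3) (by
    rintro ⟨D, hD⟩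
    exact h ⟨_, m5_induce (S : Set V) D hD, fun i => by
      rintro _ ⟨x, _, rfl⟩
      exact x.2⟩)
  have h2 : es (G.induce (S : Set V)) = esS G S := by
    rw [esS_eq]
    unfold es
    rw [← Finset.sum_coe_sort S]
    refine Finset.sum_congr rfl fun u _ => ?_
    unfold dg
    rw [← Set.ncard_coe_finset, ← Set.ncard_image_of_injective _ Subtype.val_injective]
    congr 1
    ext x
    rw [Finset.mem_coe, Finset.mem_filter]
    constructor
    · rintro ⟨w, hw, rfl⟩
      exact ⟨Finset.mem_coe.1 w.2, hw⟩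
    · rintro ⟨h1, h2⟩
      exact ⟨⟨x, Finset.mem_coe.2 h1⟩, h2, rfl⟩
  rw [h2] at h1
  simpa using h1

theorem count1 {G : SimpleGraph V} (h7 : 7 ≤ Fintype.card V) (v p : V) (hvp : G.Adj v p)
    (Q : Finset V) (hQ' : ∀ q ∈ Q, G.Adj v q ∧ G.Adj p q)
    (hm : ¬ ∃ D, M5 (trim G v p) D ∧ ∀ i, Disjoint (D i) {p}) :
    es G + 20 + 2 * Q.card ≤ 6 * Fintype.card V + 2 * dg G p + 2 * dg G v := by
  classical
  have hne := hvp.ne
  have e1 := es_split (trim G v p) {p}
  have e2 := es_split G {v}
  have e3 := es_split (trim G v p) {v}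
  have hp0 : ∀ (H : SimpleGraph V) (u : V), esS H {u} = 0 := by
    intro H u
    rw [esS_eq]
    simp
  have h4 : esS G {v}ᶜ = esS (trim G v p) {v}ᶜ := by
    rw [esS_eq, esS_eq]
    refine Finset.sum_congr rfl fun u hu => ?_
    congr 1
    refine Finset.filter_congr fun w hw => ?_
    rw [Finset.mem_compl, Finset.mem_singleton] at hu hw
    exact ⟨fun h => trim_adj_of_ne h hu hw, fun h => trim_le G v p h⟩
  have h5 : dg (trim G v p) p = dg G p := by
    unfold dg
    congr 1
    ext u
    simp only [SimpleGraph.mem_neighborSet]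
    exact ⟨fun h => trim_le G v p h, fun h => ⟨h, fun h' => absurd h'.symm hne, fun _ => Or.inl rfl⟩⟩
  have h6 : Q.card + 1 ≤ dg (trim G v p) v := by
    have hpQ : p ∉ Q := fun h => (hQ' p h).2.ne rfl
    rw [dg_eq, ← Finset.card_insert_of_notMem hpQ]
    refine Finset.card_le_card ?_
    intro u hu
    rw [Finset.mem_filter]
    refine ⟨Finset.mem_univ _, ?_⟩
    rw [Finset.mem_insert] at hu
    rcases hu with rfl | hu
    · exact ⟨hvp, fun _ => Or.inl rfl, fun h' => absurd h'.symm hne⟩
    · exact trim_adj (hQ' u hu).1 (hQ' u hu).2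
  have hc : ({p} : Finset V)ᶜ.card = Fintype.card V - 1 := by
    rw [Finset.card_compl, Finset.card_singleton]
  have h7' := k5_set (G := trim G v p) ({p} : Finset V)ᶜ (by omega) (by
    rintro ⟨D, hD, hs⟩
    refine hm ⟨D, hD, fun i => ?_⟩
    rw [Set.disjoint_singleton_right]
    intro h
    have := hs i h
    simp at this)
  rw [Finset.sum_singleton] at e1 e2 e3
  rw [hp0] at e1 e2 e3
  have h8 : dg (trim G v p) v ≤ dg G v := by
    unfold dg
    exact Set.ncard_le_ncard (fun u hu => trim_le G v p hu) (Set.toFinite _)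
  omega

theorem count2 {G : SimpleGraph V} (h7 : 7 ≤ Fintype.card V) (x y : V) (hxy : G.Adj x y)
    (hm : ¬ ∃ D, M5 G D ∧ ∀ i, Disjoint (D i) {x, y}) :
    es G + 26 ≤ 6 * Fintype.card V + 2 * dg G x + 2 * dg G y := by
  classical
  have hne := hxy.ne
  have e1 := es_split G {x, y}
  have h1 : esS G {x, y} = 2 := by
    rw [esS_eq, Finset.sum_pair hne]
    have a1 : (({x, y} : Finset V).filter (G.Adj x)) = {y} := by
      ext u
      simp only [Finset.mem_filter, Finset.mem_insert, Finset.mem_singleton]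
      constructor
      · rintro ⟨rfl | rfl, h⟩
        · exact absurd rfl h.ne
        · rfl
      · rintro rfl
        exact ⟨Or.inr rfl, hxy⟩
    have a2 : (({x, y} : Finset V).filter (G.Adj y)) = {x} := by
      ext u
      simp only [Finset.mem_filter, Finset.mem_insert, Finset.mem_singleton]
      constructor
      · rintro ⟨rfl | rfl, h⟩
        · rfl
        · exact absurd rfl h.ne
      · rintro rfl
        exact ⟨Or.inl rfl, hxy.symm⟩
    rw [a1, a2, Finset.card_singleton, Finset.card_singleton]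
  have hc : ({x, y} : Finset V)ᶜ.card = Fintype.card V - 2 := by
    rw [Finset.card_compl, Finset.card_pair hne]
  have h7' := k5_set (G := G) ({x, y} : Finset V)ᶜ (by omega) (by
    rintro ⟨D, hD, hs⟩
    refine hm ⟨D, hD, fun i => ?_⟩
    rw [Set.disjoint_left]
    intro u hu hu'
    have := hs i hu
    rw [Finset.mem_coe, Finset.mem_compl, Finset.mem_insert, Finset.mem_singleton] at this
    exact this hu')
  rw [Finset.sum_pair hne] at e1
  omega

end Pool.Agent.LR5
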