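import Pool.Agent.LR5.App
import Pool.Agent.LR5.Count

/-!
LR5: consequences of the counts.  `G` 6-connected without `K₆` minor; all degrees are at least 6
(`dg_ge`, from `LG6.min_deg`).

`strong_false`: there are no two disjoint strong edges.  A strong edge is an edge `x y` with at least four
common neighbours, or with a common neighbour `v` all of whose other neighbours are adjacent to `x` or
`y`.  For a strong edge there is no `K₅` model avoiding `x`, `y`: in the second case by `app2`, in the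
first case by `app1` for `v := x`, `p := y` (a model of `G` avoiding `x` and `y` is a model of
`trim G x y` avoiding `y`).  `count2` for both edges: `es G + 26 ≤ 6 n + 2 dg x + 2 dg y`, same for
`z w`; and `es G ≥ 6 (n - 4) + dg x + dg y + dg z + dg w`.  Sum of the first two and twice the third:
contradiction.

`two_hubs`: `v` has degree at most 7, `p ≠ q` neighbours of `v`, both with at least four common neighbours
with `v`: contradiction.  `app1`, `count1` for `(v, p)` and `(v, q)`:
`2 es G + 40 + 16 ≤ 12 n + 2 dg p + 2 dg q + 4 dg v`, and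
`es G ≥ 6 (n - 3) + dg p + dg q + dg v`, so `-36 + 56 ≤ 2 dg v`, that is `dg v ≥ 10`.
-/

set_option autoImplicit false

namespace Pool.Agent.LR5

open Pool.Agent.LG6

variable {V : Type} [Fintype V]

/-- a strong edge -/
def Strong (G : SimpleGraph V) (x y : V) : Prop :=
  G.Adj x y ∧ ((∃ Q : Finset V, 4 ≤ Q.card ∧ ∀ q ∈ Q, G.Adj x q ∧ G.Adj y q) ∨
    ∃ v, G.Adj v x ∧ G.Adj v y ∧ ∀ u, G.Adj v u → u ≠ x → u ≠ y → G.Adj x u ∨ G.Adj y u)

theorem dg_ge {G : SimpleGraph V} (hG : IsKConnected 6 G) (v : V) : 6 ≤ dg G v := by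
  classical
  have hf : (G.neighborSet v).Finite := Set.toFinite _
  have h1 := min_deg hG v hf.toFinset (fun f hf' => by
    rw [Set.Finite.mem_toFinset, SimpleGraph.mem_neighborSet]
    exact hf') (fun h => by
    rw [Set.Finite.mem_toFinset, SimpleGraph.mem_neighborSet] at h
    exact h.ne rfl)
  unfold dg
  rw [Set.ncard_eq_toFinset_card _ hf]
  exact h1

/-- no `K₅` model avoids a strong edge -/
theorem strong_no {G : SimpleGraph V} (hG : IsKConnected 6 G) (hm : ¬ HasCompleteMinor 6 G)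
    {x y : V} (h : Strong G x y) : ¬ ∃ D, M5 G D ∧ ∀ i, Disjoint (D i) {x, y} := by
  rintro ⟨D, hD, hd⟩
  obtain ⟨hxy, ⟨Q, hQ, hQ'⟩ | ⟨v, hvx, hvy, hv⟩⟩ := h
  · have hx : ∀ i, x ∉ D i := fun i hi => Set.disjoint_left.1 (hd i) hi (Or.inl rfl)
    refine (app1 hG hm x y hxy Q hQ hQ').1 ⟨D, ⟨fun i => cn_trim (hD.c i) (hx i), hD.d,
      fun i j hij => ?_⟩, fun i => (hd i).mono_right fun a ha => Or.inr ha⟩
    obtain ⟨s, hs, t, ht, hst⟩ := hD.ad i j hij
    exact ⟨s, hs, t, ht, trim_adj_of_ne hst (fun h' => hx i (h' ▸ hs)) fun h' => hx j (h' ▸ ht)⟩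
  · exact (app2 hG hm v x y hvx hvy hxy hv).1 ⟨D, hD, hd⟩

/-- lower bound for the sum of the degrees, the degrees in `S` kept -/
theorem es_ge [DecidableEq V] {G : SimpleGraph V} (hG : IsKConnected 6 G) (S : Finset V) :
    6 * Fintype.card V + ∑ v ∈ S, dg G v ≤ es G + 6 * S.card := by
  have h1 : es G = ∑ v ∈ S, dg G v + ∑ v ∈ Sᶜ, dg G v := (Finset.sum_add_sum_compl S _).symm
  have h2 : Sᶜ.card • 6 ≤ ∑ v ∈ Sᶜ, dg G v := Finset.card_nsmul_le_sum _ _ _ fun v _ => dg_ge hG v
  have h3 := Finset.card_add_card_compl S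
  rw [smul_eq_mul] at h2
  omega

theorem strong_false {G : SimpleGraph V} (hG : IsKConnected 6 G) (hm : ¬ HasCompleteMinor 6 G)
    (x y z w : V) (h1 : Strong G x y) (h2 : Strong G z w) (xz : x ≠ z) (xw : x ≠ w) (yz : y ≠ z)
    (yw : y ≠ w) : False := by
  classical
  have h7 : 7 ≤ Fintype.card V := hG.1
  have c1 := count2 h7 x y h1.1 (strong_no hG hm h1)
  have c2 := count2 h7 z w h2.1 (strong_no hG hm h2)
  have c3 := es_ge hG {x, y, z, w}
  have hxy : x ≠ y := h1.1.ne
  have hzw : z ≠ w := h2.1.ne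
  rw [Finset.sum_insert (by simp [hxy, xz, xw]), Finset.sum_insert (by simp [yz, yw]),
    Finset.sum_insert (by simp [hzw]), Finset.sum_singleton,
    Finset.card_insert_of_notMem (by simp [hxy, xz, xw]),
    Finset.card_insert_of_notMem (by simp [yz, yw]),
    Finset.card_insert_of_notMem (by simp [hzw]), Finset.card_singleton] at c3
  omega

theorem two_hubs {G : SimpleGraph V} (hG : IsKConnected 6 G) (hm : ¬ HasCompleteMinor 6 G)
    (v p q : V) (hvp : G.Adj v p) (hvq : G.Adj v q) (hpq : p ≠ q) (hd : dg G v ≤ 7)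
    (P Q : Finset V) (hP : 4 ≤ P.card) (hQ : 4 ≤ Q.card) (hP' : ∀ u ∈ P, G.Adj v u ∧ G.Adj p u)
    (hQ' : ∀ u ∈ Q, G.Adj v u ∧ G.Adj q u) : False := by
  classical
  have h7 : 7 ≤ Fintype.card V := hG.1
  have c1 := count1 h7 v p hvp P hP' (app1 hG hm v p hvp P hP hP').1
  have c2 := count1 h7 v q hvq Q hQ' (app1 hG hm v q hvq Q hQ hQ').1
  have c3 := es_ge hG {v, p, q}
  have h1 : v ≠ p := hvp.ne
  have h2 : v ≠ q := hvq.ne
  rw [Finset.sum_insert (by simp [h1, h2]), Finset.sum_insert (by simp [hpq]),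
    Finset.sum_singleton, Finset.card_insert_of_notMem (by simp [h1, h2]),
    Finset.card_insert_of_notMem (by simp [hpq]), Finset.card_singleton] at c3
  omega

end Pool.Agent.LR5
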