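import Pool.Agent.LR5.Defs2

/-!
LR5: `G - p`, `G - x - y` and the trimmed `G - p` are 4-connected if `G` is 6-connected.
-/

set_option autoImplicit false

namespace Pool.Agent.LR5

open Pool.Agent.LG6

variable {V : Type} [Fintype V] [DecidableEq V]

theorem four_one {G : SimpleGraph V} (hG : IsKConnected 6 G) (p : V) : Four G {p} := by
  refine ⟨?_, fun S hS => ?_⟩
  · have := hG.1
    rw [Finset.card_singleton]
    omega
  · refine hG.2 (S ∪ {p}) ?_
    have h1 := Finset.card_union_le S {p}
    rw [Finset.card_singleton] at h1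
    omega

theorem four_two {G : SimpleGraph V} (hG : IsKConnected 6 G) (x y : V) : Four G {x, y} := by
  have h2 : ({x, y} : Finset V).card ≤ 2 := Finset.card_le_two
  refine ⟨?_, fun S hS => ?_⟩
  · have := hG.1
    omega
  · refine hG.2 (S ∪ {x, y}) ?_
    have h1 := Finset.card_union_le S {x, y}
    omega

theorem four_trim {G : SimpleGraph V} (hG : IsKConnected 6 G) (v p : V)
    (Q : Finset V) (hQ : 4 ≤ Q.card) (hQ' : ∀ q ∈ Q, G.Adj v q ∧ G.Adj p q) :
    Four (trim G v p) {p} := by
  refine ⟨?_, fun S hS => ?_⟩
  · have := hG.1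
    rw [Finset.card_singleton]
    omega
  · have hcard : (insert v (S ∪ {p})).card < 6 := by
      have h1 := Finset.card_union_le S {p}
      have h2 := Finset.card_insert_le v (S ∪ {p})
      rw [Finset.card_singleton] at h1
      omega
    have hC : Cn (trim G v p) ((↑(insert v (S ∪ {p})) : Set V)ᶜ) :=
      cn_trim (hG.2 _ hcard) (by simp)
    by_cases hv : v ∈ S ∪ {p}
    · rwa [Finset.insert_eq_of_mem hv] at hC
    · obtain ⟨q, hq, hqS⟩ : ∃ q ∈ Q, q ∉ S := by
        by_contra hcon
        push Not at hcon
        have := Finset.card_le_card (show Q ⊆ S from hcon)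
        omega
      obtain ⟨h1, h2⟩ := hQ' q hq
      have hins := Cn.insert (v := v) hC ⟨q, by
        simp only [Finset.coe_insert, Finset.coe_union, Finset.coe_singleton, Set.mem_compl_iff,
          Set.mem_insert_iff, Set.mem_union, Finset.mem_coe, Set.mem_singleton_iff, not_or]
        exact ⟨h1.ne', hqS, h2.ne'⟩, trim_adj h1 h2⟩
      have hset : insert v ((↑(insert v (S ∪ {p})) : Set V)ᶜ) = ((↑(S ∪ {p}) : Set V)ᶜ) := by
        ext z
        simp only [Finset.coe_insert, Set.mem_insert_iff, Set.mem_compl_iff]
        constructor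
        · rintro (rfl | h)
          · exact fun h' => hv (Finset.mem_coe.1 h')
          · exact fun h' => h (Or.inr h')
        · intro h
          by_cases hz : z = v
          · exact Or.inl hz
          · exact Or.inr (by rintro (h' | h'); exacts [hz h', h h'])
      rwa [hset] at hins

end Pool.Agent.LR5
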