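import Pool.Agent.LR5.Transfer
import Pool.Agent.LR5.FourCon

/-!
LR5: the three applications of TP.

In each case assume that the conclusion `NoMin` fails; `tpset` (with `FourCon`) gives a `K₅` model `D`
avoiding `P` with `D 0 = {v}`; for `i ≠ 0` the set `D i` contains a neighbour of `v` (in `G`, or in the
trimmed graph), which is adjacent to a vertex of `P`; and `v` is adjacent to a vertex of `P`; so
`six_of` gives a `K₆` model of `G` (`P = {p}` or `P = {x, y}` is connected; use `M5.mono` for `trim`).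
-/

set_option autoImplicit false

namespace Pool.Agent.LR5

open Pool.Agent.LG6

variable {V : Type} [Fintype V]

/-- the common part of the three applications -/
theorem app_core [DecidableEq V] {G H : SimpleGraph V} (hm : ¬ HasCompleteMinor 6 G) (hHG : H ≤ G)
    (P : Finset V) (hP : Cn G (↑P : Set V)) (h4 : Four H P) (v : V) (hv : v ∉ P)
    (hvP : ∃ q ∈ P, G.Adj v q) (hd : ∀ u, H.Adj v u → u ∉ P → ∃ q ∈ P, G.Adj q u) :
    NoMin H (↑P : Set V) := by
  by_contra hN
  obtain ⟨D, hD, hD0, hdis, -⟩ := tpset H P h4 hN v hv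
  refine hm (six_of (↑P : Set V) hP D (hD.mono hHG) hdis fun i => ?_)
  by_cases hi : i = 0
  · subst hi
    obtain ⟨q, hq, hvq⟩ := hvP
    exact ⟨q, Finset.mem_coe.2 hq, v, by rw [hD0]; rfl, hvq.symm⟩
  · obtain ⟨s, hs, t, ht, hst⟩ := hD.ad 0 i (Ne.symm hi)
    rw [hD0, Set.mem_singleton_iff] at hs
    subst hs
    have htP : t ∉ P := fun h => Set.disjoint_left.1 (hdis i) ht (Finset.mem_coe.2 h)
    obtain ⟨q, hq, hqt⟩ := hd t hst htP
    exact ⟨q, Finset.mem_coe.2 hq, t, ht, hqt⟩

/-- `p` is adjacent to `v` and to all other neighbours of `v` -/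
theorem app0 {G : SimpleGraph V} (hG : IsKConnected 6 G) (hm : ¬ HasCompleteMinor 6 G) (v p : V)
    (hvp : G.Adj v p) (hd : ∀ u, G.Adj v u → u ≠ p → G.Adj p u) : NoMin G {p} := by
  classical
  have h := app_core (H := G) hm le_rfl {p} (by rw [Finset.coe_singleton]; exact cn_single G p)
    (four_one hG p) v (by rw [Finset.mem_singleton]; exact hvp.ne)
    ⟨p, Finset.mem_singleton_self p, hvp⟩
    (fun u hu hup => ⟨p, Finset.mem_singleton_self p,
      hd u hu (fun h' => hup (Finset.mem_singleton.2 h'))⟩)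
  rwa [Finset.coe_singleton] at h

/-- `v` and `p` are adjacent and have four common neighbours -/
theorem app1 {G : SimpleGraph V} (hG : IsKConnected 6 G) (hm : ¬ HasCompleteMinor 6 G) (v p : V)
    (hvp : G.Adj v p) (Q : Finset V) (hQ : 4 ≤ Q.card) (hQ' : ∀ q ∈ Q, G.Adj v q ∧ G.Adj p q) :
    NoMin (trim G v p) {p} := by
  classical
  have h := app_core (H := trim G v p) hm (trim_le G v p) {p}
    (by rw [Finset.coe_singleton]; exact cn_single G p)
    (four_trim hG v p Q hQ hQ') v (by rw [Finset.mem_singleton]; exact hvp.ne)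
    ⟨p, Finset.mem_singleton_self p, hvp⟩
    (fun u hu hup => ⟨p, Finset.mem_singleton_self p,
      (hu.2.1 rfl).resolve_left (fun h' => hup (Finset.mem_singleton.2 h'))⟩)
  rwa [Finset.coe_singleton] at h

/-- the edge `x y` dominates the neighbourhood of `v` -/
theorem app2 {G : SimpleGraph V} (hG : IsKConnected 6 G) (hm : ¬ HasCompleteMinor 6 G) (v x y : V)
    (hvx : G.Adj v x) (hvy : G.Adj v y) (hxy : G.Adj x y)
    (hd : ∀ u, G.Adj v u → u ≠ x → u ≠ y → G.Adj x u ∨ G.Adj y u) : NoMin G {x, y} := by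
  classical
  have hcoe : ((↑({x, y} : Finset V)) : Set V) = {x, y} := by
    rw [Finset.coe_insert, Finset.coe_singleton]
  have hcn : Cn G (({x, y} : Set V)) := by
    have h1 : Cn G (insert x ({y} : Set V)) := (cn_single G y).insert ⟨y, rfl, hxy⟩
    exact h1
  have h := app_core (H := G) hm le_rfl {x, y} (by rw [hcoe]; exact hcn)
    (four_two hG x y) v
    (by
      rw [Finset.mem_insert, Finset.mem_singleton]
      rintro (h' | h')
      · exact hvx.ne h'
      · exact hvy.ne h')
    ⟨x, Finset.mem_insert_self x _, hvx⟩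
    (fun u hu hup => by
      rw [Finset.mem_insert, Finset.mem_singleton, not_or] at hup
      rcases hd u hu hup.1 hup.2 with h' | h'
      · exact ⟨x, Finset.mem_insert_self x _, h'⟩
      · exact ⟨y, Finset.mem_insert_of_mem (Finset.mem_singleton_self y), h'⟩)
  rwa [hcoe] at h

end Pool.Agent.LR5
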