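import Pool.Agent.LR5.Defs

/-!
LR5: `Tri G x a1 a2 B` with `x` adjacent to `a1`.  Then there is a `K₅` model with `{x}` a branch set.

Proof.  `exit4` with `X := {x, a1, a2}` and `C := B 0` gives an edge from `B 0` to some `B l`, `l ≠ 0`;
let `m` be the third index.  The model (`mk5`): `{x}`, `{a1}`, `{a2} ∪ B m`, `B 0`, `B l`.
-/

set_option autoImplicit false

namespace Pool.Agent.LR5

open Pool.Agent.LG6

variable {V : Type} {G : SimpleGraph V}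

theorem adjA_aux {x a1 a2 : V} {B : Fin 3 → Set V} (h : Tri G x a1 a2 B) (hx : G.Adj x a1)
    (l m : Fin 3) (hl : l ≠ 0) (hm : m ≠ 0) (hlm : m ≠ l) (hE : Ad G (B 0) (B l)) :
    Has5 G x := by
  refine ⟨![{x}, {a1}, insert a2 (B m), B 0, B l], ?_, rfl⟩
  apply mk5
  · exact cn_single G x
  · exact cn_single G a1
  · exact (h.cb m).insert (h.ad2 m)
  · exact h.cb 0
  · exact h.cb l
  · exact Set.disjoint_singleton.2 h.xa1
  · rw [Set.disjoint_singleton_left, Set.mem_insert_iff, not_or]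
    exact ⟨h.xa2, h.xb m⟩
  · exact Set.disjoint_singleton_left.2 (h.xb 0)
  · exact Set.disjoint_singleton_left.2 (h.xb l)
  · rw [Set.disjoint_singleton_left, Set.mem_insert_iff, not_or]
    exact ⟨h.a12, h.a1b m⟩
  · exact Set.disjoint_singleton_left.2 (h.a1b 0)
  · exact Set.disjoint_singleton_left.2 (h.a1b l)
  · exact Set.disjoint_insert_left.2 ⟨h.a2b 0, h.db m 0 hm⟩
  · exact Set.disjoint_insert_left.2 ⟨h.a2b l, h.db m l hlm⟩
  · exact h.db 0 l hl.symm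
  · exact ⟨x, rfl, a1, rfl, hx⟩
  · obtain ⟨b, hb, hxb⟩ := h.adx m
    exact ⟨x, rfl, b, Or.inr hb, hxb⟩
  · obtain ⟨b, hb, hxb⟩ := h.adx 0
    exact ⟨x, rfl, b, hb, hxb⟩
  · obtain ⟨b, hb, hxb⟩ := h.adx l
    exact ⟨x, rfl, b, hb, hxb⟩
  · obtain ⟨b, hb, hxb⟩ := h.ad1 m
    exact ⟨a1, rfl, b, Or.inr hb, hxb⟩
  · obtain ⟨b, hb, hxb⟩ := h.ad1 0
    exact ⟨a1, rfl, b, hb, hxb⟩
  · obtain ⟨b, hb, hxb⟩ := h.ad1 l
    exact ⟨a1, rfl, b, hb, hxb⟩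
  · obtain ⟨b, hb, hxb⟩ := h.ad2 0
    exact ⟨a2, Or.inl rfl, b, hb, hxb⟩
  · obtain ⟨b, hb, hxb⟩ := h.ad2 l
    exact ⟨a2, Or.inl rfl, b, hb, hxb⟩
  · exact hE

theorem adjA [Fintype V] (hJ : IsKConnected 4 G) (x a1 a2 : V) (B : Fin 3 → Set V)
    (h : Tri G x a1 a2 B) (hx : G.Adj x a1) : Has5 G x := by
  classical
  obtain ⟨g, hg⟩ := (h.cb 0).ne
  obtain ⟨k, hk⟩ := (h.cb 1).ne
  have hnot : ∀ i, ∀ v ∈ B i, v ∉ ({x, a1, a2} : Finset V) := by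
    intro i v hv hmem
    simp only [Finset.mem_insert, Finset.mem_singleton] at hmem
    rcases hmem with rfl | rfl | rfl
    · exact h.xb i hv
    · exact h.a1b i hv
    · exact h.a2b i hv
  have hk0 : k ∉ B 0 := fun hk0 => Set.disjoint_left.1 (h.db 0 1 (by decide)) hk0 hk
  obtain ⟨u, w, hu, hw, -, hwX, huw⟩ := exit4 hJ {x, a1, a2}
    ((Finset.card_le_three).trans le_rfl) hg (hnot 0 g hg) hk0 (hnot 1 k hk)
  have hwm : ∃ l, w ∈ B l := by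
    rcases h.sp w with h1 | h1 | h1 | h1
    · exact absurd (by rw [h1]; simp) hwX
    · exact absurd (by rw [h1]; simp) hwX
    · exact absurd (by rw [h1]; simp) hwX
    · exact h1
  obtain ⟨l, hl⟩ := hwm
  have hl0 : l ≠ 0 := by
    rintro rfl
    exact hw hl
  obtain ⟨m, hm, hml⟩ : ∃ m : Fin 3, m ≠ 0 ∧ m ≠ l := by
    have : ∀ l : Fin 3, l ≠ 0 → ∃ m : Fin 3, m ≠ 0 ∧ m ≠ l := by decide
    exact this l hl0
  exact adjA_aux h hx l m hl0 hm hml ⟨u, hu, w, hl, huw⟩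

end Pool.Agent.LR5
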