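import Pool.Agent.LR5.ExtendS44

/-!
LR5, extension to a spanning system.

Let `J` be 4-connected, `P i` disjoint connected sets, `Fz` a set of frozen indices whose parts are
covered by a set `F` of at most three vertices (every vertex of `F` lies in a frozen part), and not all
indices frozen.  Then the non-frozen parts can be enlarged to cover everything.

Proof: induction on the number of uncovered vertices `L`.  `V \ F` is connected; a non-frozen part is
nonempty and disjoint from `F`, so (`exit4` with `X := F`, `C := L`) there is an edge from `u ∈ L` to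
`w ∉ L`, `w ∉ F`; `w` lies in a part `P i` with `i` not frozen; replace `P i` by `insert u (P i)`
(`Cn.insert`).
-/

set_option autoImplicit false

namespace Pool.Agent.LR5

open Pool.Agent.LG6

variable {V : Type} {G : SimpleGraph V}

theorem extend [Fintype V] (hJ : IsKConnected 4 G) {ι : Type} [Finite ι] (P : ι → Set V)
    (Fz : Set ι) (F : Finset V) (hF : F.card ≤ 3) (hc : ∀ i, Cn G (P i))
    (hd : ∀ i j, i ≠ j → Disjoint (P i) (P j))
    (hFz : ∀ i ∈ Fz, P i ⊆ (↑F : Set V)) (hFc : ∀ v ∈ F, ∃ i ∈ Fz, v ∈ P i)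
    (hn : ∃ i, i ∉ Fz) :
    ∃ P' : ι → Set V, (∀ i, P i ⊆ P' i) ∧ (∀ i ∈ Fz, P' i = P i) ∧ (∀ i, Cn G (P' i)) ∧
      (∀ i j, i ≠ j → Disjoint (P' i) (P' j)) ∧ ∀ v, ∃ i, v ∈ P' i := by
  exact extend44 hJ _ P Fz F hF hc hd hFz hFc hn le_rfl

end Pool.Agent.LR5
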