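import Pool.Agent.LR5.Last
import Pool.Agent.LR5.Extend

/-!
LR5, a `K₅` model gives a `K₅` model with a singleton part or a `K₃,₃` model.

Proof.  Take a spanning model `D` (`extend` with no frozen part, `F := ∅`) with `(D 0).ncard` minimal;
`Z := D 0`.  If `Z` is not a singleton: claim: if `v ∈ Z`, `Z \ {v}` connected and nonempty and `v`
adjacent to `o ∉ Z`, then there are `j ≠ j'`, both not `0`, with `¬ Ad G (Z \ {v}) (D j)`,
`¬ Ad G (Z \ {v}) (D j')` (so `v` is adjacent to `D j` and `D j'`).  (Move `v` to the part `D m`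
containing `o`: not a model by minimality, and `Z \ {v}` is adjacent to `D m ∪ {v}`, so there is
`j ≠ m` with `¬ Ad G (Z \ {v}) (D j)`; then `v` is adjacent to `D j`; move `v` to `D j` to get
`j' ≠ j`.)
`last` (root any `r ∈ Z`, `S := ∅`) gives `v` with `{j1, j2}`, `last` (root `v`) gives `v' ≠ v` with
`{j3, j4}`; the two pairs are disjoint (a common `m` would give `¬ Ad G Z (D m)`), so they are all four
indices.  The `K₃,₃` model (`mk33`): side A `Z \ {v'}`, `D j3`, `D j4`; side B `{v'}`, `D j1`, `D j2`.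
(`Z \ {v'}` contains `v`, which is adjacent to `D j1`, `D j2`; `v'` is adjacent to `D j3`, `D j4`.)
-/

set_option autoImplicit false

namespace Pool.Agent.LR5

open Pool.Agent.LG6

variable {V : Type} {G : SimpleGraph V}

/-- an edge between a vertex of a connected set with another vertex and the rest -/
theorem a5_edge {Z : Set V} (hZ : Cn G Z) {v u : V} (hv : v ∈ Z) (hu : u ∈ Z) (huv : u ≠ v) :
    Ad G (Z \ {v}) {v} := by
  obtain ⟨g, h, hg, hh, hgh, hgP, hhP⟩ := hZ.exit (P := {v}) ⟨v, hv, rfl⟩ ⟨u, hu, huv⟩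
  rw [Set.mem_singleton_iff] at hgP
  subst hgP
  exact ⟨h, ⟨hh, hhP⟩, g, rfl, hgh.symm⟩

/-- the vertex is adjacent to the sets which lose contact -/
theorem a5_adj {Z S : Set V} {v : V} (h : Ad G Z S) (hn : ¬ Ad G (Z \ {v}) S) :
    ∃ t ∈ S, G.Adj v t := by
  obtain ⟨s, hs, t, ht, hst⟩ := h
  by_cases hsv : s = v
  · subst hsv
    exact ⟨t, ht, hst⟩
  · exact absurd ⟨s, ⟨hs, hsv⟩, t, ht, hst⟩ hn

/-- moving a vertex to another part -/
theorem a5_move {D : Fin 5 → Set V} (hM : M5 G D) (hSp : Sp5 D) {v u : V} (hv : v ∈ D 0)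
    (hu : u ∈ D 0) (huv : u ≠ v) (hc : Cn G (D 0 \ {v})) (m : Fin 5) (hm : m ≠ 0)
    (hvm : ∃ t ∈ D m, G.Adj v t) (hall : ∀ j, j ≠ 0 → j ≠ m → Ad G (D 0 \ {v}) (D j)) :
    ∃ D' : Fin 5 → Set V, M5 G D' ∧ Sp5 D' ∧ D' 0 = D 0 \ {v} := by
  classical
  set D' : Fin 5 → Set V := fun i => if i = 0 then D 0 \ {v} else if i = m then insert v (D m)
    else D i with hD'
  have h0 : D' 0 = D 0 \ {v} := by simp only [hD', if_true]
  have h1 : D' m = insert v (D m) := by simp only [hD', if_neg hm, if_true]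
  have h2 : ∀ j, j ≠ 0 → j ≠ m → D' j = D j := by
    intro j hj0 hjm
    simp only [hD', if_neg hj0, if_neg hjm]
  have hvj : ∀ j, j ≠ 0 → v ∉ D j := fun j hj hvj =>
    Set.disjoint_left.1 (hM.d 0 j (Ne.symm hj)) hv hvj
  have hdis : ∀ i j, i < j → Disjoint (D' i) (D' j) := by
    intro i j hij
    have hj0 : j ≠ 0 := by
      intro h
      rw [h] at hij
      exact absurd hij (by simp)
    by_cases hi0 : i = 0
    · subst hi0
      rw [h0]
      by_cases hjm : j = m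
      · rw [hjm, h1]
        rw [Set.disjoint_left]
        rintro a ⟨ha, hav⟩ (hav' | ham)
        · exact hav hav'
        · exact Set.disjoint_left.1 (hM.d 0 m (Ne.symm hm)) ha ham
      · rw [h2 j hj0 hjm]
        exact (hM.d 0 j (Ne.symm hj0)).mono_left Set.diff_subset
    · by_cases him : i = m
      · have hjm : j ≠ m := by
          rw [← him]
          exact (ne_of_lt hij).symm
        rw [him, h1, h2 j hj0 hjm, Set.disjoint_left]
        rintro a (hav | ham) haj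
        · rw [hav] at haj
          exact hvj j hj0 haj
        · exact Set.disjoint_left.1 (hM.d m j (Ne.symm hjm)) ham haj
      · rw [h2 i hi0 him]
        by_cases hjm : j = m
        · rw [hjm, h1, Set.disjoint_left]
          rintro a hai (hav | ham)
          · rw [hav] at hai
            exact hvj i hi0 hai
          · exact Set.disjoint_left.1 (hM.d i m him) hai ham
        · rw [h2 j hj0 hjm]
          exact hM.d i j (ne_of_lt hij)
  have hadj : ∀ i j, i < j → Ad G (D' i) (D' j) := by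
    intro i j hij
    have hj0 : j ≠ 0 := by
      intro h
      rw [h] at hij
      exact absurd hij (by simp)
    by_cases hi0 : i = 0
    · subst hi0
      rw [h0]
      by_cases hjm : j = m
      · rw [hjm, h1]
        exact (a5_edge (hM.c 0) hv hu huv).mono subset_rfl
          (Set.singleton_subset_iff.2 (Set.mem_insert _ _))
      · rw [h2 j hj0 hjm]
        exact hall j hj0 hjm
    · by_cases him : i = m
      · have hjm : j ≠ m := by
          rw [← him]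
          exact (ne_of_lt hij).symm
        rw [him, h1, h2 j hj0 hjm]
        exact (hM.ad m j (Ne.symm hjm)).mono (Set.subset_insert _ _) subset_rfl
      · rw [h2 i hi0 him]
        by_cases hjm : j = m
        · rw [hjm, h1]
          exact (hM.ad i m him).mono subset_rfl (Set.subset_insert _ _)
        · rw [h2 j hj0 hjm]
          exact hM.ad i j (ne_of_lt hij)
  refine ⟨D', ⟨?_, ?_, ?_⟩, ?_, h0⟩
  · intro i
    by_cases hi0 : i = 0
    · rw [hi0, h0]
      exact hc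
    · by_cases him : i = m
      · rw [him, h1]
        exact (hM.c m).insert hvm
      · rw [h2 i hi0 him]
        exact hM.c i
  · intro i j hij
    rcases lt_or_gt_of_ne hij with h | h
    · exact hdis i j h
    · exact (hdis j i h).symm
  · intro i j hij
    rcases lt_or_gt_of_ne hij with h | h
    · exact hadj i j h
    · exact (hadj j i h).symm
  · intro w
    by_cases hwv : w = v
    · exact ⟨m, by rw [h1, hwv]; exact Set.mem_insert _ _⟩
    · obtain ⟨i, hi⟩ := hSp w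
      by_cases hi0 : i = 0
      · exact ⟨0, by rw [h0]; rw [hi0] at hi; exact ⟨hi, hwv⟩⟩
      · by_cases him : i = m
        · exact ⟨m, by rw [h1]; rw [him] at hi; exact Set.mem_insert_of_mem _ hi⟩
        · exact ⟨i, by rw [h2 i hi0 him]; exact hi⟩

theorem alpha5 [Fintype V] (hJ : IsKConnected 4 G) (D : Fin 5 → Set V) (h : M5 G D) :
    (∃ y, Has5 G y) ∨ ∃ A B, M33 G A B := by
  classical
  -- a spanning model with small part `0`
  obtain ⟨D1, hsub, -, hc1, hd1, hsp1⟩ := extend hJ D ∅ ∅ (by simp) h.c h.d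
    (fun i hi => absurd hi (Set.notMem_empty i)) (fun v hv => absurd hv (Finset.notMem_empty v))
    ⟨0, Set.notMem_empty 0⟩
  have hM1 : M5 G D1 := ⟨hc1, hd1, fun i j hij => (h.ad i j hij).mono (hsub i) (hsub j)⟩
  have hex : ∃ n, ∃ D : Fin 5 → Set V, M5 G D ∧ Sp5 D ∧ (D 0).ncard = n :=
    ⟨_, D1, hM1, hsp1, rfl⟩
  obtain ⟨D, hM, hSp, hn⟩ := Nat.find_spec hex
  have hmin : ∀ D' : Fin 5 → Set V, M5 G D' → Sp5 D' → (D 0).ncard ≤ (D' 0).ncard := by
    intro D' h1 h2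
    rw [hn]
    exact Nat.find_min' hex ⟨D', h1, h2, rfl⟩
  by_cases hsing : ∃ y, D 0 = {y}
  · obtain ⟨y, hy⟩ := hsing
    exact Or.inl ⟨y, D, hM, hy⟩
  right
  have hne : ∀ y, D 0 ≠ {y} := fun y hy => hsing ⟨y, hy⟩
  have hother : ∀ v, v ∈ D 0 → ∃ u ∈ D 0, u ≠ v := by
    intro v hv
    by_contra hcon
    push Not at hcon
    exact hne v (Set.eq_singleton_iff_unique_mem.2 ⟨hv, hcon⟩)
  -- some part loses contact
  have hlose : ∀ v ∈ D 0, Cn G (D 0 \ {v}) → ∀ m, m ≠ 0 → (∃ t ∈ D m, G.Adj v t) →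
      ∃ j, j ≠ 0 ∧ j ≠ m ∧ ¬ Ad G (D 0 \ {v}) (D j) := by
    intro v hv hcv m hm hvm
    by_contra hcon
    push Not at hcon
    obtain ⟨u, hu, huv⟩ := hother v hv
    obtain ⟨D', hM', hSp', h0'⟩ := a5_move hM hSp hv hu huv hcv m hm hvm hcon
    have h1 := hmin D' hM' hSp'
    rw [h0'] at h1
    have h2 := Set.ncard_diff_singleton_lt_of_mem hv (Set.toFinite (D 0))
    omega
  have hclaim : ∀ v ∈ D 0, Cn G (D 0 \ {v}) → ∀ o, o ∉ D 0 → G.Adj v o →
      ∃ j j' : Fin 5, j ≠ j' ∧ j ≠ 0 ∧ j' ≠ 0 ∧ ¬ Ad G (D 0 \ {v}) (D j) ∧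
        ¬ Ad G (D 0 \ {v}) (D j') := by
    intro v hv hcv o ho hvo
    obtain ⟨m, hm⟩ := hSp o
    have hm0 : m ≠ 0 := by
      intro h
      rw [h] at hm
      exact ho hm
    obtain ⟨j, hj0, -, hjn⟩ := hlose v hv hcv m hm0 ⟨o, hm, hvo⟩
    obtain ⟨j', hj0', hjj, hjn'⟩ := hlose v hv hcv j hj0 (a5_adj (hM.ad 0 j (Ne.symm hj0)) hjn)
    exact ⟨j, j', Ne.symm hjj, hj0, hj0', hjn, hjn'⟩
  obtain ⟨r, hr⟩ := (hM.c 0).ne
  have hout : ∃ o, o ∉ D 0 ∧ o ∉ (∅ : Finset V) := by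
    obtain ⟨o, ho⟩ := (hM.c 1).ne
    exact ⟨o, fun h => Set.disjoint_left.1 (hM.d 0 1 (by decide)) h ho, Finset.notMem_empty o⟩
  obtain ⟨v, hv, -, hcv, o, ho, -, hvo⟩ := last hJ (D 0) (hM.c 0) r hr (hne r) ∅ (by simp)
    (fun s hs => absurd hs (Finset.notMem_empty s)) hout
  obtain ⟨v', hv', hvv, hcv', o', ho', -, hvo'⟩ := last hJ (D 0) (hM.c 0) v hv (hne v) ∅ (by simp)
    (fun s hs => absurd hs (Finset.notMem_empty s)) hout
  obtain ⟨j1, j2, h12, h10, h20, n1, n2⟩ := hclaim v hv hcv o ho hvo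
  obtain ⟨j3, j4, h34, h30, h40, n3, n4⟩ := hclaim v' hv' hcv' o' ho' hvo'
  have hdiff : ∀ a b : Fin 5, a ≠ 0 → ¬ Ad G (D 0 \ {v}) (D a) → ¬ Ad G (D 0 \ {v'}) (D b) →
      a ≠ b := by
    intro a b ha0 ha hb hab
    subst hab
    obtain ⟨s, hs, t, ht, hst⟩ := hM.ad 0 a (Ne.symm ha0)
    by_cases hsv : s = v
    · refine hb ⟨s, ⟨hs, ?_⟩, t, ht, hst⟩
      rw [hsv]
      exact Ne.symm hvv
    · exact ha ⟨s, ⟨hs, hsv⟩, t, ht, hst⟩
  have h13 := hdiff j1 j3 h10 n1 n3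
  have h14 := hdiff j1 j4 h10 n1 n4
  have h23 := hdiff j2 j3 h20 n2 n3
  have h24 := hdiff j2 j4 h20 n2 n4
  have hd0 : ∀ j, j ≠ 0 → Disjoint (D 0 \ {v'}) (D j) := fun j hj =>
    (hM.d 0 j (Ne.symm hj)).mono_left Set.diff_subset
  have hdv : ∀ j, j ≠ 0 → Disjoint ({v'} : Set V) (D j) := fun j hj =>
    Set.disjoint_singleton_left.2 fun hh => Set.disjoint_left.1 (hM.d 0 j (Ne.symm hj)) hv' hh
  have hvA : v ∈ D 0 \ {v'} := ⟨hv, Ne.symm hvv⟩
  have a1 : Ad G (D 0 \ {v'}) (D j1) := by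
    obtain ⟨t, ht, hvt⟩ := a5_adj (hM.ad 0 j1 (Ne.symm h10)) n1
    exact ⟨v, hvA, t, ht, hvt⟩
  have a2 : Ad G (D 0 \ {v'}) (D j2) := by
    obtain ⟨t, ht, hvt⟩ := a5_adj (hM.ad 0 j2 (Ne.symm h20)) n2
    exact ⟨v, hvA, t, ht, hvt⟩
  have a3 : Ad G (D j3) {v'} := by
    obtain ⟨t, ht, hvt⟩ := a5_adj (hM.ad 0 j3 (Ne.symm h30)) n3
    exact ⟨t, ht, v', rfl, hvt.symm⟩
  have a4 : Ad G (D j4) {v'} := by
    obtain ⟨t, ht, hvt⟩ := a5_adj (hM.ad 0 j4 (Ne.symm h40)) n4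
    exact ⟨t, ht, v', rfl, hvt.symm⟩
  exact ⟨_, _, mk33 (A0 := D 0 \ {v'}) (A1 := D j3) (A2 := D j4) (B0 := {v'}) (B1 := D j1)
    (B2 := D j2) hcv' (hM.c j3) (hM.c j4) (cn_single G v') (hM.c j1) (hM.c j2)
    (hd0 j3 h30) (hd0 j4 h40) (hM.d _ _ h34)
    (hdv j1 h10) (hdv j2 h20) (hM.d _ _ h12)
    (Set.disjoint_sdiff_left) (hd0 j1 h10) (hd0 j2 h20)
    (hdv j3 h30).symm (hM.d _ _ (Ne.symm h13)) (hM.d _ _ (Ne.symm h23))
    (hdv j4 h40).symm (hM.d _ _ (Ne.symm h14)) (hM.d _ _ (Ne.symm h24))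
    (a5_edge (hM.c 0) hv' hv (Ne.symm hvv)) a1 a2
    a3 (hM.ad _ _ (Ne.symm h13)) (hM.ad _ _ (Ne.symm h23))
    a4 (hM.ad _ _ (Ne.symm h14)) (hM.ad _ _ (Ne.symm h24))⟩

end Pool.Agent.LR5
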