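import Pool.Agent.LR5.Last
import Pool.Agent.LR5.Extend

/-!
LR5, shrinking a part of a `K₃,₃` model to one vertex.

`J` 4-connected, `M33 G A B`, `Fz` a set of frozen indices with `A i = {a i}` for `i ∈ Fz`, and
`k ∉ Fz` (so `Fz` has at most two elements).  Then there is a spanning model with the same frozen
parts in which `A' k` is a single vertex.

Proof.  Among the spanning models `(A', B')` with `A' i = A i` for `i ∈ Fz` (they exist: `extend` with
`ι := Fin 3 ⊕ Fin 3`) take one with `(A' k).ncard` minimal; call it `(A, B)`, `Z := A k`,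
`F := {a i : i ∈ Fz}` (at most two vertices).  Suppose `Z` is not a singleton.
Claim: if `v ∈ Z`, `Z \ {v}` connected and nonempty, `v` adjacent to `o ∉ Z ∪ F`, then there are
`j ≠ j'` with `¬ Ad G (Z \ {v}) (B j)` and `¬ Ad G (Z \ {v}) (B j')`.
Proof of the claim: `o` lies in some `A i` (`i ≠ k`, `i ∉ Fz`) or some `B j`.  Move `v` from `Z` to this
part.  By minimality the result is not a model.  If `v` was moved to `A i`, this means that `Z \ {v}` is
not adjacent to some `B j`; if it was moved to `B j`, then `Z \ {v}` is adjacent to `B j ∪ {v}` (as `Z`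
is connected), so `Z \ {v}` is not adjacent to some `B j'`, `j' ≠ j`.  In any case there is `j` with
`¬ Ad G (Z \ {v}) (B j)`; as `Ad G Z (B j)`, `v` is adjacent to a vertex of `B j`; move `v` to `B j`:
again not a model, which gives `j' ≠ j`.
Now `last` (root `r ∈ Z`, `S := F`) gives `v`, and `last` (root `v`) gives `v' ≠ v`, both as in the
claim (there is a vertex outside `Z ∪ F`, namely any vertex of `B 0`).  The two pairs of indices have a
common `m` (three indices), and `Z = (Z \ {v}) ∪ (Z \ {v'})` is adjacent to `B m`: contradiction.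
-/

set_option autoImplicit false

namespace Pool.Agent.LR5

open Pool.Agent.LG6

variable {V : Type} {G : SimpleGraph V}

/-- the part `s` after moving the vertex `v` to the part `t` -/
def shrink33_part (P : Fin 3 ⊕ Fin 3 → Set V) (v : V) (t s : Fin 3 ⊕ Fin 3) : Set V :=
  {x | (x = v ∧ s = t) ∨ (x ≠ v ∧ x ∈ P s)}

/-- moving a vertex from the part `A k` to another part -/
theorem shrink33_move {A B : Fin 3 → Set V} (h : M33 G A B) (hs : Sp33 A B) {k : Fin 3} {v o : V}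
    {t : Fin 3 ⊕ Fin 3} (ht : t ≠ Sum.inl k) (hv : v ∈ A k) (hc : Cn G (A k \ {v}))
    (ho : o ∈ Sum.elim A B t) (hvo : G.Adj v o)
    (had : ∀ j, t ≠ Sum.inr j → Ad G (A k \ {v}) (B j)) :
    ∃ A' B' : Fin 3 → Set V, M33 G A' B' ∧ Sp33 A' B' ∧ A' k = A k \ {v} ∧
      ∀ i, i ≠ k → t ≠ Sum.inl i → A' i = A i := by
  classical
  set P : Fin 3 ⊕ Fin 3 → Set V := Sum.elim A B with hP
  have hPc : ∀ s, Cn G (P s) := by
    rintro (i | j)
    · exact h.ca i
    · exact h.cb j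
  have hPd : ∀ s s', s ≠ s' → Disjoint (P s) (P s') := by
    rintro (i | j) (i' | j') hne
    · exact h.da _ _ (fun h' => hne (congrArg _ h'))
    · exact h.dab _ _
    · exact (h.dab _ _).symm
    · exact h.db _ _ (fun h' => hne (congrArg _ h'))
  have hvP : v ∈ P (Sum.inl k) := hv
  have hvn : ∀ s, s ≠ Sum.inl k → v ∉ P s := fun s hs' hv' =>
    Set.disjoint_left.1 (hPd s _ hs') hv' hvP
  have hot : o ≠ v := hvo.ne'
  let Q := shrink33_part P v t
  have hQk : Q (Sum.inl k) = A k \ {v} := by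
    ext x
    constructor
    · rintro (⟨_, h2⟩ | ⟨h1, h2⟩)
      · exact absurd h2.symm ht
      · exact ⟨h2, h1⟩
    · rintro ⟨h1, h2⟩
      exact Or.inr ⟨h2, h1⟩
  have hQt : Q t = insert v (P t) := by
    ext x
    constructor
    · rintro (⟨h1, _⟩ | ⟨_, h2⟩)
      · exact Or.inl h1
      · exact Or.inr h2
    · rintro (h1 | h1)
      · exact Or.inl ⟨h1, rfl⟩
      · exact Or.inr ⟨fun h2 => hvn t ht (h2 ▸ h1), h1⟩
  have hQo : ∀ s, s ≠ Sum.inl k → s ≠ t → Q s = P s := by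
    intro s hsk hst
    ext x
    constructor
    · rintro (⟨_, h2⟩ | ⟨_, h2⟩)
      · exact absurd h2 hst
      · exact h2
    · intro h1
      exact Or.inr ⟨fun h2 => hvn s hsk (h2 ▸ h1), h1⟩
  have hsub : ∀ s, s ≠ Sum.inl k → P s ⊆ Q s := by
    intro s hsk x hx
    exact Or.inr ⟨fun h2 => hvn s hsk (h2 ▸ hx), hx⟩
  have hQc : ∀ s, Cn G (Q s) := by
    intro s
    by_cases h1 : s = Sum.inl k
    · rw [h1, hQk]
      exact hc
    · by_cases h2 : s = t
      · rw [h2, hQt]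
        exact (hPc t).insert ⟨o, ho, hvo⟩
      · rw [hQo s h1 h2]
        exact hPc s
  have hQd : ∀ s s', s ≠ s' → Disjoint (Q s) (Q s') := by
    intro s s' hne
    rw [Set.disjoint_left]
    rintro x (⟨h1, h2⟩ | ⟨h1, h2⟩) (⟨h3, h4⟩ | ⟨h3, h4⟩)
    · exact hne (h2.trans h4.symm)
    · exact h3 h1
    · exact h1 h3
    · exact Set.disjoint_left.1 (hPd s s' hne) h2 h4
  have hQa : ∀ i j, Ad G (Q (Sum.inl i)) (Q (Sum.inr j)) := by
    intro i j
    by_cases hik : i = k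
    · subst hik
      by_cases hj : t = Sum.inr j
      · obtain ⟨g, w, hg, hw, hgw, hgv, hwv⟩ := (h.ca i).exit (P := {v}) ⟨v, hv, rfl⟩
          (by
            obtain ⟨z, hz⟩ := hc.ne
            exact ⟨z, hz⟩)
        refine ⟨w, ?_, g, ?_, hgw.symm⟩
        · rw [hQk]
          exact ⟨hw, hwv⟩
        · exact Or.inl ⟨hgv, hj.symm⟩
      · exact (had j hj).mono (by rw [hQk]) (hsub (Sum.inr j) (by simp))
    · exact (h.ad i j).mono (hsub (Sum.inl i) (by simpa using hik)) (hsub (Sum.inr j) (by simp))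
  refine ⟨fun i => Q (Sum.inl i), fun j => Q (Sum.inr j),
    ⟨fun i => hQc _, fun i => hQc _, fun i j hij => hQd _ _ (by simpa using hij),
      fun i j hij => hQd _ _ (by simpa using hij), fun i j => hQd _ _ (by simp), hQa⟩, ?_, hQk, ?_⟩
  · intro x
    by_cases hx : x = v
    · rcases t with i | j
      · exact Or.inl ⟨i, Or.inl ⟨hx, rfl⟩⟩
      · exact Or.inr ⟨j, Or.inl ⟨hx, rfl⟩⟩
    · rcases hs x with ⟨i, hi⟩ | ⟨j, hj⟩
      · exact Or.inl ⟨i, Or.inr ⟨hx, hi⟩⟩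
      · exact Or.inr ⟨j, Or.inr ⟨hx, hj⟩⟩
  · intro i hik hti
    exact hQo (Sum.inl i) (by simpa using hik) (Ne.symm hti)

/-- a spanning model with the frozen parts -/
theorem shrink33_span [Fintype V] (hJ : IsKConnected 4 G) (A B : Fin 3 → Set V) (h : M33 G A B)
    (k : Fin 3) (Fz : Finset (Fin 3)) (hk : k ∉ Fz) (a : Fin 3 → V) (ha : ∀ i ∈ Fz, A i = {a i}) :
    ∃ A' B' : Fin 3 → Set V, M33 G A' B' ∧ Sp33 A' B' ∧ ∀ i ∈ Fz, A' i = {a i} := by
  classical
  set P : Fin 3 ⊕ Fin 3 → Set V := Sum.elim A B with hP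
  have hPc : ∀ s, Cn G (P s) := by
    rintro (i | j)
    · exact h.ca i
    · exact h.cb j
  have hPd : ∀ s s', s ≠ s' → Disjoint (P s) (P s') := by
    rintro (i | j) (i' | j') hne
    · exact h.da _ _ (fun h' => hne (congrArg _ h'))
    · exact h.dab _ _
    · exact (h.dab _ _).symm
    · exact h.db _ _ (fun h' => hne (congrArg _ h'))
  obtain ⟨P', h1, h2, h3, h4, h5⟩ := extend hJ P (Sum.inl '' (Fz : Set (Fin 3))) (Fz.image a)
    ((Finset.card_image_le).trans ((Finset.card_le_univ Fz).trans (by simp))) hPc hPd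
    (by
      rintro _ ⟨i, hi, rfl⟩ x hx
      have hx' : x ∈ A i := hx
      rw [ha i hi, Set.mem_singleton_iff] at hx'
      rw [hx']
      exact Finset.mem_coe.2 (Finset.mem_image_of_mem a hi))
    (by
      intro v hv
      obtain ⟨i, hi, rfl⟩ := Finset.mem_image.1 hv
      refine ⟨Sum.inl i, ⟨i, hi, rfl⟩, ?_⟩
      show a i ∈ A i
      rw [ha i hi]
      rfl)
    ⟨Sum.inl k, by
      rintro ⟨i, hi, hik⟩
      exact hk (Sum.inl_injective hik ▸ hi)⟩
  refine ⟨fun i => P' (Sum.inl i), fun j => P' (Sum.inr j),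
    ⟨fun i => h3 _, fun i => h3 _, fun i j hij => h4 _ _ (by simpa using hij),
      fun i j hij => h4 _ _ (by simpa using hij), fun i j => h4 _ _ (by simp),
      fun i j => (h.ad i j).mono (h1 (Sum.inl i)) (h1 (Sum.inr j))⟩, ?_, ?_⟩
  · intro v
    obtain ⟨s, hs⟩ := h5 v
    rcases s with i | j
    · exact Or.inl ⟨i, hs⟩
    · exact Or.inr ⟨j, hs⟩
  · intro i hi
    have h6 := h2 (Sum.inl i) ⟨i, hi, rfl⟩
    show P' (Sum.inl i) = {a i}
    rw [h6, ← ha i hi]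
    rfl

theorem shrink33 [Fintype V] (hJ : IsKConnected 4 G) (A B : Fin 3 → Set V) (h : M33 G A B)
    (k : Fin 3) (Fz : Finset (Fin 3)) (hk : k ∉ Fz) (a : Fin 3 → V) (ha : ∀ i ∈ Fz, A i = {a i}) :
    ∃ A' B' : Fin 3 → Set V, M33 G A' B' ∧ Sp33 A' B' ∧ (∀ i ∈ Fz, A' i = A i) ∧
      ∃ y, A' k = {y} := by
  classical
  have hex : ∃ n : ℕ, ∃ A' B' : Fin 3 → Set V, M33 G A' B' ∧ Sp33 A' B' ∧
      (∀ i ∈ Fz, A' i = {a i}) ∧ (A' k).ncard = n := by
    obtain ⟨A', B', h1, h2, h3⟩ := shrink33_span hJ A B h k Fz hk a ha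
    exact ⟨_, A', B', h1, h2, h3, rfl⟩
  obtain ⟨A₁, B₁, h1, h2, h3, h4⟩ := Nat.find_spec hex
  have hmin : ∀ A' B' : Fin 3 → Set V, M33 G A' B' → Sp33 A' B' → (∀ i ∈ Fz, A' i = {a i}) →
      ¬ (A' k).ncard < (A₁ k).ncard := by
    intro A' B' g1 g2 g3 hlt
    rw [h4] at hlt
    exact Nat.find_min hex hlt ⟨A', B', g1, g2, g3, rfl⟩
  refine ⟨A₁, B₁, h1, h2, fun i hi => by rw [h3 i hi, ha i hi], ?_⟩
  by_contra hno
  push Not at hno
  have hfin : (A₁ k).Finite := Set.toFinite _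
  -- moving is impossible
  have hmove : ∀ (v o : V) (t : Fin 3 ⊕ Fin 3), t ≠ Sum.inl k → (∀ i ∈ Fz, t ≠ Sum.inl i) →
      v ∈ A₁ k → Cn G (A₁ k \ {v}) → o ∈ Sum.elim A₁ B₁ t → G.Adj v o →
      ∃ j, t ≠ Sum.inr j ∧ ¬ Ad G (A₁ k \ {v}) (B₁ j) := by
    intro v o t ht htF hv hc ho hvo
    by_contra hcon
    push Not at hcon
    obtain ⟨A', B', g1, g2, g3, g4⟩ := shrink33_move h1 h2 ht hv hc ho hvo hcon
    refine hmin A' B' g1 g2 ?_ ?_
    · intro i hi
      rw [g4 i (fun h' => hk (h' ▸ hi)) (htF i hi), h3 i hi]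
    · rw [g3]
      exact Set.ncard_sdiff_singleton_lt_of_mem hv hfin
  have hclaim : ∀ v o : V, v ∈ A₁ k → Cn G (A₁ k \ {v}) → o ∉ A₁ k → o ∉ Fz.image a → G.Adj v o →
      ∃ j j', j ≠ j' ∧ ¬ Ad G (A₁ k \ {v}) (B₁ j) ∧ ¬ Ad G (A₁ k \ {v}) (B₁ j') := by
    intro v o hv hc hoZ hoF hvo
    have hj : ∃ j, ¬ Ad G (A₁ k \ {v}) (B₁ j) := by
      rcases h2 o with ⟨i, hi⟩ | ⟨j, hj⟩
      · obtain ⟨j, _, hj⟩ := hmove v o (Sum.inl i)
          (fun h' => hoZ (Sum.inl_injective h' ▸ hi))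
          (fun i' hi' h' => hoF (by
            have h5 := Sum.inl_injective h'
            rw [h5, h3 i' hi', Set.mem_singleton_iff] at hi
            rw [hi]
            exact Finset.mem_image_of_mem a hi')) hv hc hi hvo
        exact ⟨j, hj⟩
      · obtain ⟨j', _, hj'⟩ := hmove v o (Sum.inr j) (by simp) (by simp) hv hc hj hvo
        exact ⟨j', hj'⟩
    obtain ⟨j, hj⟩ := hj
    obtain ⟨s, hs, u, hu, hsu⟩ := h1.ad k j
    have hsv : s = v := by
      by_contra hsv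
      exact hj ⟨s, ⟨hs, hsv⟩, u, hu, hsu⟩
    rw [hsv] at hsu
    obtain ⟨j', hjj', hj'⟩ := hmove v u (Sum.inr j) (by simp) (by simp) hv hc hu hsu
    exact ⟨j, j', fun h' => hjj' (congrArg _ h'), hj, hj'⟩
  have hFcard : (Fz.image a).card ≤ 2 := by
    have h5 : Fz ⊆ Finset.univ.erase k := by
      intro i hi
      exact Finset.mem_erase.2 ⟨fun h' => hk (h' ▸ hi), Finset.mem_univ _⟩
    have h6 := Finset.card_le_card h5
    rw [Finset.card_erase_of_mem (Finset.mem_univ _), Finset.card_univ, Fintype.card_fin] at h6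
    exact Finset.card_image_le.trans h6
  have hFZ : ∀ s ∈ Fz.image a, s ∉ A₁ k := by
    intro s hs hsk
    obtain ⟨i, hi, rfl⟩ := Finset.mem_image.1 hs
    refine Set.disjoint_left.1 (h1.da i k (fun h' => hk (h' ▸ hi))) (?_ : a i ∈ A₁ i) hsk
    rw [h3 i hi]
    rfl
  have hO : ∃ o, o ∉ A₁ k ∧ o ∉ Fz.image a := by
    obtain ⟨o, ho⟩ := (h1.cb 0).ne
    refine ⟨o, fun h' => Set.disjoint_left.1 (h1.dab k 0) h' ho, fun h' => ?_⟩
    obtain ⟨i, hi, rfl⟩ := Finset.mem_image.1 h'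
    refine Set.disjoint_left.1 (h1.dab i 0) (?_ : a i ∈ A₁ i) ho
    rw [h3 i hi]
    rfl
  obtain ⟨r, hr⟩ := (h1.ca k).ne
  obtain ⟨v, hv, hvr, hvc, o, ho1, ho2, hvo⟩ := last hJ (A₁ k) (h1.ca k) r hr (hno r)
    (Fz.image a) hFcard hFZ hO
  obtain ⟨v', hv', hvv, hvc', o', ho1', ho2', hvo'⟩ := last hJ (A₁ k) (h1.ca k) v hv (hno v)
    (Fz.image a) hFcard hFZ hO
  obtain ⟨j1, j2, hj12, hj1, hj2⟩ := hclaim v o hv hvc ho1 ho2 hvo
  obtain ⟨j3, j4, hj34, hj3, hj4⟩ := hclaim v' o' hv' hvc' ho1' ho2' hvo'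
  have key : ∀ m, ¬ Ad G (A₁ k \ {v}) (B₁ m) → ¬ Ad G (A₁ k \ {v'}) (B₁ m) → False := by
    intro m hm hm'
    obtain ⟨s, hs, u, hu, hsu⟩ := h1.ad k m
    have e1 : s = v := by
      by_contra hsv
      exact hm ⟨s, ⟨hs, hsv⟩, u, hu, hsu⟩
    have e2 : s = v' := by
      by_contra hsv
      exact hm' ⟨s, ⟨hs, hsv⟩, u, hu, hsu⟩
    exact hvv (e2.symm.trans e1)
  have h13 : j1 ≠ j3 := fun h' => key j1 hj1 (h' ▸ hj3)
  have h14 : j1 ≠ j4 := fun h' => key j1 hj1 (h' ▸ hj4)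
  have h23 : j2 ≠ j3 := fun h' => key j2 hj2 (h' ▸ hj3)
  have h24 : j2 ≠ j4 := fun h' => key j2 hj2 (h' ▸ hj4)
  omega

end Pool.Agent.LR5
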