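import Pool.Agent.LR5.Dich

/-!
LR5, step 3: `x` adjacent to `y`, spanning `K₅` model with `D 0 = {y}` and `x ∈ D 1`.
Then there is a `K₅` model or a `K₃,₃` model with `{x}` a branch set.

Proof.  Among the spanning models with `D 0 = {y}` and `x ∈ D 1` take one with `(D 1).ncard` minimal,
`Z := D 1`.  If `Z = {x}`: permute, `Has5`.  Otherwise apply `dich` with `k := 3`,
`Q := ![D 2, D 3, D 4]`.
Hypothesis `H`: let `v ∈ Z`, `v ≠ x`, `Z \ {v}` connected, `v` adjacent to `o ∉ Z`, `o ≠ y`.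
`Z \ {v}` contains `x`, so it is adjacent to `{y}`.  `o` lies in `D j`, `j ≥ 2`.  Move `v` to `D j`; by
minimality not a model; `Z \ {v}` is adjacent to `D j ∪ {v}`; so it is not adjacent to some `D j'`,
`j' ≥ 2`, `j' ≠ j`.  Then `v` is adjacent to `D j'`; move `v` to `D j'`: this gives `j'' ≠ j'`.
Conclusion of `dich`: `K := Z \ {x}` is connected, `x` has a neighbour `o ∉ Z ∪ {y}`, and some
`v ∈ Z`, `v ≠ x` is the only contact of `Z` with `D i` and with `D j` (`i ≠ j`, both at least 2); let `m`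
be the third index.  `x` has no neighbour in `D i`, `D j`, so `o ∈ D m`.  `K₃,₃` model (`mk33`):
side A `{x}`, `D i`, `D j`; side B `K`, `{y}`, `D m`.
-/

set_option autoImplicit false

namespace Pool.Agent.LR5

open Pool.Agent.LG6

variable {V : Type} {G : SimpleGraph V}

/-- the family after moving `v` from part `p` to part `q` -/
def mv5 (D : Fin 5 → Set V) (p q : Fin 5) (v : V) : Fin 5 → Set V :=
  fun i => if i = p then D p \ {v} else if i = q then insert v (D q) else D i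

theorem mv5_p (D : Fin 5 → Set V) (p q : Fin 5) (v : V) : mv5 D p q v p = D p \ {v} := by
  simp [mv5]

theorem mv5_q (D : Fin 5 → Set V) (p q : Fin 5) (v : V) (h : p ≠ q) :
    mv5 D p q v q = insert v (D q) := by
  simp [mv5, h.symm]

theorem mv5_r (D : Fin 5 → Set V) (p q r : Fin 5) (v : V) (h1 : r ≠ p) (h2 : r ≠ q) :
    mv5 D p q v r = D r := by
  simp [mv5, h1, h2]

/-- an edge from `v` to the rest of a connected set -/
theorem ad_rest {Z : Set V} (hZ : Cn G Z) {v : V} (hv : v ∈ Z) (hne : Z ≠ {v}) :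
    ∃ w ∈ Z \ {v}, G.Adj v w := by
  have h2 : (Z \ {v}).Nonempty := by
    rw [Set.nonempty_iff_ne_empty]
    intro h
    apply hne
    rw [Set.sdiff_eq_empty] at h
    exact Set.Subset.antisymm h (Set.singleton_subset_iff.2 hv)
  obtain ⟨g, w, hg, hw, hgw, hgP, hwP⟩ := hZ.exit (P := {v}) ⟨v, hv, rfl⟩ h2
  rw [Set.mem_singleton_iff] at hgP
  subst hgP
  exact ⟨w, ⟨hw, hwP⟩, hgw⟩

theorem mv5_M5 {D : Fin 5 → Set V} (h : M5 G D) (hs : Sp5 D) {p q : Fin 5} (hpq : p ≠ q) {v : V}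
    (hv : v ∈ D p) (hc : Cn G (D p \ {v})) (ho : ∃ o ∈ D q, G.Adj v o)
    (hr : ∀ r, r ≠ p → r ≠ q → Ad G (D p \ {v}) (D r)) :
    M5 G (mv5 D p q v) ∧ Sp5 (mv5 D p q v) := by
  have hne : D p ≠ {v} := by
    intro h'
    obtain ⟨w, hw, hw'⟩ := hc.ne
    rw [h'] at hw
    exact hw' hw
  obtain ⟨w, hw, hvw⟩ := ad_rest (h.c p) hv hne
  have key : ∀ i j, i ≠ j → Disjoint (mv5 D p q v i) (mv5 D p q v j) ∧
      Ad G (mv5 D p q v i) (mv5 D p q v j) := by
    -- symmetric relation, reduce to the cases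
    have hsub : ∀ r, r ≠ p → D r ⊆ mv5 D p q v r := by
      intro r hrp
      by_cases hrq : r = q
      · subst hrq
        rw [mv5_q D p r v hpq]
        exact Set.subset_insert _ _
      · rw [mv5_r D p q r v hrp hrq]
    have hvr : ∀ r, r ≠ p → v ∉ D r := fun r hrp h' =>
      Set.disjoint_left.1 (h.d p r (Ne.symm hrp)) hv h'
    have hP : ∀ r, r ≠ p → Disjoint (mv5 D p q v p) (mv5 D p q v r) ∧
        Ad G (mv5 D p q v p) (mv5 D p q v r) := by
      intro r hrp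
      rw [mv5_p]
      by_cases hrq : r = q
      · subst hrq
        rw [mv5_q D p r v hpq]
        refine ⟨?_, w, hw, v, Set.mem_insert _ _, hvw.symm⟩
        rw [Set.disjoint_left]
        rintro z ⟨hz, hz'⟩ hz2
        rcases hz2 with hz2 | hz2
        · exact hz' hz2
        · exact Set.disjoint_left.1 (h.d p r hpq) hz hz2
      · rw [mv5_r D p q r v hrp hrq]
        refine ⟨?_, hr r hrp hrq⟩
        rw [Set.disjoint_left]
        rintro z ⟨hz, _⟩ hz2
        exact Set.disjoint_left.1 (h.d p r (Ne.symm hrp)) hz hz2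
    have hQ : ∀ r, r ≠ p → r ≠ q → Disjoint (mv5 D p q v q) (mv5 D p q v r) ∧
        Ad G (mv5 D p q v q) (mv5 D p q v r) := by
      intro r hrp hrq
      rw [mv5_q D p q v hpq, mv5_r D p q r v hrp hrq]
      refine ⟨?_, (h.ad q r (Ne.symm hrq)).mono (Set.subset_insert _ _) subset_rfl⟩
      rw [Set.disjoint_left]
      rintro z hz hz2
      rcases hz with hz | hz
      · rw [hz] at hz2
        exact hvr r hrp hz2
      · exact Set.disjoint_left.1 (h.d q r (Ne.symm hrq)) hz hz2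
    intro i j hij
    by_cases hip : i = p
    · subst hip
      exact hP j (Ne.symm hij)
    by_cases hjp : j = p
    · subst hjp
      exact ⟨(hP i hij).1.symm, (hP i hij).2.symm⟩
    by_cases hiq : i = q
    · subst hiq
      exact hQ j hjp (Ne.symm hij)
    by_cases hjq : j = q
    · subst hjq
      exact ⟨(hQ i hip hij).1.symm, (hQ i hip hij).2.symm⟩
    rw [mv5_r D p q i v hip hiq, mv5_r D p q j v hjp hjq]
    exact ⟨h.d i j hij, h.ad i j hij⟩
  refine ⟨⟨?_, fun i j hij => (key i j hij).1, fun i j hij => (key i j hij).2⟩, ?_⟩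
  · intro i
    by_cases hip : i = p
    · subst hip
      rw [mv5_p]
      exact hc
    by_cases hiq : i = q
    · subst hiq
      rw [mv5_q D p i v hpq]
      exact (h.c i).insert ho
    rw [mv5_r D p q i v hip hiq]
    exact h.c i
  · intro z
    by_cases hzv : z = v
    · subst hzv
      exact ⟨q, by rw [mv5_q D p q z hpq]; exact Set.mem_insert _ _⟩
    · obtain ⟨i, hi⟩ := hs z
      refine ⟨i, ?_⟩
      by_cases hip : i = p
      · subst hip
        rw [mv5_p]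
        exact ⟨hi, hzv⟩
      by_cases hiq : i = q
      · subst hiq
        rw [mv5_q D p i v hpq]
        exact Set.mem_insert_of_mem _ hi
      rw [mv5_r D p q i v hip hiq]
      exact hi

theorem step5 [Fintype V] (hJ : IsKConnected 4 G) (x y : V) (hxy : G.Adj x y)
    (D : Fin 5 → Set V) (h : M5 G D) (hs : Sp5 D) (hy : D 0 = {y}) (hx : x ∈ D 1) :
    Has5 G x ∨ Has33 G x := by
  induction hn : (D 1).ncard using Nat.strong_induction_on generalizing D with
  | _ n ih =>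
  subst hn
  by_contra hcon
  have hmin : ∀ D' : Fin 5 → Set V, M5 G D' → Sp5 D' → D' 0 = {y} → x ∈ D' 1 →
      ¬ (D' 1).ncard < (D 1).ncard := fun D' h1 h2 h3 h4 h5 => hcon (ih _ h5 D' h1 h2 h3 h4 rfl)
  rw [not_or] at hcon
  by_cases hne : D 1 = {x}
  · apply hcon.1
    refine ⟨_, h.perm (Equiv.swap 0 1), ?_⟩
    show D (Equiv.swap 0 1 0) = {x}
    rw [Equiv.swap_apply_left]
    exact hne
  have hyZ : y ∉ D 1 := by
    intro h'
    refine Set.disjoint_left.1 (h.d 0 1 (by decide)) ?_ h'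
    rw [hy]
    rfl
  have hyr : ∀ r, r ≠ 0 → y ∉ D r := by
    intro r hr h'
    refine Set.disjoint_left.1 (h.d 0 r (Ne.symm hr)) ?_ h'
    rw [hy]
    rfl
  have hfin : (D 1).Finite := Set.toFinite _
  -- moving a vertex
  have hA : ∀ v ∈ D 1, v ≠ x → Cn G (D 1 \ {v}) → ∀ q : Fin 5, q ≠ 0 → q ≠ 1 →
      (∃ o ∈ D q, G.Adj v o) → ∃ r, r ≠ 0 ∧ r ≠ 1 ∧ r ≠ q ∧ ¬ Ad G (D 1 \ {v}) (D r) := by
    intro v hv hvx hc q hq0 hq1 ho
    by_contra hno
    push Not at hno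
    obtain ⟨h1, h2⟩ := mv5_M5 h hs (Ne.symm hq1) hv hc ho (by
      intro r hr1 hrq
      by_cases hr0 : r = 0
      · subst hr0
        rw [hy]
        exact ⟨x, ⟨hx, fun h' => hvx h'.symm⟩, y, rfl, hxy⟩
      · exact hno r hr0 hr1 hrq)
    apply hmin _ h1 h2
    · rw [mv5_r D 1 q 0 v (by decide) (Ne.symm hq0)]
      exact hy
    · rw [mv5_p]
      exact ⟨hx, fun h' => hvx h'.symm⟩
    · rw [mv5_p]
      exact Set.ncard_sdiff_singleton_lt_of_mem hv hfin
  have he : ∀ a : Fin 5, a ≠ 0 → a ≠ 1 → ∃ l : Fin 3, a = l.succ.succ := by decide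
  have he0 : ∀ l : Fin 3, l.succ.succ ≠ (0 : Fin 5) := by decide
  have he1 : ∀ l : Fin 3, l.succ.succ ≠ (1 : Fin 5) := by decide
  have hinj : ∀ l m : Fin 3, l ≠ m → l.succ.succ ≠ m.succ.succ := by decide
  -- `v` is the only contact
  have hcon1 : ∀ v r, r ≠ 1 → ¬ Ad G (D 1 \ {v}) (D r) → ∃ o ∈ D r, G.Adj v o := by
    intro v r hr hna
    obtain ⟨s, hs', t, ht, hst⟩ := h.ad 1 r (Ne.symm hr)
    by_cases hsv : s = v
    · subst hsv
      exact ⟨t, ht, hst⟩
    · exact absurd ⟨s, ⟨hs', hsv⟩, t, ht, hst⟩ hna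
  obtain ⟨o2, ho2⟩ := (h.c 2).ne
  obtain ⟨hK, ⟨o, hoZ, hoy, hxo⟩, v, hvZ, hvx, i, j, hij, hni, hnj⟩ :=
    dich hJ (D 1) (h.c 1) x y hx hne hyZ
      ⟨o2, fun h' => Set.disjoint_left.1 (h.d 1 2 (by decide)) h' ho2,
        fun h' => hyr 2 (by decide) (h' ▸ ho2)⟩ 3 le_rfl (fun l => D l.succ.succ)
      (fun l => h.ad _ _ (Ne.symm (he1 l))) (by
        intro v hv hvx hc ⟨o, hoZ, hoy, hvo⟩
        obtain ⟨a, ha⟩ := hs o
        have ha1 : a ≠ 1 := by
          rintro rfl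
          exact hoZ ha
        have ha0 : a ≠ 0 := by
          rintro rfl
          rw [hy] at ha
          exact hoy ha
        obtain ⟨b, hb0, hb1, _, hbn⟩ := hA v hv hvx hc a ha0 ha1 ⟨o, ha, hvo⟩
        obtain ⟨c, hc0, hc1, hcb, hcn⟩ := hA v hv hvx hc b hb0 hb1 (hcon1 v b hb1 hbn)
        obtain ⟨l, rfl⟩ := he b hb0 hb1
        obtain ⟨m, rfl⟩ := he c hc0 hc1
        refine ⟨l, m, ?_, hbn, hcn⟩
        rintro rfl
        exact hcb rfl)
  have h3 : ∀ i j : Fin 3, i ≠ j → ∃ m, m ≠ i ∧ m ≠ j ∧ ∀ l, l ≠ i → l ≠ j → l = m := by decide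
  obtain ⟨m, hmi, hmj, hmu⟩ := h3 i j hij
  have hxv : x ∈ D 1 \ {v} := ⟨hx, fun h' => hvx h'.symm⟩
  have hvK : v ∈ D 1 \ {x} := ⟨hvZ, hvx⟩
  have hom : o ∈ D m.succ.succ := by
    obtain ⟨a, ha⟩ := hs o
    have ha1 : a ≠ 1 := by
      rintro rfl
      exact hoZ ha
    have ha0 : a ≠ 0 := by
      rintro rfl
      rw [hy] at ha
      exact hoy ha
    obtain ⟨l, rfl⟩ := he a ha0 ha1
    have hli : l ≠ i := by
      rintro rfl
      exact hni ⟨x, hxv, o, ha, hxo⟩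
    have hlj : l ≠ j := by
      rintro rfl
      exact hnj ⟨x, hxv, o, ha, hxo⟩
    rw [← hmu l hli hlj]
    exact ha
  obtain ⟨oi, hoi, hvoi⟩ := hcon1 v i.succ.succ (he1 i) hni
  obtain ⟨oj, hoj, hvoj⟩ := hcon1 v j.succ.succ (he1 j) hnj
  obtain ⟨w, hw, hxw⟩ := ad_rest (h.c 1) hx hne
  have hxr : ∀ r, r ≠ 1 → x ∉ D r := fun r hr h' =>
    Set.disjoint_left.1 (h.d 1 r (Ne.symm hr)) hx h'
  have dK : ∀ l : Fin 3, Disjoint (D l.succ.succ) (D 1 \ {x}) := fun l =>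
    Set.disjoint_of_subset_right Set.sdiff_subset (h.d _ _ (he1 l))
  have dY : ∀ l : Fin 3, Disjoint (D l.succ.succ) ({y} : Set V) := fun l =>
    Set.disjoint_singleton_right.2 (hyr _ (he0 l))
  have aY : ∀ l : Fin 3, Ad G (D l.succ.succ) ({y} : Set V) := fun l => by
    rw [← hy]
    exact h.ad _ _ (he0 l)
  apply hcon.2
  refine ⟨_, _, mk33 (A0 := {x}) (A1 := D i.succ.succ) (A2 := D j.succ.succ)
    (B0 := D 1 \ {x}) (B1 := {y}) (B2 := D m.succ.succ) (cn_single G x) (h.c _) (h.c _) hK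
    (cn_single G y) (h.c _) ?_ ?_ ?_ ?_ ?_ ?_ ?_ ?_ ?_ ?_ ?_ ?_ ?_ ?_ ?_ ?_ ?_ ?_ ?_ ?_ ?_ ?_ ?_ ?_,
    rfl⟩
  · exact Set.disjoint_singleton_left.2 (hxr _ (he1 i))
  · exact Set.disjoint_singleton_left.2 (hxr _ (he1 j))
  · exact h.d _ _ (hinj i j hij)
  · exact Set.disjoint_singleton_right.2 (fun h' => hyZ h'.1)
  · exact (dK m).symm
  · exact (dY m).symm
  · exact Set.disjoint_singleton_left.2 (fun h' => h'.2 rfl)
  · exact Set.disjoint_singleton.2 hxy.ne
  · exact Set.disjoint_singleton_left.2 (hxr _ (he1 m))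
  · exact dK i
  · exact dY i
  · exact h.d _ _ (hinj i m hmi.symm)
  · exact dK j
  · exact dY j
  · exact h.d _ _ (hinj j m hmj.symm)
  · exact ⟨x, rfl, w, hw, hxw⟩
  · exact ⟨x, rfl, y, rfl, hxy⟩
  · exact ⟨x, rfl, o, hom, hxo⟩
  · exact ⟨oi, hoi, v, hvK, hvoi.symm⟩
  · exact aY i
  · exact h.ad _ _ (hinj i m hmi.symm)
  · exact ⟨oj, hoj, v, hvK, hvoj.symm⟩
  · exact aY j
  · exact h.ad _ _ (hinj j m hmj.symm)

end Pool.Agent.LR5
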