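import Pool.Agent.LR5.Dich

/-!
LR5, step 2: `x` adjacent to `y`, spanning `K₃,₃` model with `A 0 = {y}` and `x ∈ A 1`.
Then there is a `K₃,₃` model with `{x}` a branch set.

Proof.  Among the spanning models with `A 0 = {y}` and `x ∈ A 1` take one with `(A 1).ncard` minimal,
`Z := A 1`.  If `Z = {x}`: permute.  Otherwise apply `dich` with `k := 3`, `Q := B`.
Hypothesis `H`: let `v ∈ Z`, `v ≠ x`, `Z \ {v}` connected, `v` adjacent to `o ∉ Z`, `o ≠ y`.  `o` lies
in `A 2` or some `B j`.  Move `v` to that part; by minimality the result is not a model.  If `v` was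
moved to `A 2`, then `Z \ {v}` is not adjacent to some `B j'`; if to `B j`, then `Z \ {v}` is adjacent
to `B j ∪ {v}`, so it is not adjacent to some `B j'`, `j' ≠ j`.  Then `v` is adjacent to `B j'`; move
`v` to `B j'`: not a model, which gives `j'' ≠ j'`.
Conclusion of `dich`: `K := Z \ {x}` is connected, `x` has a neighbour `o ∉ Z ∪ {y}`, and some
`v ∈ Z`, `v ≠ x` is the only contact of `Z` with `B i` and with `B j`, `i ≠ j`; let `m` be the third
index.  `x` has no neighbour in `B i`, `B j`.  So `o ∈ A 2` or `o ∈ B m`.  Let `W := A 2` in the first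
case, `W := A 2 ∪ B m` in the second.  New model (`mk33`): side A `{x}`, `B i`, `B j`;
side B `K`, `{y}`, `W`.
-/

set_option autoImplicit false

namespace Pool.Agent.LR5

open Pool.Agent.LG6

variable {V : Type} {G : SimpleGraph V}

/-- the family after moving `v` from part `p` to part `q` of the same side -/
def mvS (A : Fin 3 → Set V) (p q : Fin 3) (v : V) : Fin 3 → Set V :=
  fun i => if i = p then A p \ {v} else if i = q then insert v (A q) else A i

theorem mvS_p (A : Fin 3 → Set V) (p q : Fin 3) (v : V) : mvS A p q v p = A p \ {v} := by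
  simp [mvS]

theorem mvS_q (A : Fin 3 → Set V) (p q : Fin 3) (v : V) (h : p ≠ q) :
    mvS A p q v q = insert v (A q) := by
  simp [mvS, h.symm]

theorem mvS_r (A : Fin 3 → Set V) (p q r : Fin 3) (v : V) (h1 : r ≠ p) (h2 : r ≠ q) :
    mvS A p q v r = A r := by
  simp [mvS, h1, h2]

/-- an edge from `v` to the rest of a connected set -/
theorem ad_restS {Z : Set V} (hZ : Cn G Z) {v : V} (hv : v ∈ Z) (hne : Z ≠ {v}) :
    ∃ w ∈ Z \ {v}, G.Adj v w := by
  have h2 : (Z \ {v}).Nonempty := by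
    rw [Set.nonempty_iff_ne_empty]
    intro h
    apply hne
    rw [Set.sdiff_eq_empty] at h
    exact Set.Subset.antisymm h (Set.singleton_subset_iff.2 hv)
  obtain ⟨g, w, hg, hw, hgw, hgP, hwP⟩ := hZ.exit (P := {v}) ⟨v, hv, rfl⟩ h2
  rw [Set.mem_singleton_iff] at hgP
  subst hgP
  exact ⟨w, ⟨hw, hwP⟩, hgw⟩

/-- moving `v` from `A p` to `A q` -/
theorem mvS_M33 {A B : Fin 3 → Set V} (h : M33 G A B) (hs : Sp33 A B) {p q : Fin 3}
    (hpq : p ≠ q) {v : V} (hv : v ∈ A p) (hc : Cn G (A p \ {v})) (ho : ∃ o ∈ A q, G.Adj v o)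
    (hr : ∀ r, Ad G (A p \ {v}) (B r)) :
    M33 G (mvS A p q v) B ∧ Sp33 (mvS A p q v) B := by
  have hvr : ∀ r, r ≠ p → v ∉ A r := fun r hrp h' =>
    Set.disjoint_left.1 (h.da p r (Ne.symm hrp)) hv h'
  have hP : ∀ r, r ≠ p → Disjoint (mvS A p q v p) (mvS A p q v r) := by
    intro r hrp
    rw [mvS_p]
    by_cases hrq : r = q
    · subst hrq
      rw [mvS_q A p r v hpq, Set.disjoint_left]
      rintro z ⟨hz, hz'⟩ hz2
      rcases hz2 with hz2 | hz2
      · exact hz' hz2
      · exact Set.disjoint_left.1 (h.da p r hpq) hz hz2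
    · rw [mvS_r A p q r v hrp hrq]
      exact Set.disjoint_of_subset_left Set.sdiff_subset (h.da p r (Ne.symm hrp))
  have hQ : ∀ r, r ≠ p → r ≠ q → Disjoint (mvS A p q v q) (mvS A p q v r) := by
    intro r hrp hrq
    rw [mvS_q A p q v hpq, mvS_r A p q r v hrp hrq, Set.disjoint_left]
    rintro z hz hz2
    rcases hz with hz | hz
    · rw [hz] at hz2
      exact hvr r hrp hz2
    · exact Set.disjoint_left.1 (h.da q r (Ne.symm hrq)) hz hz2
  refine ⟨⟨?_, h.cb, ?_, h.db, ?_, ?_⟩, ?_⟩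
  · intro i
    by_cases hip : i = p
    · subst hip
      rw [mvS_p]
      exact hc
    by_cases hiq : i = q
    · subst hiq
      rw [mvS_q A p i v hpq]
      exact (h.ca i).insert ho
    rw [mvS_r A p q i v hip hiq]
    exact h.ca i
  · intro i j hij
    by_cases hip : i = p
    · subst hip
      exact hP j (Ne.symm hij)
    by_cases hjp : j = p
    · subst hjp
      exact (hP i hij).symm
    by_cases hiq : i = q
    · subst hiq
      exact hQ j hjp (Ne.symm hij)
    by_cases hjq : j = q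
    · subst hjq
      exact (hQ i hip hij).symm
    rw [mvS_r A p q i v hip hiq, mvS_r A p q j v hjp hjq]
    exact h.da i j hij
  · intro i j
    by_cases hip : i = p
    · subst hip
      rw [mvS_p]
      exact Set.disjoint_of_subset_left Set.sdiff_subset (h.dab i j)
    by_cases hiq : i = q
    · subst hiq
      rw [mvS_q A p i v hpq, Set.disjoint_left]
      rintro z hz hz2
      rcases hz with hz | hz
      · rw [hz] at hz2
        exact Set.disjoint_left.1 (h.dab p j) hv hz2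
      · exact Set.disjoint_left.1 (h.dab i j) hz hz2
    rw [mvS_r A p q i v hip hiq]
    exact h.dab i j
  · intro i j
    by_cases hip : i = p
    · subst hip
      rw [mvS_p]
      exact hr j
    by_cases hiq : i = q
    · subst hiq
      rw [mvS_q A p i v hpq]
      exact (h.ad i j).mono (Set.subset_insert _ _) subset_rfl
    rw [mvS_r A p q i v hip hiq]
    exact h.ad i j
  · intro z
    by_cases hzv : z = v
    · subst hzv
      exact Or.inl ⟨q, by rw [mvS_q A p q z hpq]; exact Set.mem_insert _ _⟩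
    · rcases hs z with ⟨i, hi⟩ | hz
      · refine Or.inl ⟨i, ?_⟩
        by_cases hip : i = p
        · subst hip
          rw [mvS_p]
          exact ⟨hi, hzv⟩
        by_cases hiq : i = q
        · subst hiq
          rw [mvS_q A p i v hpq]
          exact Set.mem_insert_of_mem _ hi
        rw [mvS_r A p q i v hip hiq]
        exact hi
      · exact Or.inr hz

/-- moving `v` from `A p` to `B q` -/
theorem mvO_M33 {A B : Fin 3 → Set V} (h : M33 G A B) (hs : Sp33 A B) {p q : Fin 3}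
    {v : V} (hv : v ∈ A p) (hc : Cn G (A p \ {v})) (ho : ∃ o ∈ B q, G.Adj v o)
    (hr : ∀ r, r ≠ q → Ad G (A p \ {v}) (B r)) :
    M33 G (Function.update A p (A p \ {v})) (Function.update B q (insert v (B q))) ∧
      Sp33 (Function.update A p (A p \ {v})) (Function.update B q (insert v (B q))) := by
  have hne : A p ≠ {v} := by
    intro h'
    obtain ⟨w, hw, hw'⟩ := hc.ne
    rw [h'] at hw
    exact hw' hw
  obtain ⟨w, hw, hvw⟩ := ad_restS (h.ca p) hv hne
  set A' := Function.update A p (A p \ {v}) with hA'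
  set B' := Function.update B q (insert v (B q)) with hB'
  have a1 : A' p = A p \ {v} := by rw [hA', Function.update_self]
  have a2 : ∀ r, r ≠ p → A' r = A r := fun r hr => by rw [hA', Function.update_of_ne hr]
  have b1 : B' q = insert v (B q) := by rw [hB', Function.update_self]
  have b2 : ∀ r, r ≠ q → B' r = B r := fun r hr => by rw [hB', Function.update_of_ne hr]
  have hsub : ∀ r, A' r ⊆ A r := by
    intro r
    by_cases hrp : r = p
    · subst hrp
      rw [a1]
      exact Set.sdiff_subset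
    · rw [a2 r hrp]
  have hsup : ∀ r, B r ⊆ B' r := by
    intro r
    by_cases hrq : r = q
    · subst hrq
      rw [b1]
      exact Set.subset_insert _ _
    · rw [b2 r hrq]
  have hvA' : ∀ r, v ∉ A' r := by
    intro r hr'
    by_cases hrp : r = p
    · subst hrp
      rw [a1] at hr'
      exact hr'.2 rfl
    · rw [a2 r hrp] at hr'
      exact Set.disjoint_left.1 (h.da p r (Ne.symm hrp)) hv hr'
  have hvB : ∀ r, v ∉ B r := fun r h' => Set.disjoint_left.1 (h.dab p r) hv h'
  have hB'm : ∀ r z, z ∈ B' r → (r = q ∧ z = v) ∨ z ∈ B r := by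
    intro r z hz
    by_cases hrq : r = q
    · subst hrq
      rw [b1] at hz
      rcases hz with hz | hz
      · exact Or.inl ⟨rfl, hz⟩
      · exact Or.inr hz
    · rw [b2 r hrq] at hz
      exact Or.inr hz
  refine ⟨⟨?_, ?_, ?_, ?_, ?_, ?_⟩, ?_⟩
  · intro i
    by_cases hip : i = p
    · subst hip
      rw [a1]
      exact hc
    rw [a2 i hip]
    exact h.ca i
  · intro i
    by_cases hiq : i = q
    · subst hiq
      rw [b1]
      exact (h.cb i).insert ho
    rw [b2 i hiq]
    exact h.cb i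
  · intro i j hij
    exact Set.disjoint_of_subset (hsub i) (hsub j) (h.da i j hij)
  · intro i j hij
    rw [Set.disjoint_left]
    intro z hz hz2
    rcases hB'm i z hz with ⟨h1, h2⟩ | h1
    · rcases hB'm j z hz2 with ⟨h3, _⟩ | h3
      · exact hij (h1.trans h3.symm)
      · rw [h2] at h3
        exact hvB j h3
    · rcases hB'm j z hz2 with ⟨_, h3⟩ | h3
      · rw [h3] at h1
        exact hvB i h1
      · exact Set.disjoint_left.1 (h.db i j hij) h1 h3
  · intro i j
    rw [Set.disjoint_left]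
    intro z hz hz2
    rcases hB'm j z hz2 with ⟨_, h2⟩ | h1
    · rw [h2] at hz
      exact hvA' i hz
    · exact Set.disjoint_left.1 (h.dab i j) (hsub i hz) h1
  · intro i j
    by_cases hip : i = p
    · subst hip
      rw [a1]
      by_cases hjq : j = q
      · subst hjq
        rw [b1]
        exact ⟨w, hw, v, Set.mem_insert _ _, hvw.symm⟩
      · rw [b2 j hjq]
        exact hr j hjq
    · rw [a2 i hip]
      exact (h.ad i j).mono subset_rfl (hsup j)
  · intro z
    by_cases hzv : z = v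
    · subst hzv
      exact Or.inr ⟨q, by rw [b1]; exact Set.mem_insert _ _⟩
    · rcases hs z with ⟨i, hi⟩ | ⟨i, hi⟩
      · refine Or.inl ⟨i, ?_⟩
        by_cases hip : i = p
        · subst hip
          rw [a1]
          exact ⟨hi, hzv⟩
        rw [a2 i hip]
        exact hi
      · exact Or.inr ⟨i, hsup i hi⟩

theorem stepSame [Fintype V] (hJ : IsKConnected 4 G) (x y : V) (hxy : G.Adj x y)
    (A B : Fin 3 → Set V) (h : M33 G A B) (hs : Sp33 A B) (hy : A 0 = {y}) (hx : x ∈ A 1) :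
    Has33 G x := by
  induction hn : (A 1).ncard using Nat.strong_induction_on generalizing A B with
  | _ n ih =>
  subst hn
  by_contra hcon
  have hmin : ∀ A' B' : Fin 3 → Set V, M33 G A' B' → Sp33 A' B' → A' 0 = {y} → x ∈ A' 1 →
      ¬ (A' 1).ncard < (A 1).ncard :=
    fun A' B' h1 h2 h3 h4 h5 => hcon (ih _ h5 A' B' h1 h2 h3 h4 rfl)
  by_cases hne : A 1 = {x}
  · apply hcon
    refine ⟨_, _, h.perm (Equiv.swap 0 1) (Equiv.refl _), ?_⟩
    show A (Equiv.swap 0 1 0) = {x}
    rw [Equiv.swap_apply_left]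
    exact hne
  have hyZ : y ∉ A 1 := by
    intro h'
    refine Set.disjoint_left.1 (h.da 0 1 (by decide)) ?_ h'
    rw [hy]
    rfl
  have hyA2 : y ∉ A 2 := by
    intro h'
    refine Set.disjoint_left.1 (h.da 0 2 (by decide)) ?_ h'
    rw [hy]
    rfl
  have hyB : ∀ r, y ∉ B r := by
    intro r h'
    refine Set.disjoint_left.1 (h.dab 0 r) ?_ h'
    rw [hy]
    rfl
  have hfin : (A 1).Finite := Set.toFinite _
  -- moving a vertex to `A 2`
  have hA : ∀ v ∈ A 1, v ≠ x → Cn G (A 1 \ {v}) → (∃ o ∈ A 2, G.Adj v o) →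
      ∃ r, ¬ Ad G (A 1 \ {v}) (B r) := by
    intro v hv hvx hc ho
    by_contra hno
    push Not at hno
    obtain ⟨h1, h2⟩ := mvS_M33 h hs (p := 1) (q := 2) (by decide) hv hc ho hno
    apply hmin _ _ h1 h2
    · rw [mvS_r A 1 2 0 v (by decide) (by decide)]
      exact hy
    · rw [mvS_p]
      exact ⟨hx, fun h' => hvx h'.symm⟩
    · rw [mvS_p]
      exact Set.ncard_sdiff_singleton_lt_of_mem hv hfin
  -- moving a vertex to `B q`
  have hB : ∀ v ∈ A 1, v ≠ x → Cn G (A 1 \ {v}) → ∀ q, (∃ o ∈ B q, G.Adj v o) →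
      ∃ r, r ≠ q ∧ ¬ Ad G (A 1 \ {v}) (B r) := by
    intro v hv hvx hc q ho
    by_contra hno
    push Not at hno
    obtain ⟨h1, h2⟩ := mvO_M33 h hs (p := 1) (q := q) hv hc ho hno
    apply hmin _ _ h1 h2
    · rw [Function.update_of_ne (by decide)]
      exact hy
    · rw [Function.update_self]
      exact ⟨hx, fun h' => hvx h'.symm⟩
    · rw [Function.update_self]
      exact Set.ncard_sdiff_singleton_lt_of_mem hv hfin
  -- `v` is the only contact
  have hcon1 : ∀ v r, ¬ Ad G (A 1 \ {v}) (B r) → ∃ o ∈ B r, G.Adj v o := by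
    intro v r hna
    obtain ⟨s, hs', t, ht, hst⟩ := h.ad 1 r
    by_cases hsv : s = v
    · subst hsv
      exact ⟨t, ht, hst⟩
    · exact absurd ⟨s, ⟨hs', hsv⟩, t, ht, hst⟩ hna
  have hcase : ∀ o, o ∉ A 1 → o ≠ y → o ∈ A 2 ∨ ∃ r, o ∈ B r := by
    intro o hoZ hoy
    rcases hs o with ⟨a, ha⟩ | hb
    · left
      have h3 : ∀ a : Fin 3, a = 0 ∨ a = 1 ∨ a = 2 := by decide
      rcases h3 a with rfl | rfl | rfl
      · rw [hy] at ha
        exact absurd ha hoy
      · exact absurd ha hoZ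
      · exact ha
    · exact Or.inr hb
  obtain ⟨o2, ho2⟩ := (h.ca 2).ne
  obtain ⟨hK, ⟨o, hoZ, hoy, hxo⟩, v, hvZ, hvx, i, j, hij, hni, hnj⟩ :=
    dich hJ (A 1) (h.ca 1) x y hx hne hyZ
      ⟨o2, fun h' => Set.disjoint_left.1 (h.da 1 2 (by decide)) h' ho2,
        fun h' => hyA2 (h' ▸ ho2)⟩ 3 le_rfl B
      (fun l => h.ad 1 l) (by
        intro v hv hvx hc ⟨o, hoZ, hoy, hvo⟩
        have hfirst : ∃ r, ¬ Ad G (A 1 \ {v}) (B r) := by
          rcases hcase o hoZ hoy with h2 | ⟨r, hr⟩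
          · exact hA v hv hvx hc ⟨o, h2, hvo⟩
          · obtain ⟨r', _, hr'⟩ := hB v hv hvx hc r ⟨o, hr, hvo⟩
            exact ⟨r', hr'⟩
        obtain ⟨b, hbn⟩ := hfirst
        obtain ⟨c, hcb, hcn⟩ := hB v hv hvx hc b (hcon1 v b hbn)
        exact ⟨b, c, hcb.symm, hbn, hcn⟩)
  have h3 : ∀ i j : Fin 3, i ≠ j → ∃ m, m ≠ i ∧ m ≠ j ∧ ∀ l, l ≠ i → l ≠ j → l = m := by decide
  obtain ⟨m, hmi, hmj, hmu⟩ := h3 i j hij
  have hxv : x ∈ A 1 \ {v} := ⟨hx, fun h' => hvx h'.symm⟩
  have hvK : v ∈ A 1 \ {x} := ⟨hvZ, hvx⟩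
  obtain ⟨W, hW1, hW2, hW3, hW4⟩ : ∃ W : Set V, Cn G W ∧ A 2 ⊆ W ∧
      (∀ w ∈ W, w ∈ A 2 ∨ w ∈ B m) ∧ o ∈ W := by
    rcases hcase o hoZ hoy with h2 | ⟨r, hr⟩
    · exact ⟨A 2, h.ca 2, subset_rfl, fun w hw => Or.inl hw, h2⟩
    · have hri : r ≠ i := by
        rintro rfl
        exact hni ⟨x, hxv, o, hr, hxo⟩
      have hrj : r ≠ j := by
        rintro rfl
        exact hnj ⟨x, hxv, o, hr, hxo⟩
      rw [hmu r hri hrj] at hr
      exact ⟨A 2 ∪ B m, (h.ca 2).union (h.cb m) (h.ad 2 m), Set.subset_union_left,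
        fun w hw => hw, Or.inr hr⟩
  obtain ⟨oi, hoi, hvoi⟩ := hcon1 v i hni
  obtain ⟨oj, hoj, hvoj⟩ := hcon1 v j hnj
  obtain ⟨w, hw, hxw⟩ := ad_restS (h.ca 1) hx hne
  have hxB : ∀ r, x ∉ B r := fun r h' => Set.disjoint_left.1 (h.dab 1 r) hx h'
  have dK : ∀ l, Disjoint (B l) (A 1 \ {x}) := fun l =>
    Set.disjoint_of_subset_right Set.sdiff_subset (h.dab 1 l).symm
  have dY : ∀ l, Disjoint (B l) ({y} : Set V) := fun l =>
    Set.disjoint_singleton_right.2 (hyB l)
  have aY : ∀ l, Ad G (B l) ({y} : Set V) := fun l => by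
    rw [← hy]
    exact (h.ad 0 l).symm
  have dW : ∀ l, l ≠ m → Disjoint (B l) W := by
    intro l hl
    rw [Set.disjoint_left]
    intro z hz hzW
    rcases hW3 z hzW with h2 | h2
    · exact Set.disjoint_left.1 (h.dab 2 l) h2 hz
    · exact Set.disjoint_left.1 (h.db l m hl) hz h2
  have dZW : Disjoint (A 1) W := by
    rw [Set.disjoint_left]
    intro z hz hzW
    rcases hW3 z hzW with h2 | h2
    · exact Set.disjoint_left.1 (h.da 1 2 (by decide)) hz h2
    · exact Set.disjoint_left.1 (h.dab 1 m) hz h2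
  have hyW : y ∉ W := by
    intro h'
    rcases hW3 y h' with h2 | h2
    · exact hyA2 h2
    · exact hyB m h2
  apply hcon
  refine ⟨_, _, mk33 (A0 := {x}) (A1 := B i) (A2 := B j)
    (B0 := A 1 \ {x}) (B1 := {y}) (B2 := W) (cn_single G x) (h.cb _) (h.cb _) hK
    (cn_single G y) hW1 ?_ ?_ ?_ ?_ ?_ ?_ ?_ ?_ ?_ ?_ ?_ ?_ ?_ ?_ ?_ ?_ ?_ ?_ ?_ ?_ ?_ ?_ ?_ ?_,
    rfl⟩
  · exact Set.disjoint_singleton_left.2 (hxB i)
  · exact Set.disjoint_singleton_left.2 (hxB j)
  · exact h.db i j hij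
  · exact Set.disjoint_singleton_right.2 (fun h' => hyZ h'.1)
  · exact Set.disjoint_of_subset_left Set.sdiff_subset dZW
  · exact Set.disjoint_singleton_left.2 hyW
  · exact Set.disjoint_singleton_left.2 (fun h' => h'.2 rfl)
  · exact Set.disjoint_singleton.2 hxy.ne
  · exact Set.disjoint_singleton_left.2 (fun h' => Set.disjoint_left.1 dZW hx h')
  · exact dK i
  · exact dY i
  · exact dW i hmi.symm
  · exact dK j
  · exact dY j
  · exact dW j hmj.symm
  · exact ⟨x, rfl, w, hw, hxw⟩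
  · exact ⟨x, rfl, y, rfl, hxy⟩
  · exact ⟨x, rfl, o, hW4, hxo⟩
  · exact ⟨oi, hoi, v, hvK, hvoi.symm⟩
  · exact aY i
  · exact (h.ad 2 i).symm.mono subset_rfl hW2
  · exact ⟨oj, hoj, v, hvK, hvoj.symm⟩
  · exact aY j
  · exact (h.ad 2 j).symm.mono subset_rfl hW2

end Pool.Agent.LR5
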