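import Pool.Agent.LR5.StepOpp
import Pool.Agent.LR5.StepSame
import Pool.Agent.LR5.Step5
import Pool.Agent.LR5.Shrink33
import Pool.Agent.LR5.Alpha5

/-!
LR5: in a 4-connected graph with a `K₅` or `K₃,₃` minor every vertex `x` is a branch set of a `K₅` model
or of a `K₃,₃` model.

Proof.  There is such a `y`: `alpha5` for a `K₅` model, `shrink33` with `k := 0`, `Fz := ∅` for a
`K₃,₃` model.  The set of such vertices is closed under adjacency: let `y` be one and `x` adjacent to
`y`.  Extend the model to a spanning one with `{y}` frozen (`extend`, `F := {y}`; the part with index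
`0` frozen).  `x ≠ y` lies in another part; permute the indices (`M33.perm`, `M5.perm`) so that the
hypotheses of `stepOpp`, `stepSame` or `step5` hold.  `G` is connected (`hJ.2 ∅`), so every vertex is
such a vertex (`Cn.exit` on the set of such vertices).
-/

set_option autoImplicit false

namespace Pool.Agent.LR5

open Pool.Agent.LG6

variable {V : Type} {G : SimpleGraph V}

/-- closure under adjacency, `K₅` models -/
theorem all_adj5 [Fintype V] (hJ : IsKConnected 4 G) {x y : V} (hxy : G.Adj x y)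
    (hy : Has5 G y) : Has5 G x ∨ Has33 G x := by
  obtain ⟨D, hD, hD0⟩ := hy
  obtain ⟨P', hsub, hfix, hcn, hdis, hsp⟩ := extend hJ D {0} {y} (by simp) hD.c hD.d
    (by
      intro i hi
      rw [Set.mem_singleton_iff.1 hi, hD0]
      simp)
    (by
      intro v hv
      refine ⟨0, rfl, ?_⟩
      rw [hD0]
      simpa using hv)
    ⟨1, by simp⟩
  have hD' : M5 G P' :=
    ⟨hcn, hdis, fun i j hij => (hD.ad i j hij).mono (hsub i) (hsub j)⟩
  have h0 : P' 0 = {y} := by rw [hfix 0 rfl, hD0]
  obtain ⟨i, hi⟩ := hsp x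
  have hi0 : i ≠ 0 := by
    rintro rfl
    rw [h0] at hi
    exact hxy.ne (Set.mem_singleton_iff.1 hi)
  refine step5 hJ x y hxy _ (hD'.perm (Equiv.swap 1 i)) ?_ ?_ ?_
  · intro v
    obtain ⟨j, hj⟩ := hsp v
    refine ⟨(Equiv.swap 1 i).symm j, ?_⟩
    change v ∈ P' (Equiv.swap 1 i ((Equiv.swap 1 i).symm j))
    rw [Equiv.apply_symm_apply]
    exact hj
  · change P' (Equiv.swap 1 i 0) = {y}
    rw [Equiv.swap_apply_of_ne_of_ne (by decide) hi0.symm]
    exact h0
  · change x ∈ P' (Equiv.swap 1 i 1)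
    rw [Equiv.swap_apply_left]
    exact hi

/-- closure under adjacency, `K₃,₃` models -/
theorem all_adj33 [Fintype V] (hJ : IsKConnected 4 G) {x y : V} (hxy : G.Adj x y)
    (hy : Has33 G y) : Has33 G x := by
  obtain ⟨A, B, hM, hA0⟩ := hy
  obtain ⟨P', hsub, hfix, hcn, hdis, hsp⟩ := extend hJ (Sum.elim A B) {Sum.inl 0} {y} (by simp)
    (by
      rintro (i | i)
      · exact hM.ca i
      · exact hM.cb i)
    (by
      rintro (i | i) (j | j) hij
      · exact hM.da i j (fun h => hij (congrArg _ h))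
      · exact hM.dab i j
      · exact (hM.dab j i).symm
      · exact hM.db i j (fun h => hij (congrArg _ h)))
    (by
      intro i hi
      rw [Set.mem_singleton_iff.1 hi, Sum.elim_inl, hA0]
      simp)
    (by
      intro v hv
      refine ⟨Sum.inl 0, rfl, ?_⟩
      rw [Sum.elim_inl, hA0]
      simpa using hv)
    ⟨Sum.inl 1, by simp⟩
  have hM' : M33 G (fun i => P' (Sum.inl i)) (fun i => P' (Sum.inr i)) := by
    refine ⟨fun i => hcn _, fun i => hcn _, ?_, ?_, ?_, ?_⟩
    · intro i j hij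
      exact hdis _ _ (fun h => hij (Sum.inl_injective h))
    · intro i j hij
      exact hdis _ _ (fun h => hij (Sum.inr_injective h))
    · intro i j
      exact hdis _ _ Sum.inl_ne_inr
    · intro i j
      exact (hM.ad i j).mono (hsub (Sum.inl i)) (hsub (Sum.inr j))
  have h0 : P' (Sum.inl 0) = {y} := by rw [hfix _ rfl, Sum.elim_inl, hA0]
  obtain ⟨i | i, hi⟩ := hsp x
  · have hi0 : i ≠ 0 := by
      rintro rfl
      rw [h0] at hi
      exact hxy.ne (Set.mem_singleton_iff.1 hi)
    refine stepSame hJ x y hxy _ _ (hM'.perm (Equiv.swap 1 i) 1) ?_ ?_ ?_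
    · intro v
      obtain ⟨j | j, hj⟩ := hsp v
      · refine Or.inl ⟨(Equiv.swap 1 i).symm j, ?_⟩
        change v ∈ P' (Sum.inl (Equiv.swap 1 i ((Equiv.swap 1 i).symm j)))
        rw [Equiv.apply_symm_apply]
        exact hj
      · exact Or.inr ⟨j, hj⟩
    · change P' (Sum.inl (Equiv.swap 1 i 0)) = {y}
      rw [Equiv.swap_apply_of_ne_of_ne (by decide) hi0.symm]
      exact h0
    · change x ∈ P' (Sum.inl (Equiv.swap 1 i 1))
      rw [Equiv.swap_apply_left]
      exact hi
  · refine stepOpp hJ x y hxy _ _ (hM'.perm 1 (Equiv.swap 0 i)) ?_ h0 ?_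
    · intro v
      obtain ⟨j | j, hj⟩ := hsp v
      · exact Or.inl ⟨j, hj⟩
      · refine Or.inr ⟨(Equiv.swap 0 i).symm j, ?_⟩
        change v ∈ P' (Sum.inr (Equiv.swap 0 i ((Equiv.swap 0 i).symm j)))
        rw [Equiv.apply_symm_apply]
        exact hj
    · change x ∈ P' (Sum.inr (Equiv.swap 0 i 0))
      rw [Equiv.swap_apply_left]
      exact hi

theorem all [Fintype V] (hJ : IsKConnected 4 G)
    (h : (∃ D, M5 G D) ∨ ∃ A B, M33 G A B) (x : V) : Has5 G x ∨ Has33 G x := by
  have key : ∃ y, Has5 G y ∨ Has33 G y := by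
    have h33 : (∃ A B, M33 G A B) → ∃ y, Has5 G y ∨ Has33 G y := by
      rintro ⟨A, B, hM⟩
      obtain ⟨A', B', hM', -, -, y, hy⟩ := shrink33 hJ A B hM 0 ∅ (by simp)
        (fun _ => x) (by simp)
      exact ⟨y, Or.inr ⟨A', B', hM', hy⟩⟩
    rcases h with ⟨D, hD⟩ | h
    · rcases alpha5 hJ D hD with ⟨y, hy⟩ | h
      · exact ⟨y, Or.inl hy⟩
      · exact h33 h
    · exact h33 h
  obtain ⟨y, hy⟩ := key
  by_contra hx
  have hcon := hJ.2 ∅ (by simp)
  obtain ⟨g, h', -, -, hadj, hg, hh⟩ := cross hcon {z | Has5 G z ∨ Has33 G z} (e := y) (f := x)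
    (by simp) (by simp) hy hx
  apply hh
  rcases hg with hg | hg
  · exact all_adj5 hJ hadj.symm hg
  · exact Or.inr (all_adj33 hJ hadj.symm hg)

end Pool.Agent.LR5
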