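import Pool.Agent.LR5.AssembleS44

/-!
LR5: assembling the four strands and the far parts.

Let `L i`, `L4`, `j`, `f` be as in `strands`.  `U := near c N` and `F k` have only `c k` in common
(`dis`, and the `B i` are disjoint), and `c k ∈ L k`; so `L i ∩ F k = ∅` for `i ≠ k`, `L4 ∩ F k = ∅`,
`L k ∩ F k = {c k}`.  Let `B' i := L i ∪ F i` for `i ≠ j` and `B' j := L j ∪ F j ∪ L4`.  These sets are
disjoint, connected (`c i` is common; `L4` is adjacent to `f`), do not contain `x`, `a1`, `a2`, contain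
neighbours of `x` (in `L i`) and of `a1`, `a2` (`ad1`, `ad2`, `aF`).  By `extend` (parts `{x}`, `{a1}`,
`{a2}` frozen, e.g. `ι := Fin 3 ⊕ Fin 3`) we get `B''` with `B' i ⊆ B'' i` and `Tri G x a1 a2 B''`.
By the field `two` of `Sep` for `j`, `f`: disjoint connected `T0, T0' ⊆ F j`, `c j ∈ T0`, `f ∈ T0'`.
Let `T := L j ∪ T0`, `T' := L4 ∪ T0'`: connected, disjoint, both contain a neighbour of `x`, one of them
a neighbour of `a1`, the other one of `a2`.  `split` in `B'' j`, then `lemS` (for the other order: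
`Tri.swap`, or exchange `T` and `T'`).
-/

set_option autoImplicit false

namespace Pool.Agent.LR5

open Pool.Agent.LG6

variable {V : Type} {G : SimpleGraph V}

theorem assemble [Fintype V] (hJ : IsKConnected 4 G) (x a1 a2 : V) (B : Fin 3 → Set V)
    (h : Tri G x a1 a2 B) (h1 : ¬ G.Adj x a1) (h2 : ¬ G.Adj x a2)
    (c : Fin 3 → V) (N F : Fin 3 → Set V)
    (hs : ∀ i, Sep G (B i) {v | G.Adj x v} {v | G.Adj a1 v} {v | G.Adj a2 v} (c i) (N i) (F i)) :
    Has5 G x := by
  exact assemble44 hJ x a1 a2 B h h1 h2 c N F hs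

end Pool.Agent.LR5
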