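import Pool.Agent.LR5.Defs

/-!
LR5, Lemma S.  `Tri G x a1 a2 B`, and `B i0` is the disjoint union of the connected sets `T`, `T'`;
`T` contains a neighbour of `x` and a neighbour of `a2`, `T'` contains a neighbour of `x` and a
neighbour of `a1`.  Then there is a `K₅` model with `{x}` a branch set.

Proof.  `T` and `T'` are adjacent (`B i0` is connected, `Cn.exit`).  `exit4` with `X := {x, a1, a2}` and
`C := B i0` gives an edge from `B i0` to some `B j`, `j ≠ i0` (spanning).  Let `l` be the third index.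
If `T'` is adjacent to `B j`: the model `{x}`, `B l ∪ {a1}`, `B j`, `T'`, `T ∪ {a2}` (`mk5`)
(`B l ∪ {a1}`–`B j` and –`T'` through `a1`, –`T ∪ {a2}` through `a2` and `B l`; `B j`–`T ∪ {a2}` through
`a2`).
If `T` is adjacent to `B j`: the model `{x}`, `B l ∪ {a2}`, `B j`, `T`, `T' ∪ {a1}` (exchange the roles:
`Tri.swap`).
-/

set_option autoImplicit false

namespace Pool.Agent.LR5

open Pool.Agent.LG6

variable {V : Type} {G : SimpleGraph V}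

theorem lemS_aux (x a1 a2 : V) (B : Fin 3 → Set V)
    (h : Tri G x a1 a2 B) (i0 j l : Fin 3) (hij : i0 ≠ j) (hil : i0 ≠ l) (hjl : j ≠ l)
    (T T' : Set V) (hT : Cn G T) (hT' : Cn G T')
    (hs : T ⊆ B i0) (hs' : T' ⊆ B i0) (hd : Disjoint T T') (hTT : Ad G T' T)
    (hTa : ∃ t ∈ T, G.Adj a2 t)
    (hTx' : ∃ t ∈ T', G.Adj x t) (hTa' : ∃ t ∈ T', G.Adj a1 t) (hj : Ad G T' (B j))
    (hTx : ∃ t ∈ T, G.Adj x t) : Has5 G x := by
  obtain ⟨t1, ht1, hx1⟩ := hTx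
  obtain ⟨t2, ht2, ha2⟩ := hTa
  obtain ⟨t1', ht1', hx1'⟩ := hTx'
  obtain ⟨t2', ht2', ha1⟩ := hTa'
  obtain ⟨bj1, hbj1, hab1⟩ := h.ad1 j
  obtain ⟨bl1, hbl1, hab1'⟩ := h.ad1 l
  obtain ⟨bj2, hbj2, hab2⟩ := h.ad2 j
  obtain ⟨bl2, hbl2, hab2'⟩ := h.ad2 l
  obtain ⟨bjx, hbjx, habx⟩ := h.adx j
  obtain ⟨blx, hblx, habx'⟩ := h.adx l
  have cBl : Cn G (insert a1 (B l)) := (h.cb l).insert ⟨bl1, hbl1, hab1'⟩
  have cT : Cn G (insert a2 T) := hT.insert ⟨t2, ht2, ha2⟩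
  have hxs : ∀ S : Set V, x ∉ S → Disjoint {x} S := fun S h1 => Set.disjoint_singleton_left.2 h1
  have hdl : ∀ (a : V) (S U : Set V), a ∉ U → Disjoint S U → Disjoint (insert a S) U := by
    intro a S U h1 h2
    rw [Set.disjoint_left]
    rintro u (rfl | hu) hu'
    · exact h1 hu'
    · exact Set.disjoint_left.1 h2 hu hu'
  refine ⟨![{x}, insert a1 (B l), B j, T', insert a2 T], mk5 (cn_single G x) cBl (h.cb j) hT' cT
    (hxs _ ?_) (hxs _ (h.xb j)) (hxs _ (fun h' => h.xb i0 (hs' h'))) (hxs _ ?_)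
    (hdl _ _ _ (h.a1b j) (h.db l j (Ne.symm hjl)))
    (hdl _ _ _ (fun h' => h.a1b i0 (hs' h')) ((h.db l i0 (Ne.symm hil)).mono_right hs'))
    (hdl _ _ _ ?_ (hdl _ _ _ (h.a2b l) ((h.db i0 l hil).mono_left hs)).symm)
    ((h.db j i0 (Ne.symm hij)).mono_right hs')
    (hdl _ _ _ (h.a2b j) ((h.db i0 j hij).mono_left hs)).symm
    (hdl _ _ _ (fun h' => h.a2b i0 (hs' h')) hd).symm
    ⟨x, rfl, blx, Or.inr hblx, habx'⟩ ⟨x, rfl, bjx, hbjx, habx⟩ ⟨x, rfl, t1', ht1', hx1'⟩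
    ⟨x, rfl, t1, Or.inr ht1, hx1⟩
    ⟨a1, Or.inl rfl, bj1, hbj1, hab1⟩ ⟨a1, Or.inl rfl, t2', ht2', ha1⟩
    ⟨bl2, Or.inr hbl2, a2, Or.inl rfl, hab2'.symm⟩
    hj.symm ⟨bj2, hbj2, a2, Or.inl rfl, hab2.symm⟩ (hTT.mono (subset_refl _) (Set.subset_insert _ _)),
    rfl⟩
  · rintro (h' | h')
    · exact h.xa1 h'
    · exact h.xb l h'
  · rintro (h' | h')
    · exact h.xa2 h'
    · exact h.xb i0 (hs h')
  · rintro (h' | h')
    · exact h.a12 h'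
    · exact h.a1b i0 (hs h')

theorem lemS [Fintype V] (hJ : IsKConnected 4 G) (x a1 a2 : V) (B : Fin 3 → Set V)
    (h : Tri G x a1 a2 B) (i0 : Fin 3) (T T' : Set V) (hT : Cn G T) (hT' : Cn G T')
    (hu : T ∪ T' = B i0) (hd : Disjoint T T')
    (hTx : ∃ t ∈ T, G.Adj x t) (hTa : ∃ t ∈ T, G.Adj a2 t)
    (hTx' : ∃ t ∈ T', G.Adj x t) (hTa' : ∃ t ∈ T', G.Adj a1 t) : Has5 G x := by
  classical
  have hs : T ⊆ B i0 := hu ▸ Set.subset_union_left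
  have hs' : T' ⊆ B i0 := hu ▸ Set.subset_union_right
  obtain ⟨t0, ht0⟩ := hT.ne
  obtain ⟨t0', ht0'⟩ := hT'.ne
  have hTT : Ad G T' T := by
    obtain ⟨g, k, hg, hk, hgk, hgP, hkP⟩ := (h.cb i0).exit (P := T') ⟨t0', hs' ht0', ht0'⟩
      ⟨t0, hs ht0, fun h' => Set.disjoint_left.1 hd ht0 h'⟩
    rw [← hu] at hk
    exact ⟨g, hgP, k, hk.resolve_right hkP, hgk⟩
  obtain ⟨j1, hj1⟩ : ∃ j1 : Fin 3, j1 ≠ i0 :=
    (by decide : ∀ i : Fin 3, ∃ j : Fin 3, j ≠ i) i0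
  obtain ⟨b1, hb1⟩ := (h.cb j1).ne
  have hX : ∀ u, u ∉ ({x, a1, a2} : Finset V) ↔ (u ≠ x ∧ u ≠ a1 ∧ u ≠ a2) := by
    intro u
    simp
  have hBX : ∀ i, ∀ u ∈ B i, u ∉ ({x, a1, a2} : Finset V) := by
    intro i u hu
    rw [hX]
    refine ⟨?_, ?_, ?_⟩
    · rintro rfl; exact h.xb i hu
    · rintro rfl; exact h.a1b i hu
    · rintro rfl; exact h.a2b i hu
  obtain ⟨u, w, hu1, hw1, huX, hwX, huw⟩ := exit4 hJ ({x, a1, a2} : Finset V)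
    Finset.card_le_three (C := B i0) (g := t0) (h := b1) (hs ht0) (hBX i0 _ (hs ht0))
    (fun h' => Set.disjoint_left.1 (h.db j1 i0 hj1) hb1 h') (hBX j1 _ hb1)
  rw [hX] at hwX
  obtain ⟨j, hwj⟩ : ∃ j, w ∈ B j := by
    rcases h.sp w with h' | h' | h' | h'
    · exact absurd h' hwX.1
    · exact absurd h' hwX.2.1
    · exact absurd h' hwX.2.2
    · exact h'
  have hij : i0 ≠ j := by rintro rfl; exact hw1 hwj
  obtain ⟨l, hil, hjl⟩ : ∃ l : Fin 3, i0 ≠ l ∧ j ≠ l :=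
    (by decide : ∀ i j : Fin 3, ∃ l : Fin 3, i ≠ l ∧ j ≠ l) i0 j
  rw [← hu] at hu1
  rcases hu1 with hu1 | hu1
  · exact lemS_aux x a2 a1 B h.swap i0 j l hij hil hjl T' T hT' hT hs' hs hd.symm hTT.symm hTa' hTx
      hTa ⟨u, hu1, w, hwj, huw⟩ hTx'
  · exact lemS_aux x a1 a2 B h i0 j l hij hil hjl T T' hT hT' hs hs' hd hTT hTa hTx'
      hTa' ⟨u, hu1, w, hwj, huw⟩ hTx

end Pool.Agent.LR5
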