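import Pool.Agent.LR5.Defs

/-!
LR5: two disjoint connected subsets `T`, `T'` of a finite connected set `B` can be enlarged to a
partition of `B` into two connected sets.

Proof.  Take a pair `(T1, T1')` of disjoint connected sets with `T ⊆ T1 ⊆ B`, `T' ⊆ T1' ⊆ B` and
`(B \ (T1 ∪ T1')).ncard` minimal; if a vertex of `B` is not covered, an edge leaves `T1 ∪ T1'` inside
`B` (`Cn.exit`), and its end can be added (`Cn.insert`).
-/

set_option autoImplicit false

namespace Pool.Agent.LR5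

open Pool.Agent.LG6

variable {V : Type} {G : SimpleGraph V}

theorem split_aux [Finite V] (B : Set V) (hB : Cn G B) (n : ℕ) : ∀ T T' : Set V, T ⊆ B → T' ⊆ B →
    Cn G T → Cn G T' → Disjoint T T' → (B \ (T ∪ T')).ncard = n →
    ∃ T1 T1' : Set V, T ⊆ T1 ∧ T' ⊆ T1' ∧ Disjoint T1 T1' ∧ T1 ∪ T1' = B ∧ Cn G T1 ∧
      Cn G T1' := by
  induction n with
  | zero =>
    intro T T' hTB hTB' hT hT' hd h0
    rw [Set.ncard_eq_zero] at h0
    refine ⟨T, T', le_rfl, le_rfl, hd, ?_, hT, hT'⟩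
    exact Set.Subset.antisymm (Set.union_subset hTB hTB') (Set.sdiff_eq_empty.mp h0)
  | succ n ih =>
    intro T T' hTB hTB' hT hT' hd h0
    have hne : (B \ (T ∪ T')).Nonempty := by
      rw [← Set.ncard_pos, h0]
      exact Nat.succ_pos n
    obtain ⟨t, ht⟩ := hT.ne
    obtain ⟨g, h, hg, hh, hgh, hgP, hhP⟩ := hB.exit (P := T ∪ T') ⟨t, hTB ht, Or.inl ht⟩ hne
    have hmem : h ∈ B \ (T ∪ T') := ⟨hh, hhP⟩
    have hcard : ∀ X : Set V, X = (B \ (T ∪ T')) \ {h} → X.ncard = n := by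
      intro X hX
      rw [hX, Set.ncard_sdiff_singleton_of_mem hmem, h0]
      rfl
    rcases hgP with hgT | hgT
    · obtain ⟨T1, T1', h1, h2, h3, h4, h5, h6⟩ := ih (insert h T) T' (Set.insert_subset hh hTB) hTB'
        (hT.insert ⟨g, hgT, hgh.symm⟩) hT' (by
          rw [Set.disjoint_insert_left]
          exact ⟨fun h' => hhP (Or.inr h'), hd⟩) (hcard _ (by
          ext x
          simp only [Set.mem_sdiff, Set.mem_union, Set.mem_insert_iff, Set.mem_singleton_iff]
          tauto))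
      exact ⟨T1, T1', (Set.subset_insert _ _).trans h1, h2, h3, h4, h5, h6⟩
    · obtain ⟨T1, T1', h1, h2, h3, h4, h5, h6⟩ := ih T (insert h T') hTB (Set.insert_subset hh hTB')
        hT (hT'.insert ⟨g, hgT, hgh.symm⟩) (by
          rw [Set.disjoint_insert_right]
          exact ⟨fun h' => hhP (Or.inl h'), hd⟩) (hcard _ (by
          ext x
          simp only [Set.mem_sdiff, Set.mem_union, Set.mem_insert_iff, Set.mem_singleton_iff]
          tauto))
      exact ⟨T1, T1', h1, (Set.subset_insert _ _).trans h2, h3, h4, h5, h6⟩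

theorem split [Finite V] (B T T' : Set V) (hB : Cn G B) (hTB : T ⊆ B) (hTB' : T' ⊆ B)
    (hT : Cn G T) (hT' : Cn G T') (hd : Disjoint T T') :
    ∃ T1 T1' : Set V, T ⊆ T1 ∧ T' ⊆ T1' ∧ Disjoint T1 T1' ∧ T1 ∪ T1' = B ∧ Cn G T1 ∧
      Cn G T1' :=
  split_aux B hB _ T T' hTB hTB' hT hT' hd rfl

end Pool.Agent.LR5
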