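import Pool.Agent.LR5.Strands
import Pool.Agent.LR5.Extend
import Pool.Agent.LR5.LemS
import Pool.Agent.LR5.Split

/-!
LR5: assembling the four strands and the far parts, proof.
-/

set_option autoImplicit false

namespace Pool.Agent.LR5

open Pool.Agent.LG6

variable {V : Type} {G : SimpleGraph V}

theorem assembleS [Fintype V] (hJ : IsKConnected 4 G) (x a1 a2 : V) (B : Fin 3 → Set V)
    (h : Tri G x a1 a2 B) (h1 : ¬ G.Adj x a1) (h2 : ¬ G.Adj x a2)
    (c : Fin 3 → V) (N F : Fin 3 → Set V)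
    (hs : ∀ i, Sep G (B i) {v | G.Adj x v} {v | G.Adj a1 v} {v | G.Adj a2 v} (c i) (N i) (F i)) :
    Has5 G x := by
  classical
  obtain ⟨L, L4, j, f, hL, hL4, hLn, hL4n, hdL, hdL4, hcL, hxL, hxL4, hfF, hfc, w, hw, hwf⟩ :=
    strands hJ x a1 a2 B h h1 h2 c N F hs
  have hFB : ∀ i, F i ⊆ B i := fun i => by
    rw [← (hs i).un]
    exact Set.subset_union_right
  have hNB : ∀ i, N i ⊆ B i := fun i => by
    rw [← (hs i).un]
    exact Set.subset_union_left
  -- near part and far part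
  have hnf : ∀ v k, v ∈ near c N → v ∈ F k → v = c k := by
    intro v k hv hk
    obtain ⟨i, hi⟩ := hv
    rcases hi with hi | hi
    · by_cases hik : i = k
      · rw [← hik]; exact hi
      · exact absurd (hFB k hk) (fun h' => Set.disjoint_left.1 (h.db i k hik)
          (hi ▸ hFB i (hs i).cF) h')
    · by_cases hik : i = k
      · exact absurd hk (fun h' => Set.disjoint_left.1 (hs k).dis (hik ▸ hi) h')
      · exact absurd (hFB k hk) (fun h' => Set.disjoint_left.1 (h.db i k hik) (hNB i hi) h')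
  have hLF : ∀ i k v, i ≠ k → v ∈ L i → v ∈ F k → False := by
    intro i k v hik hv hk
    have := hnf v k (hLn i hv) hk
    exact Set.disjoint_left.1 (hdL i k hik) hv (this ▸ hcL k)
  have hL4F : ∀ k v, v ∈ L4 → v ∈ F k → False := by
    intro k v hv hk
    have := hnf v k (hL4n hv) hk
    exact Set.disjoint_left.1 (hdL4 k) (hcL k) (this ▸ hv)
  -- the new sets
  set E : Fin 3 → Set V := fun i => {v | i = j ∧ v ∈ L4} with hE
  set B' : Fin 3 → Set V := fun i => (L i ∪ F i) ∪ E i with hB'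
  have hLFc : ∀ i, Cn G (L i ∪ F i) := fun i => (hL i).inter (hs i).cnF (hcL i) (hs i).cF
  have hB'c : ∀ i, Cn G (B' i) := by
    intro i
    by_cases hij : i = j
    · have e : B' i = (L i ∪ F i) ∪ L4 := by
        ext v
        simp only [hB', hE, Set.mem_union, Set.mem_setOf_eq, hij, true_and]
      rw [e]
      exact (hLFc i).union hL4 ⟨f, Or.inr (hij ▸ hfF), w, hw, hwf.symm⟩
    · have e : B' i = L i ∪ F i := by
        ext v
        simp only [hB', hE, Set.mem_union, Set.mem_setOf_eq, hij, false_and, or_false]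
      rw [e]
      exact hLFc i
  have hB'd : ∀ i k, i ≠ k → Disjoint (B' i) (B' k) := by
    intro i k hik
    rw [Set.disjoint_left]
    intro v hv hv'
    rcases hv with (hv | hv) | hv <;> rcases hv' with (hv' | hv') | hv'
    · exact Set.disjoint_left.1 (hdL i k hik) hv hv'
    · exact hLF i k v hik hv hv'
    · exact Set.disjoint_left.1 (hdL4 i) hv hv'.2
    · exact hLF k i v hik.symm hv' hv
    · exact Set.disjoint_left.1 (h.db i k hik) (hFB i hv) (hFB k hv')
    · exact hL4F i v hv'.2 hv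
    · exact Set.disjoint_left.1 (hdL4 k) hv' hv.2
    · exact hL4F k v hv.2 hv'
    · exact hik (hv.1.trans hv'.1.symm)
  have hB'B : ∀ i v, v ∈ B' i → ∃ m, v ∈ B m := by
    intro i v hv
    rcases hv with (hv | hv) | hv
    · exact near_sub hs (hLn i hv)
    · exact ⟨i, hFB i hv⟩
    · exact near_sub hs (hL4n hv.2)
  have hxB' : ∀ i, x ∉ B' i := fun i hi => by
    obtain ⟨m, hm⟩ := hB'B i x hi
    exact h.xb m hm
  have ha1B' : ∀ i, a1 ∉ B' i := fun i hi => by
    obtain ⟨m, hm⟩ := hB'B i a1 hi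
    exact h.a1b m hm
  have ha2B' : ∀ i, a2 ∉ B' i := fun i hi => by
    obtain ⟨m, hm⟩ := hB'B i a2 hi
    exact h.a2b m hm
  -- extension
  obtain ⟨A, hA⟩ : ∃ A : Fin 3 → V, A = ![x, a1, a2] := ⟨_, rfl⟩
  have hA0 : A 0 = x := by rw [hA]; rfl
  have hA1 : A 1 = a1 := by rw [hA]; rfl
  have hA2 : A 2 = a2 := by rw [hA]; rfl
  have hAinj : ∀ i k, i ≠ k → A i ≠ A k := by
    have e : ∀ i k : Fin 3, i < k → A i ≠ A k := by
      intro i k hik
      fin_cases i <;> fin_cases k <;>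
        first
        | exact absurd hik (by decide)
        | (show A 0 ≠ A 1; rw [hA0, hA1]; exact h.xa1)
        | (show A 0 ≠ A 2; rw [hA0, hA2]; exact h.xa2)
        | (show A 1 ≠ A 2; rw [hA1, hA2]; exact h.a12)
    intro i k hik
    rcases lt_or_gt_of_ne hik with h' | h'
    · exact e i k h'
    · exact (e k i h').symm
  have hAB : ∀ i k, A i ∉ B' k := by
    intro i k
    fin_cases i
    · show A 0 ∉ B' k
      rw [hA0]; exact hxB' k
    · show A 1 ∉ B' k
      rw [hA1]; exact ha1B' k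
    · show A 2 ∉ B' k
      rw [hA2]; exact ha2B' k
  have hmem3 : ∀ v : V, v ∈ ({x, a1, a2} : Finset V) ↔ ∃ i, v = A i := by
    intro v
    rw [Finset.mem_insert, Finset.mem_insert, Finset.mem_singleton]
    constructor
    · rintro (h' | h' | h')
      · exact ⟨0, h'.trans hA0.symm⟩
      · exact ⟨1, h'.trans hA1.symm⟩
      · exact ⟨2, h'.trans hA2.symm⟩
    · rintro ⟨i, hi⟩
      fin_cases i
      · exact Or.inl (hi.trans hA0)
      · exact Or.inr (Or.inl (hi.trans hA1))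
      · exact Or.inr (Or.inr (hi.trans hA2))
  obtain ⟨P', hP1, hP2, hP3, hP4, hP5⟩ := extend hJ (ι := Fin 3 ⊕ Fin 3)
    (Sum.elim (fun i => {A i}) B') (Set.range Sum.inl) ({x, a1, a2} : Finset V)
    Finset.card_le_three
    (by
      rintro (i | i)
      · exact cn_single G (A i)
      · exact hB'c i)
    (by
      rintro (i | i) (k | k) hik
      · exact Set.disjoint_singleton.2 (hAinj i k (fun h' => hik (congrArg _ h')))
      · exact Set.disjoint_singleton_left.2 (hAB i k)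
      · exact Set.disjoint_singleton_right.2 (hAB k i)
      · exact hB'd i k (fun h' => hik (congrArg _ h')))
    (by
      rintro _ ⟨i, rfl⟩
      intro v hv
      rw [Finset.mem_coe, hmem3]
      exact ⟨i, hv⟩)
    (by
      intro v hv
      obtain ⟨i, hi⟩ := (hmem3 v).1 hv
      exact ⟨Sum.inl i, ⟨i, rfl⟩, hi⟩)
    ⟨Sum.inr 0, by rintro ⟨i, hi⟩; exact Sum.inl_ne_inr hi⟩
  have hP2' : ∀ i, P' (Sum.inl i) = {A i} := fun i => hP2 _ ⟨i, rfl⟩
  have hAP : ∀ i k, A i ∉ P' (Sum.inr k) := fun i k hk =>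
    Set.disjoint_left.1 (hP4 (Sum.inl i) (Sum.inr k) Sum.inl_ne_inr)
      (by rw [hP2' i]; exact Set.mem_singleton _) hk
  have hBP : ∀ i, B' i ⊆ P' (Sum.inr i) := fun i => hP1 (Sum.inr i)
  have hTri : Tri G x a1 a2 (fun i => P' (Sum.inr i)) := by
    refine ⟨h.xa1, h.xa2, h.a12, fun i => hP3 _, fun i => ?_, fun i => ?_, fun i => ?_,
      fun i k hik => hP4 _ _ (fun h' => hik (Sum.inr_injective h')), fun i => ?_, fun i => ?_,
      fun i => ?_, fun v => ?_⟩
    · rw [← hA0]; exact hAP 0 i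
    · rw [← hA1]; exact hAP 1 i
    · rw [← hA2]; exact hAP 2 i
    · obtain ⟨v, hv, hxv⟩ := hxL i
      exact ⟨v, hBP i (Or.inl (Or.inl hv)), hxv⟩
    · obtain ⟨b, hb, hab⟩ := h.ad1 i
      exact ⟨b, hBP i (Or.inl (Or.inr ((hs i).aF b hb (Or.inl hab)))), hab⟩
    · obtain ⟨b, hb, hab⟩ := h.ad2 i
      exact ⟨b, hBP i (Or.inl (Or.inr ((hs i).aF b hb (Or.inr hab)))), hab⟩
    · obtain ⟨i | i, hi⟩ := hP5 v
      · rw [hP2' i, Set.mem_singleton_iff] at hi
        fin_cases i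
        · exact Or.inl (hi.trans hA0)
        · exact Or.inr (Or.inl (hi.trans hA1))
        · exact Or.inr (Or.inr (Or.inl (hi.trans hA2)))
      · exact Or.inr (Or.inr (Or.inr ⟨i, hi⟩))
  -- the two sets inside the far part
  obtain ⟨T, T', hTF, hTF', hTT, hTc, hTc', hcT, hfT, hor⟩ := (hs j).two f hfF hfc
  have hSc : Cn G (L j ∪ T) := (hL j).inter hTc (hcL j) hcT
  have hSc' : Cn G (T' ∪ L4) := hTc'.union hL4 ⟨f, hfT, w, hw, hwf.symm⟩
  have hSd : Disjoint (L j ∪ T) (T' ∪ L4) := by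
    rw [Set.disjoint_left]
    rintro v (hv | hv) (hv' | hv')
    · have := hnf v j (hLn j hv) (hTF' hv')
      exact Set.disjoint_left.1 hTT hcT (this ▸ hv')
    · exact Set.disjoint_left.1 (hdL4 j) hv hv'
    · exact Set.disjoint_left.1 hTT hv hv'
    · exact hL4F j v hv' (hTF hv)
  obtain ⟨T1, T1', s1, s2, s3, s4, s5, s6⟩ := split (P' (Sum.inr j)) (L j ∪ T) (T' ∪ L4) (hP3 _)
    (by
      rintro v (hv | hv)
      · exact hBP j (Or.inl (Or.inl hv))
      · exact hBP j (Or.inl (Or.inr (hTF hv))))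
    (by
      rintro v (hv | hv)
      · exact hBP j (Or.inl (Or.inr (hTF' hv)))
      · exact hBP j (Or.inr ⟨rfl, hv⟩))
    hSc hSc' hSd
  obtain ⟨vx, hvx, hvx'⟩ := hxL j
  obtain ⟨vy, hvy, hvy'⟩ := hxL4
  rcases hor with ⟨⟨u, hu, hu'⟩, ⟨u', hv, hv'⟩⟩ | ⟨⟨u, hu, hu'⟩, ⟨u', hv, hv'⟩⟩
  · exact lemS hJ x a1 a2 _ hTri j T1' T1 s6 s5 (by rw [Set.union_comm]; exact s4) s3.symm
      ⟨vy, s2 (Or.inr hvy), hvy'⟩ ⟨u', s2 (Or.inl hv), hv'⟩ ⟨vx, s1 (Or.inl hvx), hvx'⟩
      ⟨u, s1 (Or.inr hu), hu'⟩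
  · exact lemS hJ x a1 a2 _ hTri j T1 T1' s5 s6 s4 s3
      ⟨vx, s1 (Or.inl hvx), hvx'⟩ ⟨u, s1 (Or.inr hu), hu'⟩ ⟨vy, s2 (Or.inr hvy), hvy'⟩
      ⟨u', s2 (Or.inl hv), hv'⟩

end Pool.Agent.LR5
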