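import Pool.Agent.LR5.Strands
import Pool.Agent.LR5.Extend
import Pool.Agent.LR5.LemS
import Pool.Agent.LR5.Split

set_option autoImplicit false

namespace Pool.Agent.LR5

open Pool.Agent.LG6

variable {V : Type} {G : SimpleGraph V}

theorem assemble44 [Fintype V] (hJ : IsKConnected 4 G) (x a1 a2 : V) (B : Fin 3 → Set V)
    (h : Tri G x a1 a2 B) (h1 : ¬ G.Adj x a1) (h2 : ¬ G.Adj x a2)
    (c : Fin 3 → V) (N F : Fin 3 → Set V)
    (hs : ∀ i, Sep G (B i) {v | G.Adj x v} {v | G.Adj a1 v} {v | G.Adj a2 v} (c i) (N i) (F i)) :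
    Has5 G x := by
  classical
  obtain ⟨L, L4, j, f, hLc, hL4c, hLU, hL4U, hLd, hL4d, hcL, hLx, hL4x, hf, hfc, w, hw, hwf⟩ :=
    strands hJ x a1 a2 B h h1 h2 c N F hs
  have hFB : ∀ i, F i ⊆ B i := fun i => by
    rw [← (hs i).un]
    exact Set.subset_union_right
  have hNB : ∀ i, N i ⊆ B i := fun i => by
    rw [← (hs i).un]
    exact Set.subset_union_left
  have hBu : ∀ v i k, v ∈ B i → v ∈ B k → i = k := by
    intro v i k hi hk
    by_contra hne
    exact Set.disjoint_left.1 (h.db i k hne) hi hk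
  have hUF : ∀ v k, v ∈ near c N → v ∈ F k → v = c k := by
    intro v k hv hk
    obtain ⟨m, hm⟩ := hv
    rcases hm with hm | hm
    · have : m = k := hBu v m k (hm ▸ hFB m (hs m).cF) (hFB k hk)
      rw [← this]
      exact hm
    · have : m = k := hBu v m k (hNB m hm) (hFB k hk)
      subst this
      exact absurd hk (Set.disjoint_left.1 (hs m).dis hm)
  have hLF : ∀ v i k, i ≠ k → v ∈ L i → v ∉ F k := by
    intro v i k hik hv hv'
    have := hUF v k (hLU i hv) hv'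
    exact Set.disjoint_left.1 (hLd i k hik) hv (this ▸ hcL k)
  have hL4F : ∀ v k, v ∈ L4 → v ∉ F k := by
    intro v k hv hv'
    have := hUF v k (hL4U hv) hv'
    exact Set.disjoint_left.1 (hL4d k) (this ▸ hcL k) hv
  let B' : Fin 3 → Set V := fun i => (L i ∪ F i) ∪ {v | i = j ∧ v ∈ L4}
  have hLB' : ∀ i, L i ⊆ B' i := fun i v hv => Or.inl (Or.inl hv)
  have hFB' : ∀ i, F i ⊆ B' i := fun i v hv => Or.inl (Or.inr hv)
  have hL4B' : L4 ⊆ B' j := fun v hv => Or.inr ⟨rfl, hv⟩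
  have hB'B : ∀ v i, v ∈ B' i → ∃ k, v ∈ B k := by
    rintro v i ((hv | hv) | ⟨_, hv⟩)
    · exact near_sub hs (hLU i hv)
    · exact ⟨i, hFB i hv⟩
    · exact near_sub hs (hL4U hv)
  have hB'c : ∀ i, Cn G (B' i) := by
    intro i
    have h0 : Cn G (L i ∪ F i) := (hLc i).inter (hs i).cnF (hcL i) (hs i).cF
    by_cases hi : i = j
    · subst hi
      have : B' i = (L i ∪ F i) ∪ L4 := by
        ext v
        simp [B']
      rw [this]
      exact h0.union hL4c ⟨f, Or.inr hf, w, hw, hwf.symm⟩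
    · have : B' i = L i ∪ F i := by
        ext v
        simp [B', hi]
      rw [this]
      exact h0
  have hB'd : ∀ i k, i ≠ k → Disjoint (B' i) (B' k) := by
    intro i k hik
    rw [Set.disjoint_left]
    rintro v ((hv | hv) | ⟨hi, hv⟩) ((hv' | hv') | ⟨hk, hv'⟩)
    · exact Set.disjoint_left.1 (hLd i k hik) hv hv'
    · exact hLF v i k hik hv hv'
    · exact Set.disjoint_left.1 (hL4d i) hv hv'
    · exact hLF v k i (Ne.symm hik) hv' hv
    · exact hik (hBu v i k (hFB i hv) (hFB k hv'))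
    · exact hL4F v i hv' hv
    · exact Set.disjoint_left.1 (hL4d k) hv' hv
    · exact hL4F v k hv hv'
    · exact hik (hi.trans hk.symm)
  let a : Fin 3 → V := ![x, a1, a2]
  have ha0 : a 0 = x := rfl
  have ha1 : a 1 = a1 := rfl
  have ha2 : a 2 = a2 := rfl
  have haB : ∀ i k, a i ∉ B k := by
    intro i k
    fin_cases i
    · exact h.xb k
    · exact h.a1b k
    · exact h.a2b k
  have hainj : ∀ i k, i ≠ k → a i ≠ a k := by
    intro i k hik
    fin_cases i <;> fin_cases k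
    · exact absurd rfl hik
    · exact h.xa1
    · exact h.xa2
    · exact h.xa1.symm
    · exact absurd rfl hik
    · exact h.a12
    · exact h.xa2.symm
    · exact h.a12.symm
    · exact absurd rfl hik
  let P : Fin 3 ⊕ Fin 3 → Set V := Sum.elim (fun i => {a i}) B'
  have hPl : ∀ i, P (Sum.inl i) = {a i} := fun i => rfl
  have hPr : ∀ i, P (Sum.inr i) = B' i := fun i => rfl
  obtain ⟨P', hP1, hP2, hP3, hP4, hP5⟩ := extend hJ P (Set.range Sum.inl) {x, a1, a2}
    (Finset.card_le_three)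
    (by
      rintro (i | i)
      · rw [hPl]
        exact cn_single G _
      · rw [hPr]
        exact hB'c i)
    (by
      rintro (i | i) (k | k) hik
      · rw [hPl, hPl, Set.disjoint_singleton]
        exact hainj i k (fun e => hik (by rw [e]))
      · rw [hPl, hPr, Set.disjoint_singleton_left]
        intro h'
        obtain ⟨m, hm⟩ := hB'B _ _ h'
        exact haB _ _ hm
      · rw [hPl, hPr, Set.disjoint_singleton_right]
        intro h'
        obtain ⟨m, hm⟩ := hB'B _ _ h'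
        exact haB _ _ hm
      · rw [hPr, hPr]
        exact hB'd i k (fun e => hik (by rw [e])))
    (by
      rintro _ ⟨i, rfl⟩
      rw [hPl, Set.singleton_subset_iff]
      fin_cases i
      · simp [a]
      · simp [a]
      · simp [a])
    (by
      intro v hv
      rw [Finset.mem_insert, Finset.mem_insert, Finset.mem_singleton] at hv
      rcases hv with rfl | rfl | rfl
      · exact ⟨Sum.inl 0, ⟨0, rfl⟩, rfl⟩
      · exact ⟨Sum.inl 1, ⟨1, rfl⟩, rfl⟩
      · exact ⟨Sum.inl 2, ⟨2, rfl⟩, rfl⟩)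
    ⟨Sum.inr 0, by rintro ⟨i, hi⟩; cases hi⟩
  have hl : ∀ i, P' (Sum.inl i) = {a i} := fun i => hP2 _ ⟨i, rfl⟩
  have hr : ∀ i, B' i ⊆ P' (Sum.inr i) := fun i => hP1 (Sum.inr i)
  have hav : ∀ i k, a i ∉ P' (Sum.inr k) := by
    intro i k h'
    refine Set.disjoint_left.1 (hP4 (Sum.inl i) (Sum.inr k) (by simp)) ?_ h'
    rw [hl]
    rfl
  have hTri : Tri G x a1 a2 (fun i => P' (Sum.inr i)) := by
    refine ⟨h.xa1, h.xa2, h.a12, fun i => hP3 _, fun i => hav 0 i, fun i => hav 1 i,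
      fun i => hav 2 i, fun i k hik => hP4 _ _ (fun e => hik (Sum.inr.inj e)), ?_, ?_, ?_, ?_⟩
    · intro i
      obtain ⟨v, hv, hxv⟩ := hLx i
      exact ⟨v, hr i (hLB' i hv), hxv⟩
    · intro i
      obtain ⟨v, hv, hav'⟩ := h.ad1 i
      exact ⟨v, hr i (hFB' i ((hs i).aF v hv (Or.inl hav'))), hav'⟩
    · intro i
      obtain ⟨v, hv, hav'⟩ := h.ad2 i
      exact ⟨v, hr i (hFB' i ((hs i).aF v hv (Or.inr hav'))), hav'⟩
    · intro v
      obtain ⟨i | i, hi⟩ := hP5 v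
      · rw [hl, Set.mem_singleton_iff] at hi
        fin_cases i
        · exact Or.inl hi
        · exact Or.inr (Or.inl hi)
        · exact Or.inr (Or.inr (Or.inl hi))
      · exact Or.inr (Or.inr (Or.inr ⟨i, hi⟩))
  obtain ⟨T0, T0', hT0F, hT0F', hT0d, hT0c, hT0c', hcT0, hfT0', hcase⟩ := (hs j).two f hf hfc
  have hTc : Cn G (L j ∪ T0) := (hLc j).inter hT0c (hcL j) hcT0
  have hTc' : Cn G (L4 ∪ T0') := hL4c.union hT0c' ⟨w, hw, f, hfT0', hwf⟩
  have hTd : Disjoint (L j ∪ T0) (L4 ∪ T0') := by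
    rw [Set.disjoint_left]
    rintro v (hv | hv) (hv' | hv')
    · exact Set.disjoint_left.1 (hL4d j) hv hv'
    · have := hUF v j (hLU j hv) (hT0F' hv')
      exact Set.disjoint_left.1 hT0d (this ▸ hcT0) hv'
    · exact hL4F v j hv' (hT0F hv)
    · exact Set.disjoint_left.1 hT0d hv hv'
  have hTB : L j ∪ T0 ⊆ P' (Sum.inr j) :=
    Set.union_subset ((hLB' j).trans (hr j)) ((hT0F.trans (hFB' j)).trans (hr j))
  have hTB' : L4 ∪ T0' ⊆ P' (Sum.inr j) :=
    Set.union_subset (hL4B'.trans (hr j)) ((hT0F'.trans (hFB' j)).trans (hr j))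
  obtain ⟨T1, T1', hT1, hT1', hd1, hu1, hc1, hc1'⟩ :=
    split (P' (Sum.inr j)) (L j ∪ T0) (L4 ∪ T0') (hP3 _) hTB hTB' hTc hTc' hTd
  obtain ⟨v, hv, hxv⟩ := hLx j
  obtain ⟨v', hv', hxv'⟩ := hL4x
  rcases hcase with ⟨⟨t, ht, hat⟩, t', ht', hat'⟩ | ⟨⟨t, ht, hat⟩, t', ht', hat'⟩
  · exact lemS hJ x a1 a2 _ hTri j T1' T1 hc1' hc1 (by rw [Set.union_comm]; exact hu1) hd1.symm
      ⟨v', hT1' (Or.inl hv'), hxv'⟩ ⟨t', hT1' (Or.inr ht'), hat'⟩
      ⟨v, hT1 (Or.inl hv), hxv⟩ ⟨t, hT1 (Or.inr ht), hat⟩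
  · exact lemS hJ x a1 a2 _ hTri j T1 T1' hc1 hc1' hu1 hd1
      ⟨v, hT1 (Or.inl hv), hxv⟩ ⟨t, hT1 (Or.inr ht), hat⟩
      ⟨v', hT1' (Or.inl hv'), hxv'⟩ ⟨t', hT1' (Or.inr ht'), hat'⟩

end Pool.Agent.LR5
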