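import Pool.Agent.LR5.Strands
import Pool.Agent.LR5.Extend
import Pool.Agent.LR5.LemS
import Pool.Agent.LR5.Split

/-!
LR5: assembling the four strands and the far parts (proof of `assemble`).
-/

set_option autoImplicit false

namespace Pool.Agent.LR5

open Pool.Agent.LG6

variable {V : Type} {G : SimpleGraph V}

theorem assembleS5 [Fintype V] (hJ : IsKConnected 4 G) (x a1 a2 : V) (B : Fin 3 → Set V)
    (h : Tri G x a1 a2 B) (h1 : ¬ G.Adj x a1) (h2 : ¬ G.Adj x a2)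
    (c : Fin 3 → V) (N F : Fin 3 → Set V)
    (hs : ∀ i, Sep G (B i) {v | G.Adj x v} {v | G.Adj a1 v} {v | G.Adj a2 v} (c i) (N i) (F i)) :
    Has5 G x := by
  classical
  obtain ⟨L, L4, j, f, cL, cL4, LU, L4U, dL, dL4, hcL, xL, xL4, hf, hfc, w4, hw4, hwf⟩ :=
    strands hJ x a1 a2 B h h1 h2 c N F hs
  have hFB : ∀ i, F i ⊆ B i := fun i v hv => by
    rw [← (hs i).un]
    exact Or.inr hv
  have hNB : ∀ i, N i ⊆ B i := fun i v hv => by
    rw [← (hs i).un]
    exact Or.inl hv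
  have hBB : ∀ i k v, v ∈ B i → v ∈ B k → i = k := by
    intro i k v hi hk
    by_contra hne
    exact Set.disjoint_left.1 (h.db i k hne) hi hk
  -- the near region meets `F k` only in `c k`
  have nearF : ∀ v ∈ near c N, ∀ k, v ∈ F k → v = c k := by
    rintro v ⟨i, hv⟩ k hk
    rcases hv with hv | hv
    · have hik := hBB i k v (hv ▸ hFB i (hs i).cF) (hFB k hk)
      rw [← hik]
      exact hv
    · have hik := hBB i k v (hNB i hv) (hFB k hk)
      subst hik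
      exact absurd hk (Set.disjoint_left.1 (hs i).dis hv)
  have dLF : ∀ i k, i ≠ k → ∀ v ∈ L i, v ∉ F k := by
    intro i k hik v hv hk
    have hvc := nearF v (LU i hv) k hk
    exact Set.disjoint_left.1 (dL i k hik) hv (hvc ▸ hcL k)
  have dL4F : ∀ k, ∀ v ∈ L4, v ∉ F k := by
    intro k v hv hk
    have hvc := nearF v (L4U hv) k hk
    exact Set.disjoint_left.1 (dL4 k) (hvc ▸ hcL k) hv
  have out : ∀ y : V, (∀ i, y ∉ B i) → y ∉ near c N := fun y hy hn => by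
    obtain ⟨i, hi⟩ := near_sub hs hn
    exact hy i hi
  -- the new parts
  obtain ⟨B', hB'⟩ : ∃ B' : Fin 3 → Set V, ∀ i v, v ∈ B' i ↔ (v ∈ L i ∨ v ∈ F i) ∨
      (i = j ∧ v ∈ L4) := ⟨fun i => {v | (v ∈ L i ∨ v ∈ F i) ∨ (i = j ∧ v ∈ L4)}, fun _ _ => Iff.rfl⟩
  have cLF : ∀ i, Cn G (L i ∪ F i) := fun i => (cL i).inter (hs i).cnF (hcL i) (hs i).cF
  have cB' : ∀ i, Cn G (B' i) := by
    intro i
    by_cases hij : i = j
    · have e : B' i = (L i ∪ F i) ∪ L4 := by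
        ext v
        rw [hB', Set.mem_union, Set.mem_union]
        simp [hij]
      rw [e]
      refine (cLF i).union cL4 ⟨f, Or.inr (hij ▸ hf), w4, hw4, hwf.symm⟩
    · have e : B' i = L i ∪ F i := by
        ext v
        rw [hB', Set.mem_union]
        simp [hij]
      rw [e]
      exact cLF i
  have dB' : ∀ i k, i ≠ k → Disjoint (B' i) (B' k) := by
    intro i k hik
    rw [Set.disjoint_left]
    intro v hv hv'
    rw [hB'] at hv hv'
    rcases hv with (hv | hv) | ⟨hi, hv⟩ <;> rcases hv' with (hv' | hv') | ⟨hk, hv'⟩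
    · exact Set.disjoint_left.1 (dL i k hik) hv hv'
    · exact dLF i k hik v hv hv'
    · exact Set.disjoint_left.1 (dL4 i) hv hv'
    · exact dLF k i (Ne.symm hik) v hv' hv
    · exact hik (hBB i k v (hFB i hv) (hFB k hv'))
    · exact dL4F i v hv' hv
    · exact Set.disjoint_left.1 (dL4 k) hv' hv
    · exact dL4F k v hv hv'
    · exact hik (hi.trans hk.symm)
  have oB' : ∀ y : V, (∀ i, y ∉ B i) → ∀ i, y ∉ B' i := by
    intro y hy i hi
    rw [hB'] at hi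
    rcases hi with (hi | hi) | ⟨_, hi⟩
    · exact out y hy (LU i hi)
    · exact hy i (hFB i hi)
    · exact out y hy (L4U hi)
  -- extension
  obtain ⟨q, hq⟩ : ∃ q : Fin 3 → V, q = ![x, a1, a2] := ⟨_, rfl⟩
  have q0 : q 0 = x := by rw [hq]; rfl
  have q1 : q 1 = a1 := by rw [hq]; rfl
  have q2 : q 2 = a2 := by rw [hq]; rfl
  have hqB : ∀ i k, q i ∉ B' k := by
    intro i
    fin_cases i
    · show ∀ k, q 0 ∉ B' k
      rw [q0]
      exact oB' x h.xb
    · show ∀ k, q 1 ∉ B' k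
      rw [q1]
      exact oB' a1 h.a1b
    · show ∀ k, q 2 ∉ B' k
      rw [q2]
      exact oB' a2 h.a2b
  have hqinj : ∀ i k, i ≠ k → q i ≠ q k := by
    have h01 : q 0 ≠ q 1 := by rw [q0, q1]; exact h.xa1
    have h02 : q 0 ≠ q 2 := by rw [q0, q2]; exact h.xa2
    have h12 : q 1 ≠ q 2 := by rw [q1, q2]; exact h.a12
    intro i k hik
    fin_cases i <;> fin_cases k
    · exact absurd rfl hik
    · exact h01
    · exact h02
    · exact h01.symm
    · exact absurd rfl hik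
    · exact h12
    · exact h02.symm
    · exact h12.symm
    · exact absurd rfl hik
  obtain ⟨P', hP', hPz, cP', dP', spP'⟩ := extend hJ (ι := Fin 3 ⊕ Fin 3)
    (Sum.elim (fun i => ({q i} : Set V)) B') (Set.range Sum.inl) (Finset.univ.image q)
    (Finset.card_image_le.trans (by rw [Finset.card_univ, Fintype.card_fin]))
    (by
      rintro (i | i)
      · exact cn_single G _
      · exact cB' i)
    (by
      rintro (i | i) (k | k) hik
      · exact Set.disjoint_singleton.2 (hqinj i k fun h' => hik (congrArg _ h'))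
      · exact Set.disjoint_singleton_left.2 (hqB i k)
      · exact Set.disjoint_singleton_right.2 (hqB k i)
      · exact dB' i k fun h' => hik (congrArg _ h'))
    (by
      rintro _ ⟨i, rfl⟩ v hv
      rw [Finset.mem_coe, Finset.mem_image]
      exact ⟨i, Finset.mem_univ _, (Set.mem_singleton_iff.1 hv).symm⟩)
    (by
      intro v hv
      obtain ⟨i, _, rfl⟩ := Finset.mem_image.1 hv
      exact ⟨Sum.inl i, ⟨i, rfl⟩, rfl⟩)
    ⟨Sum.inr 0, by rintro ⟨i, hi⟩; exact absurd hi (by simp)⟩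
  have hin : ∀ i, q i ∈ P' (Sum.inl i) := fun i => by
    rw [hPz _ ⟨i, rfl⟩]
    exact rfl
  have hqP : ∀ i k, q i ∉ P' (Sum.inr k) := fun i k hk =>
    Set.disjoint_left.1 (dP' (Sum.inl i) (Sum.inr k) (by simp)) (hin i) hk
  have hBP : ∀ i v, v ∈ B' i → v ∈ P' (Sum.inr i) := fun i v hv => hP' (Sum.inr i) hv
  have hLB : ∀ i v, v ∈ L i → v ∈ B' i := fun i v hv => (hB' i v).2 (Or.inl (Or.inl hv))
  have hFB' : ∀ i v, v ∈ F i → v ∈ B' i := fun i v hv => (hB' i v).2 (Or.inl (Or.inr hv))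
  have hL4B : ∀ v, v ∈ L4 → v ∈ B' j := fun v hv => (hB' j v).2 (Or.inr ⟨rfl, hv⟩)
  have tri : Tri G x a1 a2 (fun i => P' (Sum.inr i)) := by
    refine ⟨h.xa1, h.xa2, h.a12, fun i => cP' _, fun i => q0 ▸ hqP 0 i, fun i => q1 ▸ hqP 1 i,
      fun i => q2 ▸ hqP 2 i, fun i k hik => dP' _ _ (by simpa using hik), fun i => ?_, fun i => ?_,
      fun i => ?_, fun v => ?_⟩
    · obtain ⟨v, hv, hxv⟩ := xL i
      exact ⟨v, hBP i v (hLB i v hv), hxv⟩
    · obtain ⟨b, hb, hab⟩ := h.ad1 i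
      exact ⟨b, hBP i b (hFB' i b ((hs i).aF b hb (Or.inl hab))), hab⟩
    · obtain ⟨b, hb, hab⟩ := h.ad2 i
      exact ⟨b, hBP i b (hFB' i b ((hs i).aF b hb (Or.inr hab))), hab⟩
    · obtain ⟨i | i, hi⟩ := spP' v
      · rw [hPz _ ⟨i, rfl⟩] at hi
        have hv : v = q i := hi
        fin_cases i
        · exact Or.inl (hv.trans q0)
        · exact Or.inr (Or.inl (hv.trans q1))
        · exact Or.inr (Or.inr (Or.inl (hv.trans q2)))
      · exact Or.inr (Or.inr (Or.inr ⟨i, hi⟩))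
  -- the two disjoint pieces
  obtain ⟨T0, T0', hT0, hT0', hdT, cT0, cT0', hcT, hfT, hcase⟩ := (hs j).two f hf hfc
  have cT : Cn G (L j ∪ T0) := (cL j).inter cT0 (hcL j) hcT
  have cT' : Cn G (L4 ∪ T0') := cL4.union cT0' ⟨w4, hw4, f, hfT, hwf⟩
  have hdTT : Disjoint (L j ∪ T0) (L4 ∪ T0') := by
    rw [Set.disjoint_left]
    rintro v (hv | hv) (hv' | hv')
    · exact Set.disjoint_left.1 (dL4 j) hv hv'
    · have hvc := nearF v (LU j hv) j (hT0' hv')
      exact Set.disjoint_left.1 hdT hcT (hvc ▸ hv')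
    · exact dL4F j v hv' (hT0 hv)
    · exact Set.disjoint_left.1 hdT hv hv'
  obtain ⟨T1, T1', hT1, hT1', hd1, hu1, cT1, cT1'⟩ := split (P' (Sum.inr j)) (L j ∪ T0) (L4 ∪ T0')
    (cP' _)
    (by
      rintro v (hv | hv)
      · exact hBP j v (hLB j v hv)
      · exact hBP j v (hFB' j v (hT0 hv)))
    (by
      rintro v (hv | hv)
      · exact hBP j v (hL4B v hv)
      · exact hBP j v (hFB' j v (hT0' hv))) cT cT' hdTT
  obtain ⟨vx, hvx, hxvx⟩ := xL j
  obtain ⟨vx', hvx', hxvx'⟩ := xL4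
  rcases hcase with ⟨⟨u1, hu1', ha1⟩, ⟨u2, hu2', ha2⟩⟩ | ⟨⟨u2, hu2', ha2⟩, ⟨u1, hu1', ha1⟩⟩
  · exact lemS hJ x a1 a2 _ tri j T1' T1 cT1' cT1 (by rw [Set.union_comm]; exact hu1) hd1.symm
      ⟨vx', hT1' (Or.inl hvx'), hxvx'⟩ ⟨u2, hT1' (Or.inr hu2'), ha2⟩
      ⟨vx, hT1 (Or.inl hvx), hxvx⟩ ⟨u1, hT1 (Or.inr hu1'), ha1⟩
  · exact lemS hJ x a1 a2 _ tri j T1 T1' cT1 cT1' hu1 hd1
      ⟨vx, hT1 (Or.inl hvx), hxvx⟩ ⟨u2, hT1 (Or.inr hu2'), ha2⟩
      ⟨vx', hT1' (Or.inl hvx'), hxvx'⟩ ⟨u1, hT1' (Or.inr hu1'), ha1⟩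

end Pool.Agent.LR5
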