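import Pool.Agent.LR5.App
import Pool.Agent.LR5.Count

/-!
LR5: proofs of the consequences of the counts (used in `Concl`).
-/

set_option autoImplicit false

namespace Pool.Agent.LR5

open Pool.Agent.LG6

variable {V : Type} [Fintype V]

theorem concl_dg_ge {G : SimpleGraph V} (hG : IsKConnected 6 G) (v : V) : 6 ≤ dg G v := by
  classical
  have h1 := min_deg hG v (G.neighborSet v).toFinset
    (fun f hf => by simpa using hf) (by simp)
  unfold dg
  rwa [Set.ncard_eq_toFinset_card']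

/-- the sum of the degrees is at least `6 (n - |T|)` plus the degrees of the vertices in `T` -/
theorem concl_es {G : SimpleGraph V} (hG : IsKConnected 6 G) (T : Finset V) :
    6 * Fintype.card V + ∑ t ∈ T, dg G t ≤ es G + 6 * T.card := by
  classical
  unfold es
  have h1 : ∑ v, dg G v = ∑ v ∈ T, dg G v + ∑ v ∈ Finset.univ \ T, dg G v := by
    rw [add_comm]
    exact (Finset.sum_sdiff (Finset.subset_univ T)).symm
  have h2 : (Finset.univ \ T).card * 6 ≤ ∑ v ∈ Finset.univ \ T, dg G v := by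
    rw [← smul_eq_mul]
    exact Finset.card_nsmul_le_sum _ _ _ fun v _ => concl_dg_ge hG v
  have h3 : (Finset.univ \ T).card + T.card = Fintype.card V := by
    rw [Finset.card_sdiff_add_card_eq_card (Finset.subset_univ T), Finset.card_univ]
  rw [h1]
  omega

/-- no `K₅` model avoids a strong edge -/
theorem concl_strong {G : SimpleGraph V} (hG : IsKConnected 6 G) (hm : ¬ HasCompleteMinor 6 G)
    (x y : V) (hxy : G.Adj x y) (h : (∃ Q : Finset V, 4 ≤ Q.card ∧ ∀ q ∈ Q, G.Adj x q ∧ G.Adj y q) ∨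
      ∃ v, G.Adj v x ∧ G.Adj v y ∧ ∀ u, G.Adj v u → u ≠ x → u ≠ y → G.Adj x u ∨ G.Adj y u) :
    ¬ ∃ D, M5 G D ∧ ∀ i, Disjoint (D i) ({x, y} : Set V) := by
  rcases h with ⟨Q, hQ, hQ'⟩ | ⟨v, hvx, hvy, hd⟩
  · rintro ⟨D, hD, hdis⟩
    refine (app1 hG hm x y hxy Q hQ hQ').1 ⟨D, ?_, fun i => ?_⟩
    · have hx : ∀ i, x ∉ D i := fun i h =>
        Set.disjoint_left.1 (hdis i) h (by simp)
      refine ⟨fun i => cn_trim (hD.c i) (hx i), hD.d, fun i j hij => ?_⟩
      obtain ⟨s, hs, t, ht, hst⟩ := hD.ad i j hij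
      exact ⟨s, hs, t, ht, trim_adj_of_ne hst (fun h => hx i (h ▸ hs)) (fun h => hx j (h ▸ ht))⟩
    · exact (hdis i).mono_right (by
        intro a ha
        rw [Set.mem_singleton_iff] at ha
        simp [ha])
  · exact (app2 hG hm v x y hvx hvy hxy hd).1

theorem concl_strong_false {G : SimpleGraph V} (hG : IsKConnected 6 G) (hm : ¬ HasCompleteMinor 6 G)
    (x y z w : V) (hxy : G.Adj x y) (hzw : G.Adj z w)
    (h1 : ¬ ∃ D, M5 G D ∧ ∀ i, Disjoint (D i) ({x, y} : Set V))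
    (h2 : ¬ ∃ D, M5 G D ∧ ∀ i, Disjoint (D i) ({z, w} : Set V)) (xz : x ≠ z) (xw : x ≠ w)
    (yz : y ≠ z) (yw : y ≠ w) : False := by
  classical
  have h7 : 7 ≤ Fintype.card V := hG.1
  have c1 := count2 h7 x y hxy h1
  have c2 := count2 h7 z w hzw h2
  have c3 := concl_es hG {x, y, z, w}
  have c4 : ({x, y, z, w} : Finset V).card ≤ 4 := Finset.card_le_four
  have c5 : ∑ t ∈ ({x, y, z, w} : Finset V), dg G t = dg G x + (dg G y + (dg G z + dg G w)) := by
    rw [Finset.sum_insert, Finset.sum_insert, Finset.sum_insert, Finset.sum_singleton]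
    · rw [Finset.mem_singleton]
      exact hzw.ne
    · simp [yz, yw]
    · simp [xz, xw, hxy.ne]
  rw [c5] at c3
  omega

theorem concl_two_hubs {G : SimpleGraph V} (hG : IsKConnected 6 G) (hm : ¬ HasCompleteMinor 6 G)
    (v p q : V) (hvp : G.Adj v p) (hvq : G.Adj v q) (hpq : p ≠ q) (hd : dg G v ≤ 7)
    (P Q : Finset V) (hP : 4 ≤ P.card) (hQ : 4 ≤ Q.card) (hP' : ∀ u ∈ P, G.Adj v u ∧ G.Adj p u)
    (hQ' : ∀ u ∈ Q, G.Adj v u ∧ G.Adj q u) : False := by
  classical
  have h7 : 7 ≤ Fintype.card V := hG.1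
  have c1 := count1 h7 v p hvp P hP' (app1 hG hm v p hvp P hP hP').1
  have c2 := count1 h7 v q hvq Q hQ' (app1 hG hm v q hvq Q hQ hQ').1
  have c3 := concl_es hG {p, q, v}
  have c4 : ({p, q, v} : Finset V).card ≤ 3 := Finset.card_le_three
  have c5 : ∑ t ∈ ({p, q, v} : Finset V), dg G t = dg G p + (dg G q + dg G v) := by
    rw [Finset.sum_insert, Finset.sum_insert, Finset.sum_singleton]
    · rw [Finset.mem_singleton]
      exact hvq.ne.symm
    · simp [hpq, hvp.ne.symm]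
  rw [c5] at c3
  omega

end Pool.Agent.LR5
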