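import Pool.Agent.LR5.K5Edge

/-!
LR5: the edge counts (proofs of `count1`, `count2`).
-/

set_option autoImplicit false

namespace Pool.Agent.LR5

open Pool.Agent.LG6

section CountS

variable {V : Type}

/-- the branch sets of a `K₅` model avoid a vertex without neighbours -/
theorem cs_avoid {G : SimpleGraph V} {x : V} (hx : ∀ b, ¬ G.Adj x b) {D : Fin 5 → Set V}
    (hD : M5 G D) (i : Fin 5) : x ∉ D i := by
  intro hxi
  obtain ⟨j, hj⟩ : ∃ j : Fin 5, i ≠ j := by
    rcases eq_or_ne i 0 with rfl | h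
    · exact ⟨1, by decide⟩
    · exact ⟨0, h⟩
  obtain ⟨s, hs, t, _, hst⟩ := hD.ad i j hj
  have hsx : s ≠ x := fun h => hx t (h ▸ hst)
  obtain ⟨g, h, _, _, hgh, hg, _⟩ := (hD.c i).exit (P := {x}) ⟨x, hxi, rfl⟩ ⟨s, hs, hsx⟩
  rw [Set.mem_singleton_iff] at hg
  exact hx h (hg ▸ hgh)

variable [Fintype V]

theorem cs_dg (G : SimpleGraph V) (v : V) : dg G v = (k5N G v).card := by
  unfold dg
  rw [← Set.ncard_coe_finset]
  congr 1
  ext w
  simp [k5N]

open Classical in
/-- deleting edges at one vertex -/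
theorem cs_trim {G G' : SimpleGraph V} {v : V} (hG : ∀ a b, G.Adj a b → a ≠ v → b ≠ v → G'.Adj a b) :
    k5S G ≤ k5S G' + 2 * (k5N G v \ k5N G' v).card := by
  have h1 : ∀ w, (k5N G w).card ≤ (k5N G' w).card +
      ((if w = v then (k5N G v \ k5N G' v).card else 0) +
        if w ∈ k5N G v \ k5N G' v then 1 else 0) := by
    intro w
    by_cases hw : w = v
    · subst hw
      rw [if_pos rfl]
      have h2 : k5N G w ⊆ k5N G' w ∪ (k5N G w \ k5N G' w) := by
        intro u hu
        by_cases hu' : u ∈ k5N G' w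
        · exact Finset.mem_union_left _ hu'
        · exact Finset.mem_union_right _ (Finset.mem_sdiff.2 ⟨hu, hu'⟩)
      have h3 := (Finset.card_le_card h2).trans (Finset.card_union_le _ _)
      omega
    · rw [if_neg hw, zero_add]
      by_cases ha : w ∈ k5N G v \ k5N G' v
      · rw [if_pos ha]
        have : k5N G w ⊆ insert v (k5N G' w) := by
          intro u hu
          rw [mem_k5N] at hu
          by_cases huv : u = v
          · rw [huv]
            exact Finset.mem_insert_self _ _
          · exact Finset.mem_insert_of_mem (mem_k5N.2 (hG w u hu hw huv))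
        exact (Finset.card_le_card this).trans (Finset.card_insert_le _ _)
      · rw [if_neg ha, add_zero]
        apply Finset.card_le_card
        intro u hu
        rw [mem_k5N] at hu
        by_cases huv : u = v
        · rw [Finset.mem_sdiff, not_and, not_not] at ha
          have := ha (mem_k5N.2 (huv ▸ hu.symm))
          rw [mem_k5N] at this
          rw [huv]
          exact mem_k5N.2 this.symm
        · exact mem_k5N.2 (hG w u hu hw huv)
  calc k5S G ≤ ∑ w, ((k5N G' w).card +
      ((if w = v then (k5N G v \ k5N G' v).card else 0) +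
        if w ∈ k5N G v \ k5N G' v then 1 else 0)) :=
        Finset.sum_le_sum fun w _ => h1 w
    _ = k5S G' + 2 * (k5N G v \ k5N G' v).card := by
        rw [Finset.sum_add_distrib, Finset.sum_add_distrib, Finset.sum_ite_eq' Finset.univ v,
          if_pos (Finset.mem_univ v), ← Finset.card_filter, Finset.filter_mem_eq_inter,
          Finset.univ_inter]
        show k5S G' + ((k5N G v \ k5N G' v).card + (k5N G v \ k5N G' v).card) = _
        ring

open Classical in
theorem count1' {G : SimpleGraph V} (h7 : 7 ≤ Fintype.card V) (v p : V) (hvp : G.Adj v p)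
    (Q : Finset V) (hQ' : ∀ q ∈ Q, G.Adj v q ∧ G.Adj p q)
    (hm : ¬ ∃ D, M5 (trim G v p) D ∧ ∀ i, Disjoint (D i) {p}) :
    es G + 20 + 2 * Q.card ≤ 6 * Fintype.card V + 2 * dg G p + 2 * dg G v := by
  have h1 := k5S_del G p
  have h2 : k5S (k5Del G p) ≤ k5S (k5Del (trim G v p) p) +
      2 * (k5N (k5Del G p) v \ k5N (k5Del (trim G v p) p) v).card :=
    cs_trim fun a b hab ha hb => ⟨trim_adj_of_ne hab.1 ha hb, hab.2⟩
  have h3 : k5S (k5Del (trim G v p) p) + 12 ≤ 6 * (Fintype.card V - 1) := by
    refine k5_main _ _ ({p}ᶜ : Finset V) ?_ ?_ (by omega) ?_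
    · intro a b hab
      rw [Finset.mem_compl, Finset.mem_singleton]
      exact hab.2.1
    · rw [Finset.card_compl, Finset.card_singleton]
    · rintro ⟨D, hD⟩
      refine hm ⟨D, hD.mono (fun a b hab => hab.1), fun i => ?_⟩
      rw [Set.disjoint_singleton_right]
      exact cs_avoid (G := k5Del (trim G v p) p) (fun b hb => hb.2.1 rfl) hD i
  have h4 : (k5N (k5Del G p) v \ k5N (k5Del (trim G v p) p) v).card + Q.card + 1 ≤
      (k5N G v).card := by
    have hd1 : Disjoint (k5N (k5Del G p) v \ k5N (k5Del (trim G v p) p) v) Q := by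
      rw [Finset.disjoint_left]
      intro u hu huQ
      rw [Finset.mem_sdiff, mem_k5N, mem_k5N] at hu
      obtain ⟨hq1, hq2⟩ := hQ' u huQ
      exact hu.2 ⟨trim_adj hq1 hq2, hu.1.2⟩
    have hd2 : p ∉ (k5N (k5Del G p) v \ k5N (k5Del (trim G v p) p) v) ∪ Q := by
      rw [Finset.mem_union]
      rintro (h | h)
      · rw [Finset.mem_sdiff, mem_k5N] at h
        exact h.1.2.2 rfl
      · exact (hQ' p h).2.ne rfl
    rw [← Finset.card_union_of_disjoint hd1, ← Finset.card_insert_of_notMem hd2]
    apply Finset.card_le_card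
    intro u hu
    rw [Finset.mem_insert, Finset.mem_union] at hu
    rcases hu with rfl | hu | hu
    · exact mem_k5N.2 hvp
    · rw [Finset.mem_sdiff, mem_k5N] at hu
      exact mem_k5N.2 hu.1.1
    · exact mem_k5N.2 (hQ' u hu).1
  rw [es_eq_k5S, cs_dg, cs_dg]
  omega

open Classical in
theorem count2' {G : SimpleGraph V} (h7 : 7 ≤ Fintype.card V) (x y : V) (hxy : G.Adj x y)
    (hm : ¬ ∃ D, M5 G D ∧ ∀ i, Disjoint (D i) {x, y}) :
    es G + 26 ≤ 6 * Fintype.card V + 2 * dg G x + 2 * dg G y := by
  have h1 := k5S_del G x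
  have h2 := k5S_del (k5Del G x) y
  have h3 : k5S (k5Del (k5Del G x) y) + 12 ≤ 6 * (Fintype.card V - 2) := by
    refine k5_main _ _ ({x, y}ᶜ : Finset V) ?_ ?_ (by omega) ?_
    · intro a b hab
      rw [Finset.mem_compl, Finset.mem_insert, Finset.mem_singleton, not_or]
      exact ⟨hab.1.2.1, hab.2.1⟩
    · rw [Finset.card_compl, Finset.card_pair hxy.ne]
    · rintro ⟨D, hD⟩
      refine hm ⟨D, hD.mono (fun a b hab => hab.1.1), fun i => ?_⟩
      rw [Set.disjoint_insert_right, Set.disjoint_singleton_right]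
      exact ⟨cs_avoid (G := k5Del (k5Del G x) y) (fun b hb => hb.1.2.1 rfl) hD i,
        cs_avoid (G := k5Del (k5Del G x) y) (fun b hb => hb.2.1 rfl) hD i⟩
  have h4 : (k5N (k5Del G x) y).card + 1 ≤ (k5N G y).card := by
    have hx : x ∉ k5N (k5Del G x) y := by
      rw [mem_k5N]
      exact fun h => h.2.2 rfl
    rw [← Finset.card_insert_of_notMem hx]
    apply Finset.card_le_card
    intro u hu
    rw [Finset.mem_insert] at hu
    rcases hu with rfl | hu
    · exact mem_k5N.2 hxy.symm
    · rw [mem_k5N] at hu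
      exact mem_k5N.2 hu.1
  rw [es_eq_k5S, cs_dg, cs_dg]
  omega

end CountS

end Pool.Agent.LR5
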