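import Pool.Agent.LR5.CubicS

/-!
LR5: a graph on six vertices in which all degrees are 3 (it is `K₃,₃` or the prism) has two disjoint
edges, each dominating all the other vertices.

Proof.  An edge `x y` that is in no triangle is dominating: `x` has two further neighbours, `y` has two
further neighbours, all different.  So we need two disjoint edges not in triangles.  Take a vertex `x`
with neighbours `a, b, c` and the two other vertices `d, e`.  Case analysis on the edges among
`a, b, c`: the six-vertex cubic graphs are `K₃,₃` (no triangles; any two disjoint edges) and the prism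
(two disjoint triangles and a perfect matching between them; two edges of the matching).  A proof by
computation is also possible: transport to `Fin 6` and `decide` over symmetric Boolean matrices with all
row sums 3 (there are only 70 of them).
-/

set_option autoImplicit false

namespace Pool.Agent.LR5

open Pool.Agent.LG6 Finset

variable {V : Type} [DecidableEq V]

theorem cubic6 (G : SimpleGraph V) [DecidableRel G.Adj] (N : Finset V) (h6 : N.card = 6)
    (h3 : ∀ x ∈ N, (N.filter (G.Adj x)).card = 3) :
    ∃ x ∈ N, ∃ y ∈ N, ∃ z ∈ N, ∃ w ∈ N, x ≠ z ∧ x ≠ w ∧ y ≠ z ∧ y ≠ w ∧ G.Adj x y ∧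
      G.Adj z w ∧ (∀ u ∈ N, u ≠ x → u ≠ y → G.Adj x u ∨ G.Adj y u) ∧
      ∀ u ∈ N, u ≠ z → u ≠ w → G.Adj z u ∨ G.Adj w u :=
  cubic6S G N h6 h3

end Pool.Agent.LR5
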