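import Pool.Agent.LR5.Defs2

/-!
LR5: cubic graphs on six vertices, by computation.
-/

set_option autoImplicit false

namespace Pool.Agent.LR5

open Pool.Agent.LG6 Finset

/-- number of `true` -/
def c5 (a b c d e : Bool) : ℕ := a.toNat + b.toNat + c.toNat + d.toNat + e.toNat

/-- the matrix -/
def mat6 (a01 a02 a03 a04 a05 a12 a13 a14 a15 a23 a24 a25 a34 a35 a45 : Bool) :
    Fin 6 → Fin 6 → Bool :=
  ![![false, a01, a02, a03, a04, a05], ![a01, false, a12, a13, a14, a15],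
    ![a02, a12, false, a23, a24, a25], ![a03, a13, a23, false, a34, a35],
    ![a04, a14, a24, a34, false, a45], ![a05, a15, a25, a35, a45, false]]

/-- the conclusion -/
def Good6 (A : Fin 6 → Fin 6 → Bool) : Prop :=
  ∃ x y z w : Fin 6, (x ≠ z ∧ x ≠ w ∧ y ≠ z ∧ y ≠ w ∧ A x y = true ∧ A z w = true) ∧
    (∀ u, u ≠ x → u ≠ y → (A x u || A y u) = true) ∧
    ∀ u, u ≠ z → u ≠ w → (A z u || A w u) = true

instance (A : Fin 6 → Fin 6 → Bool) : Decidable (Good6 A) := by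
  unfold Good6
  infer_instance

theorem cubicB : ∀ a01 a02 a03 a04 a05 : Bool, c5 a01 a02 a03 a04 a05 = 3 →
    ∀ a12 a13 a14 a15 : Bool, c5 a01 a12 a13 a14 a15 = 3 →
    ∀ a23 a24 a25 : Bool, c5 a02 a12 a23 a24 a25 = 3 →
    ∀ a34 a35 : Bool, c5 a03 a13 a23 a34 a35 = 3 →
    ∀ a45 : Bool, c5 a04 a14 a24 a34 a45 = 3 → c5 a05 a15 a25 a35 a45 = 3 →
    Good6 (mat6 a01 a02 a03 a04 a05 a12 a13 a14 a15 a23 a24 a25 a34 a35 a45) := by
  decide +kernel

variable {V : Type} [DecidableEq V]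

theorem cubic6S (G : SimpleGraph V) [DecidableRel G.Adj] (N : Finset V) (h6 : N.card = 6)
    (h3 : ∀ x ∈ N, (N.filter (G.Adj x)).card = 3) :
    ∃ x ∈ N, ∃ y ∈ N, ∃ z ∈ N, ∃ w ∈ N, x ≠ z ∧ x ≠ w ∧ y ≠ z ∧ y ≠ w ∧ G.Adj x y ∧
      G.Adj z w ∧ (∀ u ∈ N, u ≠ x → u ≠ y → G.Adj x u ∨ G.Adj y u) ∧
      ∀ u ∈ N, u ≠ z → u ≠ w → G.Adj z u ∨ G.Adj w u := by
  obtain ⟨e⟩ : Nonempty (Fin 6 ≃ {x // x ∈ N}) := ⟨(N.equivFinOfCardEq h6).symm⟩
  set A : Fin 6 → Fin 6 → Bool := fun i j => decide (G.Adj (e i).1 (e j).1) with hA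
  have hsym : ∀ i j, A i j = A j i := fun i j => by
    simp only [hA, G.adj_comm]
  have hirr : ∀ i, A i i = false := fun i => by
    simp [hA]
  have hsum : ∀ i, ∑ j, (A i j).toNat = 3 := by
    intro i
    rw [← h3 (e i).1 (e i).2, Finset.card_filter]
    have h1 : ∑ x ∈ N, (if G.Adj (e i).1 x then 1 else 0) =
        ∑ x : {x // x ∈ N}, (if G.Adj (e i).1 x.1 then 1 else 0) :=
      (Finset.sum_coe_sort N (fun x => if G.Adj (e i).1 x then 1 else 0)).symm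
    rw [h1, ← Equiv.sum_comp e]
    refine Finset.sum_congr rfl fun j _ => ?_
    simp only [hA]
    by_cases h : G.Adj (e i).1 (e j).1 <;> simp [h]
  have hm : mat6 (A 0 1) (A 0 2) (A 0 3) (A 0 4) (A 0 5) (A 1 2) (A 1 3) (A 1 4) (A 1 5)
      (A 2 3) (A 2 4) (A 2 5) (A 3 4) (A 3 5) (A 4 5) = A := by
    funext i j
    fin_cases i <;> fin_cases j <;>
      first
      | exact (hirr _).symm
      | rfl
      | exact hsym _ _
  have s0 := hsum 0
  have s1 := hsum 1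
  have s2 := hsum 2
  have s3 := hsum 3
  have s4 := hsum 4
  have s5 := hsum 5
  rw [Fin.sum_univ_six] at s0 s1 s2 s3 s4 s5
  rw [hirr 0] at s0
  rw [hirr 1, hsym 1 0] at s1
  rw [hirr 2, hsym 2 0, hsym 2 1] at s2
  rw [hirr 3, hsym 3 0, hsym 3 1, hsym 3 2] at s3
  rw [hirr 4, hsym 4 0, hsym 4 1, hsym 4 2, hsym 4 3] at s4
  rw [hirr 5, hsym 5 0, hsym 5 1, hsym 5 2, hsym 5 3, hsym 5 4] at s5
  have key := cubicB (A 0 1) (A 0 2) (A 0 3) (A 0 4) (A 0 5) (by unfold c5; simpa using s0)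
    (A 1 2) (A 1 3) (A 1 4) (A 1 5) (by unfold c5; simpa using s1)
    (A 2 3) (A 2 4) (A 2 5) (by unfold c5; simpa using s2)
    (A 3 4) (A 3 5) (by unfold c5; simpa using s3)
    (A 4 5) (by unfold c5; simpa using s4) (by unfold c5; simpa using s5)
  rw [hm] at key
  obtain ⟨x, y, z, w, ⟨h1, h2, h3', h4, h5, h6'⟩, h7, h8⟩ := key
  have hne : ∀ i j : Fin 6, i ≠ j → (e i).1 ≠ (e j).1 := fun i j hij h =>
    hij (e.injective (Subtype.ext h))
  have hadj : ∀ i j : Fin 6, A i j = true → G.Adj (e i).1 (e j).1 := fun i j h =>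
    of_decide_eq_true h
  have hdom : ∀ x y : Fin 6, (∀ u, u ≠ x → u ≠ y → (A x u || A y u) = true) →
      ∀ u ∈ N, u ≠ (e x).1 → u ≠ (e y).1 → G.Adj (e x).1 u ∨ G.Adj (e y).1 u := by
    intro x y h u hu hux huy
    obtain ⟨i, hi⟩ := e.surjective ⟨u, hu⟩
    have hi' : (e i).1 = u := by rw [hi]
    have := h i (fun h' => hux (by rw [← hi', h'])) (fun h' => huy (by rw [← hi', h']))
    rw [Bool.or_eq_true] at this
    rw [← hi']
    exact this.imp (hadj _ _) (hadj _ _)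
  exact ⟨(e x).1, (e x).2, (e y).1, (e y).2, (e z).1, (e z).2, (e w).1, (e w).2, hne _ _ h1,
    hne _ _ h2, hne _ _ h3', hne _ _ h4, hadj _ _ h5, hadj _ _ h6', hdom _ _ h7, hdom _ _ h8⟩

end Pool.Agent.LR5
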