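import Pool.Agent.LR5.Defs
import Pool.Agent.LD6.Menger

/-!
LR5: the hypothesis of Menger's theorem for the four strands.

`Tri G x a1 a2 B`, `x` not adjacent to `a1`, `a2`; for every `i` a `Sep` of `B i` with
`X = {v | G.Adj x v}`, `α1 = {v | G.Adj a1 v}`, `α2 = {v | G.Adj a2 v}`.  Let
`U = ⋃ i, insert (c i) (N i)`, and let `RR` be the relation `rel`: `u → w` for adjacent `u, w ∈ U`, and
`u → a1` if `u ∈ U` has a neighbour in some `F k \ {c k}`.  For every `S` with fewer than four elements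
there is a walk avoiding `S` from a neighbour of `x` in `U` to one of `c 0`, `c 1`, `c 2`, `a1`.

Proof.  Case `a1 ∈ S`.  The three disjoint sets `insert (c i) (N i) ⊆ B i` are disjoint from `{a1}`, and
`S \ {a1}` has at most two elements, so some `insert (c i) (N i)` does not meet `S`.  It is connected,
contains a neighbour of `x` (`adx`, `XN`) and `c i`.
Case `a1 ∉ S`.  Suppose there is no such walk.  Let `C` be the set of vertices reached from
`{v ∈ U \ S | G.Adj x v}` by `WIn rel (↑S)ᶜ`, intersected with `U`.  Apply `exit4` with the finite set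
`S' := S.filter (· ∈ U)` and the set `insert x C`; the vertex `a1` is outside (`a1 ∉ B i`, `a1 ≠ x`,
`a1 ∉ U`), `x ∉ S'`.  We get `u ∈ insert x C`, `w ∉ insert x C`, `w ∉ S'`, adjacent.
If `u = x`: `w` is a neighbour of `x`, not `a1`, `a2` (hypothesis), so `w ∈ B i` and `w ∈ U` by `XN`,
so `w ∉ S`, `w ∈ C`: contradiction.
If `u ∈ C`: `w ≠ x`.  If `w ∈ U` then `w ∉ S` and `w` is reached: contradiction.  If `w = a1` or `a2`:
`u ∈ B k` is in `F k` (`aF`) and in `insert (c k) (N k)`, so `u = c k`: a walk to `c k`, contradiction.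
Otherwise `w ∈ B k`, `w ∉ U`, so `w ∈ F k`, `w ≠ c k`: `u → a1` is an arc, a walk to `a1`: contradiction.
-/

set_option autoImplicit false

namespace Pool.Agent.LR5

open Pool.Agent.LG6 Pool.Agent.MK3.Mg

variable {V : Type} {G : SimpleGraph V}

/-- the near region -/
def near (c : Fin 3 → V) (N : Fin 3 → Set V) : Set V := {v | ∃ i, v ∈ insert (c i) (N i)}

/-- the relation for Menger's theorem -/
def rel (G : SimpleGraph V) (a1 : V) (c : Fin 3 → V) (N F : Fin 3 → Set V) (u w : V) : Prop :=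
  (u ∈ near c N ∧ w ∈ near c N ∧ G.Adj u w) ∨
    (u ∈ near c N ∧ w = a1 ∧ ∃ k, ∃ f ∈ F k, f ≠ c k ∧ G.Adj u f)

/-- a walk inside a connected set -/
theorem cut_walk {C : Set V} (hC : Cn G C) {g h : V} (hg : g ∈ C) (hh : h ∈ C) :
    WIn (fun u w => u ∈ C ∧ w ∈ C ∧ G.Adj u w) C g h := by
  by_contra hno
  obtain ⟨u, w, hu, hw, huw, h1, h2⟩ := hC.exit
    (P := {v | WIn (fun u w => u ∈ C ∧ w ∈ C ∧ G.Adj u w) C g v}) ⟨g, hg, WIn.refl hg⟩
    ⟨h, hh, hno⟩
  exact h2 (WIn.tail h1 ⟨hu, hw, huw⟩ hw)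

theorem cut_sub {B X α1 α2 : Set V} {c : V} {N F : Set V} (h : Sep G B X α1 α2 c N F) :
    insert c N ⊆ B := by
  rw [← h.un]
  rintro v (rfl | hv)
  · exact Or.inr h.cF
  · exact Or.inl hv

theorem cut_mem (c : Fin 3 → V) (a1 : V) (i : Fin 3) : c i ∈ ({c 0, c 1, c 2, a1} : Set V) := by
  fin_cases i
  · exact Or.inl rfl
  · exact Or.inr (Or.inl rfl)
  · exact Or.inr (Or.inr (Or.inl rfl))

theorem cut [Fintype V] (hJ : IsKConnected 4 G) (x a1 a2 : V) (B : Fin 3 → Set V)
    (h : Tri G x a1 a2 B) (h1 : ¬ G.Adj x a1) (h2 : ¬ G.Adj x a2)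
    (c : Fin 3 → V) (N F : Fin 3 → Set V)
    (hs : ∀ i, Sep G (B i) {v | G.Adj x v} {v | G.Adj a1 v} {v | G.Adj a2 v} (c i) (N i) (F i))
    (S : Finset V) (hS : S.card < 4) :
    SIn (rel G a1 c N F) (↑S : Set V)ᶜ {v | v ∈ near c N ∧ G.Adj x v} {c 0, c 1, c 2, a1} := by
  classical
  have hsub : ∀ i, insert (c i) (N i) ⊆ B i := fun i => cut_sub (hs i)
  have hnB : ∀ v, v ∈ near c N → ∃ i, v ∈ B i := by
    rintro v ⟨i, hv⟩
    exact ⟨i, hsub i hv⟩
  have hxn : x ∉ near c N := fun h' => by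
    obtain ⟨i, hi⟩ := hnB x h'
    exact h.xb i hi
  have ha1n : a1 ∉ near c N := fun h' => by
    obtain ⟨i, hi⟩ := hnB a1 h'
    exact h.a1b i hi
  by_cases ha : a1 ∈ S
  · -- some near part avoids `S`
    have hex : ∃ i, ∀ v ∈ insert (c i) (N i), v ∉ S := by
      by_contra hcon
      push Not at hcon
      choose s hsI hsS using hcon
      have hne : ∀ i j, i ≠ j → s i ≠ s j := by
        intro i j hij he
        exact Set.disjoint_left.1 (h.db i j hij) (hsub i (hsI i)) (he ▸ hsub j (hsI j))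
      have hna : ∀ i, a1 ≠ s i := by
        intro i he
        exact h.a1b i (he ▸ hsub i (hsI i))
      have hle : ({a1, s 0, s 1, s 2} : Finset V) ⊆ S := by
        intro v hv
        simp only [Finset.mem_insert, Finset.mem_singleton] at hv
        rcases hv with rfl | rfl | rfl | rfl
        · exact ha
        · exact hsS 0
        · exact hsS 1
        · exact hsS 2
      have h4 : ({a1, s 0, s 1, s 2} : Finset V).card = 4 := by
        rw [Finset.card_insert_of_notMem, Finset.card_insert_of_notMem,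
          Finset.card_insert_of_notMem, Finset.card_singleton]
        · simp only [Finset.mem_singleton]
          exact hne 1 2 (by decide)
        · simp only [Finset.mem_insert, Finset.mem_singleton, not_or]
          exact ⟨hne 0 1 (by decide), hne 0 2 (by decide)⟩
        · simp only [Finset.mem_insert, Finset.mem_singleton, not_or]
          exact ⟨hna 0, hna 1, hna 2⟩
      have h5 := Finset.card_le_card hle
      omega
    obtain ⟨i, hi⟩ := hex
    obtain ⟨b, hb, hxb⟩ := h.adx i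
    have hbI : b ∈ insert (c i) (N i) := (hs i).XN b hb hxb
    refine ⟨b, ⟨⟨i, hbI⟩, hxb⟩, c i, cut_mem c a1 i, ?_⟩
    refine (cut_walk (hs i).cnN hbI (Set.mem_insert _ _)).mono ?_ ?_
    · rintro u w - - ⟨hu, hw, huw⟩
      exact Or.inl ⟨⟨i, hu⟩, ⟨i, hw⟩, huw⟩
    · intro v hv hvS
      exact hi v hv (Finset.mem_coe.1 hvS)
  · by_contra hno
    have hnoc : ∀ a, a ∈ near c N → G.Adj x a → ∀ b, b ∈ ({c 0, c 1, c 2, a1} : Set V) →
        ¬ WIn (rel G a1 c N F) (↑S : Set V)ᶜ a b := fun a h3 h4 b h5 h6 =>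
      hno ⟨a, ⟨h3, h4⟩, b, h5, h6⟩
    obtain ⟨C, hC⟩ : ∃ C : Set V, C = {v | v ∈ near c N ∧ ∃ a, a ∈ near c N ∧ G.Adj x a ∧
        WIn (rel G a1 c N F) (↑S : Set V)ᶜ a v} := ⟨_, rfl⟩
    have hC' : ∀ v, v ∈ C ↔ v ∈ near c N ∧ ∃ a, a ∈ near c N ∧ G.Adj x a ∧
        WIn (rel G a1 c N F) (↑S : Set V)ᶜ a v := fun v => by rw [hC]; rfl
    have hmf : ∀ v, v ∈ S.filter (fun v => v ∈ near c N) ↔ v ∈ S ∧ v ∈ near c N := fun v =>
      Finset.mem_filter
    have hcard : (S.filter (fun v => v ∈ near c N)).card ≤ 3 := by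
      have := Finset.card_filter_le S (fun v => v ∈ near c N)
      omega
    obtain ⟨u, w, hu, hw, huX, hwX, huw⟩ := exit4 hJ (S.filter (fun v => v ∈ near c N)) hcard
      (C := insert x C) (g := x) (h := a1) (Set.mem_insert _ _)
      (fun h' => hxn ((hmf x).1 h').2)
      (fun h' => by
        rcases h' with h' | h'
        · exact h.xa1 h'.symm
        · exact ha1n ((hC' a1).1 h').1)
      (fun h' => ha1n ((hmf a1).1 h').2)
    have hwx : w ≠ x := fun h' => hw (Or.inl h')
    have hwS : w ∈ near c N → w ∉ S := fun h3 h4 => hwX ((hmf w).2 ⟨h4, h3⟩)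
    rcases hu with rfl | hu
    · -- `u = x`
      have hw1 : w ≠ a1 := fun h' => h1 (h' ▸ huw)
      have hw2 : w ≠ a2 := fun h' => h2 (h' ▸ huw)
      rcases h.sp w with h3 | h3 | h3 | ⟨i, h3⟩
      · exact hwx h3
      · exact hw1 h3
      · exact hw2 h3
      · have hwn : w ∈ near c N := ⟨i, (hs i).XN w h3 huw⟩
        exact hw (Or.inr ((hC' w).2 ⟨hwn, w, hwn, huw, WIn.refl
          (fun h4 => hwS hwn (Finset.mem_coe.1 h4))⟩))
    · obtain ⟨hun, a, han, hxa, hwalk⟩ := (hC' u).1 hu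
      have hend : ∀ k, u ∈ B k → u ∈ F k → False := by
        intro k hk hkF
        obtain ⟨j, hj⟩ := hun
        have hjk : j = k := by
          by_contra hne
          exact Set.disjoint_left.1 (h.db j k hne) (hsub j hj) hk
        subst hjk
        rcases hj with hj | hj
        · refine hnoc a han hxa (c j) (cut_mem c a1 j) ?_
          rw [← hj]
          exact hwalk
        · exact Set.disjoint_left.1 (hs j).dis hj hkF
      have hend2 : (G.Adj a1 u ∨ G.Adj a2 u) → False := by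
        intro h3
        obtain ⟨k, hk⟩ := hnB u hun
        exact hend k hk ((hs k).aF u hk h3)
      by_cases hwn : w ∈ near c N
      · exact hw (Or.inr ((hC' w).2 ⟨hwn, a, han, hxa, hwalk.tail (Or.inl ⟨hun, hwn, huw⟩)
          (fun h4 => hwS hwn (Finset.mem_coe.1 h4))⟩))
      · rcases h.sp w with h3 | h3 | h3 | ⟨k, h3⟩
        · exact hwx h3
        · exact hend2 (Or.inl (h3 ▸ huw.symm))
        · exact hend2 (Or.inr (h3 ▸ huw.symm))
        · have hwI : w ∉ insert (c k) (N k) := fun h4 => hwn ⟨k, h4⟩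
          have hwF : w ∈ F k := by
            rw [← (hs k).un] at h3
            rcases h3 with h3 | h3
            · exact absurd (Or.inr h3) hwI
            · exact h3
          have hwc : w ≠ c k := fun h4 => hwI (Or.inl h4)
          refine hnoc a han hxa a1 (Or.inr (Or.inr (Or.inr rfl))) ?_
          exact hwalk.tail (Or.inr ⟨hun, rfl, k, w, hwF, hwc, huw⟩)
            (fun h4 => ha (Finset.mem_coe.1 h4))

end Pool.Agent.LR5
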