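import Pool.Agent.LG6.Gen

/-!
LR5: rooted minors of 4-connected graphs.  Definitions and basic lemmas.

`M5 G D` : five disjoint connected sets, pairwise adjacent.  `M33 G A B` : a `K₃,₃` model.
-/

set_option autoImplicit false

namespace Pool.Agent.LR5

open Pool.Agent.LG6

variable {V : Type} {G : SimpleGraph V}

/-- `S` induces a connected subgraph (in particular `S` is not empty). -/
abbrev Cn (G : SimpleGraph V) (S : Set V) : Prop := (G.induce S).Connected

/-- there is an edge between `S` and `T` -/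
def Ad (G : SimpleGraph V) (S T : Set V) : Prop := ∃ s ∈ S, ∃ t ∈ T, G.Adj s t

/-- a model of `K₅` -/
structure M5 (G : SimpleGraph V) (D : Fin 5 → Set V) : Prop where
  c : ∀ i, Cn G (D i)
  d : ∀ i j, i ≠ j → Disjoint (D i) (D j)
  ad : ∀ i j, i ≠ j → Ad G (D i) (D j)

/-- a model of `K₃,₃` -/
structure M33 (G : SimpleGraph V) (A B : Fin 3 → Set V) : Prop where
  ca : ∀ i, Cn G (A i)
  cb : ∀ i, Cn G (B i)
  da : ∀ i j, i ≠ j → Disjoint (A i) (A j)
  db : ∀ i j, i ≠ j → Disjoint (B i) (B j)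
  dab : ∀ i j, Disjoint (A i) (B j)
  ad : ∀ i j, Ad G (A i) (B j)

/-- the branch sets of the `K₃,₃` model cover all vertices -/
def Sp33 (A B : Fin 3 → Set V) : Prop := ∀ v : V, (∃ i, v ∈ A i) ∨ ∃ i, v ∈ B i

/-- the branch sets of the `K₅` model cover all vertices -/
def Sp5 (D : Fin 5 → Set V) : Prop := ∀ v : V, ∃ i, v ∈ D i

/-- a spanning `K₃,₃` model whose side `A` consists of the three single vertices `x`, `a1`, `a2` -/
structure Tri (G : SimpleGraph V) (x a1 a2 : V) (B : Fin 3 → Set V) : Prop where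
  xa1 : x ≠ a1
  xa2 : x ≠ a2
  a12 : a1 ≠ a2
  cb : ∀ i, Cn G (B i)
  xb : ∀ i, x ∉ B i
  a1b : ∀ i, a1 ∉ B i
  a2b : ∀ i, a2 ∉ B i
  db : ∀ i j, i ≠ j → Disjoint (B i) (B j)
  adx : ∀ i, ∃ b ∈ B i, G.Adj x b
  ad1 : ∀ i, ∃ b ∈ B i, G.Adj a1 b
  ad2 : ∀ i, ∃ b ∈ B i, G.Adj a2 b
  sp : ∀ v, v = x ∨ v = a1 ∨ v = a2 ∨ ∃ i, v ∈ B i

/-- A connected set `B` meeting the sets `X`, `α1`, `α2`, with a cut vertex `c` between `X` and
`α1 ∪ α2`: the near part `N` (without `c`) and the far part `F` (with `c`).  The last field is the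
minimality of the far part: for every other vertex `f` of the far part there are two disjoint connected
subsets of the far part, one through `c`, one through `f`, one meeting `α1`, the other `α2`. -/
structure Sep (G : SimpleGraph V) (B X α1 α2 : Set V) (c : V) (N F : Set V) : Prop where
  un : N ∪ F = B
  dis : Disjoint N F
  cF : c ∈ F
  cnF : Cn G F
  cnN : Cn G (insert c N)
  aF : ∀ v ∈ B, v ∈ α1 ∪ α2 → v ∈ F
  XN : ∀ v ∈ B, v ∈ X → v ∈ insert c N
  noedge : ∀ n ∈ N, ∀ f ∈ F, f ≠ c → ¬ G.Adj n f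
  two : ∀ f ∈ F, f ≠ c → ∃ T T' : Set V, T ⊆ F ∧ T' ⊆ F ∧ Disjoint T T' ∧ Cn G T ∧ Cn G T' ∧
    c ∈ T ∧ f ∈ T' ∧ (((T ∩ α1).Nonempty ∧ (T' ∩ α2).Nonempty) ∨
      ((T ∩ α2).Nonempty ∧ (T' ∩ α1).Nonempty))

/-- there is a `K₅` model in which `{x}` is a branch set -/
def Has5 (G : SimpleGraph V) (x : V) : Prop := ∃ D, M5 G D ∧ D 0 = {x}

/-- there is a `K₃,₃` model in which `{x}` is a branch set -/
def Has33 (G : SimpleGraph V) (x : V) : Prop := ∃ A B, M33 G A B ∧ A 0 = {x}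

theorem Ad.symm {S T : Set V} (h : Ad G S T) : Ad G T S := by
  obtain ⟨s, hs, t, ht, h⟩ := h
  exact ⟨t, ht, s, hs, h.symm⟩

theorem Ad.mono {S T S' T' : Set V} (h : Ad G S T) (hS : S ⊆ S') (hT : T ⊆ T') : Ad G S' T' := by
  obtain ⟨s, hs, t, ht, h⟩ := h
  exact ⟨s, hS hs, t, hT ht, h⟩

theorem cn_single (G : SimpleGraph V) (v : V) : Cn G ({v} : Set V) := single_connected G v

theorem Cn.ne {S : Set V} (h : Cn G S) : S.Nonempty := by
  obtain ⟨⟨v, hv⟩⟩ := h.nonempty
  exact ⟨v, hv⟩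

/-- union of two adjacent connected sets -/
theorem Cn.union {S T : Set V} (hS : Cn G S) (hT : Cn G T) (h : Ad G S T) : Cn G (S ∪ T) := by
  obtain ⟨s, hs, t, ht, h⟩ := h
  exact SimpleGraph.connected_induce_union hS.preconnected hT.preconnected hs ht h

/-- union of two connected sets with a common vertex -/
theorem Cn.inter {S T : Set V} (hS : Cn G S) (hT : Cn G T) {v : V} (hv : v ∈ S) (hv' : v ∈ T) :
    Cn G (S ∪ T) := by
  have h := SimpleGraph.induce_sUnion_connected_of_pairwise_not_disjoint (G := G)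
    (S := {S, T}) ⟨S, Or.inl rfl⟩ (by
      rintro s t (rfl | rfl) (rfl | rfl)
      · exact ⟨v, hv, hv⟩
      · exact ⟨v, hv, hv'⟩
      · exact ⟨v, hv', hv⟩
      · exact ⟨v, hv', hv'⟩) (by
      rintro s (rfl | rfl)
      · exact hS
      · exact hT)
  rwa [Set.sUnion_pair] at h

theorem Cn.insert {S : Set V} (hS : Cn G S) {v : V} (h : ∃ s ∈ S, G.Adj v s) :
    Cn G (insert v S) := by
  obtain ⟨s, hs, h⟩ := h
  rw [← Set.singleton_union]
  exact (cn_single G v).union hS ⟨v, rfl, s, hs, h⟩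

/-- an edge leaving a proper nonempty subset `P` of a connected set `C` -/
theorem Cn.exit {C : Set V} (hC : Cn G C) {P : Set V} (h1 : (C ∩ P).Nonempty)
    (h2 : (C \ P).Nonempty) : ∃ g h, g ∈ C ∧ h ∈ C ∧ G.Adj g h ∧ g ∈ P ∧ h ∉ P := by
  obtain ⟨e, he⟩ := h1
  obtain ⟨f, hf⟩ := h2
  exact cross hC P he.1 hf.1 he.2 hf.2

/-- 4-connectivity: a nonempty set `C` disjoint from the set `X` of at most three vertices, not all of
`V \ X`, has an edge leaving `C` and avoiding `X`. -/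
theorem exit4 [Fintype V] (hJ : IsKConnected 4 G) (X : Finset V) (hX : X.card ≤ 3) {C : Set V}
    {g h : V} (hg : g ∈ C) (hgX : g ∉ X) (hh : h ∉ C) (hhX : h ∉ X) :
    ∃ u w, u ∈ C ∧ w ∉ C ∧ u ∉ X ∧ w ∉ X ∧ G.Adj u w := by
  obtain ⟨u, w, hu, hw, huw, huC, hwC⟩ := cross (hJ.2 X (by omega)) C (e := g) (f := h)
    (fun h' => hgX (Finset.mem_coe.1 h')) (fun h' => hhX (Finset.mem_coe.1 h')) hg hh
  exact ⟨u, w, huC, hwC, fun h' => hu (Finset.mem_coe.2 h'), fun h' => hw (Finset.mem_coe.2 h'),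
    huw⟩

theorem M33.swap {A B : Fin 3 → Set V} (h : M33 G A B) : M33 G B A :=
  ⟨h.cb, h.ca, h.db, h.da, fun i j => (h.dab j i).symm, fun i j => (h.ad j i).symm⟩

theorem M33.perm {A B : Fin 3 → Set V} (h : M33 G A B) (σ τ : Equiv.Perm (Fin 3)) :
    M33 G (fun i => A (σ i)) (fun i => B (τ i)) :=
  ⟨fun i => h.ca _, fun i => h.cb _, fun i j hij => h.da _ _ (fun h' => hij (σ.injective h')),
    fun i j hij => h.db _ _ (fun h' => hij (τ.injective h')), fun i j => h.dab _ _,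
    fun i j => h.ad _ _⟩

theorem M5.perm {D : Fin 5 → Set V} (h : M5 G D) (σ : Equiv.Perm (Fin 5)) :
    M5 G (fun i => D (σ i)) :=
  ⟨fun i => h.c _, fun i j hij => h.d _ _ (fun h' => hij (σ.injective h')),
    fun i j hij => h.ad _ _ (fun h' => hij (σ.injective h'))⟩

/-- a `K₃,₃` model from six sets -/
theorem mk33 {A0 A1 A2 B0 B1 B2 : Set V} (a0 : Cn G A0) (a1 : Cn G A1) (a2 : Cn G A2)
    (b0 : Cn G B0) (b1 : Cn G B1) (b2 : Cn G B2)
    (d01 : Disjoint A0 A1) (d02 : Disjoint A0 A2) (d12 : Disjoint A1 A2)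
    (e01 : Disjoint B0 B1) (e02 : Disjoint B0 B2) (e12 : Disjoint B1 B2)
    (f00 : Disjoint A0 B0) (f01 : Disjoint A0 B1) (f02 : Disjoint A0 B2)
    (f10 : Disjoint A1 B0) (f11 : Disjoint A1 B1) (f12 : Disjoint A1 B2)
    (f20 : Disjoint A2 B0) (f21 : Disjoint A2 B1) (f22 : Disjoint A2 B2)
    (g00 : Ad G A0 B0) (g01 : Ad G A0 B1) (g02 : Ad G A0 B2)
    (g10 : Ad G A1 B0) (g11 : Ad G A1 B1) (g12 : Ad G A1 B2)
    (g20 : Ad G A2 B0) (g21 : Ad G A2 B1) (g22 : Ad G A2 B2) :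
    M33 G ![A0, A1, A2] ![B0, B1, B2] := by
  refine ⟨?_, ?_, ?_, ?_, ?_, ?_⟩
  · intro i
    fin_cases i
    · exact a0
    · exact a1
    · exact a2
  · intro i
    fin_cases i
    · exact b0
    · exact b1
    · exact b2
  · intro i j hij
    fin_cases i <;> fin_cases j
    · exact absurd rfl hij
    · exact d01
    · exact d02
    · exact d01.symm
    · exact absurd rfl hij
    · exact d12
    · exact d02.symm
    · exact d12.symm
    · exact absurd rfl hij
  · intro i j hij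
    fin_cases i <;> fin_cases j
    · exact absurd rfl hij
    · exact e01
    · exact e02
    · exact e01.symm
    · exact absurd rfl hij
    · exact e12
    · exact e02.symm
    · exact e12.symm
    · exact absurd rfl hij
  · intro i j
    fin_cases i <;> fin_cases j
    · exact f00
    · exact f01
    · exact f02
    · exact f10
    · exact f11
    · exact f12
    · exact f20
    · exact f21
    · exact f22
  · intro i j
    fin_cases i <;> fin_cases j
    · exact g00
    · exact g01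
    · exact g02
    · exact g10
    · exact g11
    · exact g12
    · exact g20
    · exact g21
    · exact g22

/-- a `K₅` model from five sets -/
theorem mk5 {D0 D1 D2 D3 D4 : Set V} (c0 : Cn G D0) (c1 : Cn G D1) (c2 : Cn G D2)
    (c3 : Cn G D3) (c4 : Cn G D4)
    (d01 : Disjoint D0 D1) (d02 : Disjoint D0 D2) (d03 : Disjoint D0 D3) (d04 : Disjoint D0 D4)
    (d12 : Disjoint D1 D2) (d13 : Disjoint D1 D3) (d14 : Disjoint D1 D4)
    (d23 : Disjoint D2 D3) (d24 : Disjoint D2 D4) (d34 : Disjoint D3 D4)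
    (g01 : Ad G D0 D1) (g02 : Ad G D0 D2) (g03 : Ad G D0 D3) (g04 : Ad G D0 D4)
    (g12 : Ad G D1 D2) (g13 : Ad G D1 D3) (g14 : Ad G D1 D4)
    (g23 : Ad G D2 D3) (g24 : Ad G D2 D4) (g34 : Ad G D3 D4) :
    M5 G ![D0, D1, D2, D3, D4] := by
  have hd : ∀ i j : Fin 5, i < j → Disjoint (![D0, D1, D2, D3, D4] i) (![D0, D1, D2, D3, D4] j) := by
    intro i j hij
    fin_cases i <;> fin_cases j <;> first | exact absurd hij (by decide) | assumption
  have hg : ∀ i j : Fin 5, i < j → Ad G (![D0, D1, D2, D3, D4] i) (![D0, D1, D2, D3, D4] j) := by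
    intro i j hij
    fin_cases i <;> fin_cases j <;> first | exact absurd hij (by decide) | assumption
  refine ⟨?_, ?_, ?_⟩
  · intro i
    fin_cases i
    · exact c0
    · exact c1
    · exact c2
    · exact c3
    · exact c4
  · intro i j hij
    rcases lt_or_gt_of_ne hij with h | h
    · exact hd i j h
    · exact (hd j i h).symm
  · intro i j hij
    rcases lt_or_gt_of_ne hij with h | h
    · exact hg i j h
    · exact (hg j i h).symm

theorem Tri.swap {x a1 a2 : V} {B : Fin 3 → Set V} (h : Tri G x a1 a2 B) : Tri G x a2 a1 B :=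
  ⟨h.xa2, h.xa1, h.a12.symm, h.cb, h.xb, h.a2b, h.a1b, h.db, h.adx, h.ad2, h.ad1, fun v => by
    rcases h.sp v with h | h | h | h
    · exact Or.inl h
    · exact Or.inr (Or.inr (Or.inl h))
    · exact Or.inr (Or.inl h)
    · exact Or.inr (Or.inr (Or.inr h))⟩

theorem Tri.perm {x a1 a2 : V} {B : Fin 3 → Set V} (h : Tri G x a1 a2 B)
    (σ : Equiv.Perm (Fin 3)) : Tri G x a1 a2 (fun i => B (σ i)) :=
  ⟨h.xa1, h.xa2, h.a12, fun i => h.cb _, fun i => h.xb _, fun i => h.a1b _, fun i => h.a2b _,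
    fun i j hij => h.db _ _ (fun h' => hij (σ.injective h')), fun i => h.adx _, fun i => h.ad1 _,
    fun i => h.ad2 _, fun v => by
      rcases h.sp v with h | h | h | ⟨i, h⟩
      · exact Or.inl h
      · exact Or.inr (Or.inl h)
      · exact Or.inr (Or.inr (Or.inl h))
      · exact Or.inr (Or.inr (Or.inr ⟨σ.symm i, by rwa [Equiv.apply_symm_apply]⟩))⟩

end Pool.Agent.LR5
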