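import Pool.Agent.LR5.LemU
import Pool.Agent.LR5.A4
import Pool.Agent.LR5.Concl
import Pool.Agent.LR5.Cubic

/-!
LR5: degree 6.  `N = N(v)` has six elements and the sum over `x ∈ N` of `d(x)` := number of neighbours of
`x` in `N` is at least 18.  Then `NoMin G {p}` for some neighbour `p` of `v`.

Proof.  Suppose not.  (1) `d(p) ≤ 4` for all `p ∈ N` (`d(p) = 5`: `app0`).  (2) At most one `p` has
`d(p) ≥ 4` (`two_hubs`, `dg G v = 6`).  If all `d(x) ≤ 3`, then all are equal to 3 (sum at least 18):
`cubic6` and `strong_false` give a contradiction (`Strong` with the vertex `v`).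
So there is exactly one `p` with `d(p) = 4`, the others have `d ≤ 3`; the sum is even (`Finset` handshake,
or from `tri_sum`) and at least 18, at most 4 + 15 = 19, so it is 18.  `Q := N ∩ N(p)` has four elements, let
`u` be the sixth vertex.  `u` is adjacent to at most two vertices of `Q` (`lemU`), so `d(u) ≤ 2`; the sum
is 18, so `d(u) = 2` and `d(q) = 3` for all `q ∈ Q`.  Let `u` be adjacent to `q, q' ∈ Q`.  If they are not
adjacent: `a4`.  So they are adjacent, and the neighbours of `q` in `N` are `p, u, q'`, those of `q'` are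
`p, u, q`.  For `r ∈ Q` different from `q, q'`: its neighbours in `N` are among `p` and the fourth vertex of
`Q`, so `d(r) ≤ 2`: contradiction.
-/

set_option autoImplicit false

namespace Pool.Agent.LR5

open Pool.Agent.LG6 Finset

variable {V : Type} [Fintype V] [DecidableEq V]

theorem deg6 {G : SimpleGraph V} [DecidableRel G.Adj] (hG : IsKConnected 6 G)
    (hm : ¬ HasCompleteMinor 6 G) (v : V) (N : Finset V) (hN : ∀ x, x ∈ N ↔ G.Adj v x)
    (h6 : N.card = 6) (hs : 18 ≤ ∑ x ∈ N, (N.filter (G.Adj x)).card)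
    (he : Even (∑ x ∈ N, (N.filter (G.Adj x)).card)) : ∃ p ∈ N, NoMin G {p} := by
  by_contra hcon
  have hno : ∀ p ∈ N, ¬ NoMin G {p} := fun p hp h => hcon ⟨p, hp, h⟩
  have hdg : dg G v = 6 := by
    have h1 : G.neighborSet v = (↑N : Set V) := by
      ext x
      rw [SimpleGraph.mem_neighborSet, Finset.mem_coe, hN x]
    rw [dg, h1, Set.ncard_coe_finset, h6]
  have hsub : ∀ p, N.filter (G.Adj p) ⊆ N.erase p := by
    intro p x hx
    rw [Finset.mem_filter] at hx
    exact Finset.mem_erase.2 ⟨fun h => hx.2.ne h.symm, hx.1⟩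
  -- degrees inside `N` are at most 4
  have hle4 : ∀ p ∈ N, (N.filter (G.Adj p)).card ≤ 4 := by
    intro p hp
    by_contra hgt
    have hce : (N.erase p).card = 5 := by rw [Finset.card_erase_of_mem hp, h6]
    have heq : N.filter (G.Adj p) = N.erase p :=
      Finset.eq_of_subset_of_card_le (hsub p) (by omega)
    refine hno p hp (app0 hG hm v p ((hN p).1 hp) ?_)
    intro u hu hup
    have hu' : u ∈ N.filter (G.Adj p) := by
      rw [heq]
      exact Finset.mem_erase.2 ⟨hup, (hN u).2 hu⟩
    exact (Finset.mem_filter.1 hu').2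
  -- at most one hub
  have hhub : ∀ p ∈ N, ∀ q ∈ N, p ≠ q → 4 ≤ (N.filter (G.Adj p)).card →
      (N.filter (G.Adj q)).card ≤ 3 := by
    intro p hp q hq hpq h4
    by_contra hgt
    refine two_hubs hG hm v p q ((hN p).1 hp) ((hN q).1 hq) hpq (by omega)
      (N.filter (G.Adj p)) (N.filter (G.Adj q)) h4 (by omega) ?_ ?_
    · intro u hu
      rw [Finset.mem_filter] at hu
      exact ⟨(hN u).1 hu.1, hu.2⟩
    · intro u hu
      rw [Finset.mem_filter] at hu
      exact ⟨(hN u).1 hu.1, hu.2⟩
  by_cases hall : ∀ x ∈ N, (N.filter (G.Adj x)).card ≤ 3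
  · -- the cubic case
    have h3 : ∀ x ∈ N, (N.filter (G.Adj x)).card = 3 := by
      intro x hx
      by_contra hne
      have hlt : (N.filter (G.Adj x)).card < 3 := lt_of_le_of_ne (hall x hx) hne
      have hsum : ∑ x ∈ N, (N.filter (G.Adj x)).card < ∑ x ∈ N, 3 :=
        Finset.sum_lt_sum hall ⟨x, hx, hlt⟩
      rw [Finset.sum_const, h6, smul_eq_mul] at hsum
      omega
    obtain ⟨x, hx, y, hy, z, hz, w, hw, xz, xw, yz, yw, axy, azw, d1, d2⟩ := cubic6 G N h6 h3
    refine strong_false hG hm x y z w ⟨axy, Or.inr ⟨v, (hN x).1 hx, (hN y).1 hy, ?_⟩⟩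
      ⟨azw, Or.inr ⟨v, (hN z).1 hz, (hN w).1 hw, ?_⟩⟩ xz xw yz yw
    · intro u hu h1 h2
      exact d1 u ((hN u).2 hu) h1 h2
    · intro u hu h1 h2
      exact d2 u ((hN u).2 hu) h1 h2
  · push Not at hall
    obtain ⟨p, hp, hp3⟩ := hall
    have hp4 : (N.filter (G.Adj p)).card = 4 := le_antisymm (hle4 p hp) hp3
    have hpv : G.Adj v p := (hN p).1 hp
    set Q := N.filter (G.Adj p) with hQdef
    have hQ' : ∀ q ∈ Q, G.Adj v q ∧ G.Adj p q := by
      intro q hq
      rw [hQdef, Finset.mem_filter] at hq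
      exact ⟨(hN q).1 hq.1, hq.2⟩
    have hQN : ∀ q ∈ Q, q ∈ N := fun q hq => (Finset.mem_filter.1 hq).1
    have hpQ : p ∉ Q := fun h => G.loopless.irrefl p (hQ' p h).2
    have hQe : Q ⊆ N.erase p := hsub p
    have hc1 : ((N.erase p) \ Q).card = 1 := by
      rw [Finset.card_sdiff_of_subset hQe, Finset.card_erase_of_mem hp, h6, hp4]
    obtain ⟨u, hu⟩ := Finset.card_eq_one.1 hc1
    have humem : u ∈ (N.erase p) \ Q := by rw [hu]; exact Finset.mem_singleton_self u
    rw [Finset.mem_sdiff, Finset.mem_erase] at humem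
    obtain ⟨⟨hup, huN⟩, huQ⟩ := humem
    have hpu : ¬ G.Adj p u := fun h => huQ (Finset.mem_filter.2 ⟨huN, h⟩)
    have hins : N.erase p = insert u Q := by
      ext x
      constructor
      · intro hx
        by_cases hxQ : x ∈ Q
        · exact Finset.mem_insert_of_mem hxQ
        · have : x ∈ (N.erase p) \ Q := Finset.mem_sdiff.2 ⟨hx, hxQ⟩
          rw [hu, Finset.mem_singleton] at this
          rw [this]
          exact Finset.mem_insert_self u Q
      · intro hx
        rcases Finset.mem_insert.1 hx with h | h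
        · rw [h]
          exact Finset.mem_erase.2 ⟨hup, huN⟩
        · exact hQe h
    have hNN : ∀ w ∈ N, w = p ∨ w = u ∨ w ∈ Q := by
      intro w hw
      by_cases hwp : w = p
      · exact Or.inl hwp
      · have : w ∈ insert u Q := by
          rw [← hins]
          exact Finset.mem_erase.2 ⟨hwp, hw⟩
        rcases Finset.mem_insert.1 this with h | h
        · exact Or.inr (Or.inl h)
        · exact Or.inr (Or.inr h)
    -- the neighbours of `u` in `N`
    have huf : N.filter (G.Adj u) ⊆ Q := by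
      intro x hx
      rw [Finset.mem_filter] at hx
      rcases hNN x hx.1 with h | h | h
      · exact absurd (h ▸ hx.2 : G.Adj u p).symm hpu
      · exact absurd (h ▸ hx.2 : G.Adj u u) (G.loopless.irrefl u)
      · exact h
    have hu2 : (N.filter (G.Adj u)).card ≤ 2 := by
      by_contra hgt
      obtain ⟨q1, q2, q3, h1, h2, h3, h12, h13, h23⟩ :=
        Finset.two_lt_card_iff.1 (by omega : 2 < (N.filter (G.Adj u)).card)
      refine lemU hG hm v p hpv Q (by omega) hQ' u ?_ hup q1 q2 q3 (huf h1) (huf h2) (huf h3)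
        h12 h13 h23 (Finset.mem_filter.1 h1).2 (Finset.mem_filter.1 h2).2
        (Finset.mem_filter.1 h3).2
      intro h
      exact ((hN u).1 huN).ne h.symm
    have hq3 : ∀ q ∈ Q, (N.filter (G.Adj q)).card ≤ 3 := by
      intro q hq
      exact hhub p hp q (hQN q hq) (fun h => hpQ (h ▸ hq)) hp4.ge
    have hsum : ∑ x ∈ N, (N.filter (G.Adj x)).card =
        (N.filter (G.Adj p)).card + ((N.filter (G.Adj u)).card +
          ∑ x ∈ Q, (N.filter (G.Adj x)).card) := by
      rw [← Finset.add_sum_erase N (fun x => (N.filter (G.Adj x)).card) hp, hins,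
        Finset.sum_insert huQ]
    have hsQ : ∑ x ∈ Q, (N.filter (G.Adj x)).card ≤ 12 := by
      have := Finset.sum_le_card_nsmul Q (fun x => (N.filter (G.Adj x)).card) 3 hq3
      rw [hp4, smul_eq_mul] at this
      omega
    have hpc : (N.filter (G.Adj p)).card = 4 := hp4
    rw [hsum, hpc] at hs
    have hu2' : (N.filter (G.Adj u)).card = 2 := by omega
    have hsQ' : ∑ x ∈ Q, (N.filter (G.Adj x)).card = 12 := by omega
    have hq3' : ∀ q ∈ Q, (N.filter (G.Adj q)).card = 3 := by
      intro q hq
      by_contra hne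
      have hlt : (N.filter (G.Adj q)).card < 3 := lt_of_le_of_ne (hq3 q hq) hne
      have hsum' : ∑ x ∈ Q, (N.filter (G.Adj x)).card < ∑ x ∈ Q, 3 :=
        Finset.sum_lt_sum hq3 ⟨q, hq, hlt⟩
      rw [Finset.sum_const, hp4, smul_eq_mul] at hsum'
      omega
    obtain ⟨q, q', hqq, hqq'⟩ := Finset.card_eq_two.1 hu2'
    have hqf : q ∈ N.filter (G.Adj u) := by rw [hqq']; simp
    have hqf' : q' ∈ N.filter (G.Adj u) := by rw [hqq']; simp
    have hqQ : q ∈ Q := huf hqf
    have hqQ' : q' ∈ Q := huf hqf'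
    have uq : G.Adj u q := (Finset.mem_filter.1 hqf).2
    have uq' : G.Adj u q' := (Finset.mem_filter.1 hqf').2
    have adj : G.Adj q q' := by
      by_contra hnadj
      exact hno p hp (a4 hG hm v p hpv Q (by omega) hQ' u ((hN u).1 huN) hup hpu
        (fun w hw => hNN w ((hN w).2 hw)) q q' hqQ hqQ' hqq uq uq' hnadj)
    -- the neighbours of `q`, `q'` in `N`
    have hpq : p ≠ q := fun h => hpQ (h ▸ hqQ)
    have hpq' : p ≠ q' := fun h => hpQ (h ▸ hqQ')
    have hf : ∀ a b : V, a ∈ Q → b ∈ Q → G.Adj u a → G.Adj u b → G.Adj a b → ∀ r ∈ Q, r ≠ b →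
        ¬ G.Adj a r := by
      intro a b ha hb hua hub hab r hr hrb har
      have hsubs : ({p, u, b, r} : Finset V) ⊆ N.filter (G.Adj a) := by
        intro x hx
        simp only [Finset.mem_insert, Finset.mem_singleton] at hx
        rcases hx with rfl | rfl | rfl | rfl
        · exact Finset.mem_filter.2 ⟨hp, (hQ' a ha).2.symm⟩
        · exact Finset.mem_filter.2 ⟨huN, hua.symm⟩
        · exact Finset.mem_filter.2 ⟨hQN _ hb, hab⟩
        · exact Finset.mem_filter.2 ⟨hQN _ hr, har⟩
      have hcard : ({p, u, b, r} : Finset V).card = 4 := by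
        rw [Finset.card_insert_of_notMem, Finset.card_insert_of_notMem,
          Finset.card_pair hrb.symm]
        · simp only [Finset.mem_insert, Finset.mem_singleton, not_or]
          exact ⟨fun h => huQ (h ▸ hb), fun h => huQ (h ▸ hr)⟩
        · simp only [Finset.mem_insert, Finset.mem_singleton, not_or]
          exact ⟨hup.symm, fun h => hpQ (h ▸ hb), fun h => hpQ (h ▸ hr)⟩
      have := Finset.card_le_card hsubs
      rw [hcard, hq3' a ha] at this
      omega
    have hc2 : ((Q.erase q).erase q').card = 2 := by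
      rw [Finset.card_erase_of_mem (Finset.mem_erase.2 ⟨hqq.symm, hqQ'⟩),
        Finset.card_erase_of_mem hqQ, hp4]
    obtain ⟨r, r', hrr, hrr'⟩ := Finset.card_eq_two.1 hc2
    have hrm : r ∈ (Q.erase q).erase q' := by rw [hrr']; simp
    rw [Finset.mem_erase, Finset.mem_erase] at hrm
    obtain ⟨hrq', hrq, hrQ⟩ := hrm
    have hrsub : N.filter (G.Adj r) ⊆ {p, r'} := by
      intro x hx
      rw [Finset.mem_filter] at hx
      rw [Finset.mem_insert, Finset.mem_singleton]
      rcases hNN x hx.1 with h | h | h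
      · exact Or.inl h
      · exfalso
        have hru : r ∈ N.filter (G.Adj u) :=
          Finset.mem_filter.2 ⟨hQN r hrQ, (h ▸ hx.2 : G.Adj r u).symm⟩
        rw [hqq', Finset.mem_insert, Finset.mem_singleton] at hru
        rcases hru with h' | h'
        · exact hrq h'
        · exact hrq' h'
      · right
        by_cases hxq : x = q
        · exact absurd (hxq ▸ hx.2 : G.Adj r q).symm (hf q q' hqQ hqQ' uq uq' adj r hrQ hrq')
        by_cases hxq' : x = q'
        · exact absurd (hxq' ▸ hx.2 : G.Adj r q').symm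
            (hf q' q hqQ' hqQ uq' uq adj.symm r hrQ hrq)
        have hxm : x ∈ (Q.erase q).erase q' :=
          Finset.mem_erase.2 ⟨hxq', Finset.mem_erase.2 ⟨hxq, h⟩⟩
        rw [hrr', Finset.mem_insert, Finset.mem_singleton] at hxm
        rcases hxm with h' | h'
        · exact absurd (h' ▸ hx.2 : G.Adj r r) (G.loopless.irrefl r)
        · exact h'
    have := Finset.card_le_card hrsub
    rw [hq3' r hrQ] at this
    have h2 := Finset.card_le_two (a := p) (b := r')
    omega

end Pool.Agent.LR5
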