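import Pool.Agent.LR5.App

/-!
LR5, Lemma UU (degree 7).  `v`, `p` adjacent; `Q` a set of exactly four common neighbours; `N(v)` is
`{p, u1, u2} ∪ Q`; `u1`, `u2` adjacent, not in `Q`, different from `p`; three different vertices
`q1, q2, q3 ∈ Q`, each adjacent to `u1` or `u2`; no `q i` is adjacent to all the other vertices of
`{p, u1, u2, q1, q2, q3}`.  Then `G` has a `K₆` minor.

Proof.  `app1`: `trim G v p` has no `K₃,₃` model avoiding `p`.  Let `T := {p, v, u1, u2, q1, q2, q3}`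
(seven different vertices).  `q4`, the fourth vertex of `Q`, is outside `T`.  For a component `X` of
`G - T` (`LG6.comp`) the set `N(X) ⊆ T` has at least six elements (otherwise deleting `N(X)` separates
`X` from another vertex of `T`).  We want a component adjacent to `q1, q2, q3`; then the model (`mk33`) in
`trim G v p` is: side A `{v}`, `{u1, u2}`, `X`; side B `{q1}`, `{q2}`, `{q3}`.
Let `X` be the component of `q4`.  If it is adjacent to `q1, q2, q3`: done.  Otherwise it misses exactly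
one vertex of `T`, say `q1`.  If there is a vertex outside `T ∪ X`, let `X'` be its component: it does not
contain `q4`, so it is not adjacent to `v` (the neighbours of `v` are in `T ∪ {q4}`), so `N(X')` is
`T \ {v}` and contains `q1, q2, q3`: done.  Otherwise all neighbours of `q1` are in
`T \ {q1}` = `{p, v, u1, u2, q2, q3}`; `q1` has at least six neighbours, so it is adjacent to all of them:
excluded.
-/

set_option autoImplicit false

namespace Pool.Agent.LR5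

open Pool.Agent.LG6

variable {V : Type} [Fintype V]

/-- a component `D` of `Tᶜ` is adjacent to one of the vertices of `M ⊆ T` if `T \ M` is small -/
theorem lemUU_sep [DecidableEq V] {G : SimpleGraph V} (hG : IsKConnected 6 G) (T M : Finset V)
    (D : Set V) (hDT : ∀ x ∈ D, x ∉ T) (hcl : ∀ g ∈ D, ∀ h, h ∉ T → G.Adj g h → h ∈ D) {d : V}
    (hd : d ∈ D) (hM : M ⊆ T) (hne : M.Nonempty) (hc : T.card < 6 + M.card)
    (hno : ∀ m ∈ M, ∀ y ∈ D, ¬ G.Adj y m) : False := by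
  obtain ⟨m, hm⟩ := hne
  have h1 : (T \ M).card < 6 := by
    rw [Finset.card_sdiff_of_subset hM]
    omega
  obtain ⟨g, h, hg, hh, hgh, hgD, hhD⟩ := cross (hG.2 (T \ M) h1) D (e := d) (f := m)
    (fun h' => hDT d hd (Finset.mem_sdiff.1 (Finset.mem_coe.1 h')).1)
    (fun h' => (Finset.mem_sdiff.1 (Finset.mem_coe.1 h')).2 hm) hd
    (fun h' => hDT m h' (hM hm))
  by_cases hhT : h ∈ T
  · have hhM : h ∈ M := by
      by_contra hc'
      exact hh (Finset.mem_coe.2 (Finset.mem_sdiff.2 ⟨hhT, hc'⟩))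
    exact hno h hhM g hgD hgh
  · exact hhD (hcl g hgD h hhT hgh)

omit [Fintype V] in
/-- the final `K₃,₃` model -/
theorem lemUU_model {G : SimpleGraph V} (v p : V) (hnm : NoMin (trim G v p) {p})
    (u1 u2 q1 q2 q3 : V) (X : Set V) (hX : Cn G X) (hvp : v ≠ p) (hv1 : u1 ≠ v) (hv2 : u2 ≠ v)
    (h1p : u1 ≠ p) (h2p : u2 ≠ p) (huu : G.Adj u1 u2)
    (hpX : p ∉ X) (hvX : v ∉ X) (h1X : u1 ∉ X) (h2X : u2 ∉ X)
    (hq : ∀ q, q = q1 ∨ q = q2 ∨ q = q3 → G.Adj v q ∧ G.Adj p q ∧ u1 ≠ q ∧ u2 ≠ q ∧ q ∉ X ∧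
      (G.Adj u1 q ∨ G.Adj u2 q) ∧ ∃ y ∈ X, G.Adj y q)
    (h12 : q1 ≠ q2) (h13 : q1 ≠ q3) (h23 : q2 ≠ q3) : False := by
  apply hnm.2
  have hu : Cn (trim G v p) ({u1, u2} : Set V) := by
    apply cn_trim
    · exact (cn_single G u2).insert ⟨u2, rfl, huu⟩
    · rintro (h | h)
      · exact hv1 h.symm
      · exact hv2 (Set.mem_singleton_iff.1 h).symm
  have hX' : Cn (trim G v p) X := cn_trim hX hvX
  have hvu : Disjoint ({v} : Set V) {u1, u2} := by
    rw [Set.disjoint_singleton_left]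
    rintro (h | h)
    · exact hv1 h.symm
    · exact hv2 (Set.mem_singleton_iff.1 h).symm
  have hvX' : Disjoint ({v} : Set V) X := Set.disjoint_singleton_left.2 hvX
  have huX : Disjoint ({u1, u2} : Set V) X := by
    rw [Set.disjoint_left]
    rintro a (rfl | h)
    · exact h1X
    · rw [Set.mem_singleton_iff] at h
      subst h
      exact h2X
  have s12 : ∀ a b : V, a ≠ b → Disjoint ({a} : Set V) {b} := fun a b h =>
    Set.disjoint_singleton.2 h
  have d1 : ∀ q, q = q1 ∨ q = q2 ∨ q = q3 → Disjoint ({v} : Set V) {q} := fun q h =>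
    s12 _ _ (hq q h).1.ne
  have d2 : ∀ q, q = q1 ∨ q = q2 ∨ q = q3 → Disjoint ({u1, u2} : Set V) {q} := by
    intro q h
    rw [Set.disjoint_singleton_right]
    rintro (h' | h')
    · exact (hq q h).2.2.1 h'.symm
    · exact (hq q h).2.2.2.1 (Set.mem_singleton_iff.1 h').symm
  have d3 : ∀ q, q = q1 ∨ q = q2 ∨ q = q3 → Disjoint X ({q} : Set V) := fun q h =>
    Set.disjoint_singleton_right.2 (hq q h).2.2.2.2.1
  have g1 : ∀ q, q = q1 ∨ q = q2 ∨ q = q3 → Ad (trim G v p) ({v} : Set V) {q} := fun q h =>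
    ⟨v, rfl, q, rfl, trim_adj (hq q h).1 (hq q h).2.1⟩
  have g2 : ∀ q, q = q1 ∨ q = q2 ∨ q = q3 → Ad (trim G v p) ({u1, u2} : Set V) {q} := by
    intro q h
    rcases (hq q h).2.2.2.2.2.1 with h' | h'
    · exact ⟨u1, Or.inl rfl, q, rfl, trim_adj_of_ne h' hv1 (hq q h).1.ne.symm⟩
    · exact ⟨u2, Or.inr rfl, q, rfl, trim_adj_of_ne h' hv2 (hq q h).1.ne.symm⟩
  have g3 : ∀ q, q = q1 ∨ q = q2 ∨ q = q3 → Ad (trim G v p) X ({q} : Set V) := by
    intro q h
    obtain ⟨y, hy, hyq⟩ := (hq q h).2.2.2.2.2.2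
    exact ⟨y, hy, q, rfl, trim_adj_of_ne hyq (fun h' => hvX (h' ▸ hy)) (hq q h).1.ne.symm⟩
  have e1 : q1 = q1 ∨ q1 = q2 ∨ q1 = q3 := Or.inl rfl
  have e2 : q2 = q1 ∨ q2 = q2 ∨ q2 = q3 := Or.inr (Or.inl rfl)
  have e3 : q3 = q1 ∨ q3 = q2 ∨ q3 = q3 := Or.inr (Or.inr rfl)
  refine ⟨_, _, mk33 (cn_single _ v) hu hX' (cn_single _ q1) (cn_single _ q2) (cn_single _ q3)
    hvu hvX' huX (s12 _ _ h12) (s12 _ _ h13) (s12 _ _ h23) (d1 _ e1) (d1 _ e2) (d1 _ e3)
    (d2 _ e1) (d2 _ e2) (d2 _ e3) (d3 _ e1) (d3 _ e2) (d3 _ e3) (g1 _ e1) (g1 _ e2) (g1 _ e3)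
    (g2 _ e1) (g2 _ e2) (g2 _ e3) (g3 _ e1) (g3 _ e2) (g3 _ e3), ?_, ?_⟩
  · intro i
    rw [Set.disjoint_singleton_right]
    fin_cases i
    · exact fun h => hvp (Set.mem_singleton_iff.1 h).symm
    · rintro (h | h)
      · exact h1p h.symm
      · exact h2p (Set.mem_singleton_iff.1 h).symm
    · exact hpX
  · intro i
    rw [Set.disjoint_singleton_right]
    fin_cases i
    · exact fun h => (hq _ e1).2.1.ne (Set.mem_singleton_iff.1 h)
    · exact fun h => (hq _ e2).2.1.ne (Set.mem_singleton_iff.1 h)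
    · exact fun h => (hq _ e3).2.1.ne (Set.mem_singleton_iff.1 h)

/-- the case that the component of `q4` misses `q1` -/
theorem lemUU_core [DecidableEq V] {G : SimpleGraph V} (hG : IsKConnected 6 G) (v p : V)
    (hnm : NoMin (trim G v p) {p}) (T : Finset V) (hT7 : T.card = 7) (X : Set V)
    (hcl : ∀ g ∈ X, ∀ h, h ∉ T → G.Adj g h → h ∈ X)
    (hvp : G.Adj v p) (u1 u2 q1 q2 q3 q4 : V)
    (hT : T = {p, v, u1, u2, q1, q2, q3})
    (h4X : q4 ∈ X) (hv1 : u1 ≠ v) (hv2 : u2 ≠ v) (h1p : u1 ≠ p) (h2p : u2 ≠ p)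
    (huu : G.Adj u1 u2)
    (hq : ∀ q, q = q1 ∨ q = q2 ∨ q = q3 → G.Adj v q ∧ G.Adj p q ∧ u1 ≠ q ∧ u2 ≠ q ∧
      (G.Adj u1 q ∨ G.Adj u2 q))
    (h12 : q1 ≠ q2) (h13 : q1 ≠ q3) (h23 : q2 ≠ q3)
    (hN : ∀ w, G.Adj v w → w ∈ T ∨ w = q4)
    (f1 : ¬ (G.Adj q1 u1 ∧ G.Adj q1 u2 ∧ G.Adj q1 q2 ∧ G.Adj q1 q3))
    (hno : ∀ y ∈ X, ¬ G.Adj y q1) : False := by
  have mT : ∀ x, x ∈ T ↔ x = p ∨ x = v ∨ x = u1 ∨ x = u2 ∨ x = q1 ∨ x = q2 ∨ x = q3 := by
    intro x
    rw [hT]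
    simp only [Finset.mem_insert, Finset.mem_singleton]
  have mp : p ∈ T := (mT p).2 (Or.inl rfl)
  have mv : v ∈ T := (mT v).2 (Or.inr (Or.inl rfl))
  have mu1 : u1 ∈ T := (mT u1).2 (Or.inr (Or.inr (Or.inl rfl)))
  have mu2 : u2 ∈ T := (mT u2).2 (Or.inr (Or.inr (Or.inr (Or.inl rfl))))
  have mq1 : q1 ∈ T := (mT q1).2 (Or.inr (Or.inr (Or.inr (Or.inr (Or.inl rfl)))))
  have mq2 : q2 ∈ T := (mT q2).2 (Or.inr (Or.inr (Or.inr (Or.inr (Or.inr (Or.inl rfl))))))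
  have mq3 : q3 ∈ T := (mT q3).2 (Or.inr (Or.inr (Or.inr (Or.inr (Or.inr (Or.inr rfl))))))
  by_cases hex : ∃ d, d ∉ T ∧ d ∉ X
  · obtain ⟨d, hdT, hdX⟩ := hex
    obtain ⟨D, hDX, hdD, hD, hDcl⟩ := comp G {x | x ∉ T} d hdT
    have h4D : q4 ∉ D := by
      intro h4
      obtain ⟨g, h, hg, hh, hgh, hgX, hhX⟩ := cross hD X h4 hdD h4X hdX
      exact hhX (hcl g hgX h (hDX hh) hgh)
    have hvD : ∀ y ∈ D, ¬ G.Adj y v := by
      intro y hy h
      rcases hN y h.symm with h' | h'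
      · exact hDX hy h'
      · exact h4D (h' ▸ hy)
    have hall : ∀ q, q = q1 ∨ q = q2 ∨ q = q3 → ∃ y ∈ D, G.Adj y q := by
      intro q h
      by_contra hcon
      push Not at hcon
      refine lemUU_sep hG T {v, q} D (fun x hx => hDX hx) (fun g hg h hh => hDcl g hg h hh) hdD
        ?_ ⟨v, by simp⟩ ?_ ?_
      · intro x hx
        rw [Finset.mem_insert, Finset.mem_singleton] at hx
        rcases hx with rfl | rfl
        · exact mv
        · rcases h with h | h | h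
          · exact h ▸ mq1
          · exact h ▸ mq2
          · exact h ▸ mq3
      · rw [Finset.card_pair (hq q h).1.ne]
        omega
      · intro m hm y hy
        rw [Finset.mem_insert, Finset.mem_singleton] at hm
        rcases hm with rfl | rfl
        · exact hvD y hy
        · exact hcon y hy
    have nT : ∀ x, x ∈ T → x ∉ D := fun x hx hD' => hDX hD' hx
    refine lemUU_model v p hnm u1 u2 q1 q2 q3 D hD hvp.ne hv1 hv2 h1p h2p huu (nT _ mp)
      (nT _ mv) (nT _ mu1) (nT _ mu2) ?_ h12 h13 h23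
    intro q h
    refine ⟨(hq q h).1, (hq q h).2.1, (hq q h).2.2.1, (hq q h).2.2.2.1, nT _ ?_,
      (hq q h).2.2.2.2, hall q h⟩
    rcases h with h | h | h
    · exact h ▸ mq1
    · exact h ▸ mq2
    · exact h ▸ mq3
  · push Not at hex
    have hall : ∀ f, G.Adj q1 f → f ∈ T.erase q1 := by
      intro f hf
      rw [Finset.mem_erase]
      refine ⟨hf.ne.symm, ?_⟩
      by_contra hfT
      exact hno f (hex f hfT) hf.symm
    have hex2 : ∃ z, z ∈ T.erase q1 ∧ ¬ G.Adj q1 z := by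
      by_contra hcon
      push Not at hcon
      apply f1
      exact ⟨hcon u1 (Finset.mem_erase.2 ⟨(hq q1 (Or.inl rfl)).2.2.1, mu1⟩),
        hcon u2 (Finset.mem_erase.2 ⟨(hq q1 (Or.inl rfl)).2.2.2.1, mu2⟩),
        hcon q2 (Finset.mem_erase.2 ⟨h12.symm, mq2⟩),
        hcon q3 (Finset.mem_erase.2 ⟨h13.symm, mq3⟩)⟩
    obtain ⟨z, hz, hz'⟩ := hex2
    have := min_deg hG q1 ((T.erase q1).erase z) (by
      intro f hf
      rw [Finset.mem_erase]
      exact ⟨fun h => hz' (h ▸ hf), hall f hf⟩) (by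
      intro h
      exact Finset.notMem_erase q1 T (Finset.mem_of_mem_erase h))
    rw [Finset.card_erase_of_mem hz, Finset.card_erase_of_mem mq1, hT7] at this
    omega

omit [Fintype V] in
theorem lemUU_p2 [DecidableEq V] (a b c d x y z : V) :
    ({a, b, c, d, x, y, z} : Finset V) = {a, b, c, d, y, x, z} := by
  rw [Finset.insert_comm x y]

omit [Fintype V] in
theorem lemUU_p3 [DecidableEq V] (a b c d x y z : V) :
    ({a, b, c, d, x, y, z} : Finset V) = {a, b, c, d, z, x, y} := by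
  rw [Finset.pair_comm y z, Finset.insert_comm x z]

omit [Fintype V] in
theorem lemUU_o2 (x y z r : V) (h : r = y ∨ r = x ∨ r = z) : r = x ∨ r = y ∨ r = z := by
  rcases h with h | h | h
  · exact Or.inr (Or.inl h)
  · exact Or.inl h
  · exact Or.inr (Or.inr h)

omit [Fintype V] in
theorem lemUU_o3 (x y z r : V) (h : r = z ∨ r = x ∨ r = y) : r = x ∨ r = y ∨ r = z := by
  rcases h with h | h | h
  · exact Or.inr (Or.inr h)
  · exact Or.inl h
  · exact Or.inr (Or.inl h)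

theorem lemUU {G : SimpleGraph V} (hG : IsKConnected 6 G) (hm : ¬ HasCompleteMinor 6 G) (v p : V)
    (hvp : G.Adj v p) (Q : Finset V) (hQ : Q.card = 4) (hQ' : ∀ q ∈ Q, G.Adj v q ∧ G.Adj p q)
    (u1 u2 : V) (hvu1 : G.Adj v u1) (hvu2 : G.Adj v u2) (h1p : u1 ≠ p) (h2p : u2 ≠ p)
    (h1Q : u1 ∉ Q) (h2Q : u2 ∉ Q) (huu : G.Adj u1 u2)
    (hN : ∀ w, G.Adj v w → w = p ∨ w = u1 ∨ w = u2 ∨ w ∈ Q)
    (q1 q2 q3 : V) (h1 : q1 ∈ Q) (h2 : q2 ∈ Q) (h3 : q3 ∈ Q)
    (h12 : q1 ≠ q2) (h13 : q1 ≠ q3) (h23 : q2 ≠ q3) (a1 : G.Adj u1 q1 ∨ G.Adj u2 q1)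
    (a2 : G.Adj u1 q2 ∨ G.Adj u2 q2) (a3 : G.Adj u1 q3 ∨ G.Adj u2 q3)
    (f1 : ¬ (G.Adj q1 u1 ∧ G.Adj q1 u2 ∧ G.Adj q1 q2 ∧ G.Adj q1 q3))
    (f2 : ¬ (G.Adj q2 u1 ∧ G.Adj q2 u2 ∧ G.Adj q2 q1 ∧ G.Adj q2 q3))
    (f3 : ¬ (G.Adj q3 u1 ∧ G.Adj q3 u2 ∧ G.Adj q3 q1 ∧ G.Adj q3 q2)) : False := by
  classical
  have hnm := app1 hG hm v p hvp Q (by omega) hQ'
  obtain ⟨q4, h4, h4n⟩ : ∃ q ∈ Q, q ∉ ({q1, q2, q3} : Finset V) := by
    by_contra hcon
    push Not at hcon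
    have h5 := Finset.card_le_card (show Q ⊆ {q1, q2, q3} from hcon)
    have h6 := Finset.card_le_three (a := q1) (b := q2) (c := q3)
    omega
  simp only [Finset.mem_insert, Finset.mem_singleton, not_or] at h4n
  obtain ⟨n41, n42, n43⟩ := h4n
  have hQall : ∀ q ∈ Q, q = q1 ∨ q = q2 ∨ q = q3 ∨ q = q4 := by
    intro q hq
    by_contra hcon
    push Not at hcon
    obtain ⟨m1, m2, m3, m4⟩ := hcon
    have h5 : ({q, q1, q2, q3, q4} : Finset V) ⊆ Q := by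
      intro x hx
      simp only [Finset.mem_insert, Finset.mem_singleton] at hx
      rcases hx with rfl | rfl | rfl | rfl | rfl <;> assumption
    have h6 := Finset.card_le_card h5
    rw [Finset.card_insert_of_notMem, Finset.card_insert_of_notMem, Finset.card_insert_of_notMem,
      Finset.card_insert_of_notMem, Finset.card_singleton] at h6
    · omega
    · simp only [Finset.mem_singleton]
      exact fun h => n43 h.symm
    · simp only [Finset.mem_insert, Finset.mem_singleton, not_or]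
      exact ⟨h23, fun h => n42 h.symm⟩
    · simp only [Finset.mem_insert, Finset.mem_singleton, not_or]
      exact ⟨h12, h13, fun h => n41 h.symm⟩
    · simp only [Finset.mem_insert, Finset.mem_singleton, not_or]
      exact ⟨m1, m2, m3, m4⟩
  have hqQ : ∀ q, q = q1 ∨ q = q2 ∨ q = q3 → q ∈ Q := by
    rintro q (rfl | rfl | rfl) <;> assumption
  have hu1q : ∀ q ∈ Q, u1 ≠ q := fun q hq h => h1Q (h ▸ hq)
  have hu2q : ∀ q ∈ Q, u2 ≠ q := fun q hq h => h2Q (h ▸ hq)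
  have hpq : ∀ q ∈ Q, p ≠ q := fun q hq => (hQ' q hq).2.ne
  have hvq : ∀ q ∈ Q, v ≠ q := fun q hq => (hQ' q hq).1.ne
  have hT7 : ({p, v, u1, u2, q1, q2, q3} : Finset V).card = 7 := by
    rw [Finset.card_insert_of_notMem, Finset.card_insert_of_notMem, Finset.card_insert_of_notMem,
      Finset.card_insert_of_notMem, Finset.card_insert_of_notMem, Finset.card_insert_of_notMem,
      Finset.card_singleton]
    · simp only [Finset.mem_singleton]
      exact h23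
    · simp only [Finset.mem_insert, Finset.mem_singleton, not_or]
      exact ⟨h12, h13⟩
    · simp only [Finset.mem_insert, Finset.mem_singleton, not_or]
      exact ⟨hu2q _ h1, hu2q _ h2, hu2q _ h3⟩
    · simp only [Finset.mem_insert, Finset.mem_singleton, not_or]
      exact ⟨huu.ne, hu1q _ h1, hu1q _ h2, hu1q _ h3⟩
    · simp only [Finset.mem_insert, Finset.mem_singleton, not_or]
      exact ⟨hvu1.ne, hvu2.ne, hvq _ h1, hvq _ h2, hvq _ h3⟩
    · simp only [Finset.mem_insert, Finset.mem_singleton, not_or]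
      exact ⟨hvp.ne.symm, h1p.symm, h2p.symm, hpq _ h1, hpq _ h2, hpq _ h3⟩
  obtain ⟨T, hT⟩ : ∃ T : Finset V, T = {p, v, u1, u2, q1, q2, q3} := ⟨_, rfl⟩
  have mT : ∀ x, x ∈ T ↔ x = p ∨ x = v ∨ x = u1 ∨ x = u2 ∨ x = q1 ∨ x = q2 ∨ x = q3 := by
    intro x
    rw [hT]
    simp only [Finset.mem_insert, Finset.mem_singleton]
  rw [← hT] at hT7
  have mp : p ∈ T := (mT p).2 (Or.inl rfl)
  have mv : v ∈ T := (mT v).2 (Or.inr (Or.inl rfl))
  have mu1 : u1 ∈ T := (mT u1).2 (Or.inr (Or.inr (Or.inl rfl)))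
  have mu2 : u2 ∈ T := (mT u2).2 (Or.inr (Or.inr (Or.inr (Or.inl rfl))))
  have mq1 : q1 ∈ T := (mT q1).2 (Or.inr (Or.inr (Or.inr (Or.inr (Or.inl rfl)))))
  have mq2 : q2 ∈ T := (mT q2).2 (Or.inr (Or.inr (Or.inr (Or.inr (Or.inr (Or.inl rfl))))))
  have mq3 : q3 ∈ T := (mT q3).2 (Or.inr (Or.inr (Or.inr (Or.inr (Or.inr (Or.inr rfl))))))
  have h4T : q4 ∉ T := by
    rw [mT]
    rintro (h | h | h | h | h | h | h)
    · exact hpq _ h4 h.symm
    · exact hvq _ h4 h.symm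
    · exact hu1q _ h4 h.symm
    · exact hu2q _ h4 h.symm
    · exact n41 h
    · exact n42 h
    · exact n43 h
  obtain ⟨X, hXT, h4X, hX, hcl⟩ := comp G {x | x ∉ T} q4 h4T
  have hcl' : ∀ g ∈ X, ∀ h, h ∉ T → G.Adj g h → h ∈ X := fun g hg h hh => hcl g hg h hh
  have hNT : ∀ w, G.Adj v w → w ∈ T ∨ w = q4 := by
    intro w hw
    rcases hN w hw with h | h | h | h
    · exact Or.inl (h ▸ mp)
    · exact Or.inl (h ▸ mu1)
    · exact Or.inl (h ▸ mu2)
    · rcases hQall w h with h' | h' | h' | h'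
      · exact Or.inl (h' ▸ mq1)
      · exact Or.inl (h' ▸ mq2)
      · exact Or.inl (h' ▸ mq3)
      · exact Or.inr h'
  have hq : ∀ q, q = q1 ∨ q = q2 ∨ q = q3 → G.Adj v q ∧ G.Adj p q ∧ u1 ≠ q ∧ u2 ≠ q ∧
      (G.Adj u1 q ∨ G.Adj u2 q) := by
    intro q h
    refine ⟨(hQ' q (hqQ q h)).1, (hQ' q (hqQ q h)).2, hu1q q (hqQ q h), hu2q q (hqQ q h), ?_⟩
    rcases h with rfl | rfl | rfl <;> assumption
  by_cases hall : ∀ q, q = q1 ∨ q = q2 ∨ q = q3 → ∃ y ∈ X, G.Adj y q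
  · have nT : ∀ x, x ∈ T → x ∉ X := fun x hx hD' => hXT hD' hx
    refine lemUU_model v p hnm u1 u2 q1 q2 q3 X hX hvp.ne hvu1.ne.symm hvu2.ne.symm h1p h2p huu
      (nT _ mp) (nT _ mv) (nT _ mu1) (nT _ mu2) ?_ h12 h13 h23
    intro q h
    refine ⟨(hq q h).1, (hq q h).2.1, (hq q h).2.2.1, (hq q h).2.2.2.1, nT _ ?_,
      (hq q h).2.2.2.2, hall q h⟩
    rcases h with h | h | h
    · exact h ▸ mq1
    · exact h ▸ mq2
    · exact h ▸ mq3
  · push Not at hall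
    obtain ⟨q, hqq, hno⟩ := hall
    rcases hqq with rfl | rfl | rfl
    · exact lemUU_core hG v p hnm T hT7 X hcl' hvp u1 u2 q q2 q3 q4 hT h4X
        hvu1.ne.symm hvu2.ne.symm h1p h2p huu hq h12 h13 h23 hNT f1 hno
    · exact lemUU_core hG v p hnm T hT7 X hcl' hvp u1 u2 q q1 q3 q4
        (hT.trans (lemUU_p2 _ _ _ _ _ _ _)) h4X
        hvu1.ne.symm hvu2.ne.symm h1p h2p huu (fun r hr => hq r (lemUU_o2 _ _ _ _ hr)) h12.symm
        h23 h13 hNT f2 hno
    · exact lemUU_core hG v p hnm T hT7 X hcl' hvp u1 u2 q q1 q2 q4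
        (hT.trans (lemUU_p3 _ _ _ _ _ _ _)) h4X
        hvu1.ne.symm hvu2.ne.symm h1p h2p huu (fun r hr => hq r (lemUU_o3 _ _ _ _ hr)) h13.symm
        h23.symm h12 hNT f3 hno

end Pool.Agent.LR5
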