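import Pool.Agent.LR5.LemU
import Pool.Agent.LR5.LemUU
import Pool.Agent.LR5.A4
import Pool.Agent.LR5.Concl

/-!
LR5: degree 7.  `N = N(v)` has seven elements and the sum over `x ∈ N` of `d(x)` := number of neighbours
of `x` in `N` is at least 22.  Then `NoMin G {p}` for some neighbour `p` of `v`.

Proof.  Suppose not.  (1) `d(p) ≤ 5` for all `p ∈ N` (`d(p) = 6`: `app0`).  (2) At most one `p` has
`d(p) ≥ 4` (`two_hubs`).  As `22 > 21`, there is exactly one such `p`, the others have `d ≤ 3`.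
`Q := N ∩ N(p)`.
Case `d(p) = 5`: let `u` be the seventh vertex.  `u` is adjacent to at most two vertices of `Q` (`lemU`),
so `d(u) ≤ 2`, and `22 ≤ 5 + 2 + 15` shows `d(u) = 2`, `d(q) = 3` for `q ∈ Q`.  Let `u` be adjacent to
`q, q' ∈ Q`; not adjacent: `a4`; so adjacent; the neighbours of `q` in `N` are `p, u, q'`, those of `q'` are
`p, u, q`.  The other three vertices `r1, r2, r3` of `Q` have `d = 3` and are not adjacent to `u, q, q'`, so
they are pairwise adjacent: `v, p, r1, r2, r3` are five pairwise adjacent vertices, `LG6.five`.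
Case `d(p) = 4`: let `u1`, `u2` be the two vertices of `N` not in `Q ∪ {p}`.  `22 ≤ 4 + 18` shows that all
other `d` are 3.  `u1` is adjacent to at most two vertices of `Q` (`lemU`), so `u1` is adjacent to `u2` and
to exactly two vertices of `Q`; the same for `u2`.  If together they are adjacent to at least three
vertices `q1, q2, q3` of `Q`: `lemUU` (no `q i` has four further neighbours in `N`, as `d(q i) = 3`).  So both
are adjacent to the same two vertices `q, q'`; then the neighbours of `q` in `N` are `p, u1, u2`, the same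
for `q'`, and a vertex `r ∈ Q` different from `q, q'` has neighbours in `N` only among `p` and the fourth
vertex of `Q`: `d(r) ≤ 2`, contradiction.
-/

set_option autoImplicit false

namespace Pool.Agent.LR5

open Pool.Agent.LG6 Finset

variable {V : Type} [Fintype V] [DecidableEq V]

omit [Fintype V] [DecidableEq V] in
/-- a set of neighbours that is as large as the whole neighbourhood -/
theorem deg7_eq {G : SimpleGraph V} [DecidableRel G.Adj] {N S : Finset V} {x : V}
    (hS : ∀ y ∈ S, y ∈ N ∧ G.Adj x y) (hc : (N.filter (G.Adj x)).card ≤ S.card) {y : V}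
    (hy : y ∈ N) (hxy : G.Adj x y) : y ∈ S := by
  have hsub : S ⊆ N.filter (G.Adj x) := fun z hz => mem_filter.2 (hS z hz)
  have := eq_of_subset_of_card_le hsub hc
  rw [this]
  exact mem_filter.2 ⟨hy, hxy⟩

omit [Fintype V] [DecidableEq V] in
/-- a set containing the neighbourhood that is not larger -/
theorem deg7_sup {G : SimpleGraph V} [DecidableRel G.Adj] {N S : Finset V} {x : V}
    (hS : ∀ y ∈ N, G.Adj x y → y ∈ S) (hc : S.card ≤ (N.filter (G.Adj x)).card) {y : V}
    (hy : y ∈ S) : G.Adj x y := by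
  have hsub : N.filter (G.Adj x) ⊆ S := fun z hz => hS z (mem_filter.1 hz).1 (mem_filter.1 hz).2
  have := eq_of_subset_of_card_le hsub hc
  rw [← this] at hy
  exact (mem_filter.1 hy).2

omit [Fintype V] in
theorem deg7_three {a b c : V} (h1 : a ≠ b) (h2 : a ≠ c) (h3 : b ≠ c) :
    ({a, b, c} : Finset V).card = 3 := by
  rw [card_insert_of_notMem, card_insert_of_notMem, card_singleton]
  · simpa using h3
  · simp only [mem_insert, mem_singleton]
    rintro (h | h)
    · exact h1 h
    · exact h2 h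

omit [Fintype V] in
theorem deg7_sum {N : Finset V} {d : V → ℕ} {p : V} (hp : p ∈ N) (h7 : N.card = 7)
    (hs : 22 ≤ ∑ x ∈ N, d x) (h3 : ∀ x ∈ N, x ≠ p → d x ≤ 3) :
    22 ≤ d p + 18 ∧ ∀ u ∈ N, u ≠ p → 22 ≤ d p + d u + 15 := by
  have h6 : (N.erase p).card = 6 := by rw [card_erase_of_mem hp, h7]
  have e1 : d p + ∑ x ∈ N.erase p, d x = ∑ x ∈ N, d x := add_sum_erase N d hp
  constructor
  · have := sum_le_card_nsmul (N.erase p) (fun x => d x) 3 (fun x hx => h3 x (mem_of_mem_erase hx)
      (ne_of_mem_erase hx))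
    rw [h6] at this
    simp only [smul_eq_mul] at this
    omega
  · intro u hu hup
    have hu' : u ∈ N.erase p := mem_erase.2 ⟨hup, hu⟩
    have e2 : d u + ∑ x ∈ (N.erase p).erase u, d x = ∑ x ∈ N.erase p, d x :=
      add_sum_erase (N.erase p) d hu'
    have h5 : ((N.erase p).erase u).card = 5 := by rw [card_erase_of_mem hu', h6]
    have := sum_le_card_nsmul ((N.erase p).erase u) (fun x => d x) 3 (fun x hx => h3 x
      (mem_of_mem_erase (mem_of_mem_erase hx)) (ne_of_mem_erase (mem_of_mem_erase hx)))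
    rw [h5] at this
    simp only [smul_eq_mul] at this
    omega

/-- degree 7, a vertex `p` with five neighbours in `N` -/
theorem deg7_five {G : SimpleGraph V} [DecidableRel G.Adj] (hG : IsKConnected 6 G)
    (hm : ¬ HasCompleteMinor 6 G) (v : V) (N : Finset V) (hN : ∀ x, x ∈ N ↔ G.Adj v x)
    (h7 : N.card = 7) (hs : 22 ≤ ∑ x ∈ N, (N.filter (G.Adj x)).card) (p : V) (hp : p ∈ N)
    (hno : ¬ NoMin G {p}) (hd : (N.filter (G.Adj p)).card = 5)
    (h3 : ∀ x ∈ N, x ≠ p → (N.filter (G.Adj x)).card ≤ 3) : False := by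
  have hvp : G.Adj v p := (hN p).1 hp
  set Q := N.filter (G.Adj p) with hQ
  have hQ' : ∀ q ∈ Q, G.Adj v q ∧ G.Adj p q := fun q hq =>
    ⟨(hN q).1 (mem_filter.1 hq).1, (mem_filter.1 hq).2⟩
  have hQN : ∀ q ∈ Q, q ∈ N := fun q hq => (mem_filter.1 hq).1
  have hpQ : p ∉ Q := fun h => (hQ' p h).2.ne rfl
  obtain ⟨s1, s2⟩ := deg7_sum (d := fun x => (N.filter (G.Adj x)).card) hp h7 hs h3
  have hsub : insert p Q ⊆ N := insert_subset hp (filter_subset _ _)
  have hc6 : (insert p Q).card = 6 := by rw [card_insert_of_notMem hpQ, hd]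
  have hc1 : (N \ insert p Q).card = 1 := by
    rw [card_sdiff_of_subset hsub, h7, hc6]
  obtain ⟨u, hu⟩ := card_eq_one.1 hc1
  have huN : u ∈ N ∧ u ∉ insert p Q := by
    have : u ∈ N \ insert p Q := by rw [hu]; exact mem_singleton_self u
    exact mem_sdiff.1 this
  have hup : u ≠ p := fun h => huN.2 (h ▸ mem_insert_self _ _)
  have huQ : u ∉ Q := fun h => huN.2 (mem_insert_of_mem h)
  have hpu : ¬ G.Adj p u := fun h => huQ (mem_filter.2 ⟨huN.1, h⟩)
  have hall : ∀ w, w ∈ N → w = p ∨ w = u ∨ w ∈ Q := by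
    intro w hw
    by_cases h1 : w ∈ insert p Q
    · rcases mem_insert.1 h1 with h | h
      · exact Or.inl h
      · exact Or.inr (Or.inr h)
    · have : w ∈ N \ insert p Q := mem_sdiff.2 ⟨hw, h1⟩
      rw [hu] at this
      exact Or.inr (Or.inl (mem_singleton.1 this))
  -- neighbours of `u` in `N` are in `Q`
  have huQ' : ∀ w ∈ N, G.Adj u w → w ∈ Q := by
    intro w hw huw
    rcases hall w hw with h | h | h
    · exact absurd (h ▸ huw.symm) hpu
    · exact absurd (h ▸ huw) (fun h' => h'.ne rfl)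
    · exact h
  have hu2 : (N.filter (G.Adj u)).card ≤ 2 := by
    by_contra hlt
    push Not at hlt
    obtain ⟨q1, m1, q2, m2, q3, m3, n12, n13, n23⟩ := two_lt_card.1 hlt
    rw [mem_filter] at m1 m2 m3
    exact lemU hG hm v p hvp Q (by omega) hQ' u ((hN u).1 huN.1).ne' hup q1 q2 q3
      (huQ' q1 m1.1 m1.2) (huQ' q2 m2.1 m2.2) (huQ' q3 m3.1 m3.2) n12 n13 n23 m1.2 m2.2 m3.2
  have hu2' : (N.filter (G.Adj u)).card = 2 := by
    have h1 := s2 u huN.1 hup
    have hd' : (N.filter (G.Adj p)).card = 5 := hd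
    omega
  have hq3 : ∀ q ∈ Q, (N.filter (G.Adj q)).card = 3 := by
    intro q hq
    have hqp : q ≠ p := fun h => hpQ (h ▸ hq)
    have hqu : q ≠ u := fun h => huQ (h ▸ hq)
    have hqN := hQN q hq
    have := h3 q hqN hqp
    have e : ∑ x ∈ N, (N.filter (G.Adj x)).card = (N.filter (G.Adj p)).card +
        ((N.filter (G.Adj u)).card + ((N.filter (G.Adj q)).card +
          ∑ x ∈ ((N.erase p).erase u).erase q, (N.filter (G.Adj x)).card)) := by
      rw [add_sum_erase _ (fun x => (N.filter (G.Adj x)).card)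
        (mem_erase.2 ⟨hqu, mem_erase.2 ⟨hqp, hqN⟩⟩),
        add_sum_erase _ (fun x => (N.filter (G.Adj x)).card) (mem_erase.2 ⟨hup, huN.1⟩),
        add_sum_erase _ (fun x => (N.filter (G.Adj x)).card) hp]
    have hc4 : (((N.erase p).erase u).erase q).card = 4 := by
      rw [card_erase_of_mem (mem_erase.2 ⟨hqu, mem_erase.2 ⟨hqp, hqN⟩⟩),
        card_erase_of_mem (mem_erase.2 ⟨hup, huN.1⟩), card_erase_of_mem hp, h7]
    have hle := sum_le_card_nsmul (((N.erase p).erase u).erase q)
      (fun x => (N.filter (G.Adj x)).card) 3 (fun x hx => h3 x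
        (mem_of_mem_erase (mem_of_mem_erase (mem_of_mem_erase hx)))
        (ne_of_mem_erase (mem_of_mem_erase (mem_of_mem_erase hx))))
    rw [hc4] at hle
    simp only [smul_eq_mul] at hle
    have hd' : (N.filter (G.Adj p)).card = 5 := hd
    omega
  obtain ⟨q, q', hqq, hq2⟩ := card_eq_two.1 hu2'
  have mq : q ∈ N ∧ G.Adj u q := by
    have : q ∈ N.filter (G.Adj u) := by rw [hq2]; exact mem_insert_self _ _
    exact mem_filter.1 this
  have mq' : q' ∈ N ∧ G.Adj u q' := by
    have : q' ∈ N.filter (G.Adj u) := by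
      rw [hq2]; exact mem_insert_of_mem (mem_singleton_self _)
    exact mem_filter.1 this
  have hqQ : q ∈ Q := huQ' q mq.1 mq.2
  have hqQ' : q' ∈ Q := huQ' q' mq'.1 mq'.2
  have nbu : ∀ w ∈ N, G.Adj u w → w = q ∨ w = q' := by
    intro w hw huw
    have : w ∈ N.filter (G.Adj u) := mem_filter.2 ⟨hw, huw⟩
    rw [hq2, mem_insert, mem_singleton] at this
    exact this
  have hadj : G.Adj q q' := by
    by_contra hna
    exact hno (a4 hG hm v p hvp Q (by omega) hQ' u ((hN u).1 huN.1) hup hpu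
      (fun w hw => hall w ((hN w).2 hw)) q q' hqQ hqQ' hqq mq.2 mq'.2 hna)
  have hqp : q ≠ p := fun h => hpQ (h ▸ hqQ)
  have hqp' : q' ≠ p := fun h => hpQ (h ▸ hqQ')
  have hqu : q ≠ u := fun h => huQ (h ▸ hqQ)
  have hqu' : q' ≠ u := fun h => huQ (h ▸ hqQ')
  have nbq : ∀ w ∈ N, G.Adj q w → w = p ∨ w = u ∨ w = q' := by
    intro w hw hqw
    have := deg7_eq (N := N) (S := {p, u, q'}) (x := q) (by
      intro y hy
      simp only [mem_insert, mem_singleton] at hy
      rcases hy with rfl | rfl | rfl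
      · exact ⟨hp, (hQ' q hqQ).2.symm⟩
      · exact ⟨huN.1, mq.2.symm⟩
      · exact ⟨mq'.1, hadj⟩) (by
      rw [hq3 q hqQ, deg7_three hup.symm hqp'.symm hqu'.symm]) hw hqw
    simpa only [mem_insert, mem_singleton] using this
  have nbq' : ∀ w ∈ N, G.Adj q' w → w = p ∨ w = u ∨ w = q := by
    intro w hw hqw
    have := deg7_eq (N := N) (S := {p, u, q}) (x := q') (by
      intro y hy
      simp only [mem_insert, mem_singleton] at hy
      rcases hy with rfl | rfl | rfl
      · exact ⟨hp, (hQ' q' hqQ').2.symm⟩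
      · exact ⟨huN.1, mq'.2.symm⟩
      · exact ⟨mq.1, hadj.symm⟩) (by
      rw [hq3 q' hqQ', deg7_three hup.symm hqp.symm hqu.symm]) hw hqw
    simpa only [mem_insert, mem_singleton] using this
  set R := (Q.erase q).erase q' with hR
  have hRc : R.card = 3 := by
    rw [hR, card_erase_of_mem (mem_erase.2 ⟨hqq.symm, hqQ'⟩), card_erase_of_mem hqQ]
    have hd' : Q.card = 5 := hd
    omega
  have hRm : ∀ r ∈ R, r ∈ Q ∧ r ≠ q ∧ r ≠ q' := by
    intro r hr
    have h1 := mem_erase.1 hr
    have h2 := mem_erase.1 h1.2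
    exact ⟨h2.2, h2.1, h1.1⟩
  have hRadj : ∀ r ∈ R, ∀ r' ∈ R, r ≠ r' → G.Adj r r' := by
    intro r hr r' hr' hrr
    obtain ⟨m1, m2, m3⟩ := hRm r hr
    have hrp : r ≠ p := fun h => hpQ (h ▸ m1)
    have hru : r ≠ u := fun h => huQ (h ▸ m1)
    refine deg7_sup (N := N) (S := insert p (R.erase r)) (x := r) ?_ ?_
      (mem_insert_of_mem (mem_erase.2 ⟨hrr.symm, hr'⟩))
    · intro y hy hry
      rcases hall y hy with h | h | h
      · rw [h]; exact mem_insert_self _ _
      · subst h
        rcases nbu r (hQN r m1) hry.symm with h | h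
        · exact absurd h m2
        · exact absurd h m3
      · refine mem_insert_of_mem (mem_erase.2 ⟨hry.ne', mem_erase.2 ⟨?_, mem_erase.2 ⟨?_, h⟩⟩⟩)
        · rintro rfl
          rcases nbq' r (hQN r m1) hry.symm with h | h | h
          · exact hrp h
          · exact hru h
          · exact m2 h
        · rintro rfl
          rcases nbq r (hQN r m1) hry.symm with h | h | h
          · exact hrp h
          · exact hru h
          · exact m3 h
    · rw [hq3 r m1]
      refine (card_insert_le _ _).trans ?_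
      rw [card_erase_of_mem hr, hRc]
  have hvR : v ∉ insert p R := by
    intro h
    rcases mem_insert.1 h with h | h
    · exact hvp.ne h
    · exact (hQ' v (hRm v h).1).1.ne rfl
  have hpR : p ∉ R := fun h => hpQ (hRm p h).1
  have h4 := clique_le hG hm (insert v (insert p R)) (by
    intro e he f hf hef
    simp only [mem_insert] at he hf
    rcases he with rfl | rfl | he <;> rcases hf with rfl | rfl | hf
    · exact absurd rfl hef
    · exact hvp
    · exact (hQ' f (hRm f hf).1).1
    · exact hvp.symm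
    · exact absurd rfl hef
    · exact (hQ' f (hRm f hf).1).2
    · exact (hQ' e (hRm e he).1).1.symm
    · exact (hQ' e (hRm e he).1).2.symm
    · exact hRadj e he f hf hef)
  rw [card_insert_of_notMem hvR, card_insert_of_notMem hpR, hRc] at h4
  omega

/-- degree 7, a vertex `p` with four neighbours in `N` -/
theorem deg7_four {G : SimpleGraph V} [DecidableRel G.Adj] (hG : IsKConnected 6 G)
    (hm : ¬ HasCompleteMinor 6 G) (v : V) (N : Finset V) (hN : ∀ x, x ∈ N ↔ G.Adj v x)
    (h7 : N.card = 7) (hs : 22 ≤ ∑ x ∈ N, (N.filter (G.Adj x)).card) (p : V) (hp : p ∈ N)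
    (hd : (N.filter (G.Adj p)).card = 4)
    (h3 : ∀ x ∈ N, x ≠ p → (N.filter (G.Adj x)).card ≤ 3) : False := by
  have hvp : G.Adj v p := (hN p).1 hp
  set Q := N.filter (G.Adj p) with hQ
  have hQ' : ∀ q ∈ Q, G.Adj v q ∧ G.Adj p q := fun q hq =>
    ⟨(hN q).1 (mem_filter.1 hq).1, (mem_filter.1 hq).2⟩
  have hQN : ∀ q ∈ Q, q ∈ N := fun q hq => (mem_filter.1 hq).1
  have hpQ : p ∉ Q := fun h => (hQ' p h).2.ne rfl
  obtain ⟨s1, s2⟩ := deg7_sum (d := fun x => (N.filter (G.Adj x)).card) hp h7 hs h3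
  have e3 : ∀ x ∈ N, x ≠ p → (N.filter (G.Adj x)).card = 3 := by
    intro x hx hxp
    have h1 := h3 x hx hxp
    have h2 := s2 x hx hxp
    have hd' : (N.filter (G.Adj p)).card = 4 := hd
    omega
  have hsub : insert p Q ⊆ N := insert_subset hp (filter_subset _ _)
  have hc5 : (insert p Q).card = 5 := by rw [card_insert_of_notMem hpQ, hd]
  have hc2 : (N \ insert p Q).card = 2 := by
    rw [card_sdiff_of_subset hsub, h7, hc5]
  obtain ⟨u1, u2, hu12, hu⟩ := card_eq_two.1 hc2
  have hm1 : u1 ∈ N ∧ u1 ∉ insert p Q := by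
    have : u1 ∈ N \ insert p Q := by rw [hu]; exact mem_insert_self _ _
    exact mem_sdiff.1 this
  have hm2 : u2 ∈ N ∧ u2 ∉ insert p Q := by
    have : u2 ∈ N \ insert p Q := by rw [hu]; exact mem_insert_of_mem (mem_singleton_self _)
    exact mem_sdiff.1 this
  have h1p : u1 ≠ p := fun h => hm1.2 (h ▸ mem_insert_self _ _)
  have h1Q : u1 ∉ Q := fun h => hm1.2 (mem_insert_of_mem h)
  have h2p : u2 ≠ p := fun h => hm2.2 (h ▸ mem_insert_self _ _)
  have h2Q : u2 ∉ Q := fun h => hm2.2 (mem_insert_of_mem h)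
  have hall : ∀ w, w ∈ N → w = p ∨ w = u1 ∨ w = u2 ∨ w ∈ Q := by
    intro w hw
    by_cases h1 : w ∈ insert p Q
    · rcases mem_insert.1 h1 with h | h
      · exact Or.inl h
      · exact Or.inr (Or.inr (Or.inr h))
    · have : w ∈ N \ insert p Q := mem_sdiff.2 ⟨hw, h1⟩
      rw [hu, mem_insert, mem_singleton] at this
      rcases this with h | h
      · exact Or.inr (Or.inl h)
      · exact Or.inr (Or.inr (Or.inl h))
  -- a vertex outside `Q`, different from `p`: adjacent to the other one and to exactly two of `Q`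
  have key : ∀ a b : V, a ∈ N → a ≠ p → a ∉ Q → (∀ w, w ∈ N → w = p ∨ w = a ∨ w = b ∨ w ∈ Q) →
      b ∉ Q → a ≠ b → G.Adj a b ∧ (Q.filter (G.Adj a)).card = 2 := by
    intro a b haN hap haQ hab hbQ hne
    have hle : (Q.filter (G.Adj a)).card ≤ 2 := by
      by_contra hlt
      push Not at hlt
      obtain ⟨q1, m1, q2, m2, q3, m3, n12, n13, n23⟩ := two_lt_card.1 hlt
      rw [mem_filter] at m1 m2 m3
      exact lemU hG hm v p hvp Q (by omega) hQ' a ((hN a).1 haN).ne' hap q1 q2 q3
        m1.1 m2.1 m3.1 n12 n13 n23 m1.2 m2.2 m3.2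
    have h33 := e3 a haN hap
    have hsubs : N.filter (G.Adj a) ⊆ insert b (Q.filter (G.Adj a)) := by
      intro w hw
      rw [mem_filter] at hw
      rcases hab w hw.1 with h | h | h | h
      · exact absurd (mem_filter.2 ⟨haN, (h ▸ hw.2).symm⟩) haQ
      · exact absurd (h ▸ hw.2) (fun h' => h'.ne rfl)
      · rw [h]; exact mem_insert_self _ _
      · exact mem_insert_of_mem (mem_filter.2 ⟨h, hw.2⟩)
    have hc := card_le_card hsubs
    have hci := card_insert_le b (Q.filter (G.Adj a))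
    refine ⟨?_, by omega⟩
    by_contra hnab
    have hsubs' : N.filter (G.Adj a) ⊆ Q.filter (G.Adj a) := by
      intro w hw
      have h1 := hsubs hw
      rcases mem_insert.1 h1 with h | h
      · exact absurd (h ▸ (mem_filter.1 hw).2) hnab
      · exact h
    have := card_le_card hsubs'
    omega
  obtain ⟨huu, hA1⟩ := key u1 u2 hm1.1 h1p h1Q hall h2Q hu12
  obtain ⟨-, hA2⟩ := key u2 u1 hm2.1 h2p h2Q (fun w hw => by
    rcases hall w hw with h | h | h | h
    · exact Or.inl h
    · exact Or.inr (Or.inr (Or.inl h))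
    · exact Or.inr (Or.inl h)
    · exact Or.inr (Or.inr (Or.inr h))) h1Q hu12.symm
  -- five neighbours are too many
  have ff : ∀ a b c : V, a ∈ Q → b ∈ Q → c ∈ Q → a ≠ b → a ≠ c → b ≠ c →
      ¬ (G.Adj a u1 ∧ G.Adj a u2 ∧ G.Adj a b ∧ G.Adj a c) := by
    rintro a b c ha hb hc hab hac hbc ⟨k1, k2, k3, k4⟩
    have hap : a ≠ p := fun h => hpQ (h ▸ ha)
    have := deg7_eq (N := N) (S := {u1, u2, b}) (x := a) (by
      intro y hy
      simp only [mem_insert, mem_singleton] at hy
      rcases hy with rfl | rfl | rfl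
      · exact ⟨hm1.1, k1⟩
      · exact ⟨hm2.1, k2⟩
      · exact ⟨hQN _ hb, k3⟩) (by
      rw [e3 a (hQN a ha) hap, deg7_three hu12 (fun h => h1Q (h ▸ hb)) (fun h => h2Q (h ▸ hb))])
      (hQN c hc) k4
    simp only [mem_insert, mem_singleton] at this
    rcases this with h | h | h
    · exact h1Q (h ▸ hc)
    · exact h2Q (h ▸ hc)
    · exact hbc h.symm
  by_cases hbig : 2 < (Q.filter (fun q => G.Adj u1 q ∨ G.Adj u2 q)).card
  · obtain ⟨q1, m1, q2, m2, q3, m3, n12, n13, n23⟩ := two_lt_card.1 hbig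
    rw [mem_filter] at m1 m2 m3
    exact lemUU hG hm v p hvp Q hd hQ' u1 u2 ((hN u1).1 hm1.1) ((hN u2).1 hm2.1) h1p h2p h1Q h2Q
      huu (fun w hw => hall w ((hN w).2 hw)) q1 q2 q3 m1.1 m2.1 m3.1 n12 n13 n23 m1.2 m2.2 m3.2
      (ff q1 q2 q3 m1.1 m2.1 m3.1 n12 n13 n23)
      (ff q2 q1 q3 m2.1 m1.1 m3.1 n12.symm n23 n13)
      (ff q3 q1 q2 m3.1 m1.1 m2.1 n13.symm n23.symm n12)
  · push Not at hbig
    obtain ⟨q, q', hqq, hq2⟩ := card_eq_two.1 hA1
    have hs1 : Q.filter (G.Adj u1) ⊆ Q.filter (fun q => G.Adj u1 q ∨ G.Adj u2 q) := by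
      intro w hw
      rw [mem_filter] at hw ⊢
      exact ⟨hw.1, Or.inl hw.2⟩
    have hs2 : Q.filter (G.Adj u2) ⊆ Q.filter (fun q => G.Adj u1 q ∨ G.Adj u2 q) := by
      intro w hw
      rw [mem_filter] at hw ⊢
      exact ⟨hw.1, Or.inr hw.2⟩
    have t1 := eq_of_subset_of_card_le hs1 (by omega)
    have t2 := eq_of_subset_of_card_le hs2 (by omega)
    have n1 : ∀ w ∈ Q, G.Adj u1 w ↔ (w = q ∨ w = q') := by
      intro w hw
      have : w ∈ Q.filter (G.Adj u1) ↔ (w = q ∨ w = q') := by
        rw [hq2, mem_insert, mem_singleton]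
      rw [← this, mem_filter]
      exact ⟨fun h => ⟨hw, h⟩, fun h => h.2⟩
    have n2 : ∀ w ∈ Q, G.Adj u2 w ↔ (w = q ∨ w = q') := by
      intro w hw
      have : w ∈ Q.filter (G.Adj u2) ↔ (w = q ∨ w = q') := by
        rw [t2, ← t1, hq2, mem_insert, mem_singleton]
      rw [← this, mem_filter]
      exact ⟨fun h => ⟨hw, h⟩, fun h => h.2⟩
    have mq : q ∈ Q := by
      have : q ∈ Q.filter (G.Adj u1) := by rw [hq2]; exact mem_insert_self _ _
      exact (mem_filter.1 this).1
    have mq' : q' ∈ Q := by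
      have : q' ∈ Q.filter (G.Adj u1) := by
        rw [hq2]; exact mem_insert_of_mem (mem_singleton_self _)
      exact (mem_filter.1 this).1
    -- the neighbours of `q` and `q'`
    have nb : ∀ z ∈ Q, (z = q ∨ z = q') → ∀ w ∈ N, G.Adj z w → w = p ∨ w = u1 ∨ w = u2 := by
      intro z hz hzz w hw hzw
      have hzp : z ≠ p := fun h => hpQ (h ▸ hz)
      have := deg7_eq (N := N) (S := {p, u1, u2}) (x := z) (by
        intro y hy
        simp only [mem_insert, mem_singleton] at hy
        rcases hy with rfl | rfl | rfl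
        · exact ⟨hp, (hQ' z hz).2.symm⟩
        · exact ⟨hm1.1, ((n1 z hz).2 hzz).symm⟩
        · exact ⟨hm2.1, ((n2 z hz).2 hzz).symm⟩) (by
        rw [e3 z (hQN z hz) hzp, deg7_three h1p.symm h2p.symm hu12]) hw hzw
      simpa only [mem_insert, mem_singleton] using this
    have hRc : ((Q.erase q).erase q').card = 2 := by
      rw [card_erase_of_mem (mem_erase.2 ⟨hqq.symm, mq'⟩), card_erase_of_mem mq]
      have hd' : Q.card = 4 := hd
      omega
    obtain ⟨r, r', hrr, hRR⟩ := card_eq_two.1 hRc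
    have hRm : ∀ z ∈ (Q.erase q).erase q', z ∈ Q ∧ z ≠ q ∧ z ≠ q' := by
      intro z hz
      have h1 := mem_erase.1 hz
      have h2 := mem_erase.1 h1.2
      exact ⟨h2.2, h2.1, h1.1⟩
    obtain ⟨rQ, rq, rq'⟩ := hRm r (by rw [hRR]; exact mem_insert_self _ _)
    have hrp : r ≠ p := fun h => hpQ (h ▸ rQ)
    have hr3 := e3 r (hQN r rQ) hrp
    have hsubr : N.filter (G.Adj r) ⊆ {p, r'} := by
      intro w hw
      rw [mem_filter] at hw
      rcases hall w hw.1 with h | h | h | h
      · rw [h]; exact mem_insert_self _ _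
      · subst h
        rcases (n1 r rQ).1 hw.2.symm with h | h
        · exact absurd h rq
        · exact absurd h rq'
      · subst h
        rcases (n2 r rQ).1 hw.2.symm with h | h
        · exact absurd h rq
        · exact absurd h rq'
      · have hwz : w ≠ q ∧ w ≠ q' := by
          constructor
          · intro hwq
            rcases nb w h (Or.inl hwq) r (hQN r rQ) hw.2.symm with h' | h' | h'
            · exact hrp h'
            · exact h1Q (h' ▸ rQ)
            · exact h2Q (h' ▸ rQ)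
          · intro hwq
            rcases nb w h (Or.inr hwq) r (hQN r rQ) hw.2.symm with h' | h' | h'
            · exact hrp h'
            · exact h1Q (h' ▸ rQ)
            · exact h2Q (h' ▸ rQ)
        have : w ∈ (Q.erase q).erase q' := mem_erase.2 ⟨hwz.2, mem_erase.2 ⟨hwz.1, h⟩⟩
        rw [hRR, mem_insert, mem_singleton] at this
        rcases this with h' | h'
        · exact absurd (h' ▸ hw.2) (fun h'' => h''.ne rfl)
        · rw [h']; exact mem_insert_of_mem (mem_singleton_self _)
    have := card_le_card hsubr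
    have := card_le_two (a := p) (b := r')
    omega

theorem deg7 {G : SimpleGraph V} [DecidableRel G.Adj] (hG : IsKConnected 6 G)
    (hm : ¬ HasCompleteMinor 6 G) (v : V) (N : Finset V) (hN : ∀ x, x ∈ N ↔ G.Adj v x)
    (h7 : N.card = 7) (hs : 22 ≤ ∑ x ∈ N, (N.filter (G.Adj x)).card) :
    ∃ p ∈ N, NoMin G {p} := by
  by_contra hno
  push Not at hno
  have hdv : dg G v = 7 := by
    unfold dg
    have : G.neighborSet v = ↑N := by
      ext x
      rw [SimpleGraph.mem_neighborSet, mem_coe, hN]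
    rw [this, Set.ncard_coe_finset, h7]
  have h5 : ∀ p ∈ N, (N.filter (G.Adj p)).card ≤ 5 := by
    intro p hp
    by_contra h
    push Not at h
    apply hno p hp
    apply app0 hG hm v p ((hN p).1 hp)
    intro u hu hup
    refine deg7_sup (N := N) (S := N.erase p) (x := p) ?_ ?_
      (mem_erase.2 ⟨hup, (hN u).2 hu⟩)
    · intro y hy hpy
      exact mem_erase.2 ⟨hpy.ne', hy⟩
    · rw [card_erase_of_mem hp, h7]
      exact h
  by_cases hex : ∃ p ∈ N, 4 ≤ (N.filter (G.Adj p)).card
  · obtain ⟨p, hp, h4⟩ := hex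
    have h3 : ∀ x ∈ N, x ≠ p → (N.filter (G.Adj x)).card ≤ 3 := by
      intro x hx hxp
      by_contra hlt
      push Not at hlt
      exact two_hubs hG hm v p x ((hN p).1 hp) ((hN x).1 hx) hxp.symm (by omega)
        (N.filter (G.Adj p)) (N.filter (G.Adj x)) h4 hlt
        (fun u hu => ⟨(hN u).1 (mem_filter.1 hu).1, (mem_filter.1 hu).2⟩)
        (fun u hu => ⟨(hN u).1 (mem_filter.1 hu).1, (mem_filter.1 hu).2⟩)
    have h5p := h5 p hp
    rcases Nat.lt_or_ge 4 (N.filter (G.Adj p)).card with h | h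
    · exact deg7_five hG hm v N hN h7 hs p hp (hno p hp) (by omega) h3
    · exact deg7_four hG hm v N hN h7 hs p hp (by omega) h3
  · push Not at hex
    have := sum_le_card_nsmul N (fun x => (N.filter (G.Adj x)).card) 3 (fun x hx => by
      have := hex x hx
      omega)
    rw [h7] at this
    simp only [smul_eq_mul] at this
    omega

end Pool.Agent.LR5
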