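import Pool.Agent.LR5.LemU
import Pool.Agent.LR5.LemUU
import Pool.Agent.LR5.A4
import Pool.Agent.LR5.Concl

/-!
LR5: degree 7 (shadow proof by helper83).
-/

set_option autoImplicit false

namespace Pool.Agent.LR5

open Pool.Agent.LG6 Finset

variable {V : Type} [Fintype V] [DecidableEq V]

/-- degree 7, the vertex `p` with five common neighbours -/
theorem deg7s_five {G : SimpleGraph V} [DecidableRel G.Adj] (hG : IsKConnected 6 G)
    (hm : ¬ HasCompleteMinor 6 G) (v : V) (N : Finset V) (hN : ∀ x, x ∈ N ↔ G.Adj v x)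
    (h7 : N.card = 7) (hs : 22 ≤ ∑ x ∈ N, (N.filter (G.Adj x)).card) (p : V) (hp : p ∈ N)
    (hp5 : (N.filter (G.Adj p)).card = 5)
    (h3 : ∀ x ∈ N, x ≠ p → (N.filter (G.Adj x)).card ≤ 3) : NoMin G {p} := by
  classical
  by_contra hno
  have mT : ∀ x y, y ∈ N.filter (G.Adj x) ↔ y ∈ N ∧ G.Adj x y := fun x y => mem_filter
  set Q := N.filter (G.Adj p) with hQ
  have hQN : Q ⊆ N := filter_subset _ _
  have mQ : ∀ y, y ∈ Q ↔ y ∈ N ∧ G.Adj p y := fun y => mem_filter
  have hpQ : p ∉ Q := fun h => (((mQ p).1 h).2).ne rfl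
  have hiN : insert p Q ⊆ N := insert_subset hp hQN
  have hc1 : (N \ insert p Q).card = 1 := by
    rw [card_sdiff_of_subset hiN, card_insert_of_notMem hpQ, h7, hp5]
  obtain ⟨u, hu⟩ := card_eq_one.1 hc1
  have hu1 : u ∈ N \ insert p Q := by rw [hu]; exact mem_singleton_self u
  have huN : u ∈ N := (mem_sdiff.1 hu1).1
  have hup : u ≠ p := fun h => (mem_sdiff.1 hu1).2 (by rw [h]; exact mem_insert_self p Q)
  have huQ : u ∉ Q := fun h => (mem_sdiff.1 hu1).2 (mem_insert_of_mem h)
  have hpu : ¬ G.Adj p u := fun h => huQ ((mQ u).2 ⟨huN, h⟩)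
  have hcov : ∀ w ∈ N, w = p ∨ w = u ∨ w ∈ Q := by
    intro w hw
    by_cases h1 : w ∈ insert p Q
    · rcases mem_insert.1 h1 with h | h
      · exact Or.inl h
      · exact Or.inr (Or.inr h)
    · have h2 : w ∈ N \ insert p Q := mem_sdiff.2 ⟨hw, h1⟩
      rw [hu] at h2
      exact Or.inr (Or.inl (mem_singleton.1 h2))
  have hvp : G.Adj v p := (hN p).1 hp
  have hvu : G.Adj v u := (hN u).1 huN
  have hQ' : ∀ q ∈ Q, G.Adj v q ∧ G.Adj p q := fun q hq =>
    ⟨(hN q).1 (hQN hq), ((mQ q).1 hq).2⟩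
  have hTu : N.filter (G.Adj u) ⊆ Q := by
    intro w hw
    rw [mT] at hw
    rcases hcov w hw.1 with h | h | h
    · exact absurd (h ▸ hw.2).symm hpu
    · exact absurd h.symm hw.2.ne
    · exact h
  have hdu : (N.filter (G.Adj u)).card ≤ 2 := by
    by_contra hcon
    push Not at hcon
    obtain ⟨q1, m1, q2, m2, q3, m3, n12, n13, n23⟩ := two_lt_card.1 hcon
    exact lemU hG hm v p hvp Q (by omega) hQ' u hvu.ne' hup q1 q2 q3 (hTu m1) (hTu m2) (hTu m3)
      n12 n13 n23 ((mT u q1).1 m1).2 ((mT u q2).1 m2).2 ((mT u q3).1 m3).2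
  -- the sum
  have hsum1 : ∑ x ∈ N, (N.filter (G.Adj x)).card =
      Q.card + ((N.filter (G.Adj u)).card +
        ∑ x ∈ Q, (N.filter (G.Adj x)).card) := by
    have he : N = insert p (insert u Q) := by
      ext w
      rw [mem_insert, mem_insert]
      constructor
      · exact hcov w
      · rintro (h | h | h)
        · rw [h]; exact hp
        · rw [h]; exact huN
        · exact hQN h
    conv_lhs => rw [show (∑ x ∈ N, (N.filter (G.Adj x)).card) =
      ∑ x ∈ insert p (insert u Q), (N.filter (G.Adj x)).card from by rw [← he]]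
    rw [sum_insert, sum_insert huQ]
    rw [mem_insert]
    rintro (h | h)
    · exact hup h.symm
    · exact hpQ h
  have hQ3 : ∀ q ∈ Q, (N.filter (G.Adj q)).card ≤ 3 := fun q hq =>
    h3 q (hQN hq) (fun h => hpQ (h ▸ hq))
  have hsum2 : ∑ x ∈ Q, (N.filter (G.Adj x)).card ≤ Q.card * 3 := by
    have := sum_le_card_nsmul Q _ 3 hQ3
    simpa using this
  have hdu2 : (N.filter (G.Adj u)).card = 2 := by
    rw [hsum1] at hs
    omega
  have hQ3' : ∀ q ∈ Q, (N.filter (G.Adj q)).card = 3 := by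
    intro q hq
    by_contra hcon
    have h1 : (N.filter (G.Adj q)).card ≤ 2 := by
      have := hQ3 q hq
      omega
    have h2 : ∑ x ∈ Q.erase q, (N.filter (G.Adj x)).card ≤ (Q.erase q).card * 3 := by
      have := sum_le_card_nsmul (Q.erase q) (fun x => (N.filter (G.Adj x)).card) 3
        (fun x hx => hQ3 x (mem_of_mem_erase hx))
      simpa using this
    have h4 := add_sum_erase Q (fun x => (N.filter (G.Adj x)).card) hq
    have h5 := card_erase_of_mem hq
    rw [hsum1] at hs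
    omega
  obtain ⟨q, q', hqq, hT⟩ := card_eq_two.1 hdu2
  have hqu : q ∈ N.filter (G.Adj u) := by rw [hT]; exact mem_insert_self _ _
  have hqu' : q' ∈ N.filter (G.Adj u) := by
    rw [hT]; exact mem_insert_of_mem (mem_singleton_self _)
  have hqQ := hTu hqu
  have hqQ' := hTu hqu'
  have uq := ((mT u q).1 hqu).2
  have uq' := ((mT u q').1 hqu').2
  by_cases hadj : G.Adj q q'
  swap
  · exact hno (a4 hG hm v p hvp Q (by omega) hQ' u hvu hup hpu (fun w hw => hcov w ((hN w).2 hw))
      q q' hqQ hqQ' hqq uq uq' hadj)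
  -- the neighbours of `q` and `q'`
  have hset : ∀ a b, a ∈ Q → b ∈ Q → a ≠ b → G.Adj a b → G.Adj u a → ∀ w ∈ N, G.Adj a w →
      w = p ∨ w = u ∨ w = b := by
    intro a b ha hb hab hadj' hua w hw haw
    have hsub : ({p, u, b} : Finset V) ⊆ N.filter (G.Adj a) := by
      intro z hz
      rw [mem_insert, mem_insert, mem_singleton] at hz
      rw [mT]
      rcases hz with h | h | h
      · rw [h]; exact ⟨hp, ((mQ a).1 ha).2.symm⟩
      · rw [h]; exact ⟨huN, hua.symm⟩
      · rw [h]; exact ⟨hQN hb, hadj'⟩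
    have hcard : ({p, u, b} : Finset V).card = 3 := by
      rw [card_eq_three]
      exact ⟨p, u, b, hup.symm, fun h => hpQ (h ▸ hb), fun h => huQ (h ▸ hb), rfl⟩
    have heq := eq_of_subset_of_card_le hsub (by rw [hcard, hQ3' a ha])
    have hwm : w ∈ N.filter (G.Adj a) := (mT a w).2 ⟨hw, haw⟩
    rw [← heq, mem_insert, mem_insert, mem_singleton] at hwm
    exact hwm
  have hq1 := hset q q' hqQ hqQ' hqq hadj uq
  have hq2 := hset q' q hqQ' hqQ hqq.symm hadj.symm uq'
  set R := (Q.erase q).erase q' with hR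
  have hRc : R.card = 3 := by
    rw [hR, card_erase_of_mem (mem_erase.2 ⟨hqq.symm, hqQ'⟩), card_erase_of_mem hqQ, hp5]
  have hRm : ∀ r ∈ R, r ∈ Q ∧ r ≠ q ∧ r ≠ q' := by
    intro r hr
    rw [hR, mem_erase, mem_erase] at hr
    exact ⟨hr.2.2, hr.2.1, hr.1⟩
  have hRR : ∀ r ∈ R, ∀ r' ∈ R, r ≠ r' → G.Adj r r' := by
    intro r hr r' hr' hrr
    obtain ⟨hrQ, hrq, hrq'⟩ := hRm r hr
    have hrp : r ≠ p := fun h => hpQ (h ▸ hrQ)
    have hru : r ≠ u := fun h => huQ (h ▸ hrQ)
    have hsub : N.filter (G.Adj r) ⊆ insert p (R.erase r) := by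
      intro w hw
      rw [mT] at hw
      rw [mem_insert, mem_erase]
      rcases hcov w hw.1 with h | h | h
      · exact Or.inl h
      · exfalso
        have h2 : r ∈ N.filter (G.Adj u) := (mT u r).2 ⟨hQN hrQ, by rw [← h]; exact hw.2.symm⟩
        rw [hT, mem_insert, mem_singleton] at h2
        rcases h2 with h2 | h2
        · exact hrq h2
        · exact hrq' h2
      · refine Or.inr ⟨hw.2.ne', ?_⟩
        rw [hR, mem_erase, mem_erase]
        refine ⟨?_, ?_, h⟩
        · intro hwq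
          rcases hq2 r (hQN hrQ) (by rw [← hwq]; exact hw.2.symm) with h2 | h2 | h2
          · exact hrp h2
          · exact hru h2
          · exact hrq h2
        · intro hwq
          rcases hq1 r (hQN hrQ) (by rw [← hwq]; exact hw.2.symm) with h2 | h2 | h2
          · exact hrp h2
          · exact hru h2
          · exact hrq' h2
    have hcard : (insert p (R.erase r)).card = 3 := by
      rw [card_insert_of_notMem (fun h => hpQ (hRm p (mem_of_mem_erase h)).1),
        card_erase_of_mem hr, hRc]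
    have heq := eq_of_subset_of_card_le hsub (by rw [hcard, hQ3' r hrQ])
    have h2 : r' ∈ N.filter (G.Adj r) := by
      rw [heq]
      exact mem_insert_of_mem (mem_erase.2 ⟨hrr.symm, hr'⟩)
    exact ((mT r r').1 h2).2
  have hcl := clique_le hG hm (insert v (insert p R)) (by
    have hvR : ∀ r ∈ R, G.Adj v r := fun r hr => (hQ' r (hRm r hr).1).1
    have hpR : ∀ r ∈ R, G.Adj p r := fun r hr => (hQ' r (hRm r hr).1).2
    intro e he f hf hef
    simp only [mem_insert] at he hf
    rcases he with he | he | he <;> rcases hf with hf | hf | hf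
    · exact absurd (he.trans hf.symm) hef
    · rw [he, hf]; exact hvp
    · rw [he]; exact hvR f hf
    · rw [he, hf]; exact hvp.symm
    · exact absurd (he.trans hf.symm) hef
    · rw [he]; exact hpR f hf
    · rw [hf]; exact (hvR e he).symm
    · rw [hf]; exact (hpR e he).symm
    · exact hRR e he f hf hef)
  have hpR : p ∉ R := fun h => hpQ (hRm p h).1
  have hvR : v ∉ insert p R := by
    rw [mem_insert]
    rintro (h | h)
    · exact hvp.ne h
    · exact (hQ' v (hRm v h).1).1.ne rfl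
  rw [card_insert_of_notMem hvR, card_insert_of_notMem hpR, hRc] at hcl
  omega

/-- degree 7, the vertex `p` with four common neighbours -/
theorem deg7s_four {G : SimpleGraph V} [DecidableRel G.Adj] (hG : IsKConnected 6 G)
    (hm : ¬ HasCompleteMinor 6 G) (v : V) (N : Finset V) (hN : ∀ x, x ∈ N ↔ G.Adj v x)
    (h7 : N.card = 7) (hs : 22 ≤ ∑ x ∈ N, (N.filter (G.Adj x)).card) (p : V) (hp : p ∈ N)
    (hp4 : (N.filter (G.Adj p)).card = 4)
    (h3 : ∀ x ∈ N, x ≠ p → (N.filter (G.Adj x)).card ≤ 3) : False := by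
  classical
  have mT : ∀ x y, y ∈ N.filter (G.Adj x) ↔ y ∈ N ∧ G.Adj x y := fun x y => mem_filter
  set Q := N.filter (G.Adj p) with hQ
  have hQN : Q ⊆ N := filter_subset _ _
  have mQ : ∀ y, y ∈ Q ↔ y ∈ N ∧ G.Adj p y := fun y => mem_filter
  have hpQ : p ∉ Q := fun h => (((mQ p).1 h).2).ne rfl
  have hiN : insert p Q ⊆ N := insert_subset hp hQN
  have hc1 : (N \ insert p Q).card = 2 := by
    rw [card_sdiff_of_subset hiN, card_insert_of_notMem hpQ, h7, hp4]
  obtain ⟨u1, u2, huu, hu⟩ := card_eq_two.1 hc1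
  have hu1 : u1 ∈ N \ insert p Q := by rw [hu]; exact mem_insert_self _ _
  have hu2 : u2 ∈ N \ insert p Q := by rw [hu]; exact mem_insert_of_mem (mem_singleton_self _)
  have hx : ∀ u, u ∈ N \ insert p Q → u ∈ N ∧ u ≠ p ∧ u ∉ Q ∧ ¬ G.Adj p u := by
    intro u h
    have h1 := mem_sdiff.1 h
    refine ⟨h1.1, fun h2 => h1.2 (by rw [h2]; exact mem_insert_self p Q),
      fun h2 => h1.2 (mem_insert_of_mem h2), fun h2 => h1.2 (mem_insert_of_mem ((mQ u).2 ⟨h1.1, h2⟩))⟩
  obtain ⟨u1N, u1p, u1Q, pu1⟩ := hx u1 hu1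
  obtain ⟨u2N, u2p, u2Q, pu2⟩ := hx u2 hu2
  have hcov : ∀ w ∈ N, w = p ∨ w = u1 ∨ w = u2 ∨ w ∈ Q := by
    intro w hw
    by_cases h1 : w ∈ insert p Q
    · rcases mem_insert.1 h1 with h | h
      · exact Or.inl h
      · exact Or.inr (Or.inr (Or.inr h))
    · have h2 : w ∈ N \ insert p Q := mem_sdiff.2 ⟨hw, h1⟩
      rw [hu, mem_insert, mem_singleton] at h2
      rcases h2 with h2 | h2
      · exact Or.inr (Or.inl h2)
      · exact Or.inr (Or.inr (Or.inl h2))
  have hvp : G.Adj v p := (hN p).1 hp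
  have hQ' : ∀ q ∈ Q, G.Adj v q ∧ G.Adj p q := fun q hq =>
    ⟨(hN q).1 (hQN hq), ((mQ q).1 hq).2⟩
  -- all other degrees are three
  have hall : ∀ x ∈ N, x ≠ p → (N.filter (G.Adj x)).card = 3 := by
    intro x hx hxp
    by_contra hcon
    have h1 : (N.filter (G.Adj x)).card ≤ 2 := by
      have := h3 x hx hxp
      omega
    have hxe : x ∈ N.erase p := mem_erase.2 ⟨hxp, hx⟩
    have h2 : ∑ y ∈ (N.erase p).erase x, (N.filter (G.Adj y)).card ≤
        ((N.erase p).erase x).card * 3 := by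
      have := sum_le_card_nsmul ((N.erase p).erase x) (fun y => (N.filter (G.Adj y)).card) 3
        (fun y hy => h3 y (mem_of_mem_erase (mem_of_mem_erase hy))
          (mem_erase.1 (mem_of_mem_erase hy)).1)
      simpa using this
    have h4 := add_sum_erase N (fun x => (N.filter (G.Adj x)).card) hp
    have h5 := add_sum_erase (N.erase p) (fun x => (N.filter (G.Adj x)).card) hxe
    have h6 := card_erase_of_mem hp
    have h8 := card_erase_of_mem hxe
    have h10 : (N.filter (G.Adj p)).card = 4 := hp4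
    omega
  -- the vertices u1, u2
  have hA : ∀ u w, u ∈ N → u ≠ p → u ∉ Q → ¬ G.Adj p u → (∀ z ∈ N, z = p ∨ z = u ∨ z = w ∨ z ∈ Q) →
      w ∉ Q → G.Adj u w ∧ (Q.filter (G.Adj u)).card = 2 := by
    intro u w huN hup huQ hpu hc hwQ
    have h1 : (Q.filter (G.Adj u)).card ≤ 2 := by
      by_contra hcon
      push Not at hcon
      obtain ⟨q1, m1, q2, m2, q3, m3, n12, n13, n23⟩ := two_lt_card.1 hcon
      rw [mem_filter] at m1 m2 m3
      exact lemU hG hm v p hvp Q (by omega) hQ' u ((hN u).1 huN).ne' hup q1 q2 q3 m1.1 m2.1 m3.1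
        n12 n13 n23 m1.2 m2.2 m3.2
    have h2 : N.filter (G.Adj u) ⊆ insert w (Q.filter (G.Adj u)) := by
      intro z hz
      rw [mT] at hz
      rw [mem_insert, mem_filter]
      rcases hc z hz.1 with h | h | h | h
      · exact absurd (h ▸ hz.2).symm hpu
      · exact absurd h.symm hz.2.ne
      · exact Or.inl h
      · exact Or.inr ⟨h, hz.2⟩
    have h4 := card_le_card h2
    have h5 := card_insert_le w (Q.filter (G.Adj u))
    have h6 := hall u huN hup
    refine ⟨?_, by omega⟩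
    by_contra hnw
    have h7 : N.filter (G.Adj u) ⊆ Q.filter (G.Adj u) := by
      intro z hz
      rcases mem_insert.1 (h2 hz) with h | h
      · exact absurd (h ▸ ((mT u z).1 hz).2) hnw
      · exact h
    have h8 := card_le_card h7
    omega
  obtain ⟨a12, c1⟩ := hA u1 u2 u1N u1p u1Q pu1 hcov u2Q
  obtain ⟨-, c2⟩ := hA u2 u1 u2N u2p u2Q pu2 (fun z hz => by
    rcases hcov z hz with h | h | h | h
    · exact Or.inl h
    · exact Or.inr (Or.inr (Or.inl h))
    · exact Or.inr (Or.inl h)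
    · exact Or.inr (Or.inr (Or.inr h))) u1Q
  set A1 := Q.filter (G.Adj u1) with hA1
  set A2 := Q.filter (G.Adj u2) with hA2
  have m1 : ∀ z, z ∈ A1 ↔ z ∈ Q ∧ G.Adj u1 z := fun z => mem_filter
  have m2 : ∀ z, z ∈ A2 ↔ z ∈ Q ∧ G.Adj u2 z := fun z => mem_filter
  by_cases hU : 2 < (A1 ∪ A2).card
  · obtain ⟨q1, k1, q2, k2, q3, k3, n12, n13, n23⟩ := two_lt_card.1 hU
    have hm1 : ∀ z, z ∈ A1 ∪ A2 → z ∈ Q ∧ (G.Adj u1 z ∨ G.Adj u2 z) := by
      intro z hz
      rcases mem_union.1 hz with h | h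
      · exact ⟨((m1 z).1 h).1, Or.inl ((m1 z).1 h).2⟩
      · exact ⟨((m2 z).1 h).1, Or.inr ((m2 z).1 h).2⟩
    have hf : ∀ a b c, a ∈ Q → b ∈ Q → c ∈ Q → b ≠ c →
        ¬ (G.Adj a u1 ∧ G.Adj a u2 ∧ G.Adj a b ∧ G.Adj a c) := by
      rintro a b c ha hb hc hbc ⟨e1, e2, e3, e4⟩
      have hsub : ({u1, u2, b, c} : Finset V) ⊆ N.filter (G.Adj a) := by
        intro z hz
        rw [mem_insert, mem_insert, mem_insert, mem_singleton] at hz
        rw [mT]
        rcases hz with h | h | h | h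
        · rw [h]; exact ⟨u1N, e1⟩
        · rw [h]; exact ⟨u2N, e2⟩
        · rw [h]; exact ⟨hQN hb, e3⟩
        · rw [h]; exact ⟨hQN hc, e4⟩
      have hcard : ({u1, u2, b, c} : Finset V).card = 4 := by
        rw [card_insert_of_notMem, card_insert_of_notMem, card_insert_of_notMem, card_singleton]
        · rw [mem_singleton]; exact hbc
        · rw [mem_insert, mem_singleton]
          rintro (h | h)
          · exact u2Q (h ▸ hb)
          · exact u2Q (h ▸ hc)
        · rw [mem_insert, mem_insert, mem_singleton]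
          rintro (h | h | h)
          · exact huu h
          · exact u1Q (h ▸ hb)
          · exact u1Q (h ▸ hc)
      have h1 := card_le_card hsub
      have h2 := hall a (hQN ha) (fun h => hpQ (h ▸ ha))
      omega
    obtain ⟨k1, l1⟩ := hm1 q1 k1
    obtain ⟨k2, l2⟩ := hm1 q2 k2
    obtain ⟨k3, l3⟩ := hm1 q3 k3
    exact lemUU hG hm v p hvp Q hp4 hQ' u1 u2 ((hN u1).1 u1N) ((hN u2).1 u2N) u1p u2p u1Q u2Q a12
      (fun w hw => hcov w ((hN w).2 hw)) q1 q2 q3 k1 k2 k3 n12 n13 n23 l1 l2 l3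
      (hf q1 q2 q3 k1 k2 k3 n23) (hf q2 q1 q3 k2 k1 k3 n13) (hf q3 q1 q2 k3 k1 k2 n12)
  · push Not at hU
    have e1 : A1 = A1 ∪ A2 := eq_of_subset_of_card_le subset_union_left (by omega)
    have e2 : A2 = A1 ∪ A2 := eq_of_subset_of_card_le subset_union_right (by omega)
    have e12 : A1 = A2 := e1.trans e2.symm
    obtain ⟨q, q', hqq, hT⟩ := card_eq_two.1 c1
    have hqA : q ∈ A1 := by rw [hT]; exact mem_insert_self _ _
    have hqA' : q' ∈ A1 := by rw [hT]; exact mem_insert_of_mem (mem_singleton_self _)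
    have hset : ∀ a ∈ A1, ∀ w ∈ N, G.Adj a w → w = p ∨ w = u1 ∨ w = u2 := by
      intro a ha w hw haw
      have ha1 := (m1 a).1 ha
      have ha2 := (m2 a).1 (e12 ▸ ha)
      have hsub : ({p, u1, u2} : Finset V) ⊆ N.filter (G.Adj a) := by
        intro z hz
        rw [mem_insert, mem_insert, mem_singleton] at hz
        rw [mT]
        rcases hz with h | h | h
        · rw [h]; exact ⟨hp, ((mQ a).1 ha1.1).2.symm⟩
        · rw [h]; exact ⟨u1N, ha1.2.symm⟩
        · rw [h]; exact ⟨u2N, ha2.2.symm⟩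
      have hcard : ({p, u1, u2} : Finset V).card = 3 := by
        rw [card_eq_three]
        exact ⟨p, u1, u2, u1p.symm, u2p.symm, huu, rfl⟩
      have heq := eq_of_subset_of_card_le hsub
        (by rw [hcard, hall a (hQN ha1.1) (fun h => hpQ (h ▸ ha1.1))])
      have hwm : w ∈ N.filter (G.Adj a) := (mT a w).2 ⟨hw, haw⟩
      rw [← heq, mem_insert, mem_insert, mem_singleton] at hwm
      exact hwm
    have hA1Q : A1 ⊆ Q := filter_subset _ _
    have hRc : (Q \ A1).card = 2 := by
      rw [card_sdiff_of_subset hA1Q, hp4, c1]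
    obtain ⟨r, r', hrr, hRT⟩ := card_eq_two.1 hRc
    have hr : r ∈ Q \ A1 := by rw [hRT]; exact mem_insert_self _ _
    have hrQ := (mem_sdiff.1 hr).1
    have hrA := (mem_sdiff.1 hr).2
    have hrp : r ≠ p := fun h => hpQ (h ▸ hrQ)
    have hsub : N.filter (G.Adj r) ⊆ {p, r'} := by
      intro w hw
      rw [mT] at hw
      rw [mem_insert, mem_singleton]
      rcases hcov w hw.1 with h | h | h | h
      · exact Or.inl h
      · exact absurd ((m1 r).2 ⟨hrQ, by rw [← h]; exact hw.2.symm⟩) hrA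
      · exact absurd (e12 ▸ ((m2 r).2 ⟨hrQ, by rw [← h]; exact hw.2.symm⟩)) hrA
      · by_cases hwA : w ∈ A1
        · rcases hset w hwA r (hQN hrQ) hw.2.symm with h2 | h2 | h2
          · exact absurd h2 hrp
          · exact absurd (h2 ▸ hrQ) u1Q
          · exact absurd (h2 ▸ hrQ) u2Q
        · have h2 : w ∈ Q \ A1 := mem_sdiff.2 ⟨h, hwA⟩
          rw [hRT, mem_insert, mem_singleton] at h2
          rcases h2 with h2 | h2
          · exact absurd h2.symm hw.2.ne
          · exact Or.inr h2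
    have h1 := card_le_card hsub
    have h2 := card_insert_le p ({r'} : Finset V)
    rw [card_singleton] at h2
    have h4 := hall r (hQN hrQ) hrp
    omega

theorem deg7s {G : SimpleGraph V} [DecidableRel G.Adj] (hG : IsKConnected 6 G)
    (hm : ¬ HasCompleteMinor 6 G) (v : V) (N : Finset V) (hN : ∀ x, x ∈ N ↔ G.Adj v x)
    (h7 : N.card = 7) (hs : 22 ≤ ∑ x ∈ N, (N.filter (G.Adj x)).card) :
    ∃ p ∈ N, NoMin G {p} := by
  by_contra hcon
  have hno : ∀ p ∈ N, ¬ NoMin G {p} := fun p hp h => hcon ⟨p, hp, h⟩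
  have mT : ∀ x y, y ∈ N.filter (G.Adj x) ↔ y ∈ N ∧ G.Adj x y := fun x y => mem_filter
  have h5 : ∀ p ∈ N, (N.filter (G.Adj p)).card ≤ 5 := by
    intro p hp
    by_contra hc
    push Not at hc
    have hsub : N.filter (G.Adj p) ⊆ N.erase p := by
      intro w hw
      rw [mT] at hw
      exact mem_erase.2 ⟨hw.2.ne', hw.1⟩
    have heq := eq_of_subset_of_card_le hsub (by rw [card_erase_of_mem hp, h7]; omega)
    refine hno p hp (app0 hG hm v p ((hN p).1 hp) ?_)
    intro u hu hup
    have h1 : u ∈ N.filter (G.Adj p) := by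
      rw [heq]
      exact mem_erase.2 ⟨hup, (hN u).2 hu⟩
    exact ((mT p u).1 h1).2
  have hdg : dg G v ≤ 7 := by
    have h1 : G.neighborSet v = (↑N : Set V) := by
      ext w
      rw [SimpleGraph.mem_neighborSet, mem_coe]
      exact (hN w).symm
    unfold dg
    rw [h1, Set.ncard_coe_finset, h7]
  have hex : ∃ p ∈ N, 4 ≤ (N.filter (G.Adj p)).card := by
    by_contra hc
    push Not at hc
    have h1 := sum_le_card_nsmul N (fun x => (N.filter (G.Adj x)).card) 3
      (fun x hx => by have := hc x hx; omega)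
    simp only [smul_eq_mul] at h1
    omega
  obtain ⟨p, hp, hp4⟩ := hex
  have h3 : ∀ x ∈ N, x ≠ p → (N.filter (G.Adj x)).card ≤ 3 := by
    intro x hx hxp
    by_contra hc
    push Not at hc
    exact two_hubs hG hm v p x ((hN p).1 hp) ((hN x).1 hx) hxp.symm hdg (N.filter (G.Adj p))
      (N.filter (G.Adj x)) hp4 hc
      (fun u hu => ⟨(hN u).1 ((mT p u).1 hu).1, ((mT p u).1 hu).2⟩)
      (fun u hu => ⟨(hN u).1 ((mT x u).1 hu).1, ((mT x u).1 hu).2⟩)
  rcases (by have := h5 p hp; omega : (N.filter (G.Adj p)).card = 5 ∨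
    (N.filter (G.Adj p)).card = 4) with h | h
  · exact hno p hp (deg7s_five hG hm v N hN h7 hs p hp h h3)
  · exact deg7s_four hG hm v N hN h7 hs p hp h h3

end Pool.Agent.LR5
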