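import Pool.Agent.LR5.Last

/-!
LR5, the dichotomy used in the three steps.

`Z` connected, `x ∈ Z`, `Z ≠ {x}`, `y ∉ Z`, some vertex outside `Z ∪ {y}`.  `Q : Fin k → Set V` are
`k ≤ 3` sets, each adjacent to `Z`.  Hypothesis `H`: every `v ∈ Z`, `v ≠ x`, with `Z \ {v}` connected
and a neighbour outside `Z ∪ {y}` is the only contact of `Z` with two different sets `Q i`, `Q j`
(`¬ Ad G (Z \ {v}) (Q i)`).  Then `Z \ {x}` is connected, `x` has a neighbour outside `Z ∪ {y}`, and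
there is such a `v`.

Proof.  `last` with `r := x`, `S := {y}` gives `v`; `H v` gives `i ≠ j`.  `last` with `r := v`,
`S := {y}` gives `v' ≠ v`.  If `v' ≠ x`, `H v'` gives `i' ≠ j'`; as `k ≤ 3` the pairs `{i, j}`,
`{i', j'}` have a common element `m`; but `Z = (Z \ {v}) ∪ (Z \ {v'})` is adjacent to `Q m`:
contradiction.  So `v' = x`.
-/

set_option autoImplicit false

namespace Pool.Agent.LR5

open Pool.Agent.LG6

variable {V : Type} {G : SimpleGraph V}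

theorem dich [Fintype V] (hJ : IsKConnected 4 G) (Z : Set V) (hZ : Cn G Z) (x y : V) (hx : x ∈ Z)
    (hne : Z ≠ {x}) (hy : y ∉ Z) (hO : ∃ o, o ∉ Z ∧ o ≠ y) (k : ℕ) (hk : k ≤ 3)
    (Q : Fin k → Set V) (hQ : ∀ i, Ad G Z (Q i))
    (H : ∀ v ∈ Z, v ≠ x → Cn G (Z \ {v}) → (∃ o, o ∉ Z ∧ o ≠ y ∧ G.Adj v o) →
      ∃ i j, i ≠ j ∧ ¬ Ad G (Z \ {v}) (Q i) ∧ ¬ Ad G (Z \ {v}) (Q j)) :
    Cn G (Z \ {x}) ∧ (∃ o, o ∉ Z ∧ o ≠ y ∧ G.Adj x o) ∧
      ∃ v ∈ Z, v ≠ x ∧ ∃ i j, i ≠ j ∧ ¬ Ad G (Z \ {v}) (Q i) ∧ ¬ Ad G (Z \ {v}) (Q j) := by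
  classical
  have hS : ({y} : Finset V).card ≤ 2 := by rw [Finset.card_singleton]; omega
  have hSZ : ∀ s ∈ ({y} : Finset V), s ∉ Z := by
    intro s hs
    rw [Finset.mem_singleton] at hs
    rw [hs]
    exact hy
  have hO' : ∃ o, o ∉ Z ∧ o ∉ ({y} : Finset V) := by
    obtain ⟨o, h1, h2⟩ := hO
    exact ⟨o, h1, fun h3 => h2 (Finset.mem_singleton.1 h3)⟩
  have hcv : ∀ v, (∃ o, o ∉ Z ∧ o ∉ ({y} : Finset V) ∧ G.Adj v o) →
      ∃ o, o ∉ Z ∧ o ≠ y ∧ G.Adj v o := by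
    rintro v ⟨o, h1, h2, h3⟩
    exact ⟨o, h1, fun h4 => h2 (Finset.mem_singleton.2 h4), h3⟩
  obtain ⟨v, hv, hvx, hvc, hvo⟩ := last hJ Z hZ x hx hne {y} hS hSZ hO'
  have hnv : Z ≠ {v} := by
    intro h
    rw [h, Set.mem_singleton_iff] at hx
    exact hvx hx.symm
  obtain ⟨v', hv', hvv, hvc', hvo'⟩ := last hJ Z hZ v hv hnv {y} hS hSZ hO'
  obtain ⟨i, j, hij, hi, hj⟩ := H v hv hvx hvc (hcv v hvo)
  have hx' : v' = x := by
    by_contra hx'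
    obtain ⟨i', j', hij', hi', hj'⟩ := H v' hv' hx' hvc' (hcv v' hvo')
    have key : ∀ m, ¬ Ad G (Z \ {v}) (Q m) → ¬ Ad G (Z \ {v'}) (Q m) → False := by
      intro m h1 h2
      obtain ⟨s, hs, t, ht, hst⟩ := hQ m
      by_cases h3 : s = v
      · exact h2 ⟨s, ⟨hs, fun h4 => hvv (by rw [Set.mem_singleton_iff] at h4; rw [← h4, h3])⟩,
          t, ht, hst⟩
      · exact h1 ⟨s, ⟨hs, h3⟩, t, ht, hst⟩
    have h1 : i = i' ∨ i = j' ∨ j = i' ∨ j = j' := by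
      by_contra hcon
      push Not at hcon
      obtain ⟨c1, c2, c3, c4⟩ := hcon
      have hi0 := i.isLt
      have hj0 := j.isLt
      have hi1 := i'.isLt
      have hj1 := j'.isLt
      rw [Ne, Fin.ext_iff] at c1 c2 c3 c4 hij hij'
      omega
    rcases h1 with rfl | rfl | rfl | rfl
    · exact key _ hi hi'
    · exact key _ hi hj'
    · exact key _ hj hi'
    · exact key _ hj hj'
  subst hx'
  exact ⟨hvc', hcv _ hvo', v, hv, hvx, i, j, hij, hi, hj⟩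

end Pool.Agent.LR5
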