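import Pool.Agent.LR5.Defs

set_option autoImplicit false

namespace Pool.Agent.LR5

open Pool.Agent.LG6

variable {V : Type} {G : SimpleGraph V}

theorem extend44 [Fintype V] (hJ : IsKConnected 4 G) {ι : Type} (n : ℕ) :
    ∀ (P : ι → Set V) (Fz : Set ι) (F : Finset V) (_ : F.card ≤ 3) (_ : ∀ i, Cn G (P i))
    (_ : ∀ i j, i ≠ j → Disjoint (P i) (P j))
    (_ : ∀ i ∈ Fz, P i ⊆ (↑F : Set V)) (_ : ∀ v ∈ F, ∃ i ∈ Fz, v ∈ P i)
    (_ : ∃ i, i ∉ Fz) (_ : ({v : V | ∀ i, v ∉ P i}).ncard ≤ n),
    ∃ P' : ι → Set V, (∀ i, P i ⊆ P' i) ∧ (∀ i ∈ Fz, P' i = P i) ∧ (∀ i, Cn G (P' i)) ∧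
      (∀ i j, i ≠ j → Disjoint (P' i) (P' j)) ∧ ∀ v, ∃ i, v ∈ P' i := by
  classical
  induction n with
  | zero =>
    intro P Fz F hF hc hd hFz hFc hn hcard
    refine ⟨P, fun i => subset_rfl, fun i _ => rfl, hc, hd, fun v => ?_⟩
    by_contra hv
    push Not at hv
    have h0 : ({v : V | ∀ i, v ∉ P i}).ncard = 0 := by omega
    rw [Set.ncard_eq_zero (Set.toFinite _)] at h0
    have : v ∈ ({v : V | ∀ i, v ∉ P i} : Set V) := hv
    rw [h0] at this
    exact this
  | succ n ih =>
    intro P Fz F hF hc hd hFz hFc hn hcard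
    by_cases hL : ∃ v, ∀ i, v ∉ P i
    · obtain ⟨g, hg⟩ := hL
      obtain ⟨i0, hi0⟩ := hn
      obtain ⟨h, hh⟩ := (hc i0).ne
      obtain ⟨u, w, hu, hw, huF, hwF, huw⟩ := exit4 hJ F hF (C := {v : V | ∀ i, v ∉ P i}) (g := g)
        (h := h) hg
        (fun h' => by
          obtain ⟨i, _, hi⟩ := hFc g h'
          exact hg i hi)
        (fun h' => h' i0 hh)
        (fun h' => by
          obtain ⟨i, hi, hi'⟩ := hFc h h'
          have hne : i ≠ i0 := fun e => hi0 (e ▸ hi)
          exact Set.disjoint_left.1 (hd i i0 hne) hi' hh)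
      have hw' : ∃ k, w ∈ P k := by
        by_contra h'
        push Not at h'
        exact hw h'
      obtain ⟨k, hk⟩ := hw'
      have hkF : k ∉ Fz := fun h' => hwF (Finset.mem_coe.1 (hFz k h' hk))
      have hu' : ∀ i, u ∉ P i := hu
      let Q : ι → Set V := Function.update P k (insert u (P k))
      have hQk : Q k = insert u (P k) := by simp [Q]
      have hQ : ∀ i, i ≠ k → Q i = P i := fun i hi => by simp [Q, hi]
      have hsub : ∀ i, P i ⊆ Q i := by
        intro i
        by_cases hi : i = k
        · subst hi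
          rw [hQk]
          exact Set.subset_insert _ _
        · rw [hQ i hi]
      have hQd : ∀ i, i ≠ k → Disjoint (Q k) (Q i) := by
        intro i hi
        rw [hQk, hQ i hi, Set.disjoint_left]
        rintro v (rfl | hv) hv'
        · exact hu' i hv'
        · exact Set.disjoint_left.1 (hd k i (Ne.symm hi)) hv hv'
      obtain ⟨P', h1, h2, h3, h4, h5⟩ := ih Q Fz F hF
        (by
          intro i
          by_cases hi : i = k
          · subst hi
            rw [hQk]
            exact (hc i).insert ⟨w, hk, huw⟩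
          · rw [hQ i hi]
            exact hc i)
        (by
          intro i j hij
          by_cases hi : i = k
          · subst hi
            exact hQd j (Ne.symm hij)
          · by_cases hj : j = k
            · subst hj
              exact (hQd i hi).symm
            · rw [hQ i hi, hQ j hj]
              exact hd i j hij)
        (by
          intro i hi
          have : i ≠ k := fun e => hkF (e ▸ hi)
          rw [hQ i this]
          exact hFz i hi)
        (by
          intro v hv
          obtain ⟨i, hi, hi'⟩ := hFc v hv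
          exact ⟨i, hi, hsub i hi'⟩)
        ⟨i0, hi0⟩
        (by
          have hlt : ({v : V | ∀ i, v ∉ Q i}).ncard < ({v : V | ∀ i, v ∉ P i}).ncard := by
            apply Set.ncard_lt_ncard _ (Set.toFinite _)
            refine ⟨fun v hv i hi => hv i (hsub i hi), fun h' => ?_⟩
            have := h' (show u ∈ {v : V | ∀ i, v ∉ P i} from hu')
            apply this k
            rw [hQk]
            exact Set.mem_insert _ _
          omega)
      refine ⟨P', fun i => (hsub i).trans (h1 i), fun i hi => ?_, h3, h4, h5⟩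
      have : i ≠ k := fun e => hkF (e ▸ hi)
      rw [h2 i hi, hQ i this]
    · push Not at hL
      exact ⟨P, fun i => subset_rfl, fun i _ => rfl, hc, hd, hL⟩

end Pool.Agent.LR5
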