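import Pool.Agent.LR5.Two

/-!
LR5: near and far part.

Proof.  By `twoOrCut` either the first alternative holds or there is a cut vertex `c ∈ B` (every
connected subset of `B` meeting `X` and `α1 ∪ α2` contains `c`).  For a cut vertex `c` let
`Fr c := {c} ∪ {v ∈ B | v ≠ c and some connected T ⊆ B \ {c} contains v and meets α1 ∪ α2}` and
`N := B \ Fr c`.  Choose the cut vertex `c` with `(Fr c).ncard` minimal, `F := Fr c`.  The fields of
`Sep`:
* `un`, `dis`, `cF` : clear.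
* `cnF` : for `f ∈ F`, `f ≠ c`, take the component of `f` in `B \ {c}` (`LG6.comp`); all its vertices are
  in `F`; an edge leaves it inside `B` (`Cn.exit`), it can only go to `c`.  So every `f ∈ F` is connected
  to `c` in `F`.
* `cnN` : for `n ∈ N` take the component of `n` in `B \ {c}`: it does not meet `α1 ∪ α2` (otherwise
  `n ∈ F`), so all its vertices are in `N`; an edge leaves it inside `B`, to `c`.
* `aF` : `v ∈ B ∩ (α1 ∪ α2)`, `v ≠ c`: take `T := {v}`.
* `XN` : `v ∈ B ∩ X`, `v ≠ c`, `v ∈ F`: a connected `T ⊆ B \ {c}` contains `v` and meets `α1 ∪ α2`, so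
  `c ∈ T`: contradiction.
* `noedge` : `n ∈ N`, `f ∈ F`, `f ≠ c`, adjacent: `T ∪ {n}` shows `n ∈ F`.
* `two` : let `f ∈ F`, `f ≠ c`.  Apply `twoOrCut` to the connected set `F` with `X := {c, f}`
  (`F` meets `α1` and `α2` by `aF`).  First alternative: `T` and `T'` are disjoint and both meet
  `{c, f}`, so one contains `c`, the other `f`: done.  Second alternative: `c' ∈ F` lies in every
  connected subset of `F` that meets `{c, f}` and `α1 ∪ α2`.  `c' ≠ c`: as `f ∈ F`, a connected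
  `T ⊆ B \ {c}` contains `f` and meets `α1 ∪ α2`, and all its vertices are in `F`.
  (*) Every connected `T ⊆ B` that contains `c` and meets `α1 ∪ α2` contains `c'`: let `T0` be the
  component of `c` in `T ∩ F`; if `T0` meets `α1 ∪ α2`, then `c' ∈ T0`; otherwise an edge leaves `T0`
  inside `T` and goes to a vertex of `N`, so it starts at `c` (`noedge`); the rest: let `v ∈ T` be in
  `α1 ∪ α2` (so `v ∈ F`, and `v ≠ c`, otherwise `v = c ∈ T0`); take the component `T1` of `v` in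
  `T \ {c}`: it is a connected subset of `B \ {c}` meeting `α1 ∪ α2`, so `T1 ⊆ F`; an edge leaves `T1`
  inside `T`, it goes to `c`; so `T1 ∪ {c}` is a connected subset of `F` containing `c` and meeting
  `α1 ∪ α2`, hence contains `c'`.  (This last argument alone proves (*).)
  So `c'` is a cut vertex: a connected subset of `B` meeting `X` and `α1 ∪ α2` contains `c`, hence `c'`
  by (*).  And `Fr c' ⊆ Fr c \ {c}`: let `w ∈ Fr c'`, `w ≠ c'`, with a connected `T ⊆ B \ {c'}`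
  containing `w` and meeting `α1 ∪ α2`; by (*) `c ∉ T`, so `w ∈ Fr c`, `w ≠ c`; and `c' ∈ F`, `c' ≠ c`.
  This contradicts the minimality of `c`.
-/

set_option autoImplicit false

namespace Pool.Agent.LR5

open Pool.Agent.LG6

variable {V : Type} {G : SimpleGraph V}

/-- connectivity from connected sets through a common vertex -/
theorem cn_star {F : Set V} {c : V} (hc : c ∈ F)
    (h : ∀ f ∈ F, ∃ S ⊆ F, c ∈ S ∧ f ∈ S ∧ Cn G S) : Cn G F := by
  have e : F = ⋃₀ {S : Set V | S ⊆ F ∧ c ∈ S ∧ Cn G S} := by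
    apply Set.Subset.antisymm
    · intro f hf
      obtain ⟨S, hS, hcS, hfS, hS'⟩ := h f hf
      exact ⟨S, ⟨hS, hcS, hS'⟩, hfS⟩
    · exact Set.sUnion_subset fun S hS => hS.1
  rw [e]
  have hc0 : ({c} : Set V) ∈ {S : Set V | S ⊆ F ∧ c ∈ S ∧ Cn G S} :=
    ⟨Set.singleton_subset_iff.2 hc, rfl, cn_single G c⟩
  apply SimpleGraph.induce_sUnion_connected_of_pairwise_not_disjoint ⟨_, hc0⟩
  · intro s t hs ht
    exact ⟨c, hs.2.1, ht.2.1⟩
  · intro s hs
    exact hs.2.2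

/-- the component of `v` in `B \ {c}` is attached to `c` -/
theorem comp_att {B : Set V} (hB : Cn G B) {c v : V} (hc : c ∈ B) (hv : v ∈ B) (hvc : v ≠ c) :
    ∃ D ⊆ B, c ∉ D ∧ v ∈ D ∧ Cn G D ∧ Cn G (insert c D) := by
  obtain ⟨D, hD, hvD, hDc, hcl⟩ := comp G (B \ {c}) v ⟨hv, hvc⟩
  have hcD : c ∉ D := fun h => (hD h).2 rfl
  obtain ⟨g, h, -, hh, hgh, hgD, hhD⟩ := hB.exit (P := D) ⟨v, hv, hvD⟩ ⟨c, hc, hcD⟩
  have hhc : h = c := by
    by_contra hne
    exact hhD (hcl g hgD h ⟨hh, hne⟩ hgh)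
  subst hhc
  exact ⟨D, fun w hw => (hD hw).1, hcD, hvD, hDc, Cn.insert hDc ⟨g, hgD, hgh.symm⟩⟩

/-- the far part -/
def Fr (G : SimpleGraph V) (B α : Set V) (c : V) : Set V :=
  {v | v = c ∨ ∃ T : Set V, T ⊆ B ∧ c ∉ T ∧ Cn G T ∧ v ∈ T ∧ (T ∩ α).Nonempty}

theorem far [Finite V] (B : Set V) (hB : Cn G B) (X α1 α2 : Set V)
    (hX : ∃ b ∈ B, b ∈ X) (h1 : ∃ b ∈ B, b ∈ α1) (h2 : ∃ b ∈ B, b ∈ α2) :
    (∃ T T' : Set V, T ⊆ B ∧ T' ⊆ B ∧ Disjoint T T' ∧ Cn G T ∧ Cn G T' ∧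
      (T ∩ X).Nonempty ∧ (T ∩ α1).Nonempty ∧ (T' ∩ X).Nonempty ∧ (T' ∩ α2).Nonempty) ∨
    ∃ c N F, Sep G B X α1 α2 c N F := by
  rcases twoOrCut B hB X α1 α2 hX h1 h2 with h | ⟨c0, hc0, hcut0⟩
  · exact Or.inl h
  right
  set C : Set V := {c | c ∈ B ∧ ∀ T : Set V, T ⊆ B → Cn G T → (T ∩ X).Nonempty →
    (T ∩ (α1 ∪ α2)).Nonempty → c ∈ T} with hC
  obtain ⟨c, ⟨hcB, hcut⟩, hmin⟩ := Set.exists_min_image C (fun c => (Fr G B (α1 ∪ α2) c).ncard)
    (Set.toFinite _) ⟨c0, hc0, hcut0⟩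
  set F := Fr G B (α1 ∪ α2) c with hF
  have hFB : F ⊆ B := by
    rintro v (rfl | ⟨T, hT, -, -, hv, -⟩)
    · exact hcB
    · exact hT hv
  have hcF : c ∈ F := Or.inl rfl
  -- members of a witness are in `F`
  have hTF : ∀ T : Set V, T ⊆ B → c ∉ T → Cn G T → (T ∩ (α1 ∪ α2)).Nonempty → T ⊆ F :=
    fun T hT hcT hTc hTa w hw => Or.inr ⟨T, hT, hcT, hTc, hw, hTa⟩
  have hcnF : Cn G F := by
    apply cn_star hcF
    rintro f (rfl | ⟨T, hT, hcT, hTc, hfT, hTa⟩)
    · exact ⟨{f}, Set.singleton_subset_iff.2 hcF, rfl, rfl, cn_single G f⟩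
    · obtain ⟨D, hD, hcD, hfD, hDc, hDc'⟩ := comp_att hB hcB (hT hfT) (fun h => hcT (h ▸ hfT))
      refine ⟨insert c D, ?_, Set.mem_insert _ _, Set.mem_insert_of_mem _ hfD, hDc'⟩
      have : T ∪ D ⊆ F := hTF (T ∪ D) (Set.union_subset hT hD)
        (fun h => h.elim hcT hcD) (Cn.inter hTc hDc hfT hfD)
        (hTa.mono (Set.inter_subset_inter_left _ Set.subset_union_left))
      exact Set.insert_subset hcF (fun w hw => this (Or.inr hw))
  have haF : ∀ v ∈ B, v ∈ α1 ∪ α2 → v ∈ F := by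
    intro v hv hva
    by_cases hvc : v = c
    · exact Or.inl hvc
    · exact Or.inr ⟨{v}, Set.singleton_subset_iff.2 hv, fun h => hvc (Set.mem_singleton_iff.1 h).symm,
        cn_single G v, rfl, ⟨v, rfl, hva⟩⟩
  have hcnN : Cn G (insert c (B \ F)) := by
    apply cn_star (Set.mem_insert _ _)
    rintro n (rfl | ⟨hnB, hnF⟩)
    · exact ⟨{n}, Set.singleton_subset_iff.2 (Set.mem_insert _ _), rfl, rfl, cn_single G n⟩
    · have hnc : n ≠ c := fun h => hnF (h ▸ hcF)
      obtain ⟨D, hD, hcD, hnD, hDc, hDc'⟩ := comp_att hB hcB hnB hnc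
      refine ⟨insert c D, ?_, Set.mem_insert _ _, Set.mem_insert_of_mem _ hnD, hDc'⟩
      apply Set.insert_subset_insert
      intro w hw
      refine ⟨hD hw, ?_⟩
      rintro (rfl | ⟨T, hT, hcT, hTc, hwT, hTa⟩)
      · exact hcD hw
      · exact hnF (hTF (T ∪ D) (Set.union_subset hT hD) (fun h => h.elim hcT hcD)
          (Cn.inter hTc hDc hwT hw)
          (hTa.mono (Set.inter_subset_inter_left _ Set.subset_union_left)) (Or.inr hnD))
  refine ⟨c, B \ F, F, ?_⟩
  refine ⟨?_, ?_, hcF, hcnF, hcnN, haF, ?_, ?_, ?_⟩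
  · exact Set.sdiff_union_of_subset hFB
  · exact Set.disjoint_sdiff_left
  · intro v hvB hvX
    by_cases hvc : v = c
    · exact Or.inl hvc
    · refine Or.inr ⟨hvB, ?_⟩
      rintro (h | ⟨T, hT, hcT, hTc, hvT, hTa⟩)
      · exact hvc h
      · exact hcT (hcut T hT hTc ⟨v, hvT, hvX⟩ hTa)
  · rintro n ⟨hnB, hnF⟩ f (h | ⟨T, hT, hcT, hTc, hfT, hTa⟩) hfc hadj
    · exact hfc h
    · have hnc : n ≠ c := fun h => hnF (h ▸ hcF)
      exact hnF (hTF (insert n T) (Set.insert_subset hnB hT)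
        (fun h => (Set.mem_insert_iff.1 h).elim (fun h => hnc h.symm) hcT)
        (Cn.insert hTc ⟨f, hfT, hadj⟩)
        (hTa.mono (Set.inter_subset_inter_left _ (Set.subset_insert _ _)))
        (Set.mem_insert _ _))
  · intro f hfF hfc
    obtain ⟨b1, hb1, hb1a⟩ := h1
    obtain ⟨b2, hb2, hb2a⟩ := h2
    rcases twoOrCut F hcnF {c, f} α1 α2 ⟨c, hcF, Or.inl rfl⟩ ⟨b1, haF b1 hb1 (Or.inl hb1a), hb1a⟩
      ⟨b2, haF b2 hb2 (Or.inr hb2a), hb2a⟩ with
      ⟨T, T', hT, hT', hdis, hTc, hTc', ⟨u, huT, hu⟩, hTa, ⟨u', huT', hu'⟩, hTa'⟩ |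
      ⟨c', hc'F, hc'⟩
    · rcases hu with rfl | hu
      · -- `c = u ∈ T`
        have hu'f : u' = f := by
          rcases hu' with rfl | hu'
          · exact absurd huT' (Set.disjoint_left.1 hdis huT)
          · exact hu'
        subst hu'f
        exact ⟨T, T', hT, hT', hdis, hTc, hTc', huT, huT', Or.inl ⟨hTa, hTa'⟩⟩
      · have huf : u = f := hu
        subst huf
        have hu'c : u' = c := by
          rcases hu' with hu' | hu'
          · exact hu'
          · exact absurd (hu' ▸ huT') (Set.disjoint_left.1 hdis huT)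
        subst hu'c
        exact ⟨T', T, hT', hT, hdis.symm, hTc', hTc, huT', huT, Or.inr ⟨hTa', hTa⟩⟩
    · exfalso
      have hc'c : c' ≠ c := by
        rcases hfF with h | ⟨T, hT, hcT, hTc, hfT, hTa⟩
        · exact absurd h hfc
        · have hTF' := hTF T hT hcT hTc hTa
          have := hc' T hTF' hTc ⟨f, hfT, Or.inr rfl⟩ hTa
          exact fun h => hcT (h ▸ this)
      have star : ∀ T : Set V, T ⊆ B → Cn G T → c ∈ T → (T ∩ (α1 ∪ α2)).Nonempty → c' ∈ T := by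
        rintro T hT hTc hcT ⟨v, hvT, hva⟩
        by_cases hvc : v = c
        · subst hvc
          have := hc' {v} (Set.singleton_subset_iff.2 hcF) (cn_single G v)
            ⟨v, rfl, Or.inl rfl⟩ ⟨v, rfl, hva⟩
          exact absurd this hc'c
        · obtain ⟨D, hD, hcD, hvD, hDc, hDc'⟩ := comp_att hTc hcT hvT hvc
          have hDF := hTF D (hD.trans hT) hcD hDc ⟨v, hvD, hva⟩
          have := hc' (insert c D) (Set.insert_subset hcF hDF) hDc'
            ⟨c, Set.mem_insert _ _, Or.inl rfl⟩ ⟨v, Set.mem_insert_of_mem _ hvD, hva⟩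
          rcases this with h | h
          · exact absurd h hc'c
          · exact hD h
      have hc'C : c' ∈ C :=
        ⟨hFB hc'F, fun T hT hTc hTX hTa => star T hT hTc (hcut T hT hTc hTX hTa) hTa⟩
      have hsub : Fr G B (α1 ∪ α2) c' ⊆ F \ {c} := by
        rintro w (rfl | ⟨T, hT, hcT, hTc, hwT, hTa⟩)
        · exact ⟨hc'F, hc'c⟩
        · have hcT' : c ∉ T := fun h => hcT (star T hT hTc h hTa)
          exact ⟨hTF T hT hcT' hTc hTa hwT, fun h => hcT' (h ▸ hwT)⟩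
      have hle := hmin c' hc'C
      have h3 : (Fr G B (α1 ∪ α2) c').ncard ≤ (F \ {c}).ncard :=
        Set.ncard_le_ncard hsub (Set.toFinite _)
      have h4 : (F \ {c}).ncard < F.ncard := Set.ncard_sdiff_singleton_lt_of_mem hcF (Set.toFinite _)
      omega

end Pool.Agent.LR5
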