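import Pool.Agent.LR5.Defs2

/-!
LR5: Mader's bound for `K₅`: a finite graph on `n ≥ 3` vertices without `K₅` minor has at most `3 n - 6`
edges; in terms of the degree sum: `es G + 12 ≤ 6 n`.

Proof.  Induction on the number `n` of vertices of a set `W` that contains all edges.  `n = 3`, `n = 4`: at
most 3, 6 edges.  Let `n ≥ 5` and suppose that `G` has at least `3 n - 5` edges; delete edges until it
has exactly `3 n - 5` (subgraphs of `K₅`-minor-free graphs are `K₅`-minor-free; `M5.mono`).  If a vertex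
has degree at most 3, delete it: `n - 1` vertices, at least `3 n - 8 = 3 (n - 1) - 5` edges, contradiction.
If an edge `x y` lies in at most two triangles, contract it, contradiction.  So every edge lies in at
least three triangles and all degrees are at least 4.  The degree sum is `6 n - 10 < 6 n`, so some `v` has
degree 4 or 5, and every neighbour of `v` has at least three neighbours in `N(v)`: this gives a `K₅`.
-/

set_option autoImplicit false

namespace Pool.Agent.LR5

open Pool.Agent.LG6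

section K5E

variable {V : Type}

/-- connectivity after contraction -/
theorem k5_conn {G G2 : SimpleGraph V} {x y : V} (hxy : G.Adj x y)
    (h2 : ∀ a b, G2.Adj a b → G.Adj a b ∨ (a = x ∧ G.Adj y b) ∨ (b = x ∧ G.Adj y a))
    {S : Set V} (hS : Cn G2 S) (hx : x ∈ S) : Cn G (insert y S) := by
  have hy' : y ∈ insert y S := Set.mem_insert y S
  have hx' : x ∈ insert y S := Set.mem_insert_of_mem y hx
  have key : ∀ a b : S, (G2.induce S).Reachable a b →
      (G.induce (insert y S)).Reachable ⟨a.1, Set.mem_insert_of_mem y a.2⟩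
        ⟨b.1, Set.mem_insert_of_mem y b.2⟩ := by
    intro a b hab
    rw [SimpleGraph.reachable_iff_reflTransGen] at hab
    induction hab with
    | refl => exact SimpleGraph.Reachable.refl _
    | tail _ hbc ih =>
      rename_i b c _
      refine ih.trans ?_
      have hxy' : (G.induce (insert y S)).Adj ⟨x, hx'⟩ ⟨y, hy'⟩ := hxy
      rcases h2 b.1 c.1 hbc with h | ⟨h, h'⟩ | ⟨h, h'⟩
      · exact SimpleGraph.Adj.reachable (show (G.induce (insert y S)).Adj
          ⟨b.1, Set.mem_insert_of_mem y b.2⟩ ⟨c.1, Set.mem_insert_of_mem y c.2⟩ from h)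
      · have e1 : (⟨b.1, Set.mem_insert_of_mem y b.2⟩ : (insert y S : Set V)) = ⟨x, hx'⟩ :=
          Subtype.ext h
        rw [e1]
        exact hxy'.reachable.trans (SimpleGraph.Adj.reachable
          (show (G.induce (insert y S)).Adj ⟨y, hy'⟩ ⟨c.1, Set.mem_insert_of_mem y c.2⟩ from h'))
      · have e1 : (⟨c.1, Set.mem_insert_of_mem y c.2⟩ : (insert y S : Set V)) = ⟨x, hx'⟩ :=
          Subtype.ext h
        rw [e1]
        exact (SimpleGraph.Adj.reachable (show (G.induce (insert y S)).Adj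
          ⟨b.1, Set.mem_insert_of_mem y b.2⟩ ⟨y, hy'⟩ from h'.symm)).trans hxy'.symm.reachable
  show (G.induce (insert y S)).Connected
  rw [SimpleGraph.connected_iff_exists_forall_reachable]
  refine ⟨⟨x, hx'⟩, ?_⟩
  rintro ⟨w, rfl | hw⟩
  · exact SimpleGraph.Adj.reachable (show (G.induce (insert w S)).Adj ⟨x, hx'⟩ ⟨w, hy'⟩ from hxy)
  · exact key ⟨x, hx⟩ ⟨w, hw⟩ (hS.preconnected _ _)

open Classical in
/-- a model in the contracted graph gives a model -/
theorem k5_contract {G G2 : SimpleGraph V} {x y : V} (hxy : G.Adj x y)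
    (h2 : ∀ a b, G2.Adj a b → G.Adj a b ∨ (a = x ∧ G.Adj y b) ∨ (b = x ∧ G.Adj y a))
    (hy : ∀ a b, G2.Adj a b → a ≠ y) {D : Fin 5 → Set V} (h : M5 G2 D) : ∃ D', M5 G D' := by
  have hyD : ∀ i, y ∉ D i := by
    intro i hi
    obtain ⟨j, hij⟩ : ∃ j : Fin 5, i ≠ j := (by decide : ∀ i : Fin 5, ∃ j : Fin 5, i ≠ j) i
    obtain ⟨s, hs, t, ht, hst⟩ := h.ad i j hij
    have hsy := hy s t hst
    obtain ⟨g, k, _, _, hgk, hg, _⟩ := (h.c i).exit (P := {y}) ⟨y, hi, rfl⟩ ⟨s, hs, hsy⟩
    exact hy g k hgk hg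
  refine ⟨fun i => if x ∈ D i then insert y (D i) else D i, ?_, ?_, ?_⟩
  · intro i
    split_ifs with hx
    · exact k5_conn hxy h2 (h.c i) hx
    · refine (h.c i).mono ?_
      rintro ⟨a, ha⟩ ⟨b, hb⟩ hab
      rcases h2 a b hab with h' | ⟨h', _⟩ | ⟨h', _⟩
      · exact h'
      · exact absurd (h' ▸ ha) hx
      · exact absurd (h' ▸ hb) hx
  · intro i j hij
    have hd := h.d i j hij
    split_ifs with h1 h3 h3
    · exact absurd h3 (Set.disjoint_left.1 hd h1)
    · rw [Set.disjoint_insert_left]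
      exact ⟨hyD j, hd⟩
    · rw [Set.disjoint_insert_right]
      exact ⟨hyD i, hd⟩
    · exact hd
  · intro i j hij
    obtain ⟨s, hs, t, ht, hst⟩ := h.ad i j hij
    have hs' : s ∈ (if x ∈ D i then insert y (D i) else D i) := by
      split_ifs
      · exact Set.mem_insert_of_mem _ hs
      · exact hs
    have ht' : t ∈ (if x ∈ D j then insert y (D j) else D j) := by
      split_ifs
      · exact Set.mem_insert_of_mem _ ht
      · exact ht
    rcases h2 s t hst with h' | ⟨h', h''⟩ | ⟨h', h''⟩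
    · exact ⟨s, hs', t, ht', h'⟩
    · refine ⟨y, ?_, t, ht', h''⟩
      rw [if_pos (h' ▸ hs)]
      exact Set.mem_insert _ _
    · refine ⟨s, hs', y, ?_, h''.symm⟩
      rw [if_pos (h' ▸ ht)]
      exact Set.mem_insert _ _

variable [Fintype V]

open Classical in
/-- the neighbours -/
noncomputable def k5N (G : SimpleGraph V) (v : V) : Finset V :=
  Finset.univ.filter fun w => G.Adj v w

theorem mem_k5N {G : SimpleGraph V} {v w : V} : w ∈ k5N G v ↔ G.Adj v w := by
  simp [k5N]

/-- the sum of the degrees -/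
noncomputable def k5S (G : SimpleGraph V) : ℕ := ∑ v, (k5N G v).card

theorem es_eq_k5S (G : SimpleGraph V) : es G = k5S G := by
  unfold es k5S dg
  apply Finset.sum_congr rfl
  intro v _
  rw [← Set.ncard_coe_finset]
  congr 1
  ext w
  simp [k5N]

open Classical in
theorem k5S_eq (G : SimpleGraph V) : k5S G = 2 * G.edgeSet.ncard := by
  rw [← SimpleGraph.coe_edgeFinset, Set.ncard_coe_finset,
    ← SimpleGraph.sum_degrees_eq_twice_card_edges]
  unfold k5S
  apply Finset.sum_congr rfl
  intro v _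
  rw [← SimpleGraph.card_neighborFinset_eq_degree]
  congr 1
  ext w
  simp [k5N]

/-- exactly `m` edges -/
theorem k5_sub (G : SimpleGraph V) (m : ℕ) (hm : 2 * m ≤ k5S G) :
    ∃ G' : SimpleGraph V, G' ≤ G ∧ k5S G' = 2 * m := by
  rw [k5S_eq] at hm
  obtain ⟨T, hT, hTm⟩ := Set.exists_subset_card_eq (s := G.edgeSet) (n := m) (by omega)
  refine ⟨SimpleGraph.fromEdgeSet T, ?_, ?_⟩
  · intro a b hab
    rw [SimpleGraph.fromEdgeSet_adj] at hab
    exact hT hab.1
  · rw [k5S_eq, ← hTm, SimpleGraph.edgeSet_fromEdgeSet]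
    congr 2
    ext e
    constructor
    · rintro ⟨h, _⟩
      exact h
    · intro h
      exact ⟨h, G.not_isDiag_of_mem_edgeSet (hT h)⟩

open Classical in
/-- deleting a vertex -/
def k5Del (G : SimpleGraph V) (v : V) : SimpleGraph V where
  Adj a b := G.Adj a b ∧ a ≠ v ∧ b ≠ v
  symm := ⟨fun _ _ h => ⟨h.1.symm, h.2.2, h.2.1⟩⟩
  loopless := ⟨fun a h => G.loopless.irrefl a h.1⟩

open Classical in
theorem k5S_del (G : SimpleGraph V) (v : V) :
    k5S G ≤ k5S (k5Del G v) + 2 * (k5N G v).card := by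
  have h1 : ∀ w, (k5N G w).card ≤ (k5N (k5Del G v) w).card +
      ((if w = v then (k5N G v).card else 0) + if G.Adj v w then 1 else 0) := by
    intro w
    by_cases hw : w = v
    · subst hw
      rw [if_pos rfl]
      omega
    · rw [if_neg hw, zero_add]
      by_cases ha : G.Adj v w
      · rw [if_pos ha]
        have : k5N G w ⊆ insert v (k5N (k5Del G v) w) := by
          intro u hu
          rw [mem_k5N] at hu
          by_cases huv : u = v
          · rw [huv]
            exact Finset.mem_insert_self _ _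
          · exact Finset.mem_insert_of_mem (mem_k5N.2 ⟨hu, hw, huv⟩)
        exact (Finset.card_le_card this).trans (Finset.card_insert_le _ _)
      · rw [if_neg ha, add_zero]
        apply Finset.card_le_card
        intro u hu
        rw [mem_k5N] at hu ⊢
        exact ⟨hu, hw, fun h => ha (h ▸ hu).symm⟩
  calc k5S G ≤ ∑ w, ((k5N (k5Del G v) w).card +
      ((if w = v then (k5N G v).card else 0) + if G.Adj v w then 1 else 0)) :=
        Finset.sum_le_sum fun w _ => h1 w
    _ = k5S (k5Del G v) + 2 * (k5N G v).card := by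
        rw [Finset.sum_add_distrib, Finset.sum_add_distrib, Finset.sum_ite_eq' Finset.univ v,
          if_pos (Finset.mem_univ v), ← Finset.card_filter]
        show k5S (k5Del G v) + ((k5N G v).card + (k5N G v).card) = _
        ring

/-- contracting an edge `x y` to `x` -/
def k5Con (G : SimpleGraph V) (x y : V) : SimpleGraph V where
  Adj a b := a ≠ b ∧ a ≠ y ∧ b ≠ y ∧ (G.Adj a b ∨ (a = x ∧ G.Adj y b) ∨ (b = x ∧ G.Adj y a))
  symm := ⟨fun _ _ h => ⟨h.1.symm, h.2.2.1, h.2.1, by
    rcases h.2.2.2 with h | h | h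
    · exact Or.inl h.symm
    · exact Or.inr (Or.inr h)
    · exact Or.inr (Or.inl h)⟩⟩
  loopless := ⟨fun a h => h.1 rfl⟩

open Classical in
theorem k5S_con (G : SimpleGraph V) {x y : V} (hxy : G.Adj x y) :
    k5S G ≤ k5S (k5Con G x y) + 2 * (k5N G x ∩ k5N G y).card + 2 := by
  have hne : x ≠ y := hxy.ne
  -- the vertex x
  have hx : (k5N G x).card + (k5N G y).card ≤
      (k5N (k5Con G x y) x).card + (k5N G x ∩ k5N G y).card + 2 := by
    have h1 : k5N G x ∪ k5N G y ⊆ insert x (insert y (k5N (k5Con G x y) x)) := by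
      intro u hu
      rw [Finset.mem_union, mem_k5N, mem_k5N] at hu
      by_cases hux : u = x
      · rw [hux]; exact Finset.mem_insert_self _ _
      · by_cases huy : u = y
        · rw [huy]; exact Finset.mem_insert_of_mem (Finset.mem_insert_self _ _)
        · refine Finset.mem_insert_of_mem (Finset.mem_insert_of_mem (mem_k5N.2 ?_))
          refine ⟨fun h => hux h.symm, hne, huy, ?_⟩
          rcases hu with hu | hu
          · exact Or.inl hu
          · exact Or.inr (Or.inl ⟨rfl, hu⟩)
    have h2 := Finset.card_le_card h1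
    have h3 := Finset.card_union_add_card_inter (k5N G x) (k5N G y)
    have h4 := Finset.card_insert_le x (insert y (k5N (k5Con G x y) x))
    have h5 := Finset.card_insert_le y (k5N (k5Con G x y) x)
    omega
  -- the other vertices
  have h1 : ∀ w, w ≠ x → w ≠ y → (k5N G w).card ≤ (k5N (k5Con G x y) w).card +
      if (G.Adj x w ∧ G.Adj y w) then 1 else 0 := by
    intro w hwx hwy
    by_cases hyw : G.Adj y w
    · by_cases hxw : G.Adj x w
      · rw [if_pos ⟨hxw, hyw⟩]
        have : k5N G w ⊆ insert y (k5N (k5Con G x y) w) := by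
          intro u hu
          rw [mem_k5N] at hu
          by_cases huy : u = y
          · rw [huy]; exact Finset.mem_insert_self _ _
          · exact Finset.mem_insert_of_mem (mem_k5N.2 ⟨hu.ne, hwy, huy, Or.inl hu⟩)
        exact (Finset.card_le_card this).trans (Finset.card_insert_le _ _)
      · rw [if_neg (fun h => hxw h.1), add_zero]
        have hyN : y ∈ k5N G w := mem_k5N.2 hyw.symm
        have hxN : x ∉ (k5N G w).erase y := by
          rw [Finset.mem_erase, mem_k5N]
          exact fun h => hxw h.2.symm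
        have : insert x ((k5N G w).erase y) ⊆ k5N (k5Con G x y) w := by
          intro u hu
          rw [Finset.mem_insert, Finset.mem_erase, mem_k5N] at hu
          rw [mem_k5N]
          rcases hu with rfl | ⟨huy, hu⟩
          · exact ⟨hwx, hwy, hne, Or.inr (Or.inr ⟨rfl, hyw⟩)⟩
          · exact ⟨hu.ne, hwy, huy, Or.inl hu⟩
        have h3 := Finset.card_le_card this
        rw [Finset.card_insert_of_notMem hxN, Finset.card_erase_of_mem hyN] at h3
        have h4 : 0 < (k5N G w).card := Finset.card_pos.2 ⟨y, hyN⟩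
        omega
    · rw [if_neg (fun h => hyw h.2), add_zero]
      apply Finset.card_le_card
      intro u hu
      rw [mem_k5N] at hu ⊢
      exact ⟨hu.ne, hwy, fun h => hyw (h ▸ hu).symm, Or.inl hu⟩
  have h2 : ∀ w, (k5N G w).card + (if w = x then (k5N (k5Con G x y) x).card else 0) ≤
      (k5N (k5Con G x y) w).card + ((if w = x then (k5N G x).card else 0) +
        ((if w = y then (k5N G y).card else 0) + if (G.Adj x w ∧ G.Adj y w) then 1 else 0)) := by
    intro w
    by_cases hwx : w = x
    · subst hwx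
      rw [if_pos rfl, if_pos rfl]
      omega
    · rw [if_neg hwx, if_neg hwx]
      by_cases hwy : w = y
      · subst hwy
        rw [if_pos rfl]
        omega
      · rw [if_neg hwy]
        have := h1 w hwx hwy
        omega
  have h3 := Finset.sum_le_sum (s := Finset.univ) fun w _ => h2 w
  simp only [Finset.sum_add_distrib, Finset.sum_ite_eq', Finset.mem_univ, if_true] at h3
  rw [← Finset.card_filter] at h3
  have h4 : (Finset.univ.filter fun w => G.Adj x w ∧ G.Adj y w) = k5N G x ∩ k5N G y := by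
    ext w
    rw [Finset.mem_filter, Finset.mem_inter, mem_k5N, mem_k5N]
    simp
  rw [h4] at h3
  have h5 : k5S G = ∑ w, (k5N G w).card := rfl
  have h6 : k5S (k5Con G x y) = ∑ w, (k5N (k5Con G x y) w).card := rfl
  rw [← h5, ← h6] at h3
  omega

omit [Fintype V] in
/-- five vertices with all edges -/
theorem k5_single {G : SimpleGraph V} {a b c d e : V} (h1 : G.Adj a b) (h2 : G.Adj a c)
    (h3 : G.Adj a d) (h4 : G.Adj a e) (h5 : G.Adj b c) (h6 : G.Adj b d) (h7 : G.Adj b e)
    (h8 : G.Adj c d) (h9 : G.Adj c e) (h10 : G.Adj d e) : ∃ D, M5 G D := by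
  have hd : ∀ {u w : V}, G.Adj u w → Disjoint ({u} : Set V) {w} := fun h =>
    Set.disjoint_singleton.2 h.ne
  have ha : ∀ {u w : V}, G.Adj u w → Ad G ({u} : Set V) {w} := fun h => ⟨_, rfl, _, rfl, h⟩
  exact ⟨_, mk5 (cn_single G a) (cn_single G b) (cn_single G c) (cn_single G d) (cn_single G e)
    (hd h1) (hd h2) (hd h3) (hd h4) (hd h5) (hd h6) (hd h7) (hd h8) (hd h9) (hd h10)
    (ha h1) (ha h2) (ha h3) (ha h4) (ha h5) (ha h6) (ha h7) (ha h8) (ha h9) (ha h10)⟩

open Classical in
/-- degree 4 -/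
theorem k5_four {G : SimpleGraph V} {v : V} (h4 : (k5N G v).card = 4)
    (h3 : ∀ u, G.Adj v u → 3 ≤ (k5N G v ∩ k5N G u).card) : ∃ D, M5 G D := by
  have hadj : ∀ a b, a ∈ k5N G v → b ∈ k5N G v → a ≠ b → G.Adj a b := by
    intro a b ha hb hab
    by_contra hn
    have h5 : k5N G v ∩ k5N G a ⊆ ((k5N G v).erase a).erase b := by
      intro u hu
      rw [Finset.mem_inter] at hu
      rw [Finset.mem_erase, Finset.mem_erase]
      refine ⟨fun h => hn (h ▸ mem_k5N.1 hu.2), fun h => ?_, hu.1⟩
      exact (mem_k5N.1 hu.2).ne h.symm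
    have h6 := Finset.card_le_card h5
    rw [Finset.card_erase_of_mem (Finset.mem_erase.2 ⟨hab.symm, hb⟩),
      Finset.card_erase_of_mem ha] at h6
    have := h3 a (mem_k5N.1 ha)
    omega
  obtain ⟨a, s, ha, hs, hs3⟩ := Finset.card_eq_succ.1 h4
  obtain ⟨b, c, d, hbc, hbd, hcd, rfl⟩ := Finset.card_eq_three.1 hs3
  have m : ∀ u, u = a ∨ u = b ∨ u = c ∨ u = d → u ∈ k5N G v := by
    intro u hu
    rw [← hs]
    simpa using hu
  have ma := m a (Or.inl rfl)
  have mb := m b (Or.inr (Or.inl rfl))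
  have mc := m c (Or.inr (Or.inr (Or.inl rfl)))
  have md := m d (Or.inr (Or.inr (Or.inr rfl)))
  simp only [Finset.mem_insert, Finset.mem_singleton, not_or] at ha
  exact k5_single (mem_k5N.1 ma) (mem_k5N.1 mb) (mem_k5N.1 mc) (mem_k5N.1 md)
    (hadj a b ma mb ha.1) (hadj a c ma mc ha.2.1) (hadj a d ma md ha.2.2)
    (hadj b c mb mc hbc) (hadj b d mb md hbd) (hadj c d mc md hcd)

omit [Fintype V] in
/-- a fan: `w`, `r`, `m` in the middle of `l`, `n` -/
theorem k5_fan {G : SimpleGraph V} {v w r l m n : V} (hvw : G.Adj v w) (hvr : G.Adj v r)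
    (hvl : G.Adj v l) (hvm : G.Adj v m) (hvn : G.Adj v n) (hwr : w ≠ r) (hwl : G.Adj w l)
    (hwm : G.Adj w m) (hwn : G.Adj w n) (hrl : G.Adj r l) (hrm : G.Adj r m) (hrn : G.Adj r n)
    (hml : G.Adj m l) (hmn : G.Adj m n) (hln : l ≠ n) : ∃ D, M5 G D := by
  have hc : Cn G ({r, l} : Set V) := (cn_single G l).insert ⟨l, rfl, hrl⟩
  have hd : ∀ {u w : V}, u ≠ w → Disjoint ({u} : Set V) {w} := fun h =>
    Set.disjoint_singleton.2 h
  have hd2 : ∀ {u : V}, u ≠ r → u ≠ l → Disjoint ({u} : Set V) {r, l} := fun h h' => by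
    rw [Set.disjoint_singleton_left, Set.mem_insert_iff, Set.mem_singleton_iff]
    exact fun h1 => h1.elim h h'
  have ha : ∀ {u w : V}, G.Adj u w → Ad G ({u} : Set V) {w} := fun h => ⟨_, rfl, _, rfl, h⟩
  have ha2 : ∀ {u : V}, G.Adj u l → Ad G ({u} : Set V) {r, l} := fun h =>
    ⟨_, rfl, l, Set.mem_insert_of_mem _ rfl, h⟩
  exact ⟨_, mk5 (cn_single G v) (cn_single G w) hc (cn_single G m) (cn_single G n)
    (hd hvw.ne) (hd2 hvr.ne hvl.ne) (hd hvm.ne) (hd hvn.ne)
    (hd2 hwr hwl.ne) (hd hwm.ne) (hd hwn.ne)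
    (hd2 hrm.ne' hml.ne).symm (hd2 hrn.ne' hln.symm).symm (hd hmn.ne)
    (ha hvw) (ha2 hvl) (ha hvm) (ha hvn) (ha2 hwl) (ha hwm) (ha hwn)
    (ha2 hml).symm ⟨r, Set.mem_insert _ _, n, rfl, hrn⟩ (ha hmn)⟩

open Classical in
/-- degree 5 -/
theorem k5_five {G : SimpleGraph V} {v : V} (h5 : (k5N G v).card = 5)
    (h3 : ∀ u, G.Adj v u → 3 ≤ (k5N G v ∩ k5N G u).card) : ∃ D, M5 G D := by
  have hadj : ∀ u a b, u ∈ k5N G v → a ∈ k5N G v → b ∈ k5N G v → u ≠ a → u ≠ b → a ≠ b →
      ¬ G.Adj u a → G.Adj u b := by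
    intro u a b hu ha hb hua hub hab hn
    by_contra hn'
    have h6 : k5N G v ∩ k5N G u ⊆ (((k5N G v).erase u).erase a).erase b := by
      intro z hz
      rw [Finset.mem_inter] at hz
      rw [Finset.mem_erase, Finset.mem_erase, Finset.mem_erase]
      refine ⟨fun h => hn' (h ▸ mem_k5N.1 hz.2), fun h => hn (h ▸ mem_k5N.1 hz.2),
        fun h => ?_, hz.1⟩
      exact (mem_k5N.1 hz.2).ne h.symm
    have h7 := Finset.card_le_card h6
    rw [Finset.card_erase_of_mem (Finset.mem_erase.2 ⟨hab.symm,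
        Finset.mem_erase.2 ⟨hub.symm, hb⟩⟩),
      Finset.card_erase_of_mem (Finset.mem_erase.2 ⟨hua.symm, ha⟩),
      Finset.card_erase_of_mem hu] at h7
    have := h3 u (mem_k5N.1 hu)
    omega
  by_cases hall : ∀ a b, a ∈ k5N G v → b ∈ k5N G v → a ≠ b → G.Adj a b
  · obtain ⟨a, s, ha, hs, hs4⟩ := Finset.card_eq_succ.1 h5
    obtain ⟨b, c, d, hbc, hbd, hcd, hsub⟩ : ∃ b c d, b ≠ c ∧ b ≠ d ∧ c ≠ d ∧
        ∀ u, u = b ∨ u = c ∨ u = d → u ∈ s := by
      obtain ⟨t, ht, ht3⟩ := Finset.exists_subset_card_eq (s := s) (n := 3) (by omega)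
      obtain ⟨b, c, d, hbc, hbd, hcd, rfl⟩ := Finset.card_eq_three.1 ht3
      exact ⟨b, c, d, hbc, hbd, hcd, fun u hu => ht (by simpa using hu)⟩
    have sb := hsub b (Or.inl rfl)
    have sc := hsub c (Or.inr (Or.inl rfl))
    have sd := hsub d (Or.inr (Or.inr rfl))
    have ma : a ∈ k5N G v := hs ▸ Finset.mem_insert_self _ _
    have mb : b ∈ k5N G v := hs ▸ Finset.mem_insert_of_mem sb
    have mc : c ∈ k5N G v := hs ▸ Finset.mem_insert_of_mem sc
    have md : d ∈ k5N G v := hs ▸ Finset.mem_insert_of_mem sd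
    have nab : a ≠ b := fun h => ha (h ▸ sb)
    have nac : a ≠ c := fun h => ha (h ▸ sc)
    have nad : a ≠ d := fun h => ha (h ▸ sd)
    exact k5_single (mem_k5N.1 ma) (mem_k5N.1 mb) (mem_k5N.1 mc) (mem_k5N.1 md)
      (hall a b ma mb nab) (hall a c ma mc nac) (hall a d ma md nad)
      (hall b c mb mc hbc) (hall b d mb md hbd) (hall c d mc md hcd)
  · push Not at hall
    obtain ⟨w, r, hw, hr, hwr, hn⟩ := hall
    have h6 : (((k5N G v).erase w).erase r).card = 3 := by
      rw [Finset.card_erase_of_mem (Finset.mem_erase.2 ⟨hwr.symm, hr⟩),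
        Finset.card_erase_of_mem hw, h5]
    obtain ⟨p, q, s, hpq, hps, hqs, he⟩ := Finset.card_eq_three.1 h6
    have m : ∀ u, u = p ∨ u = q ∨ u = s → u ≠ r ∧ u ≠ w ∧ u ∈ k5N G v := by
      intro u hu
      have : u ∈ (((k5N G v).erase w).erase r) := by
        rw [he]
        simpa using hu
      rwa [Finset.mem_erase, Finset.mem_erase] at this
    have hn' : ¬ G.Adj r w := fun h => hn h.symm
    have F : ∀ u, u = p ∨ u = q ∨ u = s → G.Adj v u ∧ G.Adj w u ∧ G.Adj r u := by
      intro u hu
      obtain ⟨h1, h2, h3⟩ := m u hu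
      exact ⟨mem_k5N.1 h3, hadj w r u hw hr h3 hwr h2.symm h1.symm hn,
        hadj r w u hr hw h3 hwr.symm h1.symm h2.symm hn'⟩
    have Fp := F p (Or.inl rfl)
    have Fq := F q (Or.inr (Or.inl rfl))
    have Fs := F s (Or.inr (Or.inr rfl))
    have mp := (m p (Or.inl rfl)).2.2
    have mq := (m q (Or.inr (Or.inl rfl))).2.2
    have ms := (m s (Or.inr (Or.inr rfl))).2.2
    have hvw := mem_k5N.1 hw
    have hvr := mem_k5N.1 hr
    by_cases h1 : G.Adj p q
    · by_cases h2 : G.Adj q s
      · -- middle q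
        exact k5_fan hvw hvr Fp.1 Fq.1 Fs.1 hwr Fp.2.1 Fq.2.1 Fs.2.1 Fp.2.2 Fq.2.2 Fs.2.2
          h1.symm h2 hps
      · -- middle p
        have h3' : G.Adj s p := hadj s q p ms mq mp hqs.symm hps.symm hpq.symm
          (fun h => h2 h.symm)
        exact k5_fan hvw hvr Fq.1 Fp.1 Fs.1 hwr Fq.2.1 Fp.2.1 Fs.2.1 Fq.2.2 Fp.2.2 Fs.2.2
          h1 h3'.symm hqs
    · -- middle s
      have h2 : G.Adj p s := hadj p q s mp mq ms hpq hps hqs h1
      have h3' : G.Adj q s := hadj q p s mq mp ms hpq.symm hqs hps (fun h => h1 h.symm)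
      exact k5_fan hvw hvr Fp.1 Fs.1 Fq.1 hwr Fp.2.1 Fs.2.1 Fq.2.1 Fp.2.2 Fs.2.2 Fq.2.2
        h2.symm h3'.symm hpq

open Classical in
theorem k5_main : ∀ (n : ℕ) (G : SimpleGraph V) (W : Finset V), (∀ a b, G.Adj a b → a ∈ W) →
    W.card = n → 3 ≤ n → (¬ ∃ D, M5 G D) → k5S G + 12 ≤ 6 * n := by
  intro n
  induction n with
  | zero => intro _ _ _ _ h3; omega
  | succ n ih =>
    intro G W hW hn h3 hG
    by_cases hn4 : n + 1 ≤ 4
    · -- at most four vertices
      have h1 : ∀ v, (k5N G v).card ≤ if v ∈ W then n else 0 := by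
        intro v
        split_ifs with hv
        · have h2 : k5N G v ⊆ W.erase v := by
            intro u hu
            rw [mem_k5N] at hu
            exact Finset.mem_erase.2 ⟨hu.ne', hW u v hu.symm⟩
          have := Finset.card_le_card h2
          rw [Finset.card_erase_of_mem hv, hn] at this
          simpa using this
        · have h2 : k5N G v = ∅ := by
            rw [Finset.eq_empty_iff_forall_notMem]
            intro u hu
            exact hv (hW v u (mem_k5N.1 hu))
          rw [h2]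
          simp
      have h2 : k5S G ≤ (n + 1) * n := by
        calc k5S G ≤ ∑ v, (if v ∈ W then n else 0) := Finset.sum_le_sum fun v _ => h1 v
          _ = (n + 1) * n := by
              rw [Finset.sum_ite_mem, Finset.univ_inter, Finset.sum_const, hn, smul_eq_mul]
      have h5 : n = 2 ∨ n = 3 := by omega
      rcases h5 with rfl | rfl <;> omega
    · by_contra hlt
      push Not at hlt
      obtain ⟨G', hG'le, hG'⟩ := k5_sub G (3 * (n + 1) - 5) (by
        have := k5S_eq G
        omega)
      have hGm : ¬ ∃ D, M5 G' D := by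
        rintro ⟨D, hD⟩
        exact hG ⟨D, hD.mono hG'le⟩
      have hW' : ∀ a b, G'.Adj a b → a ∈ W := fun a b hab => hW a b (hG'le hab)
      -- degrees
      have hdeg : ∀ v ∈ W, 4 ≤ (k5N G' v).card := by
        intro v hv
        by_contra hlt4
        push Not at hlt4
        have h1 := ih (k5Del G' v) (W.erase v)
          (fun a b (hab : (k5Del G' v).Adj a b) =>
            Finset.mem_erase.2 ⟨hab.2.1, hW' a b hab.1⟩)
          (by rw [Finset.card_erase_of_mem hv, hn]; rfl) (by omega)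
          (by
            rintro ⟨D, hD⟩
            exact hGm ⟨D, hD.mono (show k5Del G' v ≤ G' from fun a b hab => hab.1)⟩)
        have h2 := k5S_del G' v
        omega
      -- triangles
      have htri : ∀ x y, G'.Adj x y → 3 ≤ (k5N G' x ∩ k5N G' y).card := by
        intro x y hxy
        by_contra hlt3
        push Not at hlt3
        have hy : y ∈ W := hW' y x hxy.symm
        have h1 := ih (k5Con G' x y) (W.erase y)
          (fun a b (hab : (k5Con G' x y).Adj a b) => Finset.mem_erase.2 ⟨hab.2.1, by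
            rcases hab.2.2.2 with h | ⟨h, _⟩ | ⟨_, h⟩
            · exact hW' a b h
            · rw [h]; exact hW' x y hxy
            · exact hW' a y h.symm⟩)
          (by rw [Finset.card_erase_of_mem hy, hn]; rfl) (by omega)
          (by
            rintro ⟨D, hD⟩
            exact hGm (k5_contract (G2 := k5Con G' x y) hxy (fun a b hab => hab.2.2.2)
              (fun a b hab => hab.2.1) hD))
        have h2 := k5S_con G' hxy
        omega
      -- a vertex of small degree
      obtain ⟨v, hv, hv5⟩ : ∃ v ∈ W, (k5N G' v).card ≤ 5 := by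
        by_contra hno
        push Not at hno
        have h1 : 6 * (n + 1) ≤ k5S G' := by
          calc 6 * (n + 1) = ∑ v ∈ W, 6 := by rw [Finset.sum_const, hn, smul_eq_mul, mul_comm]
            _ ≤ ∑ v ∈ W, (k5N G' v).card := Finset.sum_le_sum fun v hv => hno v hv
            _ ≤ k5S G' := Finset.sum_le_sum_of_subset (Finset.subset_univ W)
        omega
      have hv4 := hdeg v hv
      have h5 : (k5N G' v).card = 4 ∨ (k5N G' v).card = 5 := by omega
      rcases h5 with h5 | h5
      · exact hGm (k5_four h5 fun u hu => htri v u hu)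
      · exact hGm (k5_five h5 fun u hu => htri v u hu)

end K5E

theorem k5edge {V : Type} [Fintype V] (G : SimpleGraph V) (h3 : 3 ≤ Fintype.card V)
    (h : ¬ ∃ D, M5 G D) : es G + 12 ≤ 6 * Fintype.card V := by
  rw [es_eq_k5S]
  exact k5_main (Fintype.card V) G Finset.univ (fun a b _ => Finset.mem_univ a) Finset.card_univ
    h3 h

end Pool.Agent.LR5
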