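import Pool.Agent.LR5.Defs

/-!
LR5, a non-separating vertex with an outside neighbour.

`Z` connected, `r ∈ Z`, `Z ≠ {r}`, `S` a set of at most two vertices outside `Z`, and there is a vertex
outside `Z ∪ S`.  Then there is `v ∈ Z`, `v ≠ r`, with `Z \ {v}` connected and a neighbour
`o ∉ Z ∪ S`.

Proof.  For `u ∈ Z`, `u ≠ r`, let `R u` be the component of `r` in `Z \ {u}` (lemma `LG6.comp`) and
`P u := Z \ R u`, so `u ∈ P u`.  `R u` is connected, contains `r`, and `R u ∪ {u}` is connected (an edge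
leaves `R u` inside the connected set `Z`, `Cn.exit`, and it can only go to `u`).
No edge joins `R u` and `P u \ {u}`.
Let `U` be the set of `u ∈ Z`, `u ≠ r`, having a neighbour outside `Z ∪ S`.  `U` is not empty:
`exit4` with `X := insert r S` (at most three) and `C := Z \ {r}`.
Choose `u ∈ U` with `(P u).ncard` minimal.  If `P u = {u}` then `Z \ {u} = R u` is connected: done.
Otherwise apply `exit4` with `X := insert u S`, `C := P u \ {u}`: an edge from `u' ∈ P u \ {u}` to a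
vertex outside `P u ∪ S`; it is not in `R u`, so it is outside `Z ∪ S`, and `u' ∈ U` (`u' ≠ r` as
`r ∈ R u`).  `R u ∪ {u}` is a connected subset of `Z \ {u'}` containing `r`, so it is contained in
`R u'`; hence `P u' ⊆ P u \ {u}`, contradicting minimality.
-/

set_option autoImplicit false

namespace Pool.Agent.LR5

open Pool.Agent.LG6

variable {V : Type} {G : SimpleGraph V}

theorem last [Fintype V] (hJ : IsKConnected 4 G) (Z : Set V) (hZ : Cn G Z) (r : V) (hr : r ∈ Z)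
    (hne : Z ≠ {r}) (S : Finset V) (hS : S.card ≤ 2) (hSZ : ∀ s ∈ S, s ∉ Z)
    (hO : ∃ o, o ∉ Z ∧ o ∉ S) :
    ∃ v ∈ Z, v ≠ r ∧ Cn G (Z \ {v}) ∧ ∃ o, o ∉ Z ∧ o ∉ S ∧ G.Adj v o := by
  classical
  obtain ⟨o, hoZ, hoS⟩ := hO
  obtain ⟨g0, hg0Z, hg0r⟩ : ∃ g ∈ Z, g ≠ r := by
    by_contra hcon
    push Not at hcon
    apply hne
    apply Set.Subset.antisymm
    · intro g hg
      exact hcon g hg
    · exact Set.singleton_subset_iff.2 hr
  have hcard : ∀ u : V, (insert u S).card ≤ 3 := fun u =>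
    (Finset.card_insert_le _ _).trans (by omega)
  -- candidates
  set 𝒞 : Set (V × Set V) := {q | q.1 ∈ Z ∧ q.1 ≠ r ∧ q.2 ⊆ Z \ {q.1} ∧ r ∈ q.2 ∧ Cn G q.2 ∧
    (∀ g ∈ q.2, ∀ h ∈ Z \ {q.1}, G.Adj g h → h ∈ q.2) ∧ ∃ o, o ∉ Z ∧ o ∉ S ∧ G.Adj q.1 o} with h𝒞
  have hcand : ∀ u ∈ Z, u ≠ r → (∃ o, o ∉ Z ∧ o ∉ S ∧ G.Adj u o) → ∃ D, (u, D) ∈ 𝒞 := by
    intro u hu hur ho
    obtain ⟨D, h1, h2, h3, h4⟩ := comp G (Z \ {u}) r ⟨hr, fun h => hur h.symm⟩
    exact ⟨D, hu, hur, h1, h2, h3, h4, ho⟩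
  have hne𝒞 : 𝒞.Nonempty := by
    obtain ⟨u, w, hu, hw, huX, hwX, hadj⟩ := exit4 hJ (insert r S) (hcard r) (C := Z \ {r})
      (g := g0) (h := o) ⟨hg0Z, hg0r⟩
      (fun h => by
        rcases Finset.mem_insert.1 h with h | h
        · exact hg0r h
        · exact hSZ _ h hg0Z)
      (fun h => hoZ h.1)
      (fun h => by
        rcases Finset.mem_insert.1 h with h | h
        · exact hoZ (h ▸ hr)
        · exact hoS h)
    have hwr : w ≠ r := fun h => hwX (by rw [h]; exact Finset.mem_insert_self _ _)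
    obtain ⟨D, hD⟩ := hcand u hu.1 hu.2
      ⟨w, fun h => hw ⟨h, hwr⟩, fun h => hwX (Finset.mem_insert_of_mem h), hadj⟩
    exact ⟨(u, D), hD⟩
  obtain ⟨⟨u, D⟩, ⟨hu, hur, hDZ, hrD, hDc, hcl, ho⟩, hmin⟩ :=
    Set.exists_min_image 𝒞 (fun q => (Z \ q.2).ncard) (Set.toFinite _) hne𝒞
  simp only at hu hur hDZ hrD hDc hcl ho
  have huD : u ∉ D := fun h => (hDZ h).2 rfl
  refine ⟨u, hu, hur, ?_, ho⟩
  by_cases hP : Z \ {u} ⊆ D
  · rw [← Set.Subset.antisymm hDZ hP]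
    exact hDc
  exfalso
  obtain ⟨g, ⟨hgZ, hgu⟩, hgD⟩ := Set.not_subset.1 hP
  have hgu' : g ≠ u := hgu
  obtain ⟨u', w, hu', hw, hu'X, hwX, hadj⟩ := exit4 hJ (insert u S) (hcard u)
    (C := (Z \ D) \ {u}) (g := g) (h := o) ⟨⟨hgZ, hgD⟩, hgu⟩
    (fun h => by
      rcases Finset.mem_insert.1 h with h | h
      · exact hgu' h
      · exact hSZ _ h hgZ)
    (fun h => hoZ h.1.1)
    (fun h => by
      rcases Finset.mem_insert.1 h with h | h
      · exact hoZ (h ▸ hu)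
      · exact hoS h)
  have hu'u : u' ≠ u := hu'.2
  have hwu : w ≠ u := fun h => hwX (by rw [h]; exact Finset.mem_insert_self _ _)
  have hwZ : w ∉ Z := by
    intro hwZ
    have hwD : w ∈ D := by
      by_contra hwD
      exact hw ⟨⟨hwZ, hwD⟩, hwu⟩
    exact hu'.1.2 (hcl w hwD u' ⟨hu'.1.1, hu'u⟩ hadj.symm)
  have hu'r : u' ≠ r := fun h => hu'.1.2 (h ▸ hrD)
  obtain ⟨D', hD'⟩ := hcand u' hu'.1.1 hu'r
    ⟨w, hwZ, fun h => hwX (Finset.mem_insert_of_mem h), hadj⟩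
  obtain ⟨-, -, hD'Z, hrD', hD'c, hcl', -⟩ := hD'
  simp only at hD'Z hrD' hD'c hcl'
  -- `D ∪ {u}` is connected
  obtain ⟨a, b, -, hb, hab, haD, hbD⟩ := hZ.exit (P := D) ⟨r, hr, hrD⟩ ⟨u, hu, huD⟩
  have hbu : b = u := by
    by_contra h
    exact hbD (hcl a haD b ⟨hb, h⟩ hab)
  subst hbu
  have hins : Cn G (insert b D) := Cn.insert hDc ⟨a, haD, hab.symm⟩
  have hsub : insert b D ⊆ D' := by
    intro z hz
    by_contra hzD'
    obtain ⟨c, d, -, hd, hcd, hcD', hdD'⟩ := hins.exit (P := D')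
      ⟨r, Set.mem_insert_of_mem _ hrD, hrD'⟩ ⟨z, hz, hzD'⟩
    apply hdD'
    apply hcl' c hcD' d _ hcd
    rcases hd with rfl | hd
    · exact ⟨hu, fun h => hu'u (Set.mem_singleton_iff.1 h).symm⟩
    · exact ⟨(hDZ hd).1, fun h => hu'.1.2 ((Set.mem_singleton_iff.1 h) ▸ hd)⟩
  have hlt : (Z \ D').ncard < (Z \ D).ncard := by
    apply Set.ncard_lt_ncard _ (Set.toFinite _)
    refine ⟨fun z hz => ⟨hz.1, fun h => hz.2 (hsub (Set.mem_insert_of_mem _ h))⟩, ?_⟩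
    intro hcon
    exact (hcon ⟨hu, huD⟩).2 (hsub (Set.mem_insert _ _))
  have h5 := hmin (u', D') ⟨hu'.1.1, hu'r, hD'Z, hrD', hD'c, hcl',
    ⟨w, hwZ, fun h => hwX (Finset.mem_insert_of_mem h), hadj⟩⟩
  exact absurd hlt (not_lt.2 h5)

end Pool.Agent.LR5
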