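import Pool.Agent.LR5.App

/-!
LR5, Lemma U: no vertex `u` other than `v`, `p` is adjacent to three common neighbours of the adjacent
vertices `v`, `p`, if these have at least four common neighbours.

Proof.  `app1`: `trim G v p` has no `K₃,₃` model avoiding `p`.  The six vertices
`p, v, u, q1, q2, q3` are different.  `G` has at least seven vertices; let `X` be a component of the rest
(`LG6.comp`).  The set `N` of the vertices outside `X` with a neighbour in `X` is contained in the six; if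
one of the six, `s`, is not in `N`, then deleting `N` (at most five vertices) separates `X` from `s`,
against 6-connectivity (`LG6.cross` applied to the connected set `Nᶜ`).  So `X` is adjacent to
`q1, q2, q3`.  The model (`mk33`) in `trim G v p`: side A `{v}`, `{u}`, `X`; side B `{q1}`, `{q2}`, `{q3}`
(`trim_adj`, `trim_adj_of_ne`, `cn_trim`).
-/

set_option autoImplicit false

namespace Pool.Agent.LR5

open Pool.Agent.LG6

variable {V : Type} [Fintype V]

theorem lemU {G : SimpleGraph V} (hG : IsKConnected 6 G) (hm : ¬ HasCompleteMinor 6 G) (v p : V)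
    (hvp : G.Adj v p) (Q : Finset V) (hQ : 4 ≤ Q.card) (hQ' : ∀ q ∈ Q, G.Adj v q ∧ G.Adj p q)
    (u : V) (huv : u ≠ v) (hup : u ≠ p) (q1 q2 q3 : V) (h1 : q1 ∈ Q) (h2 : q2 ∈ Q) (h3 : q3 ∈ Q)
    (h12 : q1 ≠ q2) (h13 : q1 ≠ q3) (h23 : q2 ≠ q3) (u1 : G.Adj u q1) (u2 : G.Adj u q2)
    (u3 : G.Adj u q3) : False := by
  classical
  refine (app1 hG hm v p hvp Q hQ hQ').2 ?_
  have hv1 := (hQ' q1 h1).1
  have hv2 := (hQ' q2 h2).1
  have hv3 := (hQ' q3 h3).1
  have hp1 := (hQ' q1 h1).2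
  have hp2 := (hQ' q2 h2).2
  have hp3 := (hQ' q3 h3).2
  set T : Finset V := {p, v, u, q1, q2, q3} with hT
  have hTc : T.card ≤ 6 := Finset.card_le_six
  obtain ⟨d, hd⟩ : ∃ d, d ∉ T := by
    by_contra h
    push Not at h
    have h' := Finset.card_le_card (fun x _ => h x : (Finset.univ : Finset V) ⊆ T)
    rw [Finset.card_univ] at h'
    have := hG.1
    omega
  obtain ⟨D, hDT, hdD, hDc, hDcl⟩ := comp G ((↑T : Set V)ᶜ) d (fun h => hd (Finset.mem_coe.1 h))
  have hDn : ∀ x ∈ T, x ∉ D := fun x hx hxD => hDT hxD (Finset.mem_coe.2 hx)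
  have att : ∀ s ∈ T, ∃ g ∈ D, G.Adj g s := by
    intro s hs
    have hc : (T.erase s).card < 6 := by
      have := Finset.card_erase_lt_of_mem hs
      omega
    obtain ⟨g, h, -, hh, hgh, hgD, hhD⟩ := cross (hG.2 (T.erase s) hc) D (e := d) (f := s)
      (fun h' => hd (Finset.mem_of_mem_erase (Finset.mem_coe.1 h')))
      (fun h' => Finset.notMem_erase s T (Finset.mem_coe.1 h')) hdD (hDn s hs)
    by_cases hhs : h = s
    · subst hhs
      exact ⟨g, hgD, hgh⟩
    · exfalso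
      have hhT : h ∉ T := fun h' => hh (Finset.mem_coe.2 (Finset.mem_erase.2 ⟨hhs, h'⟩))
      exact hhD (hDcl g hgD h (fun h' => hhT (Finset.mem_coe.1 h')) hgh)
  have mp : p ∈ T := by simp [hT]
  have mv : v ∈ T := by simp [hT]
  have mu : u ∈ T := by simp [hT]
  have m1 : q1 ∈ T := by simp [hT]
  have m2 : q2 ∈ T := by simp [hT]
  have m3 : q3 ∈ T := by simp [hT]
  have adD : ∀ q ∈ T, q ≠ v → Ad (trim G v p) D {q} := by
    intro q hq hqv
    obtain ⟨g, hg, hgq⟩ := att q hq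
    exact ⟨g, hg, q, rfl, trim_adj_of_ne hgq (fun h => hDn v mv (h ▸ hg)) hqv⟩
  have sg : ∀ a b : V, a ≠ b → Disjoint ({a} : Set V) {b} := fun a b h =>
    Set.disjoint_singleton.2 h
  have sD : ∀ a ∈ T, Disjoint D ({a} : Set V) := fun a ha =>
    Set.disjoint_singleton_right.2 (hDn a ha)
  have hm33 : M33 (trim G v p) ![{v}, {u}, D] ![{q1}, {q2}, {q3}] := by
    refine mk33 (cn_single _ v) (cn_single _ u) (cn_trim hDc (hDn v mv)) (cn_single _ q1)
      (cn_single _ q2) (cn_single _ q3) (sg _ _ huv.symm) (sD v mv).symm (sD u mu).symm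
      (sg _ _ h12) (sg _ _ h13) (sg _ _ h23)
      (sg _ _ hv1.ne) (sg _ _ hv2.ne) (sg _ _ hv3.ne)
      (sg _ _ u1.ne) (sg _ _ u2.ne) (sg _ _ u3.ne)
      (sD _ m1) (sD _ m2) (sD _ m3)
      ⟨v, rfl, q1, rfl, trim_adj hv1 hp1⟩ ⟨v, rfl, q2, rfl, trim_adj hv2 hp2⟩
      ⟨v, rfl, q3, rfl, trim_adj hv3 hp3⟩
      ⟨u, rfl, q1, rfl, trim_adj_of_ne u1 huv hv1.ne'⟩
      ⟨u, rfl, q2, rfl, trim_adj_of_ne u2 huv hv2.ne'⟩
      ⟨u, rfl, q3, rfl, trim_adj_of_ne u3 huv hv3.ne'⟩
      (adD _ m1 hv1.ne') (adD _ m2 hv2.ne') (adD _ m3 hv3.ne')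
  refine ⟨_, _, hm33, ?_, ?_⟩
  · intro i
    fin_cases i
    · exact sg _ _ hvp.ne
    · exact sg _ _ hup
    · exact sD _ mp
  · intro i
    fin_cases i
    · exact sg _ _ hp1.ne'
    · exact sg _ _ hp2.ne'
    · exact sg _ _ hp3.ne'

end Pool.Agent.LR5
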