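import Pool.Agent.LR5.Shrink33

/-!
LR5: normal form.  A `K₃,₃` model with `{x}` a branch set gives a `Tri`.

Proof.  `shrink33` with `Fz := {0}`, `k := 1` gives a model with `A 0 = {x}`, `A 1 = {a1}`; then
`shrink33` with `Fz := {0, 1}`, `k := 2` gives a spanning model with `A 0 = {x}`, `A 1 = {a1}`,
`A 2 = {a2}`, which is a `Tri`.
-/

set_option autoImplicit false

namespace Pool.Agent.LR5

open Pool.Agent.LG6

variable {V : Type} {G : SimpleGraph V}

theorem norm [Fintype V] (hJ : IsKConnected 4 G) (x : V) (h : Has33 G x) :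
    ∃ a1 a2 B, Tri G x a1 a2 B := by
  obtain ⟨A, B, hM, hA0⟩ := h
  obtain ⟨A1, B1, hM1, -, hf1, a1, ha1⟩ := shrink33 hJ A B hM 1 {0} (by simp) (fun _ => x) (by
    intro i hi
    rw [Finset.mem_singleton] at hi
    rw [hi, hA0])
  have hx1 : A1 0 = {x} := by rw [hf1 0 (by simp), hA0]
  obtain ⟨A2, B2, hM2, hS, hf2, a2, ha2⟩ := shrink33 hJ A1 B1 hM1 2 {0, 1} (by decide)
    (fun i => if i = 0 then x else a1) (by
    intro i hi
    rw [Finset.mem_insert, Finset.mem_singleton] at hi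
    rcases hi with rfl | rfl
    · rw [if_pos rfl, hx1]
    · rw [if_neg (by decide), ha1])
  have hx : A2 0 = {x} := by rw [hf2 0 (by simp), hx1]
  have h1 : A2 1 = {a1} := by rw [hf2 1 (by simp), ha1]
  have hne : ∀ (i j : Fin 3) (u v : V), i ≠ j → A2 i = {u} → A2 j = {v} → u ≠ v := by
    rintro i j u v hij hu hv rfl
    have h3 := hM2.da i j hij
    rw [hu, hv] at h3
    exact Set.disjoint_left.1 h3 rfl rfl
  have hnb : ∀ (i j : Fin 3) (u : V), A2 i = {u} → u ∉ B2 j := by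
    intro i j u hu hb
    have h3 := hM2.dab i j
    rw [hu] at h3
    exact Set.disjoint_left.1 h3 rfl hb
  have had : ∀ (i j : Fin 3) (u : V), A2 i = {u} → ∃ b ∈ B2 j, G.Adj u b := by
    intro i j u hu
    obtain ⟨s, hs, t, ht, h3⟩ := hM2.ad i j
    rw [hu, Set.mem_singleton_iff] at hs
    exact ⟨t, ht, hs ▸ h3⟩
  refine ⟨a1, a2, B2, hne 0 1 _ _ (by decide) hx h1, hne 0 2 _ _ (by decide) hx ha2,
    hne 1 2 _ _ (by decide) h1 ha2, hM2.cb, fun i => hnb 0 i _ hx, fun i => hnb 1 i _ h1,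
    fun i => hnb 2 i _ ha2, hM2.db, fun i => had 0 i _ hx, fun i => had 1 i _ h1,
    fun i => had 2 i _ ha2, ?_⟩
  intro v
  rcases hS v with ⟨i, hi⟩ | h3
  · fin_cases i
    · exact Or.inl (by simpa [hx] using hi)
    · exact Or.inr (Or.inl (by simpa [h1] using hi))
    · exact Or.inr (Or.inr (Or.inl (by simpa [ha2] using hi)))
  · exact Or.inr (Or.inr (Or.inr h3))

end Pool.Agent.LR5
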