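import Pool.Agent.LR5.Dich

/-!
LR5, step 1: `x` adjacent to `y`, spanning `K₃,₃` model with `A 0 = {y}` and `x ∈ B 0`.
Then there is a `K₃,₃` model with `{x}` a branch set.

Proof.  Among the spanning models with `A 0 = {y}` and `x ∈ B 0` take one with `(B 0).ncard` minimal,
`Z := B 0`.  If `Z = {x}`: use `M33.swap`.  Otherwise apply `dich` with `k := 2`, `Q := ![A 1, A 2]`.
Hypothesis `H`: let `v ∈ Z`, `v ≠ x`, `Z \ {v}` connected, `v` adjacent to `o ∉ Z`, `o ≠ y`.
`Z \ {v}` contains `x`, so it is adjacent to `{y} = A 0`.  `o` lies in `A 1`, `A 2`, `B 1` or `B 2`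
(spanning).  Move `v` to that part; by minimality the result is not a model; if `v` was moved to
`B 1` or `B 2`, then `Z \ {v}` is not adjacent to `A 1` or not to `A 2`; if it was moved to `A i`
(`i = 1, 2`), then `Z \ {v}` is adjacent to `A i ∪ {v}`, so it is not adjacent to the other one.  So
`¬ Ad G (Z \ {v}) (A j)` for some `j` in `{1, 2}`; then `v` is adjacent to `A j` (as `Ad G Z (A j)`);
move `v` to `A j`: not a model, so `Z \ {v}` is not adjacent to the other one either.
Conclusion of `dich`: `K := Z \ {x}` is connected, `x` has a neighbour `o ∉ Z ∪ {y}`, and some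
`v ∈ Z`, `v ≠ x` is the only contact of `Z` with `A 1` and with `A 2`.  So `x` has no neighbour in `A 1`,
`A 2`, so `o ∈ B 1` or `o ∈ B 2`; say `B 1` (otherwise exchange).  New model (`mk33`):
side A `{x}`, `A 1`, `A 2`; side B `K`, `B 1`, `{y} ∪ B 2`.
(`{x}`–`K`: `Z` is connected.  `A 1`–`K`, `A 2`–`K`: through `v`.  `{y}`–`B 2` adjacent, so the union is
connected.  `x`–`y` adjacent.)
-/

set_option autoImplicit false

namespace Pool.Agent.LR5

open Pool.Agent.LG6

variable {V : Type} {G : SimpleGraph V}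

theorem so_edge {Z : Set V} (hZ : Cn G Z) {v : V} (hv : v ∈ Z) (hne : (Z \ {v}).Nonempty) :
    Ad G {v} (Z \ {v}) := by
  obtain ⟨g, h, hg, hh, hgh, hgv, hhv⟩ := hZ.exit (P := {v}) ⟨v, hv, rfl⟩ hne
  exact ⟨g, hgv, h, ⟨hh, hhv⟩, hgh⟩

/-- move `v` from `B 0` to `A i` -/
theorem so_moveA {A B : Fin 3 → Set V} (h : M33 G A B) (i : Fin 3) {v : V} (hv : v ∈ B 0)
    (hc : Cn G (B 0 \ {v})) (hvi : ∃ s ∈ A i, G.Adj v s)
    (hadj : ∀ i', i' ≠ i → Ad G (A i') (B 0 \ {v})) :
    M33 G (Function.update A i (insert v (A i))) (Function.update B 0 (B 0 \ {v})) := by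
  have hvA : ∀ k, v ∉ A k := fun k hk => Set.disjoint_left.1 (h.dab k 0) hk hv
  have hvB : ∀ k, k ≠ 0 → v ∉ B k := fun k hk0 hk => Set.disjoint_left.1 (h.db k 0 hk0) hk hv
  have hsub : ∀ k, (Function.update B 0 (B 0 \ {v})) k ⊆ B k := by
    intro k
    by_cases hk : k = 0
    · subst hk; rw [Function.update_self]; exact Set.sdiff_subset
    · rw [Function.update_of_ne hk]
  have hvB' : ∀ k, v ∉ (Function.update B 0 (B 0 \ {v})) k := by
    intro k
    by_cases hk : k = 0
    · subst hk; rw [Function.update_self]; exact fun h' => h'.2 rfl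
    · rw [Function.update_of_ne hk]; exact hvB k hk
  have hsup : ∀ k, A k ⊆ (Function.update A i (insert v (A i))) k := by
    intro k
    by_cases hk : k = i
    · subst hk; rw [Function.update_self]; exact Set.subset_insert _ _
    · rw [Function.update_of_ne hk]
  have hins : ∀ k, (Function.update A i (insert v (A i))) k ⊆ insert v (A k) := by
    intro k
    by_cases hk : k = i
    · subst hk; rw [Function.update_self]
    · rw [Function.update_of_ne hk]; exact Set.subset_insert _ _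
  refine ⟨?_, ?_, ?_, ?_, ?_, ?_⟩
  · intro k
    by_cases hk : k = i
    · subst hk; rw [Function.update_self]; exact (h.ca k).insert hvi
    · rw [Function.update_of_ne hk]; exact h.ca k
  · intro k
    by_cases hk : k = 0
    · subst hk; rw [Function.update_self]; exact hc
    · rw [Function.update_of_ne hk]; exact h.cb k
  · intro k l hkl
    by_cases hk : k = i
    · subst hk
      rw [Function.update_self, Function.update_of_ne (Ne.symm hkl)]
      rw [Set.disjoint_left]
      rintro u (rfl | hu) hu'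
      · exact hvA l hu'
      · exact Set.disjoint_left.1 (h.da k l hkl) hu hu'
    · rw [Function.update_of_ne hk]
      rw [Set.disjoint_left]
      intro u hu hu'
      rcases hins l hu' with rfl | hu'
      · exact hvA k hu
      · exact Set.disjoint_left.1 (h.da k l hkl) hu hu'
  · intro k l hkl
    exact (h.db k l hkl).mono (hsub k) (hsub l)
  · intro k l
    rw [Set.disjoint_left]
    intro u hu hu'
    rcases hins k hu with rfl | hu
    · exact hvB' l hu'
    · exact Set.disjoint_left.1 (h.dab k l) hu (hsub l hu')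
  · intro k l
    by_cases hl : l = 0
    · subst hl
      rw [Function.update_self]
      by_cases hk : k = i
      · subst hk
        rw [Function.update_self]
        exact (so_edge (h.cb 0) hv hc.ne).mono
          (Set.singleton_subset_iff.2 (Set.mem_insert _ _)) (subset_refl _)
      · rw [Function.update_of_ne hk]; exact hadj k hk
    · rw [Function.update_of_ne hl]
      exact (h.ad k l).mono (hsup k) (subset_refl _)

/-- move `v` from `B 0` to `B j` -/
theorem so_moveB {A B : Fin 3 → Set V} (h : M33 G A B) (j : Fin 3) (hj : j ≠ 0) {v : V}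
    (hv : v ∈ B 0) (hc : Cn G (B 0 \ {v})) (hvj : ∃ s ∈ B j, G.Adj v s)
    (hadj : ∀ i', Ad G (A i') (B 0 \ {v})) :
    M33 G A (Function.update (Function.update B j (insert v (B j))) 0 (B 0 \ {v})) := by
  set B' : Fin 3 → Set V :=
    Function.update (Function.update B j (insert v (B j))) 0 (B 0 \ {v}) with hB'
  have e0 : B' 0 = B 0 \ {v} := by rw [hB', Function.update_self]
  have ej : B' j = insert v (B j) := by
    rw [hB', Function.update_of_ne hj, Function.update_self]
  have ek : ∀ k, k ≠ 0 → k ≠ j → B' k = B k := by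
    intro k h0 h1
    rw [hB', Function.update_of_ne h0, Function.update_of_ne h1]
  have hvA : ∀ k, v ∉ A k := fun k hk => Set.disjoint_left.1 (h.dab k 0) hk hv
  have hvB : ∀ k, k ≠ 0 → v ∉ B k := fun k hk0 hk => Set.disjoint_left.1 (h.db k 0 hk0) hk hv
  have hins : ∀ k, B' k ⊆ insert v (B k) := by
    intro k
    by_cases h0 : k = 0
    · subst h0; rw [e0]; exact fun u hu => Set.mem_insert_of_mem _ hu.1
    · by_cases h1 : k = j
      · subst h1; rw [ej]
      · rw [ek k h0 h1]; exact Set.subset_insert _ _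
  have hvB' : ∀ k, k ≠ j → v ∉ B' k := by
    intro k hk
    by_cases h0 : k = 0
    · subst h0; rw [e0]; exact fun h' => h'.2 rfl
    · rw [ek k h0 hk]; exact hvB k h0
  refine ⟨h.ca, ?_, h.da, ?_, ?_, ?_⟩
  · intro k
    by_cases h0 : k = 0
    · subst h0; rw [e0]; exact hc
    · by_cases h1 : k = j
      · subst h1; rw [ej]; exact (h.cb k).insert hvj
      · rw [ek k h0 h1]; exact h.cb k
  · intro k l hkl
    rw [Set.disjoint_left]
    intro u hu hu'
    by_cases huv : u = v
    · subst huv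
      by_cases hk : k = j
      · subst hk; exact hvB' l (Ne.symm hkl) hu'
      · exact hvB' k hk hu
    · rcases hins k hu with hu | hu
      · exact huv hu
      · rcases hins l hu' with hu' | hu'
        · exact huv hu'
        · exact Set.disjoint_left.1 (h.db k l hkl) hu hu'
  · intro k l
    rw [Set.disjoint_left]
    intro u hu hu'
    rcases hins l hu' with rfl | hu'
    · exact hvA k hu
    · exact Set.disjoint_left.1 (h.dab k l) hu hu'
  · intro k l
    by_cases h0 : l = 0
    · subst h0; rw [e0]; exact hadj k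
    · by_cases h1 : l = j
      · subst h1; rw [ej]; exact (h.ad k l).mono (subset_refl _) (Set.subset_insert _ _)
      · rw [ek l h0 h1]; exact h.ad k l

theorem so_spA {A B : Fin 3 → Set V} (hs : Sp33 A B) (i : Fin 3) (v : V) :
    Sp33 (Function.update A i (insert v (A i))) (Function.update B 0 (B 0 \ {v})) := by
  intro u
  by_cases huv : u = v
  · subst huv
    exact Or.inl ⟨i, by rw [Function.update_self]; exact Set.mem_insert _ _⟩
  · rcases hs u with ⟨k, hk⟩ | ⟨k, hk⟩
    · refine Or.inl ⟨k, ?_⟩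
      by_cases h1 : k = i
      · subst h1; rw [Function.update_self]; exact Set.mem_insert_of_mem _ hk
      · rw [Function.update_of_ne h1]; exact hk
    · refine Or.inr ⟨k, ?_⟩
      by_cases h1 : k = 0
      · subst h1; rw [Function.update_self]; exact ⟨hk, huv⟩
      · rw [Function.update_of_ne h1]; exact hk

theorem so_spB {A B : Fin 3 → Set V} (hs : Sp33 A B) (j : Fin 3) (hj : j ≠ 0) (v : V) :
    Sp33 A (Function.update (Function.update B j (insert v (B j))) 0 (B 0 \ {v})) := by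
  intro u
  by_cases huv : u = v
  · subst huv
    exact Or.inr ⟨j, by
      rw [Function.update_of_ne hj, Function.update_self]; exact Set.mem_insert _ _⟩
  · rcases hs u with ⟨k, hk⟩ | ⟨k, hk⟩
    · exact Or.inl ⟨k, hk⟩
    · refine Or.inr ⟨k, ?_⟩
      by_cases h0 : k = 0
      · subst h0; rw [Function.update_self]; exact ⟨hk, huv⟩
      · rw [Function.update_of_ne h0]
        by_cases h1 : k = j
        · subst h1; rw [Function.update_self]; exact Set.mem_insert_of_mem _ hk
        · rw [Function.update_of_ne h1]; exact hk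

/-- the final model -/
theorem so_final {A B : Fin 3 → Set V} (h : M33 G A B) {x y v : V} (hxy : G.Adj x y)
    (hy : A 0 = {y}) (hx : x ∈ B 0) (hK : Cn G (B 0 \ {x})) (hv : v ∈ B 0) (hvx : v ≠ x)
    (h1 : ¬ Ad G (B 0 \ {v}) (A 1)) (h2 : ¬ Ad G (B 0 \ {v}) (A 2)) {o : V} (hxo : G.Adj x o)
    (j j' : Fin 3) (hj : j ≠ 0) (hj' : j' ≠ 0) (hjj : j ≠ j') (ho : o ∈ B j) : Has33 G x := by
  have hy0 : y ∈ A 0 := by rw [hy]; rfl
  have hyB : ∀ k, y ∉ B k := fun k hk => Set.disjoint_left.1 (h.dab 0 k) hy0 hk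
  have hyA : ∀ k, k ≠ 0 → y ∉ A k := fun k hk0 hk => Set.disjoint_left.1 (h.da k 0 hk0) hk hy0
  have hxB : ∀ k, k ≠ 0 → x ∉ B k := fun k hk0 hk => Set.disjoint_left.1 (h.db k 0 hk0) hk hx
  have hxA : ∀ k, x ∉ A k := fun k hk => Set.disjoint_left.1 (h.dab k 0) hk hx
  have hKs : B 0 \ {x} ⊆ B 0 := Set.sdiff_subset
  have hyj : Ad G {y} (B j') := by
    have := h.ad 0 j'
    rwa [hy] at this
  have key : ∀ k, ¬ Ad G (B 0 \ {v}) (A k) → Ad G (A k) (B 0 \ {x}) := by
    intro k hk
    obtain ⟨s, hs, t, ht, hst⟩ := h.ad k 0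
    by_cases htv : t = v
    · subst htv
      exact ⟨s, hs, t, ⟨ht, hvx⟩, hst⟩
    · exact absurd ⟨t, ⟨ht, htv⟩, s, hs, hst.symm⟩ hk
  have hyy : ∀ S : Set V, y ∉ S → Disjoint S (B j') → Disjoint S ({y} ∪ B j') := by
    intro S h1 h2
    rw [Set.disjoint_union_right]
    exact ⟨Set.disjoint_singleton_right.2 h1, h2⟩
  have hxx : ∀ S : Set V, x ∉ S → Disjoint {x} S := fun S h1 => Set.disjoint_singleton_left.2 h1
  refine ⟨![{x}, A 1, A 2], ![B 0 \ {x}, B j, {y} ∪ B j'], mk33 (cn_single G x) (h.ca 1) (h.ca 2)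
    hK (h.cb j) ((cn_single G y).union (h.cb j') hyj)
    (hxx _ (hxA 1)) (hxx _ (hxA 2)) (h.da 1 2 (by decide))
    ((h.db 0 j (Ne.symm hj)).mono_left hKs)
    (hyy _ (fun h' => hyB 0 h'.1) ((h.db 0 j' (Ne.symm hj')).mono_left hKs))
    (hyy _ (hyB j) (h.db j j' hjj))
    (hxx _ (fun h' => h'.2 rfl)) (hxx _ (hxB j hj))
    (hyy _ (fun h' => hxy.ne h'.symm) (hxx _ (hxB j' hj')))
    ((h.dab 1 0).mono_right hKs) (h.dab 1 j) (hyy _ (hyA 1 (by decide)) (h.dab 1 j'))
    ((h.dab 2 0).mono_right hKs) (h.dab 2 j) (hyy _ (hyA 2 (by decide)) (h.dab 2 j'))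
    (so_edge (h.cb 0) hx hK.ne) ⟨x, rfl, o, ho, hxo⟩ ⟨x, rfl, y, Or.inl rfl, hxy⟩
    (key 1 h1) (h.ad 1 j) ((h.ad 1 j').mono (subset_refl _) Set.subset_union_right)
    (key 2 h2) (h.ad 2 j) ((h.ad 2 j').mono (subset_refl _) Set.subset_union_right), rfl⟩

theorem so_ind [Fintype V] (hJ : IsKConnected 4 G) (x y : V) (hxy : G.Adj x y) (n : ℕ) :
    ∀ A B : Fin 3 → Set V, (B 0).ncard = n → M33 G A B → Sp33 A B → A 0 = {y} → x ∈ B 0 →
    Has33 G x := by
  induction n using Nat.strong_induction_on with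
  | _ n ih =>
    intro A B hn h hs hy hx
    by_contra hcon
    have hy0 : y ∈ A 0 := by rw [hy]; rfl
    have hyZ : y ∉ B 0 := fun hk => Set.disjoint_left.1 (h.dab 0 0) hy0 hk
    by_cases hZ : B 0 = {x}
    · exact hcon ⟨B, A, h.swap, hZ⟩
    have hlt : ∀ v ∈ B 0, (B 0 \ {v}).ncard < n := by
      intro v hv
      rw [← hn]
      exact Set.ncard_sdiff_singleton_lt_of_mem hv (Set.toFinite _)
    -- no move is possible
    have mA : ∀ i i' : Fin 3, i ≠ 0 → i' ≠ 0 → i ≠ i' → ∀ v ∈ B 0, v ≠ x → Cn G (B 0 \ {v}) →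
        (∃ s ∈ A i, G.Adj v s) → ¬ Ad G (B 0 \ {v}) (A i') := by
      intro i i' hi hi' hii v hv hvx hc hvi had
      refine hcon (ih _ (hlt v hv) (Function.update A i (insert v (A i)))
        (Function.update B 0 (B 0 \ {v})) (by rw [Function.update_self])
        (so_moveA h i hv hc hvi ?_) (so_spA hs i v) (by rw [Function.update_of_ne (Ne.symm hi)]; exact hy)
        (by rw [Function.update_self]; exact ⟨hx, Ne.symm hvx⟩))
      intro k hk
      by_cases hk0 : k = 0
      · subst hk0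
        rw [hy]
        exact ⟨y, rfl, x, ⟨hx, Ne.symm hvx⟩, hxy.symm⟩
      · have : k = i' := by omega
        rw [this]
        exact had.symm
    have mB : ∀ j : Fin 3, j ≠ 0 → ∀ v ∈ B 0, v ≠ x → Cn G (B 0 \ {v}) →
        (∃ s ∈ B j, G.Adj v s) → Ad G (B 0 \ {v}) (A 1) → ¬ Ad G (B 0 \ {v}) (A 2) := by
      intro j hj v hv hvx hc hvj h1 h2
      refine hcon (ih _ (hlt v hv) A
        (Function.update (Function.update B j (insert v (B j))) 0 (B 0 \ {v}))
        (by rw [Function.update_self])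
        (so_moveB h j hj hv hc hvj ?_) (so_spB hs j hj v) hy
        (by rw [Function.update_self]; exact ⟨hx, Ne.symm hvx⟩))
      intro k
      fin_cases k
      · change Ad G (A 0) _
        rw [hy]
        exact ⟨y, rfl, x, ⟨hx, Ne.symm hvx⟩, hxy.symm⟩
      · exact h1.symm
      · exact h2.symm
    have touch : ∀ k, ∀ v ∈ B 0, ¬ Ad G (B 0 \ {v}) (A k) → ∃ s ∈ A k, G.Adj v s := by
      intro k v hv hk
      obtain ⟨s, hs', t, ht, hst⟩ := h.ad k 0
      by_cases htv : t = v
      · subst htv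
        exact ⟨s, hs', hst.symm⟩
      · exact absurd ⟨t, ⟨ht, htv⟩, s, hs', hst.symm⟩ hk
    have H : ∀ v ∈ B 0, v ≠ x → Cn G (B 0 \ {v}) → (∃ o, o ∉ B 0 ∧ o ≠ y ∧ G.Adj v o) →
        ¬ Ad G (B 0 \ {v}) (A 1) ∧ ¬ Ad G (B 0 \ {v}) (A 2) := by
      rintro v hv hvx hc ⟨o, ho, hoy, hvo⟩
      have h12 : ¬ Ad G (B 0 \ {v}) (A 1) → ¬ Ad G (B 0 \ {v}) (A 2) := fun h' =>
        mA 1 2 (by decide) (by decide) (by decide) v hv hvx hc (touch 1 v hv h')
      have h21 : ¬ Ad G (B 0 \ {v}) (A 2) → ¬ Ad G (B 0 \ {v}) (A 1) := fun h' =>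
        mA 2 1 (by decide) (by decide) (by decide) v hv hvx hc (touch 2 v hv h')
      have hor : ¬ Ad G (B 0 \ {v}) (A 1) ∨ ¬ Ad G (B 0 \ {v}) (A 2) := by
        rcases hs o with ⟨k, hk⟩ | ⟨k, hk⟩
        · fin_cases k
          · change o ∈ A 0 at hk
            rw [hy] at hk
            exact absurd hk hoy
          · exact Or.inr (mA 1 2 (by decide) (by decide) (by decide) v hv hvx hc ⟨o, hk, hvo⟩)
          · exact Or.inl (mA 2 1 (by decide) (by decide) (by decide) v hv hvx hc ⟨o, hk, hvo⟩)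
        · by_cases hk0 : k = 0
          · subst hk0; exact absurd hk ho
          · by_cases h1 : Ad G (B 0 \ {v}) (A 1)
            · exact Or.inr (mB k hk0 v hv hvx hc ⟨o, hk, hvo⟩ h1)
            · exact Or.inl h1
      rcases hor with h' | h'
      · exact ⟨h', h12 h'⟩
      · exact ⟨h21 h', h'⟩
    obtain ⟨a1, ha1⟩ := (h.ca 1).ne
    have hO : ∃ o, o ∉ B 0 ∧ o ≠ y := ⟨a1, fun h' => Set.disjoint_left.1 (h.dab 1 0) ha1 h', by
      rintro rfl
      exact Set.disjoint_left.1 (h.da 1 0 (by decide)) ha1 hy0⟩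
    obtain ⟨hK, ⟨o, hoZ, hoy, hxo⟩, v, hv, hvx, i, j, hij, hi, hj⟩ :=
      dich hJ (B 0) (h.cb 0) x y hx hZ hyZ hO 2 (by norm_num) ![A 1, A 2]
        (by
          intro i
          fin_cases i
          · exact (h.ad 1 0).symm
          · exact (h.ad 2 0).symm)
        (fun v hv hvx hc ho => ⟨0, 1, by decide, (H v hv hvx hc ho).1, (H v hv hvx hc ho).2⟩)
    have h12 : ¬ Ad G (B 0 \ {v}) (A 1) ∧ ¬ Ad G (B 0 \ {v}) (A 2) := by
      fin_cases i <;> fin_cases j
      · exact absurd rfl hij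
      · exact ⟨hi, hj⟩
      · exact ⟨hj, hi⟩
      · exact absurd rfl hij
    have hxv : x ∈ B 0 \ {v} := ⟨hx, Ne.symm hvx⟩
    rcases hs o with ⟨k, hk⟩ | ⟨k, hk⟩
    · fin_cases k
      · change o ∈ A 0 at hk
        rw [hy] at hk
        exact hoy hk
      · exact h12.1 ⟨x, hxv, o, hk, hxo⟩
      · exact h12.2 ⟨x, hxv, o, hk, hxo⟩
    · fin_cases k
      · exact hoZ hk
      · exact hcon (so_final h hxy hy hx hK hv hvx h12.1 h12.2 hxo 1 2 (by decide) (by decide)
          (by decide) hk)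
      · exact hcon (so_final h hxy hy hx hK hv hvx h12.1 h12.2 hxo 2 1 (by decide) (by decide)
          (by decide) hk)

theorem stepOpp [Fintype V] (hJ : IsKConnected 4 G) (x y : V) (hxy : G.Adj x y)
    (A B : Fin 3 → Set V) (h : M33 G A B) (hs : Sp33 A B) (hy : A 0 = {y}) (hx : x ∈ B 0) :
    Has33 G x :=
  so_ind hJ x y hxy _ A B rfl h hs hy hx

end Pool.Agent.LR5
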