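import Pool.Agent.LR5.Cut

/-!
LR5: the four strands.

From `cut` and `LD6.mengerK 4` we get four disjoint sets `P m`, each containing a walk of the relation
`rel` from a neighbour of `x` in `U := near c N` to one of the targets `c 0`, `c 1`, `c 2`, `a1`.  The
targets are pairwise different (`c i ∈ B i`, `a1 ∉ B i`, the `B i` are disjoint) and the sets `P m` are
disjoint, so every target is the end of exactly one walk.
For the walk ending in `c i`: all its vertices are in `U` (the vertex `a1` is in another `P m`), and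
consecutive ones are adjacent, so the set `L i` of the vertices that are reached inside `P m \ {a1}` from
its start is connected (`LG6.reach_conn`), is contained in `P m ∩ U`, contains `c i` and a neighbour of
`x`.
For the walk ending in `a1`: take the first visit of `a1`, the vertex `u` before it lies in `U` and has
a neighbour `f ∈ F j`, `f ≠ c j`; `L4` := the set of vertices reached from the start inside
`P m \ {a1}`; it contains `u`.
-/

set_option autoImplicit false

namespace Pool.Agent.LR5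

open Pool.Agent.LG6 Pool.Agent.MK3.Mg Relation

variable {V : Type} {G : SimpleGraph V}

theorem near_sub {x a1 a2 : V} {B : Fin 3 → Set V} {c : Fin 3 → V} {N F : Fin 3 → Set V}
    (hs : ∀ i, Sep G (B i) {v | G.Adj x v} {v | G.Adj a1 v} {v | G.Adj a2 v} (c i) (N i) (F i))
    {v : V} (hv : v ∈ near c N) : ∃ i, v ∈ B i := by
  obtain ⟨i, hi⟩ := hv
  refine ⟨i, ?_⟩
  rw [← (hs i).un]
  rcases hi with h | h
  · right
    rw [h]
    exact (hs i).cF
  · exact Or.inl h

theorem strands [Fintype V] (hJ : IsKConnected 4 G) (x a1 a2 : V) (B : Fin 3 → Set V)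
    (h : Tri G x a1 a2 B) (h1 : ¬ G.Adj x a1) (h2 : ¬ G.Adj x a2)
    (c : Fin 3 → V) (N F : Fin 3 → Set V)
    (hs : ∀ i, Sep G (B i) {v | G.Adj x v} {v | G.Adj a1 v} {v | G.Adj a2 v} (c i) (N i) (F i)) :
    ∃ (L : Fin 3 → Set V) (L4 : Set V) (j : Fin 3) (f : V),
      (∀ i, Cn G (L i)) ∧ Cn G L4 ∧ (∀ i, L i ⊆ near c N) ∧ L4 ⊆ near c N ∧
      (∀ i k, i ≠ k → Disjoint (L i) (L k)) ∧ (∀ i, Disjoint (L i) L4) ∧ (∀ i, c i ∈ L i) ∧
      (∀ i, ∃ v ∈ L i, G.Adj x v) ∧ (∃ v ∈ L4, G.Adj x v) ∧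
      f ∈ F j ∧ f ≠ c j ∧ ∃ w ∈ L4, G.Adj w f := by
  classical
  obtain ⟨P, hd, hP⟩ := LD6.mengerK 4 (rel G a1 c N F) {v | v ∈ near c N ∧ G.Adj x v}
    {c 0, c 1, c 2, a1} (fun S hS => cut hJ x a1 a2 B h h1 h2 c N F hs S hS)
  choose a ha b hb hw using hP
  have hcB : ∀ i, c i ∈ B i := fun i => by
    rw [← (hs i).un]
    exact Or.inr (hs i).cF
  have ha1U : a1 ∉ near c N := fun h' => by
    obtain ⟨i, hi⟩ := near_sub hs h'
    exact h.a1b i hi
  have hcinj : ∀ i k, c i = c k → i = k := by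
    intro i k hik
    by_contra hne
    exact Set.disjoint_left.1 (h.db i k hne) (hcB i) (hik ▸ hcB k)
  have hca : ∀ i, c i ≠ a1 := fun i h' => h.a1b i (h' ▸ hcB i)
  have hbinj : Function.Injective b := by
    intro m m' hm
    by_contra hne
    exact Set.disjoint_left.1 (hd m m' hne) (hw m).right (hm ▸ (hw m').right)
  have himg : Finset.univ.image b = {c 0, c 1, c 2, a1} := by
    apply Finset.eq_of_subset_of_card_le
    · intro v hv
      obtain ⟨m, _, rfl⟩ := Finset.mem_image.1 hv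
      have := hb m
      simpa using this
    · rw [Finset.card_image_of_injective _ hbinj, Finset.card_univ, Fintype.card_fin]
      exact Finset.card_le_four
  have hex : ∀ t, t = c 0 ∨ t = c 1 ∨ t = c 2 ∨ t = a1 → ∃ m, b m = t := by
    intro t ht
    have : t ∈ Finset.univ.image b := by
      rw [himg]
      simpa using ht
    obtain ⟨m, _, hm⟩ := Finset.mem_image.1 this
    exact ⟨m, hm⟩
  have hexc : ∀ i : Fin 3, ∃ m, b m = c i := by
    intro i
    apply hex
    fin_cases i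
    · exact Or.inl rfl
    · exact Or.inr (Or.inl rfl)
    · exact Or.inr (Or.inr (Or.inl rfl))
  choose μ hμ using hexc
  obtain ⟨m4, hm4⟩ := hex a1 (Or.inr (Or.inr (Or.inr rfl)))
  have hμinj : ∀ i k, i ≠ k → μ i ≠ μ k := by
    intro i k hik h'
    apply hik
    apply hcinj
    rw [← hμ i, ← hμ k, h']
  have hμ4 : ∀ i, μ i ≠ m4 := by
    intro i h'
    apply hca i
    rw [← hμ i, ← hm4, h']
  -- the sets
  set L' : Fin 4 → Set V := fun m =>
    {w | ReflTransGen (fun u v => G.Adj u v ∧ v ∈ P m ∧ v ∈ near c N) (a m) w} with hL'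
  have hcn : ∀ m, Cn G (L' m) := fun m => reach_conn (fun _ _ h => h.1) (a m)
  have hsub : ∀ m w, w ∈ L' m → w ∈ P m ∧ w ∈ near c N := by
    intro m w hw'
    rcases ReflTransGen.cases_tail hw' with h | ⟨u, _, hu⟩
    · subst h
      exact ⟨(hw m).left, (ha m).1⟩
    · exact hu.2
  have hdis : ∀ m m', m ≠ m' → Disjoint (L' m) (L' m') := by
    intro m m' hne
    exact Set.disjoint_of_subset (fun w hw' => (hsub m w hw').1) (fun w hw' => (hsub m' w hw').1)
      (hd m m' hne)
  have hxL : ∀ m, ∃ v ∈ L' m, G.Adj x v := fun m => ⟨a m, ReflTransGen.refl, (ha m).2⟩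
  have ha1P : ∀ m, m ≠ m4 → a1 ∉ P m := by
    intro m hm h'
    exact Set.disjoint_left.1 (hd m m4 hm) h' (hm4 ▸ (hw m4).right)
  have hcL : ∀ i, c i ∈ L' (μ i) := by
    intro i
    have h3 := (hw (μ i)).2
    rw [hμ i] at h3
    refine ReflTransGen.mono ?_ _ _ h3
    rintro u v ⟨hr, hv⟩
    rcases hr with ⟨_, hvU, huv⟩ | ⟨_, hva, _⟩
    · exact ⟨huv, hv, hvU⟩
    · exact absurd (hva ▸ hv) (ha1P _ (hμ4 i))
  have key : ∀ w, ReflTransGen (fun u v => rel G a1 c N F u v ∧ v ∈ P m4) (a m4) w →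
      w ∈ L' m4 ∨ ∃ u ∈ L' m4, ∃ k, ∃ f ∈ F k, f ≠ c k ∧ G.Adj u f := by
    intro w hw'
    induction hw' with
    | refl => exact Or.inl ReflTransGen.refl
    | tail _ hst ih =>
      rcases ih with ih | ih
      · obtain ⟨hr, hv⟩ := hst
        rcases hr with ⟨_, hvU, huv⟩ | ⟨_, _, k, f, hf, hfc, huf⟩
        · exact Or.inl (ReflTransGen.tail ih ⟨huv, hv, hvU⟩)
        · exact Or.inr ⟨_, ih, k, f, hf, hfc, huf⟩
      · exact Or.inr ih
  have hk := key (b m4) (hw m4).2
  rw [hm4] at hk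
  rcases hk with hk | ⟨u, hu, k, f, hf, hfc, huf⟩
  · exact absurd (hsub m4 a1 hk).2 ha1U
  · exact ⟨fun i => L' (μ i), L' m4, k, f, fun i => hcn _, hcn _, fun i w hw' => (hsub _ w hw').2,
      fun w hw' => (hsub _ w hw').2, fun i k hik => hdis _ _ (hμinj i k hik),
      fun i => hdis _ _ (hμ4 i), hcL, fun i => hxL _, hxL _, hf, hfc, u, hu, huf⟩

end Pool.Agent.LR5
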