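import Pool.Agent.LR5.All
import Pool.Agent.LR5.Norm
import Pool.Agent.LR5.AdjA
import Pool.Agent.LR5.Far
import Pool.Agent.LR5.Assemble

/-!
LR5, Theorem TP: in a 4-connected graph with a `K₅` or `K₃,₃` minor every single vertex is a branch set
of a `K₅` model.

Proof.  `all`; if `Has33`, `norm` gives a `Tri`; if `x` is adjacent to `a1` or `a2`: `adjA`
(`Tri.swap`).  Otherwise apply `far` to every `B i` with `X = {v | G.Adj x v}` and so on; if for some `i`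
the first alternative holds: `split` and `lemS`; otherwise `assemble`.
-/

set_option autoImplicit false

namespace Pool.Agent.LR5

open Pool.Agent.LG6

variable {V : Type} {G : SimpleGraph V}

theorem tp [Fintype V] (hJ : IsKConnected 4 G)
    (h : (∃ D, M5 G D) ∨ ∃ A B, M33 G A B) (x : V) : Has5 G x := by
  rcases all hJ h x with h5 | h33
  · exact h5
  obtain ⟨a1, a2, B, hT⟩ := norm hJ x h33
  by_cases h1 : G.Adj x a1
  · exact adjA hJ x a1 a2 B hT h1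
  by_cases h2 : G.Adj x a2
  · exact adjA hJ x a2 a1 B hT.swap h2
  by_cases hex : ∃ i, ∃ T T' : Set V, T ⊆ B i ∧ T' ⊆ B i ∧ Disjoint T T' ∧ Cn G T ∧ Cn G T' ∧
      (T ∩ {v | G.Adj x v}).Nonempty ∧ (T ∩ {v | G.Adj a1 v}).Nonempty ∧
      (T' ∩ {v | G.Adj x v}).Nonempty ∧ (T' ∩ {v | G.Adj a2 v}).Nonempty
  · obtain ⟨i, T, T', hTB, hTB', hd, cT, cT', ⟨b1, hb1, hb1'⟩, ⟨b2, hb2, hb2'⟩, ⟨b3, hb3, hb3'⟩,
      ⟨b4, hb4, hb4'⟩⟩ := hex
    obtain ⟨T1, T1', s1, s2, d1, u1, c1, c2⟩ := split (B i) T T' (hT.cb i) hTB hTB' cT cT' hd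
    exact lemS hJ x a1 a2 B hT i T1' T1 c2 c1 (by rw [Set.union_comm]; exact u1) d1.symm
      ⟨b3, s2 hb3, hb3'⟩ ⟨b4, s2 hb4, hb4'⟩ ⟨b1, s1 hb1, hb1'⟩ ⟨b2, s1 hb2, hb2'⟩
  · have hf : ∀ i, ∃ c N F, Sep G (B i) {v | G.Adj x v} {v | G.Adj a1 v} {v | G.Adj a2 v}
        c N F := by
      intro i
      rcases far (B i) (hT.cb i) {v | G.Adj x v} {v | G.Adj a1 v} {v | G.Adj a2 v}
        (hT.adx i) (hT.ad1 i) (hT.ad2 i) with h' | h'
      · exact absurd ⟨i, h'⟩ hex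
      · exact h'
    choose c N F hs using hf
    exact assemble hJ x a1 a2 B hT h1 h2 c N F hs

end Pool.Agent.LR5
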