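import Pool.Agent.LR5.TP
import Pool.Agent.LR5.Defs2

/-!
LR5: Theorem TP for `G - P`, in terms of `G`.

If `G - P` is 4-connected and has a `K₅` or `K₃,₃` model, then for every `x ∉ P` there is a `K₅` model of
`G` avoiding `P`, with `{x}` a branch set, covering all vertices outside `P`.

Proof.  Let `J := G.induce (↑P)ᶜ` (a graph on the subtype).  `Four G P` gives `IsKConnected 4 J` (for a
finset `S` of the subtype use the image of `S` in `V`; `J.induce Sᶜ` is isomorphic to the induced
subgraph of `G` on `(S ∪ P)ᶜ`).  Models of `G` avoiding `P` become models of `J` (preimages under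
`Subtype.val`), models of `J` become models of `G` avoiding `P` (images).  `tp` gives a model `D` of `J`
with `D 0 = {x}`; `extend` with the part `0` frozen, `F := {x}`, makes it spanning in `J`.
-/

set_option autoImplicit false

namespace Pool.Agent.LR5

open Pool.Agent.LG6

variable {V : Type}

/-- connected subsets of an induced subgraph -/
theorem transfer_cn (G : SimpleGraph V) (Q : Set V) (S : Set Q) :
    Cn (G.induce Q) S ↔ Cn G (Subtype.val '' S) := by
  constructor
  · intro h
    let f : ((G.induce Q).induce S) →g (G.induce (Subtype.val '' S)) :=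
      { toFun := fun w => ⟨w.1.1, ⟨w.1, w.2, rfl⟩⟩
        map_rel' := fun {a b} hab => hab }
    refine SimpleGraph.Connected.map f ?_ h
    rintro ⟨v, w, hw, rfl⟩
    exact ⟨⟨w, hw⟩, rfl⟩
  · intro h
    have hQ : ∀ v : (Subtype.val '' S : Set V), v.1 ∈ Q := by
      rintro ⟨v, w, hw, rfl⟩
      exact w.2
    have hS : ∀ v : (Subtype.val '' S : Set V), (⟨v.1, hQ v⟩ : Q) ∈ S := by
      rintro ⟨v, w, hw, rfl⟩
      exact hw
    let f : (G.induce (Subtype.val '' S)) →g ((G.induce Q).induce S) :=
      { toFun := fun v => ⟨⟨v.1, hQ v⟩, hS v⟩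
        map_rel' := fun {a b} hab => hab }
    refine SimpleGraph.Connected.map f ?_ h
    rintro ⟨w, hw⟩
    exact ⟨⟨w.1, w, hw, rfl⟩, rfl⟩

theorem transfer_ad (G : SimpleGraph V) (Q : Set V) (S T : Set Q) :
    Ad (G.induce Q) S T ↔ Ad G (Subtype.val '' S) (Subtype.val '' T) := by
  constructor
  · rintro ⟨s, hs, t, ht, h⟩
    exact ⟨s.1, ⟨s, hs, rfl⟩, t.1, ⟨t, ht, rfl⟩, h⟩
  · rintro ⟨_, ⟨s, hs, rfl⟩, _, ⟨t, ht, rfl⟩, h⟩
    exact ⟨s, hs, t, ht, h⟩

theorem transfer_disj {Q : Set V} (S T : Set Q) :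
    Disjoint S T ↔ Disjoint (Subtype.val '' S : Set V) (Subtype.val '' T) :=
  (Set.disjoint_image_iff Subtype.val_injective).symm

theorem transfer_pre {P : Set V} {D : Set V} (h : Disjoint D P) :
    (Subtype.val '' (Subtype.val ⁻¹' D : Set (Pᶜ : Set V)) : Set V) = D := by
  rw [Subtype.image_preimage_coe]
  exact Set.inter_eq_right.2 fun v hv hP => Set.disjoint_left.1 h hv hP

theorem tpset [Fintype V] [DecidableEq V] (G : SimpleGraph V) (P : Finset V) (h4 : Four G P)
    (hm : ¬ NoMin G (↑P : Set V)) (x : V) (hx : x ∉ P) :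
    ∃ D, M5 G D ∧ D 0 = {x} ∧ (∀ i, Disjoint (D i) (↑P : Set V)) ∧
      ∀ u, u ∉ P → ∃ i, u ∈ D i := by
  classical
  set Q : Set V := (↑P : Set V)ᶜ with hQ
  letI : Fintype Q := Fintype.ofFinite _
  have hcard : Fintype.card Q + P.card = Fintype.card V := by
    have h1 : Fintype.card Q = Q.ncard := by
      rw [← Nat.card_eq_fintype_card]
      rfl
    have h2 := Set.ncard_add_ncard_compl (↑P : Set V)
    rw [Set.ncard_coe_finset, Nat.card_eq_fintype_card] at h2
    rw [h1, hQ]
    omega
  have hJ : IsKConnected 4 (G.induce Q) := by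
    refine ⟨by have := h4.1; omega, ?_⟩
    intro S hS
    have h1 := h4.2 (S.map (Function.Embedding.subtype _)) (by rw [Finset.card_map]; omega)
    have h2 : ((↑(S.map (Function.Embedding.subtype (fun v => v ∈ Q)) ∪ P) : Set V)ᶜ) =
        Subtype.val '' ((↑S : Set Q)ᶜ) := by
      ext v
      simp only [Set.mem_compl_iff, Finset.coe_union, Set.mem_union, Finset.coe_map, Set.mem_image,
        Finset.mem_coe, Function.Embedding.subtype_apply, Subtype.exists, exists_and_right,
        exists_eq_right, not_or, not_exists]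
      constructor
      · rintro ⟨h3, h4⟩
        exact ⟨h4, h3 h4⟩
      · rintro ⟨h3, h4⟩
        exact ⟨fun _ => h4, h3⟩
    have h3 : Cn G (Subtype.val '' ((↑S : Set Q)ᶜ)) := h2 ▸ h1
    exact (transfer_cn G Q _).2 h3
  have hmod : (∃ D, M5 (G.induce Q) D) ∨ ∃ A B, M33 (G.induce Q) A B := by
    by_contra hno
    apply hm
    constructor
    · rintro ⟨D, hD, hd⟩
      apply hno
      left
      refine ⟨fun i => Subtype.val ⁻¹' (D i), ?_, ?_, ?_⟩
      · intro i
        rw [transfer_cn, transfer_pre (hd i)]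
        exact hD.c i
      · intro i j hij
        rw [transfer_disj, transfer_pre (hd i), transfer_pre (hd j)]
        exact hD.d i j hij
      · intro i j hij
        rw [transfer_ad, transfer_pre (hd i), transfer_pre (hd j)]
        exact hD.ad i j hij
    · rintro ⟨A, B, hD, ha, hb⟩
      apply hno
      right
      refine ⟨fun i => Subtype.val ⁻¹' (A i), fun i => Subtype.val ⁻¹' (B i), ?_, ?_, ?_, ?_, ?_,
        ?_⟩
      · intro i
        rw [transfer_cn, transfer_pre (ha i)]
        exact hD.ca i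
      · intro i
        rw [transfer_cn, transfer_pre (hb i)]
        exact hD.cb i
      · intro i j hij
        rw [transfer_disj, transfer_pre (ha i), transfer_pre (ha j)]
        exact hD.da i j hij
      · intro i j hij
        rw [transfer_disj, transfer_pre (hb i), transfer_pre (hb j)]
        exact hD.db i j hij
      · intro i j
        rw [transfer_disj, transfer_pre (ha i), transfer_pre (hb j)]
        exact hD.dab i j
      · intro i j
        rw [transfer_ad, transfer_pre (ha i), transfer_pre (hb j)]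
        exact hD.ad i j
  have hxQ : x ∈ Q := fun h => hx (Finset.mem_coe.1 h)
  obtain ⟨D, hD, hD0⟩ := tp hJ hmod ⟨x, hxQ⟩
  obtain ⟨E, h1, h2, h3, h5, h6⟩ := extend hJ D ({0} : Set (Fin 5)) ({⟨x, hxQ⟩} : Finset Q)
    (by rw [Finset.card_singleton]; norm_num) hD.c hD.d
    (by
      intro i hi
      rw [Set.mem_singleton_iff] at hi
      rw [hi, hD0, Finset.coe_singleton])
    (by
      intro v hv
      rw [Finset.mem_singleton] at hv
      exact ⟨0, rfl, by rw [hv, hD0]; rfl⟩)
    ⟨1, by
      rw [Set.mem_singleton_iff]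
      decide⟩
  refine ⟨fun i => Subtype.val '' (E i), ⟨?_, ?_, ?_⟩, ?_, ?_, ?_⟩
  · intro i
    exact (transfer_cn G Q _).1 (h3 i)
  · intro i j hij
    exact (transfer_disj _ _).1 (h5 i j hij)
  · intro i j hij
    exact (transfer_ad G Q _ _).1 ((hD.ad i j hij).mono (h1 i) (h1 j))
  · simp only
    rw [h2 0 rfl, hD0, Set.image_singleton]
  · intro i
    rw [Set.disjoint_left]
    rintro _ ⟨w, _, rfl⟩ hP
    exact w.2 hP
  · intro u hu
    obtain ⟨i, hi⟩ := h6 ⟨u, fun h => hu (Finset.mem_coe.1 h)⟩
    exact ⟨i, ⟨_, hi, rfl⟩⟩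

end Pool.Agent.LR5
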