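import Pool.Agent.LR5.TriSumS

/-!
LR5: twice the number of edges inside `N(v)` is the sum over `x ∈ N(v)` of the number of neighbours of
`x` in `N(v)` (handshake lemma for `G.induce (N(v))`, or double counting).
-/

set_option autoImplicit false

namespace Pool.Agent.LR5

open Pool.Agent.LG6 Finset

variable {V : Type} [Fintype V] [DecidableEq V]

theorem tri_sum (G : SimpleGraph V) [DecidableRel G.Adj] (v : V) (N : Finset V)
    (hN : ∀ x, x ∈ N ↔ G.Adj v x) :
    ∑ x ∈ N, (N.filter (G.Adj x)).card = 2 * tri G v :=
  tri_sumS G v N hN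

end Pool.Agent.LR5
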