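import Pool.Agent.LR5.Defs2

/-!
LR5: handshake lemma inside a neighbourhood.
-/

set_option autoImplicit false

namespace Pool.Agent.LR5

open Pool.Agent.LG6 Finset

variable {V : Type} [Fintype V] [DecidableEq V]

theorem tri_sumS (G : SimpleGraph V) [DecidableRel G.Adj] (v : V) (N : Finset V)
    (hN : ∀ x, x ∈ N ↔ G.Adj v x) :
    ∑ x ∈ N, (N.filter (G.Adj x)).card = 2 * tri G v := by
  classical
  -- the graph with the edges inside `N`
  let H : SimpleGraph V :=
    { Adj := fun a b => G.Adj a b ∧ a ∈ N ∧ b ∈ N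
      symm := ⟨fun _ _ h => ⟨h.1.symm, h.2.2, h.2.1⟩⟩
      loopless := ⟨fun a h => G.loopless.irrefl a h.1⟩ }
  have h1 := H.sum_degrees_eq_twice_card_edges
  have h2 : ∀ x, H.degree x = if x ∈ N then (N.filter (G.Adj x)).card else 0 := by
    intro x
    rw [← SimpleGraph.card_neighborFinset_eq_degree]
    split_ifs with hx
    · congr 1
      ext y
      rw [SimpleGraph.mem_neighborFinset, Finset.mem_filter]
      exact ⟨fun h => ⟨h.2.2, h.1⟩, fun h => ⟨h.2, hx, h.1⟩⟩
    · rw [Finset.card_eq_zero, Finset.eq_empty_iff_forall_notMem]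
      intro y hy
      rw [SimpleGraph.mem_neighborFinset] at hy
      exact hx hy.2.1
  have h3 : ∑ x, H.degree x = ∑ x ∈ N, (N.filter (G.Adj x)).card := by
    rw [Finset.sum_congr rfl (fun x _ => h2 x), Finset.sum_ite_mem, Finset.univ_inter]
  have h4 : tri G v = H.edgeFinset.card := by
    unfold tri
    rw [← Set.ncard_coe_finset, SimpleGraph.coe_edgeFinset]
    congr 1
    ext e
    induction e using Sym2.ind with
    | _ a b =>
      simp only [Set.mem_setOf_eq, SimpleGraph.mem_edgeSet, Sym2.mem_iff]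
      constructor
      · rintro ⟨h, h'⟩
        exact ⟨h, (hN a).2 (h' a (Or.inl rfl)), (hN b).2 (h' b (Or.inr rfl))⟩
      · rintro ⟨h, ha, hb⟩
        refine ⟨h, ?_⟩
        rintro x (rfl | rfl)
        · exact (hN _).1 ha
        · exact (hN _).1 hb
  rw [← h3, h1, h4]

end Pool.Agent.LR5
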