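import Pool.Agent.LR5.Defs
import Pool.Agent.LD6.Menger

/-!
LR5: Menger's theorem with `k = 2` inside a connected set `B`, from a set `X` to two sinks, one
attached to `α1`, the other to `α2`.

Either there are two disjoint connected subsets `T`, `T'` of `B`, both meeting `X`, `T` meeting `α1`,
`T'` meeting `α2`; or there is a vertex `c ∈ B` that lies in every connected subset of `B` meeting `X`
and `α1 ∪ α2`.

Proof.  `LD6.mengerK 2` on the type `V ⊕ Bool` (the two sinks are `inr false`, `inr true`), relation `R`: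
`inl u → inl w` if `u, w ∈ B` are adjacent; `inl u → inr false` if `u ∈ B ∩ α1`;
`inl u → inr true` if `u ∈ B ∩ α2`; no arcs out of a sink.  Sources `inl (B ∩ X)`, targets the two sinks.
If the hypothesis of `mengerK` holds, we get disjoint `P 0`, `P 1` with walks from a source to a sink;
the sinks are different; a walk leaves `inl B` only in its last step; the vertices before it form a
connected subset (`LG6.reach_conn`) of `B`.
Otherwise there is `S` with at most one element meeting all walks.  `S` is not empty (`B` is connected and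
meets `X` and `α1`), `S` is not a sink (the other sink is still reached), so `S = {inl c}`, and `c ∈ B`
has the property: a connected subset of `B` without `c` meeting `X` and `α1 ∪ α2` would give a walk.
-/

set_option autoImplicit false

namespace Pool.Agent.LR5

open Pool.Agent.LG6 Pool.Agent.MK3.Mg Relation

variable {V : Type} {G : SimpleGraph V}

/-- the arcs inside `B` and from `B ∩ α s` to the sink `s` -/
def R2 (G : SimpleGraph V) (B : Set V) (α : Bool → Set V) : V ⊕ Bool → V ⊕ Bool → Prop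
  | .inl u, .inl w => u ∈ B ∧ w ∈ B ∧ G.Adj u w
  | .inl u, .inr s => u ∈ B ∧ u ∈ α s
  | .inr _, _ => False

theorem R2_walk {B : Set V} {α : Bool → Set V} {P : Set (V ⊕ Bool)} {x : V} {s : Bool}
    (hx : x ∈ B) (h : WIn (R2 G B α) P (.inl x) (.inr s)) :
    ∃ T : Set V, T ⊆ B ∧ (∀ w ∈ T, Sum.inl w ∈ P) ∧ Cn G T ∧ x ∈ T ∧ (T ∩ α s).Nonempty := by
  obtain ⟨hxP, h⟩ := h
  have key : ∀ c, ReflTransGen (fun u v => R2 G B α u v ∧ v ∈ P) (Sum.inl x) c →
      ∀ y, c = Sum.inl y →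
      ReflTransGen (fun u v => G.Adj u v ∧ v ∈ B ∧ Sum.inl v ∈ P) x y := by
    intro c hc
    induction hc with
    | refl =>
      intro y hy
      rw [Sum.inl.injEq] at hy
      rw [hy]
    | @tail b c h1 h2 ih =>
      intro y hy
      subst hy
      obtain ⟨hR, hP⟩ := h2
      cases b with
      | inl z => exact (ih z rfl).tail ⟨hR.2.2, hR.2.1, hP⟩
      | inr z => exact absurd hR (fun h => h)
  refine ⟨{w | ReflTransGen (fun u v => G.Adj u v ∧ v ∈ B ∧ Sum.inl v ∈ P) x w}, ?_, ?_,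
    reach_conn (fun _ _ h => h.1) x, ReflTransGen.refl, ?_⟩
  · intro w hw
    rcases ReflTransGen.cases_tail hw with h' | ⟨c, _, hc⟩
    · exact h' ▸ hx
    · exact hc.2.1
  · intro w hw
    rcases ReflTransGen.cases_tail hw with h' | ⟨c, _, hc⟩
    · exact h' ▸ hxP
    · exact hc.2.2
  · rcases ReflTransGen.cases_tail h with h' | ⟨c, hc1, hc2, _⟩
    · exact absurd h' (by simp)
    · cases c with
      | inl y => exact ⟨y, key _ hc1 y rfl, hc2.2⟩
      | inr y => exact absurd hc2 (fun h => h)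

theorem R2_of {B X : Set V} {α : Bool → Set V} {S : Finset (V ⊕ Bool)} {T : Set V} (hTB : T ⊆ B)
    (hT : Cn G T) {x y : V} (hx : x ∈ T) (hxX : x ∈ X) (hy : y ∈ T) {s : Bool} (hs : y ∈ α s)
    (hsS : Sum.inr s ∉ S) (hTS : ∀ w ∈ T, Sum.inl w ∉ S) :
    SIn (R2 G B α) (↑S : Set (V ⊕ Bool))ᶜ (Sum.inl '' (B ∩ X)) (Set.range Sum.inr) := by
  refine ⟨Sum.inl x, ⟨x, ⟨hTB hx, hxX⟩, rfl⟩, Sum.inr s, ⟨s, rfl⟩,
    fun h => hTS x hx (Finset.mem_coe.1 h), ?_⟩
  have h3 := (SimpleGraph.reachable_iff_reflTransGen _ _).1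
    (hT.preconnected ⟨x, hx⟩ ⟨y, hy⟩)
  have h4 : ReflTransGen (fun u v => R2 G B α u v ∧ v ∈ (↑S : Set (V ⊕ Bool))ᶜ)
      (Sum.inl x) (Sum.inl y) := by
    refine Relation.ReflTransGen.lift
      (p := fun u v => R2 G B α u v ∧ v ∈ (↑S : Set (V ⊕ Bool))ᶜ)
      (fun w : T => (Sum.inl w.1 : V ⊕ Bool)) ?_ _ _ h3
    rintro ⟨u, hu⟩ ⟨w, hw⟩ huw
    exact ⟨⟨hTB hu, hTB hw, huw⟩, fun h => hTS w hw (Finset.mem_coe.1 h)⟩
  exact h4.tail ⟨⟨hTB hy, hs⟩, fun h => hsS (Finset.mem_coe.1 h)⟩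

theorem twoOrCut [Finite V] (B : Set V) (hB : Cn G B) (X α1 α2 : Set V)
    (hX : ∃ b ∈ B, b ∈ X) (h1 : ∃ b ∈ B, b ∈ α1) (h2 : ∃ b ∈ B, b ∈ α2) :
    (∃ T T' : Set V, T ⊆ B ∧ T' ⊆ B ∧ Disjoint T T' ∧ Cn G T ∧ Cn G T' ∧
      (T ∩ X).Nonempty ∧ (T ∩ α1).Nonempty ∧ (T' ∩ X).Nonempty ∧ (T' ∩ α2).Nonempty) ∨
    (∃ c ∈ B, ∀ T : Set V, T ⊆ B → Cn G T → (T ∩ X).Nonempty → (T ∩ (α1 ∪ α2)).Nonempty →
      c ∈ T) := by
  classical
  set α : Bool → Set V := fun s => if s then α2 else α1 with hα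
  have hα1 : α false = α1 := rfl
  have hα2 : α true = α2 := rfl
  obtain ⟨x, hxB, hxX⟩ := hX
  have hs : ∀ s : Bool, ∃ b ∈ B, b ∈ α s := by
    intro s
    cases s
    · exact h1
    · exact h2
  by_cases hM : ∀ S : Finset (V ⊕ Bool), S.card < 2 →
      SIn (R2 G B α) (↑S : Set (V ⊕ Bool))ᶜ (Sum.inl '' (B ∩ X)) (Set.range Sum.inr)
  · left
    obtain ⟨P, hd, hP⟩ := Pool.Agent.LD6.mengerK 2 _ _ _ hM
    have hw : ∀ i, ∃ s : Bool, Sum.inr s ∈ P i ∧ ∃ T : Set V, T ⊆ B ∧
        (∀ w ∈ T, Sum.inl w ∈ P i) ∧ Cn G T ∧ (T ∩ X).Nonempty ∧ (T ∩ α s).Nonempty := by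
      intro i
      obtain ⟨_, ⟨z, ⟨hzB, hzX⟩, rfl⟩, _, ⟨s, rfl⟩, hW⟩ := hP i
      obtain ⟨T, t1, t2, t3, t4, t5⟩ := R2_walk hzB hW
      exact ⟨s, hW.right, T, t1, t2, t3, ⟨z, t4, hzX⟩, t5⟩
    obtain ⟨s0, p0, T0, b0, q0, c0, x0, a0⟩ := hw 0
    obtain ⟨s1, p1, T1, b1, q1, c1, x1, a1⟩ := hw 1
    have hdis : Disjoint T0 T1 := by
      rw [Set.disjoint_left]
      intro w hw0 hw1
      exact Set.disjoint_left.1 (hd 0 1 (by decide)) (q0 w hw0) (q1 w hw1)
    have hne : s0 ≠ s1 := by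
      rintro rfl
      exact Set.disjoint_left.1 (hd 0 1 (by decide)) p0 p1
    cases s0 with
    | false =>
      cases s1 with
      | false => exact absurd rfl hne
      | true => exact ⟨T0, T1, b0, b1, hdis, c0, c1, x0, a0, x1, a1⟩
    | true =>
      cases s1 with
      | true => exact absurd rfl hne
      | false => exact ⟨T1, T0, b1, b0, hdis.symm, c1, c0, x1, a1, x0, a0⟩
  · right
    push Not at hM
    obtain ⟨S, hS, hno⟩ := hM
    obtain h0 | h0 : S.card = 0 ∨ S.card = 1 := by omega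
    · exfalso
      rw [Finset.card_eq_zero] at h0
      subst h0
      obtain ⟨y, hyB, hy⟩ := hs false
      exact hno (R2_of (le_refl B) hB hxB hxX hyB hy (by simp) (by simp))
    · obtain ⟨c, rfl⟩ := Finset.card_eq_one.1 h0
      cases c with
      | inr s =>
        exfalso
        obtain ⟨y, hyB, hy⟩ := hs (!s)
        exact hno (R2_of (le_refl B) hB hxB hxX hyB hy (by cases s <;> simp) (by simp))
      | inl c =>
        have key : ∀ T : Set V, T ⊆ B → Cn G T → (T ∩ X).Nonempty →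
            (T ∩ (α1 ∪ α2)).Nonempty → c ∈ T := by
          rintro T hTB hT ⟨z, hzT, hzX⟩ ⟨y, hyT, hy⟩
          by_contra hc
          have hy' : ∃ s : Bool, y ∈ α s := by
            rcases hy with hy | hy
            · exact ⟨false, hy⟩
            · exact ⟨true, hy⟩
          obtain ⟨s, hys⟩ := hy'
          refine hno (R2_of hTB hT hzT hzX hyT hys (by simp) ?_)
          intro w hw h
          rw [Finset.mem_singleton, Sum.inl.injEq] at h
          exact hc (h ▸ hw)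
        obtain ⟨y, hyB, hy⟩ := hs false
        exact ⟨c, key B (le_refl B) hB ⟨x, hxB, hxX⟩ ⟨y, hyB, Or.inl hy⟩, key⟩

end Pool.Agent.LR5
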